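import Mathlib

/-!
# Problem MP_943ece_an: frozen arithmetic definitions and statements (Parts II, III, IV)

Paper proof: /team-store/HOROCYCLE_paper.md, sections II, III, IV.
-/

open Finset

namespace Horo

/-! ## Part II: the sign pattern and good `m` -/

/-- `s_K(r) = (-1)^(∑_{j<K} ⌊(r - j n)/m⌋)` (integer division is floor division for `m > 0`). -/
def sK (m : ℕ) (n : ℤ) (K : ℕ) (r : ℤ) : ℤˣ :=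
  Int.negOnePow (∑ j ∈ Finset.range K, (r - j * n) / m)

/-- number of residues `0 ≤ r < m` where `f r = u` -/
def cnt (m : ℕ) (f : ℤ → ℤˣ) (u : ℤˣ) : ℕ :=
  ((Finset.range m).filter (fun r : ℕ => f (r : ℤ) = u)).card

/-- `D(K)`: size of the minority sign of `s_K` over one period. -/
def Dm (m : ℕ) (n : ℤ) (K : ℕ) : ℕ := min (cnt m (sK m n K) 1) (cnt m (sK m n K) (-1))

/-- the sign pattern of a near return -/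
structure GoodData (θ ys η η3 : ℝ) (m : ℕ) (n n1 : ℤ) (E : ℤ → ℤˣ) : Prop where
  pos : 0 < m
  cop : IsCoprime (m : ℤ) n
  slope : |(n : ℝ) - m * θ - 1| ≤ 1 / 10
  near : |(m : ℝ) * ys - 2 * n1| ≤ η3
  per : ∀ r, E (r + m) = E r
  step : ∀ r, E (r + n) = E r * (if r % (m : ℤ) < 2 * n1 then -1 else 1)
  few : (cnt m E (-1) : ℝ) ≤ η * m

/-- `m` is good (with its `n`) -/
def Good (θ ys η η3 : ℝ) (m : ℕ) (n : ℤ) : Prop := ∃ n1 E, GoodData θ ys η η3 m n n1 E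

/-- Diophantine properties of `θ` and `ys` -/
structure Dioph (θ ys c : ℝ) : Prop where
  pos : 0 < c
  theta : ∀ q : ℤ, q ≠ 0 → ∀ p : ℤ, c / |(q : ℝ)| ^ 3 ≤ |(q : ℝ) * θ - p|
  pair : ∀ M : ℤ, M ≠ 0 → ∀ N : ℤ, c / |(M : ℝ)| ^ 6 ≤ |ys + 2 * N - 2 * M * θ|

/-- elementary properties of `s_K` -/
def Stmt_SK : Prop := ∀ (m : ℕ) (n : ℤ), 0 < m →
  (∀ K K' r, sK m n (K + K') r = sK m n K r * sK m n K' (r - K * n)) ∧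
  (∀ K r, sK m n K r * sK m n K (r - n)
      = Int.negOnePow (r / m) * Int.negOnePow ((r - K * n) / m)) ∧
  (∀ M r, sK m n (2 * M) (r + m) = sK m n (2 * M) r)

def Stmt_CntShift : Prop := ∀ (m : ℕ) (f : ℤ → ℤˣ), 0 < m → (∀ r, f (r + m) = f r) →
  ∀ a u, cnt m (fun r => f (r + a)) u = cnt m f u

/-- (B1) gap lemma -/
def Stmt_Gap : Prop := ∀ (m : ℕ) (n : ℤ) (M1 : ℕ) (g : ℝ), 0 < m →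
  (∀ j j' : ℕ, j < 2 * M1 → j' < 2 * M1 → j ≠ j' → ∀ k : ℤ,
    g ≤ |((j : ℝ) - j') * n - k * m|) →
  (M1 : ℝ) * g ≤ Dm m n (2 * M1)

/-- the cluster structure of `s_{2aq}` when `q n = p m + d` (used in (B2)):
`Z = {r : s_{2aq}(r) ≠ (-1)^{aqp}}` has exactly `a q |d|` elements per period and every window of
`T` cells contains at most `a |d|` of them. -/
def Stmt_Cluster : Prop := ∀ (m : ℕ) (n : ℤ) (q a T : ℕ) (p d : ℤ), 0 < m → 0 < q → 0 < a →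
  (q : ℤ) * n = p * m + d → d ≠ 0 → 2 * a * |d| + T ≤ m →
  (∀ j j' : ℕ, j < q → j' < q → j ≠ j' → ∀ k : ℤ,
    2 * a * |d| + T ≤ |((j : ℤ) - j') * n - k * m|) →
  (cnt m (sK m n (2 * (a * q))) (-(Int.negOnePow (a * q * p))) : ℤ) = a * q * |d| ∧
  ∀ x : ℤ, ((((Finset.range T).filter (fun i : ℕ =>
    sK m n (2 * (a * q)) (x + i) = -(Int.negOnePow (a * q * p)))).card : ℕ) : ℤ) ≤ a * |d|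

/-- (B2) chain step -/
def Stmt_ChainStep : Prop := ∀ (m : ℕ) (n : ℤ) (M : ℕ) (η : ℝ), 0 < m → IsCoprime (m : ℤ) n →
  1 ≤ M → 2 * M ≤ m → 0 < η → η ≤ 1 / 100 → (Dm m n (2 * M) : ℝ) ≤ η * m →
  ∃ (q : ℕ) (p a : ℤ), 1 ≤ q ∧ q < 2 * M ∧ IsCoprime (q : ℤ) p ∧
    2 * (M : ℝ) * |(q : ℝ) * n / m - p| < 4 * η ∧
    |(M : ℝ) - a * q| ≤ 6 * η * q ∧
    Dm m n (2 * ((M : ℤ) - a * q).natAbs) ≤ Dm m n (2 * M)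

/-- from a good `m` to the pair `(M, N)` -/
def Stmt_Top : Prop := ∀ (θ ys η η3 : ℝ) (m : ℕ) (n n1 : ℤ) (E : ℤ → ℤˣ),
  GoodData θ ys η η3 m n n1 E → 0 < ys → ys < 1 / 2 → η3 ≤ ys / 2 →
  ∃ M N : ℤ, M ≠ 0 ∧ 2 * |M| ≤ m ∧ M * n = n1 + N * m ∧ (Dm m n (2 * M.natAbs) : ℝ) ≤ η * m

/-- `ρ = (M, N)` is a child of `ρ' = (M', N')`. -/
def Child (ys κ : ℝ) (ρ' ρ : ℤ × ℤ) : Prop :=
  ∃ (q : ℕ) (p a : ℤ), 1 ≤ q ∧ IsCoprime (q : ℤ) p ∧ (q : ℝ) < 2 * |(ρ.1 : ℝ)| ∧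
    |(ρ'.1 : ℝ)| ≤ κ * q ∧ |(q : ℝ) * (ys + 2 * ρ.2) - 2 * ρ.1 * p| ≤ κ ∧
    ρ.1 = ρ'.1 + a * q ∧ ρ.2 = ρ'.2 + a * p

/-- `ρ` is reached from `(0,0)` by a finite chain of children. -/
def Chained (ys κ : ℝ) (ρ : ℤ × ℤ) : Prop := Relation.ReflTransGen (Child ys κ) (0, 0) ρ

/-- (B3) every good `m` gives a chained pair -/
def Stmt_Chain : Prop := ∀ (κ η θ ys η3 : ℝ) (m : ℕ) (n : ℤ), 0 < κ → κ ≤ 1 / 100 → η = κ / 10 →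
  0 < ys → ys < 1 / 2 → η3 ≤ ys / 2 → η3 ≤ η → Good θ ys η η3 m n →
  ∃ ρ : ℤ × ℤ, ρ.1 ≠ 0 ∧ 2 * |ρ.1| ≤ m ∧ Chained ys κ ρ ∧
    |(m : ℝ) * (ys + 2 * ρ.2) - 2 * ρ.1 * n| ≤ η3

/-- (B4), first half: number of children directions at scale `Q` -/
def Stmt_Children : Prop := ∀ (ys κ : ℝ) (M' N' : ℤ) (q' : ℕ) (p' : ℤ) (Q : ℕ)
  (V : Finset (ℤ × ℤ)), 0 < κ → κ ≤ 1 / 100 → M' ≠ 0 → 1 ≤ q' → IsCoprime (q' : ℤ) p' →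
  (q' : ℝ) < 2 * |(M' : ℝ)| → |(q' : ℝ) * (ys + 2 * N') - 2 * M' * p'| ≤ κ → 1 ≤ Q →
  (∀ v ∈ V, (Q : ℤ) ≤ v.1 ∧ v.1 < 2 * Q ∧ IsCoprime v.1 v.2 ∧ |(M' : ℝ)| ≤ κ * v.1 ∧
    |(v.1 : ℝ) * (ys + 2 * N') - 2 * M' * v.2| ≤ κ) →
  (V.card : ℝ) ≤ 12 * κ * Q / |(M' : ℝ)|

/-- (B4), second half: number of descendants -/
def Stmt_Desc : Prop := ∀ δ : ℝ, 0 < δ → ∃ κ1 : ℝ, 0 < κ1 ∧ κ1 ≤ 1 / 100 ∧ ∀ κ : ℝ, 0 < κ →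
  κ ≤ κ1 → ∀ (ys : ℝ) (ρ' : ℤ × ℤ) (q' : ℕ) (p' : ℤ), ρ'.1 ≠ 0 → 1 ≤ q' → IsCoprime (q' : ℤ) p' →
  (q' : ℝ) < 2 * |(ρ'.1 : ℝ)| → |(q' : ℝ) * (ys + 2 * ρ'.2) - 2 * ρ'.1 * p'| ≤ κ →
  ∀ (X : ℝ), |(ρ'.1 : ℝ)| ≤ X → ∀ V : Finset (ℤ × ℤ),
  (∀ ρ ∈ V, Relation.ReflTransGen (Child ys κ) ρ' ρ ∧ |(ρ.1 : ℝ)| ≤ X) →
  (V.card : ℝ) ≤ 2 * (X / |(ρ'.1 : ℝ)|) ^ (1 + δ)

/-- (B5) + first part of (B6): going down the chain to scale `S^{3/4}` -/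
def Stmt_FirstIndex : Prop := ∀ (κ θ ys c : ℝ), 0 < κ → κ ≤ 1 / 100 → 0 < ys → ys < 1 / 2 →
  Dioph θ ys c → ∃ C : ℝ, 0 < C ∧ ∀ (S : ℝ), 1 ≤ S → ∀ ρ : ℤ × ℤ, Chained ys κ ρ →
  S ≤ |(ρ.1 : ℝ)| → |(ρ.1 : ℝ)| < 2 * S → |ys + 2 * ρ.2 - 2 * ρ.1 * θ| ≤ 2 →
  ∃ ρ' : ℤ × ℤ, Chained ys κ ρ' ∧ Relation.ReflTransGen (Child ys κ) ρ' ρ ∧
    |(ρ'.1 : ℝ)| ≤ S ^ (3 / 4 : ℝ) ∧ |ys + 2 * ρ'.2 - 2 * ρ'.1 * θ| ≤ C * S ^ (-(1 / 4) : ℝ)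

/-- (B6) number of chained pairs at scale `S` -/
def Stmt_AS : Prop := ∃ κ : ℝ, 0 < κ ∧ κ ≤ 1 / 100 ∧ ∀ (θ ys c : ℝ), 0 < ys → ys < 1 / 2 →
  Dioph θ ys c → ∃ C : ℝ, 0 < C ∧ ∀ (S : ℝ), 1 ≤ S → ∀ V : Finset (ℤ × ℤ),
  (∀ ρ ∈ V, Chained ys κ ρ ∧ S ≤ |(ρ.1 : ℝ)| ∧ |(ρ.1 : ℝ)| < 2 * S ∧
    |ys + 2 * ρ.2 - 2 * ρ.1 * θ| ≤ 2) →
  (V.card : ℝ) ≤ C * S ^ (1 - 1 / 48 : ℝ)

/-- (B7)+(B8): Part II, good `m` are sparse -/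
def Stmt_Sparse : Prop := ∃ η : ℝ, 0 < η ∧ η ≤ 1 / 1000 ∧ ∀ (θ ys c η3 : ℝ), 0 < ys → ys < 1 / 2 →
  0 < η3 → η3 ≤ ys / 2 → η3 ≤ η → Dioph θ ys c → ∃ C : ℝ, 0 < C ∧ ∀ (S : ℕ), 1 ≤ S →
  ∀ V : Finset ℕ, (∀ m ∈ V, S ≤ m ∧ m < 2 * S ∧ ∃ n : ℤ, Good θ ys η η3 m n) →
  (V.card : ℝ) ≤ C * (S : ℝ) ^ (1 - 1 / 336 : ℝ)

/-! ## Part III: the cocycle -/

/-- the function `G` (integral of the sign function `g`) -/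
structure Coc (θ ys a2 : ℝ) (G : ℝ → ℝ) : Prop where
  zero : G 0 = 0
  lip : ∀ x y, |G x - G y| ≤ |x - y|
  per : ∀ y, G (y + 1) = G y + a2
  wall : ∀ y, 0 ≤ y → y ≤ ys → G (y + θ) + G y = G θ
  gap : ∀ y, ys ≤ y → y ≤ 1 → G (y + θ) - G y = G (1 + θ) - G 1

/-- Part III -/
def Stmt_Constr : Prop := ∀ η2 : ℝ, 0 < η2 → ∃ (θ ys c a2 : ℝ) (G : ℝ → ℝ),
  0 < θ ∧ θ < 1 / 4 ∧ 0 < ys ∧ ys < 1 / 4 ∧ Dioph θ ys c ∧ Coc θ ys a2 G ∧ 1 - 2 * η2 ≤ a2 ∧ a2 ≤ 1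

/-! ## Part IV: choice of the scales -/

/-- the return set -/
def RSet (θ ys η η3 : ℝ) : Set ℝ :=
  {ρ | ∃ (m : ℕ) (n : ℤ), Good θ ys η η3 m n ∧ ρ = (m : ℝ) / (n - m * θ)}

/-- sparsity of a set of real numbers -/
def SparseSet (R : Set ℝ) : Prop := ∃ C : ℝ, 0 < C ∧ ∀ (S : ℕ), 1 ≤ S → ∀ V : Finset ℝ,
  (∀ x ∈ V, x ∈ R ∧ (S : ℝ) ≤ x ∧ x ≤ 2 * S) → (V.card : ℝ) ≤ C * (S : ℝ) ^ (1 - 1 / 336 : ℝ)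

/-- Part IV -/
def Stmt_Scales : Prop := ∀ (B : ℕ) [NeZero B], 337 ≤ B → ∀ R : Set ℝ, SparseSet R →
  ∃ r : ZMod B → ℝ, (∀ j, 1 ≤ r j ∧ r j ≤ 1.01) ∧ Function.Injective r ∧
    ∃ S1 : ℝ, ∀ s : ℝ, S1 ≤ s → ¬ ∀ j, ∃ ρ ∈ R, |s * r j - ρ| ≤ 1

/-- from Part II to the return set -/
def Stmt_RSparse : Prop := ∃ η : ℝ, 0 < η ∧ η ≤ 1 / 1000 ∧ ∀ (θ ys c η3 : ℝ), 0 < ys →
  ys < 1 / 2 → 0 < η3 → η3 ≤ ys / 2 → η3 ≤ η → Dioph θ ys c → SparseSet (RSet θ ys η η3)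

end Horo
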