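import Pool.Agent.Horo.ADefs

/-! # (B6): number of chained pairs at scale `S` -/

open Finset

namespace Horo

theorem as_summable (e : ℝ) (he : 1 < e) : Summable fun j : ℕ => ((j : ℝ) + 1) ^ (-e) := by
  have h := (Real.summable_nat_rpow (p := -e)).2 (by linarith)
  have h2 := (summable_nat_add_iff 1).2 h
  refine h2.congr fun j => ?_
  push_cast
  rfl

/-- sum over separated points, one sign -/
theorem as_sum_one {ι : Type*} (e L g : ℝ) (he : 1 < e) (hL : 0 < L) (hg : 0 < g) (W : Finset ι)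
    (f : ι → ℝ) (hW : ∀ i ∈ W, L ≤ f i)
    (hsep : ∀ i ∈ W, ∀ j ∈ W, i ≠ j → g ≤ |f i - f j|) :
    ∑ i ∈ W, (f i) ^ (-e) ≤ L ^ (-e) + g ^ (-e) * ∑' j : ℕ, ((j : ℝ) + 1) ^ (-e) := by
  classical
  let h : ℕ → ℝ := fun j => if j = 0 then L ^ (-e) else (g * j) ^ (-e)
  have h0 : h 0 = L ^ (-e) := if_pos rfl
  have hsucc : ∀ j : ℕ, h (j + 1) = g ^ (-e) * ((j : ℝ) + 1) ^ (-e) := by
    intro j
    have h1 : h (j + 1) = (g * ((j + 1 : ℕ) : ℝ)) ^ (-e) := if_neg (by omega)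
    rw [h1]
    push_cast
    rw [Real.mul_rpow hg.le (by positivity)]
  have hnn : ∀ j, 0 ≤ h j := by
    intro j
    rcases Nat.eq_zero_or_pos j with rfl | hj
    · rw [h0]
      positivity
    · obtain ⟨k, rfl⟩ : ∃ k, j = k + 1 := ⟨j - 1, by omega⟩
      rw [hsucc]
      positivity
  have hs1 : Summable fun j : ℕ => h (j + 1) := by
    simp_rw [hsucc]
    exact (as_summable e he).mul_left _
  have hs : Summable h := (summable_nat_add_iff 1).1 hs1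
  have htsum : ∑' j, h j = L ^ (-e) + g ^ (-e) * ∑' j : ℕ, ((j : ℝ) + 1) ^ (-e) := by
    rw [hs.tsum_eq_zero_add, h0]
    simp_rw [hsucc]
    rw [tsum_mul_left]
  rw [← htsum]
  let φ : ι → ℕ := fun i => ⌊f i / g⌋₊
  have hfpos : ∀ i ∈ W, 0 < f i := fun i hi => lt_of_lt_of_le hL (hW i hi)
  have hle : ∀ i ∈ W, (φ i : ℝ) ≤ f i / g := fun i hi =>
    Nat.floor_le (div_nonneg (hfpos i hi).le hg.le)
  have hlt : ∀ i ∈ W, f i / g < φ i + 1 := fun i _ => Nat.lt_floor_add_one _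
  have hinj : Set.InjOn φ W := by
    intro i hi j hj hij
    by_contra hne
    have h1 := hsep i hi j hj hne
    have a1 := hle i hi
    have a2 := hlt i hi
    have a3 := hle j hj
    have a4 := hlt j hj
    rw [hij] at a1 a2
    have h2 : |f i / g - f j / g| < 1 := by
      rw [abs_lt]
      constructor <;> linarith
    rw [← sub_div, abs_div, abs_of_pos hg, div_lt_one hg] at h2
    linarith
  calc ∑ i ∈ W, (f i) ^ (-e) ≤ ∑ i ∈ W, h (φ i) := by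
        refine Finset.sum_le_sum fun i hi => ?_
        rcases Nat.eq_zero_or_pos (φ i) with h1 | h1
        · rw [h1, h0]
          exact Real.rpow_le_rpow_of_nonpos hL (hW i hi) (by linarith)
        · have h2 : h (φ i) = (g * φ i) ^ (-e) := if_neg (by omega)
          rw [h2]
          refine Real.rpow_le_rpow_of_nonpos (by positivity) ?_ (by linarith)
          have := hle i hi
          rw [le_div_iff₀ hg] at this
          linarith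
    _ = ∑ j ∈ W.image φ, h j := (Finset.sum_image hinj).symm
    _ ≤ ∑' j, h j := hs.sum_le_tsum _ fun j _ => hnn j

/-- sum over separated points, both signs -/
theorem as_sum (e L g : ℝ) (he : 1 < e) (hL : 0 < L) (hg : 0 < g) (W : Finset (ℤ × ℤ))
    (hW : ∀ i ∈ W, L ≤ |(i.1 : ℝ)|)
    (hsep : ∀ i ∈ W, ∀ j ∈ W, i ≠ j → g ≤ |(i.1 : ℝ) - j.1|) :
    ∑ i ∈ W, |(i.1 : ℝ)| ^ (-e) ≤
      2 * (L ^ (-e) + g ^ (-e) * ∑' j : ℕ, ((j : ℝ) + 1) ^ (-e)) := by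
  classical
  rw [← Finset.sum_filter_add_sum_filter_not W (fun i => 0 ≤ i.1), two_mul]
  refine add_le_add ?_ ?_
  · refine le_trans (Finset.sum_le_sum fun i hi => le_of_eq ?_)
      (as_sum_one e L g he hL hg (W.filter fun i => 0 ≤ i.1) (fun i => (i.1 : ℝ)) ?_ ?_)
    · have h1 : 0 ≤ i.1 := (Finset.mem_filter.1 hi).2
      have h2 : (0 : ℝ) ≤ i.1 := by exact_mod_cast h1
      rw [abs_of_nonneg h2]
    · intro i hi
      have h1 : 0 ≤ i.1 := (Finset.mem_filter.1 hi).2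
      have h2 : (0 : ℝ) ≤ i.1 := by exact_mod_cast h1
      have := hW i (Finset.mem_filter.1 hi).1
      rwa [abs_of_nonneg h2] at this
    · intro i hi j hj hij
      exact hsep i (Finset.mem_filter.1 hi).1 j (Finset.mem_filter.1 hj).1 hij
  · refine le_trans (Finset.sum_le_sum fun i hi => le_of_eq ?_)
      (as_sum_one e L g he hL hg (W.filter fun i => ¬ 0 ≤ i.1) (fun i => -(i.1 : ℝ)) ?_ ?_)
    · have h1 : ¬ 0 ≤ i.1 := (Finset.mem_filter.1 hi).2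
      have h2 : (i.1 : ℝ) < 0 := by exact_mod_cast (not_le.1 h1)
      rw [abs_of_neg h2]
    · intro i hi
      have h1 : ¬ 0 ≤ i.1 := (Finset.mem_filter.1 hi).2
      have h2 : (i.1 : ℝ) < 0 := by exact_mod_cast (not_le.1 h1)
      have := hW i (Finset.mem_filter.1 hi).1
      rwa [abs_of_neg h2] at this
    · intro i hi j hj hij
      have := hsep i (Finset.mem_filter.1 hi).1 j (Finset.mem_filter.1 hj).1 hij
      have h3 : -(i.1 : ℝ) - -(j.1 : ℝ) = -((i.1 : ℝ) - j.1) := by ring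
      rwa [h3, abs_neg]

/-- trivial bound for small `S` -/
theorem as_small (θ ys S0 : ℝ) (hys : 0 < ys) (hys2 : ys < 1 / 2) : ∃ C : ℝ, 0 < C ∧
    ∀ (S : ℝ), 1 ≤ S → S ≤ S0 → ∀ V : Finset (ℤ × ℤ),
    (∀ ρ ∈ V, |(ρ.1 : ℝ)| < 2 * S ∧ |ys + 2 * ρ.2 - 2 * ρ.1 * θ| ≤ 2) →
    (V.card : ℝ) ≤ C := by
  classical
  let B1 : ℤ := ⌈2 * S0⌉
  let B2 : ℤ := ⌈2 + 2 * S0 * |θ|⌉
  let T : Finset (ℤ × ℤ) := Finset.Icc (-B1) B1 ×ˢ Finset.Icc (-B2) B2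
  refine ⟨(T.card : ℝ) + 1, by positivity, ?_⟩
  intro S hS1 hS0 V hV
  have hsub : V ⊆ T := by
    intro ρ hρ
    obtain ⟨h1, h2⟩ := hV ρ hρ
    have h3 : |(ρ.1 : ℝ)| ≤ 2 * S0 := by linarith
    have h4 : |(ρ.2 : ℝ)| ≤ 2 + 2 * S0 * |θ| := by
      have h5 : (2 : ℝ) * ρ.2 = (ys + 2 * ρ.2 - 2 * ρ.1 * θ) - ys + 2 * (ρ.1 * θ) := by ring
      have h6 : |(ρ.1 : ℝ) * θ| ≤ 2 * S0 * |θ| := by
        rw [abs_mul]
        exact mul_le_mul_of_nonneg_right h3 (abs_nonneg _)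
      have h7 : |(2 : ℝ) * ρ.2| ≤ 2 + ys + 2 * (2 * S0 * |θ|) := by
        rw [h5]
        have h8 := abs_add_le ((ys + 2 * (ρ.2 : ℝ) - 2 * ρ.1 * θ) - ys) (2 * (ρ.1 * θ))
        have h9 := abs_sub (ys + 2 * (ρ.2 : ℝ) - 2 * ρ.1 * θ) ys
        have h10 : |(2 : ℝ) * (ρ.1 * θ)| = 2 * |(ρ.1 : ℝ) * θ| := by
          rw [abs_mul, abs_of_pos (by norm_num : (0 : ℝ) < 2)]
        rw [abs_of_pos hys] at h9
        rw [h10] at h8
        linarith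
      rw [abs_mul, abs_of_pos (by norm_num : (0 : ℝ) < 2)] at h7
      linarith
    have h5 : |(ρ.1 : ℝ)| ≤ (B1 : ℝ) := h3.trans (Int.le_ceil _)
    have h6 : |(ρ.2 : ℝ)| ≤ (B2 : ℝ) := h4.trans (Int.le_ceil _)
    rw [abs_le] at h5 h6
    refine Finset.mem_product.2 ⟨Finset.mem_Icc.2 ⟨?_, ?_⟩, Finset.mem_Icc.2 ⟨?_, ?_⟩⟩
    · exact_mod_cast h5.1
    · exact_mod_cast h5.2
    · exact_mod_cast h6.1
    · exact_mod_cast h6.2
  have := Finset.card_le_card hsub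
  have h7 : (V.card : ℝ) ≤ T.card := by exact_mod_cast this
  linarith

theorem hAS (h1 : Stmt_Desc) (h2 : Stmt_FirstIndex) : Stmt_AS := by
  classical
  obtain ⟨κ, hκ0, hκ1, hdesc⟩ := h1 (1 / 48) (by norm_num)
  refine ⟨κ, hκ0, hκ1, ?_⟩
  intro θ ys c hys hys2 hD
  obtain ⟨C1, hC1, hfirst⟩ := h2 κ θ ys c hκ0 hκ1 hys hys2 hD
  have hc := hD.pos
  -- the threshold
  obtain ⟨S0, hS0, hS0'⟩ : ∃ S0 : ℝ, 1 ≤ S0 ∧ ∀ S, S0 ≤ S → C1 * S ^ (-(1 / 4) : ℝ) < ys := by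
    refine ⟨(C1 / ys) ^ 4 + 1, by have : 0 < (C1 / ys) ^ 4 := by positivity
                                  linarith, ?_⟩
    intro S hS
    have hSpos : 0 < S := by
      have : 0 < (C1 / ys) ^ 4 := by positivity
      linarith
    have h3 : C1 / ys < S ^ (1 / 4 : ℝ) := by
      have h4 : ((C1 / ys) ^ 4) ^ (1 / 4 : ℝ) < S ^ (1 / 4 : ℝ) :=
        Real.rpow_lt_rpow (by positivity) (by linarith) (by norm_num)
      have h5 : ((C1 / ys) ^ 4) ^ (1 / 4 : ℝ) = C1 / ys := by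
        rw [← Real.rpow_natCast, ← Real.rpow_mul (by positivity)]
        norm_num
      rwa [h5] at h4
    rw [Real.rpow_neg hSpos.le]
    have h6 : 0 < S ^ (1 / 4 : ℝ) := Real.rpow_pos_of_pos hSpos _
    rw [div_lt_iff₀ hys] at h3
    rw [← div_eq_mul_inv, div_lt_iff₀ h6]
    linarith
  obtain ⟨C0, hC0, hsmall⟩ := as_small θ ys S0 hys hys2
  -- constants
  let E : ℝ := 49 / 48
  let b : ℝ := c / C1
  have hb : 0 < b := by positivity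
  let Z : ℝ := ∑' j : ℕ, ((j : ℝ) + 1) ^ (-E)
  have hZ : 0 ≤ Z := tsum_nonneg fun j => by positivity
  let C2 : ℝ := 2 * 2 ^ E * (2 * (b ^ (-(E / 6)) + b ^ (-(E / 3)) * Z))
  have hC2 : 0 ≤ C2 := by positivity
  refine ⟨C0 + C2, by positivity, ?_⟩
  intro S hS V hV
  have hSpos : 0 < S := by linarith
  have hpow1 : 1 ≤ S ^ (1 - 1 / 48 : ℝ) := Real.one_le_rpow hS (by norm_num)
  rcases le_total S S0 with hSS | hSS
  · have h3 := hsmall S hS hSS V fun ρ hρ => ⟨(hV ρ hρ).2.2.1, (hV ρ hρ).2.2.2⟩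
    calc (V.card : ℝ) ≤ C0 := h3
      _ ≤ (C0 + C2) * 1 := by linarith
      _ ≤ (C0 + C2) * S ^ (1 - 1 / 48 : ℝ) := mul_le_mul_of_nonneg_left hpow1 (by positivity)
  have hyS := hS0' S hSS
  -- choose the intermediate pairs
  have hex : ∀ ρ : ℤ × ℤ, ∃ ρ' : ℤ × ℤ, ρ ∈ V → Chained ys κ ρ' ∧
      Relation.ReflTransGen (Child ys κ) ρ' ρ ∧
      |(ρ'.1 : ℝ)| ≤ S ^ (3 / 4 : ℝ) ∧ |ys + 2 * ρ'.2 - 2 * ρ'.1 * θ| ≤ C1 * S ^ (-(1 / 4) : ℝ) := by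
    intro ρ
    by_cases hρ : ρ ∈ V
    · obtain ⟨a1, a2, a3, a4⟩ := hV ρ hρ
      obtain ⟨ρ', hρ'⟩ := hfirst S hS ρ a1 a2 a3 a4
      exact ⟨ρ', fun _ => hρ'⟩
    · exact ⟨ρ, fun h => absurd h hρ⟩
  choose Fn hFn using hex
  let W : Finset (ℤ × ℤ) := V.image Fn
  have hWp : ∀ ρ' ∈ W, Chained ys κ ρ' ∧ |(ρ'.1 : ℝ)| ≤ S ^ (3 / 4 : ℝ) ∧
      |ys + 2 * ρ'.2 - 2 * ρ'.1 * θ| ≤ C1 * S ^ (-(1 / 4) : ℝ) := by
    intro ρ' hρ'
    obtain ⟨ρ, hρ, rfl⟩ := Finset.mem_image.1 hρ'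
    obtain ⟨a1, a2, a3, a4⟩ := hFn ρ hρ
    exact ⟨a1, a3, a4⟩
  have hWne : ∀ ρ' ∈ W, ρ'.1 ≠ 0 := by
    intro ρ' hρ' h0
    obtain ⟨-, -, h4⟩ := hWp ρ' hρ'
    rw [h0] at h4
    simp only [Int.cast_zero, mul_zero, zero_mul, sub_zero] at h4
    have h5 : |ys + 2 * (ρ'.2 : ℝ)| < ys := lt_of_le_of_lt h4 hyS
    rw [abs_lt] at h5
    have h6 : (ρ'.2 : ℝ) < 0 := by linarith
    have h7 : (-1 : ℝ) < ρ'.2 := by linarith
    have h8 : ρ'.2 < 0 := by exact_mod_cast h6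
    have h9 : -1 < ρ'.2 := by exact_mod_cast h7
    omega
  let L : ℝ := (b * S ^ (1 / 4 : ℝ)) ^ (1 / 6 : ℝ)
  let g : ℝ := (b * S ^ (1 / 4 : ℝ)) ^ (1 / 3 : ℝ)
  have hbS : 0 < b * S ^ (1 / 4 : ℝ) := by positivity
  have hL : 0 < L := Real.rpow_pos_of_pos hbS _
  have hg : 0 < g := Real.rpow_pos_of_pos hbS _
  have hL6 : L ^ 6 = b * S ^ (1 / 4 : ℝ) := by
    show ((b * S ^ (1 / 4 : ℝ)) ^ (1 / 6 : ℝ)) ^ 6 = _
    rw [← Real.rpow_natCast, ← Real.rpow_mul hbS.le]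
    norm_num
  have hg3 : g ^ 3 = b * S ^ (1 / 4 : ℝ) := by
    show ((b * S ^ (1 / 4 : ℝ)) ^ (1 / 3 : ℝ)) ^ 3 = _
    rw [← Real.rpow_natCast, ← Real.rpow_mul hbS.le]
    norm_num
  have hneg : S ^ (-(1 / 4) : ℝ) = (S ^ (1 / 4 : ℝ))⁻¹ := Real.rpow_neg hSpos.le _
  have hS4 : 0 < S ^ (1 / 4 : ℝ) := Real.rpow_pos_of_pos hSpos _
  have hWL : ∀ ρ' ∈ W, L ≤ |(ρ'.1 : ℝ)| := by
    intro ρ' hρ'
    obtain ⟨-, -, h4⟩ := hWp ρ' hρ'
    have h5 := hD.pair ρ'.1 (hWne ρ' hρ') ρ'.2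
    have h6 := h5.trans h4
    have habs : 0 < |(ρ'.1 : ℝ)| := abs_pos.2 (by exact_mod_cast hWne ρ' hρ')
    rw [div_le_iff₀ (by positivity), hneg] at h6
    have h7 : L ^ 6 ≤ |(ρ'.1 : ℝ)| ^ 6 := by
      rw [hL6]
      have h8 : c * S ^ (1 / 4 : ℝ) ≤ C1 * |(ρ'.1 : ℝ)| ^ 6 := by
        have h9 := mul_le_mul_of_nonneg_right h6 hS4.le
        have h10 : C1 * (S ^ (1 / 4 : ℝ))⁻¹ * |(ρ'.1 : ℝ)| ^ 6 * S ^ (1 / 4 : ℝ) =
            C1 * |(ρ'.1 : ℝ)| ^ 6 := by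
          field_simp
        rwa [h10] at h9
      show c / C1 * S ^ (1 / 4 : ℝ) ≤ _
      rw [div_mul_eq_mul_div, div_le_iff₀ hC1]
      linarith
    exact le_of_pow_le_pow_left₀ (by norm_num) (abs_nonneg _) h7
  have hWg : ∀ i ∈ W, ∀ j ∈ W, i ≠ j → g ≤ |(i.1 : ℝ) - j.1| := by
    intro i hi j hj hij
    obtain ⟨-, -, hi4⟩ := hWp i hi
    obtain ⟨-, -, hj4⟩ := hWp j hj
    have h5 : |2 * ((i.1 : ℝ) - j.1) * θ - 2 * ((i.2 : ℝ) - j.2)| ≤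
        2 * (C1 * S ^ (-(1 / 4) : ℝ)) := by
      have h6 : 2 * ((i.1 : ℝ) - j.1) * θ - 2 * ((i.2 : ℝ) - j.2) =
          (ys + 2 * (j.2 : ℝ) - 2 * j.1 * θ) - (ys + 2 * (i.2 : ℝ) - 2 * i.1 * θ) := by ring
      rw [h6]
      have h7 := abs_sub (ys + 2 * (j.2 : ℝ) - 2 * j.1 * θ) (ys + 2 * (i.2 : ℝ) - 2 * i.1 * θ)
      linarith
    have h6 : |((i.1 : ℝ) - j.1) * θ - ((i.2 : ℝ) - j.2)| ≤ C1 * S ^ (-(1 / 4) : ℝ) := by
      have h7 : 2 * ((i.1 : ℝ) - j.1) * θ - 2 * ((i.2 : ℝ) - j.2) =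
          2 * (((i.1 : ℝ) - j.1) * θ - ((i.2 : ℝ) - j.2)) := by ring
      rw [h7, abs_mul, abs_of_pos (by norm_num : (0 : ℝ) < 2)] at h5
      linarith
    have hne : i.1 - j.1 ≠ 0 := by
      intro h0
      have h7 : (i.1 : ℝ) - j.1 = 0 := by exact_mod_cast h0
      rw [h7, zero_mul, zero_sub, abs_neg] at h6
      have h8 : |(i.2 : ℝ) - j.2| < 1 := by linarith
      have h9 : |i.2 - j.2| < 1 := by exact_mod_cast h8
      have h10 : i.2 - j.2 = 0 := Int.abs_lt_one_iff.1 h9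
      exact hij (Prod.ext (by omega) (by omega))
    have h7 := hD.theta (i.1 - j.1) hne (i.2 - j.2)
    push_cast at h7
    have h8 := h7.trans h6
    have habs : 0 < |(i.1 : ℝ) - j.1| := abs_pos.2 (by exact_mod_cast hne)
    rw [div_le_iff₀ (by positivity), hneg] at h8
    have h9 : g ^ 3 ≤ |(i.1 : ℝ) - j.1| ^ 3 := by
      rw [hg3]
      have h9 := mul_le_mul_of_nonneg_right h8 hS4.le
      have h10 : C1 * (S ^ (1 / 4 : ℝ))⁻¹ * |(i.1 : ℝ) - j.1| ^ 3 * S ^ (1 / 4 : ℝ) =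
          C1 * |(i.1 : ℝ) - j.1| ^ 3 := by
        field_simp
      rw [h10] at h9
      show c / C1 * S ^ (1 / 4 : ℝ) ≤ _
      rw [div_mul_eq_mul_div, div_le_iff₀ hC1]
      linarith
    exact le_of_pow_le_pow_left₀ (by norm_num) (abs_nonneg _) h9
  have hE : (1 : ℝ) < E := by
    show (1 : ℝ) < 49 / 48
    norm_num
  have hsum := as_sum E L g hE hL hg W hWL hWg
  -- the fibres
  have hfib : ∀ ρ' ∈ W, (((V.filter fun ρ => Fn ρ = ρ').card : ℕ) : ℝ) ≤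
      2 * (2 * S) ^ E * |(ρ'.1 : ℝ)| ^ (-E) := by
    intro ρ' hρ'
    obtain ⟨hch, hle, -⟩ := hWp ρ' hρ'
    have hne := hWne ρ' hρ'
    have habs : 0 < |(ρ'.1 : ℝ)| := abs_pos.2 (by exact_mod_cast hne)
    rcases Relation.ReflTransGen.cases_tail hch with h0 | ⟨b', hb', q, p, a, hq1, hcop, hq2, -, hL', -, -⟩
    · exact absurd (by rw [h0]) hne
    · have hX : |(ρ'.1 : ℝ)| ≤ 2 * S := by
        have h3 : S ^ (3 / 4 : ℝ) ≤ S ^ (1 : ℝ) := Real.rpow_le_rpow_of_exponent_le hS (by norm_num)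
        rw [Real.rpow_one] at h3
        linarith
      have h3 := hdesc κ hκ0 le_rfl ys ρ' q p hne hq1 hcop hq2 hL' (2 * S) hX
        (V.filter fun ρ => Fn ρ = ρ') ?_
      · have h4 : (1 : ℝ) + 1 / 48 = E := by
          show (1 : ℝ) + 1 / 48 = 49 / 48
          norm_num
        rw [h4] at h3
        refine h3.trans (le_of_eq ?_)
        rw [Real.div_rpow (by positivity) habs.le, Real.rpow_neg habs.le]
        ring
      · intro ρ hρ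
        obtain ⟨hρV, hρF⟩ := Finset.mem_filter.1 hρ
        obtain ⟨-, b2, -, -⟩ := hFn ρ hρV
        rw [hρF] at b2
        exact ⟨b2, (hV ρ hρV).2.2.1.le⟩
  have hcard : (V.card : ℝ) ≤ 2 * (2 * S) ^ E * ∑ ρ' ∈ W, |(ρ'.1 : ℝ)| ^ (-E) := by
    have h3 : V.card = ∑ ρ' ∈ W, (V.filter fun ρ => Fn ρ = ρ').card :=
      Finset.card_eq_sum_card_image Fn V
    rw [h3, Finset.mul_sum]
    push_cast
    exact Finset.sum_le_sum hfib
  have hLE : L ^ (-E) = b ^ (-(E / 6)) * S ^ (-(E / 24)) := by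
    show ((b * S ^ (1 / 4 : ℝ)) ^ (1 / 6 : ℝ)) ^ (-E) = _
    rw [← Real.rpow_mul hbS.le, Real.mul_rpow hb.le hS4.le, ← Real.rpow_mul hSpos.le]
    congr 2 <;> ring
  have hgE : g ^ (-E) = b ^ (-(E / 3)) * S ^ (-(E / 12)) := by
    show ((b * S ^ (1 / 4 : ℝ)) ^ (1 / 3 : ℝ)) ^ (-E) = _
    rw [← Real.rpow_mul hbS.le, Real.mul_rpow hb.le hS4.le, ← Real.rpow_mul hSpos.le]
    congr 2 <;> ring
  have hcmp : S ^ (-(E / 12)) ≤ S ^ (-(E / 24)) :=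
    Real.rpow_le_rpow_of_exponent_le hS (by linarith)
  have hsum2 : ∑ ρ' ∈ W, |(ρ'.1 : ℝ)| ^ (-E) ≤
      2 * (b ^ (-(E / 6)) + b ^ (-(E / 3)) * Z) * S ^ (-(E / 24)) := by
    refine hsum.trans ?_
    rw [hLE, hgE]
    have h3 : b ^ (-(E / 3)) * S ^ (-(E / 12)) * Z ≤ b ^ (-(E / 3)) * S ^ (-(E / 24)) * Z := by
      refine mul_le_mul_of_nonneg_right ?_ hZ
      exact mul_le_mul_of_nonneg_left hcmp (by positivity)
    calc 2 * (b ^ (-(E / 6)) * S ^ (-(E / 24)) + b ^ (-(E / 3)) * S ^ (-(E / 12)) * Z)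
        ≤ 2 * (b ^ (-(E / 6)) * S ^ (-(E / 24)) + b ^ (-(E / 3)) * S ^ (-(E / 24)) * Z) := by
          linarith
      _ = 2 * (b ^ (-(E / 6)) + b ^ (-(E / 3)) * Z) * S ^ (-(E / 24)) := by ring
  have hfinal : 2 * (2 * S) ^ E * (2 * (b ^ (-(E / 6)) + b ^ (-(E / 3)) * Z) * S ^ (-(E / 24))) =
      C2 * S ^ (E - E / 24) := by
    have h3 : E - E / 24 = E + -(E / 24) := by ring
    rw [h3, Real.rpow_add hSpos, Real.mul_rpow (by norm_num) hSpos.le]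
    show _ = 2 * 2 ^ E * (2 * (b ^ (-(E / 6)) + b ^ (-(E / 3)) * Z)) * _
    ring
  have hexp : S ^ (E - E / 24) ≤ S ^ (1 - 1 / 48 : ℝ) := by
    refine Real.rpow_le_rpow_of_exponent_le hS ?_
    show (49 / 48 : ℝ) - 49 / 48 / 24 ≤ 1 - 1 / 48
    norm_num
  calc (V.card : ℝ) ≤ 2 * (2 * S) ^ E * ∑ ρ' ∈ W, |(ρ'.1 : ℝ)| ^ (-E) := hcard
    _ ≤ 2 * (2 * S) ^ E * (2 * (b ^ (-(E / 6)) + b ^ (-(E / 3)) * Z) * S ^ (-(E / 24))) :=
        mul_le_mul_of_nonneg_left hsum2 (by positivity)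
    _ = C2 * S ^ (E - E / 24) := hfinal
    _ ≤ C2 * S ^ (1 - 1 / 48 : ℝ) := mul_le_mul_of_nonneg_left hexp hC2
    _ ≤ (C0 + C2) * S ^ (1 - 1 / 48 : ℝ) := by
        refine mul_le_mul_of_nonneg_right (by linarith) (by linarith)

end Horo
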