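import Pool.Agent.Horo.GDefs

/-!
# (A3): a wide cylinder does not meet the slits
-/

open Topology Filter Set

namespace Horo

lemma avoidslit_lat_add (θ : ℝ) (k l k' l' : ℤ) :
    lat θ k l + lat θ k' l' = lat θ (k + k') (l + l') := by
  apply Complex.ext
  · simp [lat]
  · simp [lat]; ring

lemma avoidslit_lat_neg (θ : ℝ) (k l : ℤ) : -lat θ k l = lat θ (-k) (-l) := by
  apply Complex.ext
  · simp [lat]
  · simp [lat]; ring

lemma avoidslit_nonsing_add {θ ys x0 L : ℝ} {z : ℂ} (h : Nonsing θ ys x0 L z) (k l : ℤ) :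
    Nonsing θ ys x0 L (z + lat θ k l) := by
  intro k' l'
  obtain ⟨h1, h2, h3, h4⟩ := h (k' - k) (l' - l)
  have e : lat θ k' l' = lat θ (k' - k) (l' - l) + lat θ k l := by
    rw [avoidslit_lat_add]; congr 1 <;> ring
  refine ⟨?_, ?_, ?_, ?_⟩
  · rw [e]; exact fun hh => h1 (add_right_cancel hh)
  · rw [e, ← add_assoc]; exact fun hh => h2 (add_right_cancel hh)
  · rw [e, ← add_assoc]; exact fun hh => h3 (add_right_cancel hh)
  · rw [e, ← add_assoc]; exact fun hh => h4 (add_right_cancel hh)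

lemma avoidslit_isOpen_strip (h : ℂ) (c1 c2 : ℝ) : IsOpen (Strip h c1 c2) := by
  have hc : Continuous fun ζ : ℂ => ζ.re - h.re / h.im * ζ.im := by fun_prop
  exact (isOpen_Ioo (a := c1) (b := c2)).preimage hc

lemma avoidslit_int_ne (a : ℝ) : ∀ᶠ e : ℝ in 𝓝[≠] 0, ∀ k : ℤ, a + e ≠ k := by
  rw [eventually_nhdsWithin_iff]
  have h1 : ∀ᶠ e : ℝ in 𝓝 0, e < ⌊a⌋ + 1 - a ∧ (⌈a⌉ : ℝ) - 1 - a < e := by
    apply Filter.Eventually.and
    · apply eventually_lt_nhds
      have := Int.lt_floor_add_one a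
      linarith
    · apply eventually_gt_nhds
      have := Int.ceil_lt_add_one a
      linarith
  filter_upwards [h1] with e ⟨he1, he2⟩ hne k hk
  rcases lt_or_gt_of_ne (show e ≠ 0 from hne) with h | h
  · have h2 : a ≤ ⌈a⌉ := Int.le_ceil a
    have h3 : (k : ℝ) < ⌈a⌉ := by linarith
    have h4 : (⌈a⌉ : ℝ) - 1 < k := by linarith
    have h5 : k < ⌈a⌉ := by exact_mod_cast h3
    have h6 : ⌈a⌉ - 1 < k := by exact_mod_cast h4
    omega
  · have h2 : (⌊a⌋ : ℝ) ≤ a := Int.floor_le a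
    have h3 : (⌊a⌋ : ℝ) < k := by linarith
    have h4 : (k : ℝ) < ⌊a⌋ + 1 := by linarith
    have h5 : ⌊a⌋ < k := by exact_mod_cast h3
    have h6 : k < ⌊a⌋ + 1 := by exact_mod_cast h4
    omega

lemma avoidslit_nonsing_near (θ ys x0 L : ℝ) (z : ℂ) :
    ∀ᶠ e : ℝ in 𝓝[≠] 0, Nonsing θ ys x0 L (z + e) := by
  filter_upwards [avoidslit_int_ne z.re, avoidslit_int_ne (z.re - x0),
    avoidslit_int_ne (z.re - (x0 + L))] with e h1 h2 h3 k l
  refine ⟨?_, ?_, ?_, ?_⟩
  · intro hh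
    have := congrArg Complex.re hh
    simp [lat] at this
    exact h1 k (by linarith)
  · intro hh
    have := congrArg Complex.re hh
    simp [lat] at this
    exact h1 k (by linarith)
  · intro hh
    have := congrArg Complex.re hh
    simp [lat] at this
    exact h2 k (by linarith)
  · intro hh
    have := congrArg Complex.re hh
    simp [lat] at this
    exact h3 k (by linarith)

/-- points of the open slit are regular -/
lemma avoidslit_nonsing_slit {θ ys x0 L : ℝ} (hx0 : 0 < x0) (hx0' : x0 < 1 / 100) (hL : 0 < L)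
    (hL' : L < 1 / 100) {u : ℝ} (h1 : x0 < u) (h2 : u < x0 + L) :
    Nonsing θ ys x0 L (⟨u, 0⟩ : ℂ) := by
  intro k l
  have key : ∀ a : ℝ, |u - a| < 1 → u = a + k → k = 0 := by
    intro a ha hk
    have h3 : |(k : ℝ)| < 1 := by rw [show (k : ℝ) = u - a by linarith]; exact ha
    have h4 : |k| < 1 := by exact_mod_cast h3
    exact Int.abs_lt_one_iff.mp h4
  refine ⟨?_, ?_, ?_, ?_⟩
  · intro hh
    have := congrArg Complex.re hh
    simp [lat] at this
    have hk := key 0 (by rw [abs_lt]; constructor <;> linarith) (by linarith)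
    rw [hk] at this
    norm_num at this
    linarith
  · intro hh
    have := congrArg Complex.re hh
    simp [lat] at this
    have hk := key 0 (by rw [abs_lt]; constructor <;> linarith) (by linarith)
    rw [hk] at this
    norm_num at this
    linarith
  · intro hh
    have := congrArg Complex.re hh
    simp [lat] at this
    have hk := key x0 (by rw [abs_lt]; constructor <;> linarith) (by linarith)
    rw [hk] at this
    norm_num at this
    linarith
  · intro hh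
    have := congrArg Complex.re hh
    simp [lat] at this
    have hk := key (x0 + L) (by rw [abs_lt]; constructor <;> linarith) (by linarith)
    rw [hk] at this
    norm_num at this
    linarith

theorem hAvoidSlit (hH : Stmt_Hor) : Stmt_AvoidSlit := by
  intro B _ r θ ys x0 L t a2 s G S hr hG hθ hθ' hys hys' hx0 hx0' hL hL' ht ht' h c1 c2 Ψ hh hw
    hΨ ζ hζ j σ z hz hj hslit
  obtain ⟨k, l, hk1, hk2, hk3⟩ := hslit
  have hop := avoidslit_isOpen_strip h c1 c2
  have hHor := hH B r θ ys x0 L t a2 s G S hr hG hθ hθ' hys hys' hx0 hx0' hL hL' ht ht'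
    (Strip h c1 c2) Ψ hop hΨ
  -- every point of the strip is a regular point
  have hreg : ∀ ζ' ∈ Strip h c1 c2, ∃ j' σ' z', Nonsing θ ys x0 L z' ∧ S.pt j' σ' z' = Ψ ζ' := by
    intro ζ' hζ'
    exact S.surj _ (hΨ.2 ζ' hζ').1
  -- normalise the slit point
  set x : ℝ := (z - lat θ k l).re with hx
  have hz0 : z - lat θ k l = ⟨x, 0⟩ := Complex.ext rfl hk3
  have hz1 : z = ⟨x, 0⟩ + lat θ k l := by rw [← hz0]; ring
  have hjx : Ψ ζ = S.pt j σ ⟨x, 0⟩ := by rw [hj, hz1, S.per]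
  have hxne0 : x ≠ x0 := by
    intro hx0eq
    exact (hz k l).2.2.1 (by rw [hz1, hx0eq])
  have hxneL : x ≠ x0 + L := by
    intro hx0eq
    exact (hz k l).2.2.2 (by rw [hz1, hx0eq])
  have hxl : x0 < x := lt_of_le_of_ne hk1 (Ne.symm hxne0)
  have hxr : x < x0 + L := lt_of_le_of_ne hk2 hxneL
  -- the horizontal slice
  set q : ℝ := ζ.re - h.re / h.im * ζ.im with hq
  have hmem : ∀ u : ℝ, ζ + ((u - x : ℝ) : ℂ) ∈ Strip h c1 c2 ↔ c1 < q + (u - x) ∧ q + (u - x) < c2 := by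
    intro u
    show c1 < (ζ + ((u - x : ℝ) : ℂ)).re - h.re / h.im * (ζ + ((u - x : ℝ) : ℂ)).im ∧ _ ↔ _
    have e1 : (ζ + ((u - x : ℝ) : ℂ)).re - h.re / h.im * (ζ + ((u - x : ℝ) : ℂ)).im = q + (u - x) := by
      simp [hq]; ring
    rw [e1]
  have hq1 : c1 < q ∧ q < c2 := hζ
  -- local statements
  have locA : ∀ u : ℝ, x0 < u → u < x0 + L → ζ + ((u - x : ℝ) : ℂ) ∈ Strip h c1 c2 →
      (∃ᶠ e : ℝ in 𝓝[≠] 0, Ψ (ζ + ((u - x : ℝ) : ℂ) + e) = S.pt j σ ((⟨u, 0⟩ : ℂ) + e)) →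
      Ψ (ζ + ((u - x : ℝ) : ℂ)) = S.pt j σ ⟨u, 0⟩ := by
    intro u hu1 hu2 hmemu hfreq
    obtain ⟨j', σ', z', hz', hjz'⟩ := hreg _ hmemu
    have hev := (hHor _ hmemu j' σ' z' hz' hjz'.symm).filter_mono (nhdsWithin_le_nhds (s := {0}ᶜ))
    obtain ⟨e, he⟩ := (hfreq.and_eventually (hev.and ((avoidslit_nonsing_near θ ys x0 L z').and
      (avoidslit_nonsing_near θ ys x0 L ⟨u, 0⟩)))).exists
    obtain ⟨he1, ⟨hc1, hc2, σ'', hc3⟩, hn1, hn2⟩ := he
    rw [hc3] at he1
    obtain ⟨hjj, hss, a, b, hab⟩ := S.inj _ _ _ _ _ _ hn1 hn2 he1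
    have hz'' : (⟨u, 0⟩ : ℂ) = z' + lat θ a b := by
      have : (⟨u, 0⟩ : ℂ) + e = z' + lat θ a b + e := by rw [hab]; ring
      exact add_right_cancel this
    have hre : z'.re ≠ ⌊z'.re⌋ := by
      intro hf
      have h1 := congrArg Complex.re hz''
      simp [lat] at h1
      have h2 : u = ((⌊z'.re⌋ + a : ℤ) : ℝ) := by push_cast; rw [← hf]; exact h1
      have h3 : (0 : ℝ) < ((⌊z'.re⌋ + a : ℤ) : ℝ) := by rw [← h2]; linarith
      have h4 : ((⌊z'.re⌋ + a : ℤ) : ℝ) < 1 := by rw [← h2]; linarith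
      have h5 : 0 < ⌊z'.re⌋ + a := by exact_mod_cast h3
      have h6 : ⌊z'.re⌋ + a < 1 := by exact_mod_cast h4
      omega
    have h7 := hc2 hre
    rw [hc3] at h7
    obtain ⟨-, hss', -⟩ := S.inj _ _ _ _ _ _ hn1 hn1 h7
    rw [← hjz', ← hjj, ← hss, hz'', S.per, hss']
  have locB : ∀ u : ℝ, x0 < u → u < x0 + L → ζ + ((u - x : ℝ) : ℂ) ∈ Strip h c1 c2 →
      Ψ (ζ + ((u - x : ℝ) : ℂ)) = S.pt j σ ⟨u, 0⟩ →
      ∀ᶠ e : ℝ in 𝓝 0, Ψ (ζ + ((u - x : ℝ) : ℂ) + e) = S.pt j σ ((⟨u, 0⟩ : ℂ) + e) := by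
    intro u hu1 hu2 hmemu hp
    have hn := avoidslit_nonsing_slit (θ := θ) (ys := ys) hx0 hx0' hL hL' hu1 hu2
    filter_upwards [hHor _ hmemu j σ ⟨u, 0⟩ hn hp] with e he
    refine he.2.1 ?_
    show u ≠ ⌊u⌋
    intro hf
    have h3 : (0 : ℝ) < (⌊u⌋ : ℝ) := by rw [← hf]; linarith
    have h4 : (⌊u⌋ : ℝ) < 1 := by rw [← hf]; linarith
    have h5 : 0 < ⌊u⌋ := by exact_mod_cast h3
    have h6 : ⌊u⌋ < 1 := by exact_mod_cast h4
    omega
  -- propagation along the open slit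
  set I : Set ℝ := {u | x0 < u ∧ u < x0 + L ∧ c1 < q + (u - x) ∧ q + (u - x) < c2} with hI
  have hIeq : I = Ioo (max x0 (c1 - q + x)) (min (x0 + L) (c2 - q + x)) := by
    ext u
    simp only [hI, mem_setOf_eq, mem_Ioo, max_lt_iff, lt_min_iff]
    constructor
    · rintro ⟨a, b, c, d⟩
      exact ⟨⟨a, by linarith⟩, b, by linarith⟩
    · rintro ⟨⟨a, b⟩, c, d⟩
      exact ⟨a, c, by linarith, by linarith⟩
  have hIconn : IsPreconnected I := by rw [hIeq]; exact isPreconnected_Ioo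
  have hIopen : IsOpen I := by rw [hIeq]; exact isOpen_Ioo
  set P : Set ℝ := {u | u ∈ I ∧ Ψ (ζ + ((u - x : ℝ) : ℂ)) = S.pt j σ ⟨u, 0⟩} with hP
  have hshift : ∀ (u v : ℝ), ζ + ((u - x : ℝ) : ℂ) + ((v - u : ℝ) : ℂ) = ζ + ((v - x : ℝ) : ℂ) := by
    intro u v
    push_cast
    ring
  have hshift' : ∀ (u v : ℝ), (⟨u, 0⟩ : ℂ) + ((v - u : ℝ) : ℂ) = ⟨v, 0⟩ := by
    intro u v
    apply Complex.ext <;> simp
  have hPopen : IsOpen P := by
    rw [isOpen_iff_mem_nhds]
    rintro u ⟨hu, hpu⟩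
    have h1 := locB u hu.1 hu.2.1 ((hmem u).mpr hu.2.2) hpu
    have h2 : Tendsto (fun v : ℝ => v - u) (𝓝 u) (𝓝 0) := by
      have : Continuous fun v : ℝ => v - u := by fun_prop
      simpa using this.tendsto u
    filter_upwards [h2.eventually h1, hIopen.mem_nhds hu] with v hv hvI
    refine ⟨hvI, ?_⟩
    rw [hshift, hshift'] at hv
    exact hv
  have hxP : x ∈ P := by
    refine ⟨⟨hxl, hxr, by linarith, by linarith⟩, ?_⟩
    rw [sub_self]
    simpa using hjx
  have hIP : I ⊆ P := by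
    apply hIconn.subset_of_closure_inter_subset hPopen ⟨x, hxP.1, hxP⟩
    rintro u ⟨hu1, hu2⟩
    by_contra hnot
    apply hnot
    refine ⟨hu2, ?_⟩
    apply locA u hu2.1 hu2.2.1 ((hmem u).mpr hu2.2.2)
    have h1 : ∃ᶠ v in 𝓝[≠] u, v ∈ P := by
      rw [mem_closure_iff_frequently] at hu1
      rw [Filter.frequently_iff] at hu1 ⊢
      intro U hU
      rw [mem_nhdsWithin_iff_exists_mem_nhds_inter] at hU
      obtain ⟨V, hV, hVU⟩ := hU
      obtain ⟨v, hvV, hvP⟩ := hu1 hV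
      exact ⟨v, hVU ⟨hvV, fun hvu => hnot (by rw [← hvu]; exact hvP)⟩, hvP⟩
    have h2 : Tendsto (fun v : ℝ => v - u) (𝓝[≠] u) (𝓝[≠] 0) := by
      apply tendsto_nhdsWithin_of_tendsto_nhds_of_eventually_within
      · have : Continuous fun v : ℝ => v - u := by fun_prop
        have h3 := this.tendsto u
        rw [sub_self] at h3
        exact h3.mono_left nhdsWithin_le_nhds
      · filter_upwards [self_mem_nhdsWithin] with v hv
        exact sub_ne_zero.mpr hv
    apply h2.frequently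
    apply h1.mono
    rintro v ⟨-, hv⟩
    rw [hshift, hshift']
    exact hv
  -- one of the two ends is in the strip
  rcases lt_or_ge c1 (q + (x0 - x)) with hleft | hleft
  · have hmem0 : ζ + ((x0 - x : ℝ) : ℂ) ∈ Strip h c1 c2 := (hmem x0).mpr ⟨hleft, by linarith⟩
    obtain ⟨j', σ', z', hz', hjz'⟩ := hreg _ hmem0
    have hev := (hHor _ hmem0 j' σ' z' hz' hjz'.symm).filter_mono (nhdsWithin_le_nhds (s := Ioi 0))
    have hn1 := (avoidslit_nonsing_near θ ys x0 L z').filter_mono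
      (nhdsWithin_mono 0 (show Ioi (0 : ℝ) ⊆ {0}ᶜ from fun e (he : 0 < e) => he.ne'))
    have hIe : ∀ᶠ e : ℝ in 𝓝[>] 0, x0 + e ∈ I := by
      have h1 : ∀ᶠ e : ℝ in 𝓝 0, e < L ∧ e < c2 - q - x0 + x := by
        apply Filter.Eventually.and (eventually_lt_nhds hL)
        apply eventually_lt_nhds
        linarith
      filter_upwards [h1.filter_mono nhdsWithin_le_nhds, self_mem_nhdsWithin] with e he he0
      have he0' : 0 < e := he0
      exact ⟨by linarith, by linarith [he.1], by linarith, by linarith [he.2]⟩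
    obtain ⟨e, he, hne, heI, he0⟩ := (hev.and (hn1.and (hIe.and self_mem_nhdsWithin))).exists
    have he0' : 0 < e := he0
    have h2 := (hIP heI).2
    have h3 := he.1 he0'.le
    have h4 : ζ + ((x0 - x : ℝ) : ℂ) + (e : ℂ) = ζ + ((x0 + e - x : ℝ) : ℂ) := by push_cast; ring
    rw [h4, h2] at h3
    obtain ⟨-, -, a, b, hab⟩ := S.inj _ _ _ _ _ _
      (avoidslit_nonsing_slit (θ := θ) (ys := ys) hx0 hx0' hL hL' heI.1 heI.2.1) hne h3
    refine (hz' a b).2.2.1 ?_
    have h5 : z' + e = ⟨x0, 0⟩ + lat θ a b + e := by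
      rw [hab]
      apply Complex.ext
      · simp; ring
      · simp
    exact add_right_cancel h5
  · have hright : q + (x0 + L - x) < c2 := by linarith
    have hmem0 : ζ + ((x0 + L - x : ℝ) : ℂ) ∈ Strip h c1 c2 :=
      (hmem (x0 + L)).mpr ⟨by linarith, hright⟩
    obtain ⟨j', σ', z', hz', hjz'⟩ := hreg _ hmem0
    have hev := (hHor _ hmem0 j' σ' z' hz' hjz'.symm).filter_mono (nhdsWithin_le_nhds (s := Iio 0))
    have hn1 := (avoidslit_nonsing_near θ ys x0 L z').filter_mono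
      (nhdsWithin_mono 0 (show Iio (0 : ℝ) ⊆ {0}ᶜ from fun e (he : e < 0) => he.ne))
    have hIe : ∀ᶠ e : ℝ in 𝓝[<] 0, x0 + L + e ∈ I := by
      have h1 : ∀ᶠ e : ℝ in 𝓝 0, -L < e ∧ c1 - q - (x0 + L) + x < e := by
        apply Filter.Eventually.and (eventually_gt_nhds (by linarith))
        apply eventually_gt_nhds
        linarith
      filter_upwards [h1.filter_mono nhdsWithin_le_nhds, self_mem_nhdsWithin] with e he he0
      have he0' : e < 0 := he0
      exact ⟨by linarith [he.1], by linarith, by linarith [he.2], by linarith⟩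
    obtain ⟨e, he, hne, heI, he0⟩ := (hev.and (hn1.and (hIe.and self_mem_nhdsWithin))).exists
    have h2 := (hIP heI).2
    obtain ⟨σ'', h3⟩ := he.2.2
    have h4 : ζ + ((x0 + L - x : ℝ) : ℂ) + (e : ℂ) = ζ + ((x0 + L + e - x : ℝ) : ℂ) := by
      push_cast; ring
    rw [h4, h2] at h3
    obtain ⟨-, -, a, b, hab⟩ := S.inj _ _ _ _ _ _
      (avoidslit_nonsing_slit (θ := θ) (ys := ys) hx0 hx0' hL hL' heI.1 heI.2.1) hne h3
    refine (hz' a b).2.2.2 ?_
    have h5 : z' + e = ⟨x0 + L, 0⟩ + lat θ a b + e := by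
      rw [hab]
      apply Complex.ext
      · simp; ring
      · simp
    exact add_right_cancel h5

end Horo
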