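import Pool.Agent.Horo.CDefs

/-!
# Part III: elementary bounds (`Stmt_Basic`)
-/

open Finset

namespace Horo

lemma cbasic_Ql_pos (b l : ℕ) : 0 < Ql b l := by unfold Ql; positivity

lemma cbasic_Ql_succ (b l : ℕ) : Ql b (l + 1) = Ql b l ^ 3 := by
  unfold Ql
  rw [← pow_mul]
  congr 1
  ring

lemma cbasic_Ql_zero_ge {b : ℕ} (hb : 5 ≤ b) : 32 ≤ Ql b 0 := by
  unfold Ql
  calc 32 = 2 ^ 5 := by norm_num
    _ ≤ 2 ^ (b * 3 ^ 0) := Nat.pow_le_pow_right (by norm_num) (by simpa using hb)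

lemma cbasic_exp_lt {b : ℕ} (hb : 5 ≤ b) {i l : ℕ} (h : i < l) : b * 3 ^ i < b * 3 ^ l := by
  have : 3 ^ i < 3 ^ l := Nat.pow_lt_pow_right (by norm_num) h
  exact Nat.mul_lt_mul_of_pos_left this (by omega)

lemma cbasic_dvd {b : ℕ} {i l : ℕ} (h : i ≤ l) : Ql b i ∣ Ql b l := by
  unfold Ql
  exact pow_dvd_pow 2 (Nat.mul_le_mul_left b (Nat.pow_le_pow_right (by norm_num) h))

lemma cbasic_Ql_ge {b : ℕ} (hb : 5 ≤ b) (l : ℕ) : 32 * 2 ^ l ≤ Ql b l := by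
  induction l with
  | zero => simpa using cbasic_Ql_zero_ge hb
  | succ l ih =>
    rw [cbasic_Ql_succ]
    have h1 : 1 ≤ 2 ^ l := Nat.one_le_two_pow
    have h2 : 2 ≤ Ql b l := by omega
    calc 32 * 2 ^ (l + 1) = 2 * (32 * 2 ^ l) := by ring
      _ ≤ Ql b l * Ql b l := Nat.mul_le_mul h2 ih
      _ ≤ Ql b l ^ 3 := by nlinarith

lemma cbasic_inv_le {b : ℕ} (hb : 5 ≤ b) (l : ℕ) : 1 / (Ql b l : ℝ) ≤ 1 / 32 * (1 / 2) ^ l := by
  have h := cbasic_Ql_ge hb l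
  have h1 : (32 * 2 ^ l : ℝ) ≤ Ql b l := by exact_mod_cast h
  calc 1 / (Ql b l : ℝ) ≤ 1 / (32 * 2 ^ l : ℝ) := one_div_le_one_div_of_le (by positivity) h1
    _ = 1 / 32 * (1 / 2) ^ l := by rw [one_div_pow]; field_simp

lemma cbasic_summable {b : ℕ} (hb : 5 ≤ b) : Summable (fun l => 1 / (Ql b l : ℝ)) := by
  apply Summable.of_nonneg_of_le (fun l => by positivity) (cbasic_inv_le hb)
  exact (summable_geometric_of_lt_one (by norm_num) (by norm_num)).mul_left _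

/-- `ρ_l` is the tail of the series, scaled. -/
lemma cbasic_rho_eq {b : ℕ} (hb : 5 ≤ b) (l : ℕ) :
    rhoB b l = ∑' i : ℕ, (Ql b l : ℝ) * (1 / (Ql b (i + (l + 1)) : ℝ)) := by
  have h1 := (cbasic_summable hb).sum_add_tsum_nat_add (l + 1)
  have hQ : (Ql b l : ℝ) ≠ 0 := by exact_mod_cast (cbasic_Ql_pos b l).ne'
  have h2 : (Pl b l : ℝ) = (Ql b l : ℝ) * ∑ i ∈ range (l + 1), 1 / (Ql b i : ℝ) := by
    unfold Pl
    rw [Nat.cast_sum, Finset.mul_sum]
    apply Finset.sum_congr rfl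
    intro i hi
    rw [Finset.mem_range] at hi
    rw [Nat.cast_div (cbasic_dvd (by omega)) (by exact_mod_cast (cbasic_Ql_pos b i).ne')]
    ring
  unfold rhoB thB
  rw [h2, ← h1, mul_add, add_sub_cancel_left, tsum_mul_left]

/-- consecutive quotients -/
lemma cbasic_term_le {b : ℕ} (hb : 5 ≤ b) (l i : ℕ) :
    (Ql b l : ℝ) * (1 / (Ql b (i + (l + 1)) : ℝ)) ≤ 1 / (Ql b l : ℝ) ^ 2 * (1 / 2) ^ i := by
  have hQ : (0 : ℝ) < Ql b l := by exact_mod_cast cbasic_Ql_pos b l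
  have key : Ql b l ^ 3 * 2 ^ i ≤ Ql b (i + (l + 1)) := by
    induction i with
    | zero => simp [cbasic_Ql_succ]
    | succ i ih =>
      have h1 : i + 1 + (l + 1) = (i + (l + 1)) + 1 := by ring
      rw [h1, cbasic_Ql_succ]
      have h2 := cbasic_Ql_ge hb (i + (l + 1))
      have h3 : 1 ≤ 2 ^ (i + (l + 1)) := Nat.one_le_two_pow
      have h4 : 2 ≤ Ql b (i + (l + 1)) := by omega
      calc Ql b l ^ 3 * 2 ^ (i + 1) = 2 * (Ql b l ^ 3 * 2 ^ i) := by ring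
        _ ≤ Ql b (i + (l + 1)) * Ql b (i + (l + 1)) := Nat.mul_le_mul h4 ih
        _ ≤ Ql b (i + (l + 1)) ^ 3 := by nlinarith
  have key' : (Ql b l : ℝ) ^ 3 * 2 ^ i ≤ Ql b (i + (l + 1)) := by exact_mod_cast key
  calc (Ql b l : ℝ) * (1 / (Ql b (i + (l + 1)) : ℝ))
      ≤ (Ql b l : ℝ) * (1 / ((Ql b l : ℝ) ^ 3 * 2 ^ i)) := by
        apply mul_le_mul_of_nonneg_left _ hQ.le
        exact one_div_le_one_div_of_le (by positivity) key'
    _ = 1 / (Ql b l : ℝ) ^ 2 * (1 / 2) ^ i := by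
        rw [one_div_pow]; field_simp

lemma cbasic_term_summable {b : ℕ} (hb : 5 ≤ b) (l : ℕ) :
    Summable (fun i : ℕ => (Ql b l : ℝ) * (1 / (Ql b (i + (l + 1)) : ℝ))) :=
  ((summable_nat_add_iff (l + 1)).mpr (cbasic_summable hb)).mul_left _

lemma cbasic_rho_ge {b : ℕ} (hb : 5 ≤ b) (l : ℕ) : 1 / (Ql b l : ℝ) ^ 2 ≤ rhoB b l := by
  have hQ : (0 : ℝ) < Ql b l := by exact_mod_cast cbasic_Ql_pos b l
  rw [cbasic_rho_eq hb]
  have h1 := (cbasic_term_summable hb l).sum_le_tsum {0} (fun i _ => by positivity)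
  rw [Finset.sum_singleton, zero_add, cbasic_Ql_succ] at h1
  refine le_trans (le_of_eq ?_) h1
  push_cast
  field_simp

lemma cbasic_rho_le {b : ℕ} (hb : 5 ≤ b) (l : ℕ) : rhoB b l ≤ 2 / (Ql b l : ℝ) ^ 2 := by
  rw [cbasic_rho_eq hb]
  have hg : Summable (fun i : ℕ => 1 / (Ql b l : ℝ) ^ 2 * (1 / 2 : ℝ) ^ i) :=
    (summable_geometric_of_lt_one (by norm_num) (by norm_num)).mul_left _
  calc ∑' i : ℕ, (Ql b l : ℝ) * (1 / (Ql b (i + (l + 1)) : ℝ))
      ≤ ∑' i : ℕ, 1 / (Ql b l : ℝ) ^ 2 * (1 / 2 : ℝ) ^ i :=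
        (cbasic_term_summable hb l).tsum_le_tsum (cbasic_term_le hb l) hg
    _ = 2 / (Ql b l : ℝ) ^ 2 := by
        rw [tsum_mul_left, tsum_geometric_of_lt_one (by norm_num) (by norm_num)]
        ring

lemma cbasic_rho_le' {b : ℕ} (hb : 5 ≤ b) (l : ℕ) : rhoB b l ≤ 1 / 512 * (1 / 2) ^ l := by
  have h1 := cbasic_rho_le hb l
  have h2 := cbasic_inv_le hb l
  have hQ : (0 : ℝ) < Ql b l := by exact_mod_cast cbasic_Ql_pos b l
  have h3 : (1 / 2 : ℝ) ^ l ≤ 1 := pow_le_one₀ (by norm_num) (by norm_num)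
  have h4 : 0 < (1 / 2 : ℝ) ^ l := by positivity
  have h5 : 0 < 1 / (Ql b l : ℝ) := by positivity
  calc rhoB b l ≤ 2 / (Ql b l : ℝ) ^ 2 := h1
    _ = 2 * (1 / (Ql b l : ℝ)) * (1 / (Ql b l : ℝ)) := by field_simp
    _ ≤ 2 * (1 / 32 * (1 / 2) ^ l) * (1 / 32 * 1) := by
        gcongr
        exact h2.trans (by gcongr)
    _ = 1 / 512 * (1 / 2) ^ l := by ring

lemma cbasic_rho_summable {b : ℕ} (hb : 5 ≤ b) : Summable (rhoB b) := by
  apply Summable.of_nonneg_of_le (fun l => ?_) (cbasic_rho_le' hb)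
  · exact (summable_geometric_of_lt_one (by norm_num) (by norm_num)).mul_left _
  · exact le_trans (by positivity) (cbasic_rho_ge hb l)

lemma cbasic_odd {b : ℕ} (hb : 5 ≤ b) (l : ℕ) : Odd (Pl b l) := by
  unfold Pl
  rw [Finset.sum_range_succ, Nat.div_self (cbasic_Ql_pos b l)]
  apply Even.add_one
  apply Finset.even_sum
  intro i hi
  rw [Finset.mem_range] at hi
  unfold Ql
  have h := cbasic_exp_lt hb hi
  rw [Nat.pow_div h.le (by norm_num)]
  rw [Nat.even_pow]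
  exact ⟨even_two, by omega⟩

theorem hBasic : Stmt_Basic := by
  intro b hb
  have hg : HasSum (fun i : ℕ => (1 / 2 : ℝ) ^ i) 2 := by
    have := hasSum_geometric_of_lt_one (r := (1 / 2 : ℝ)) (by norm_num) (by norm_num)
    convert this using 1
    norm_num
  have hth0 : 0 < thB b := by
    have h1 := (cbasic_summable hb).sum_le_tsum {0} (fun i _ => by positivity)
    rw [Finset.sum_singleton] at h1
    have hQ : (0 : ℝ) < Ql b 0 := by exact_mod_cast cbasic_Ql_pos b 0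
    exact lt_of_lt_of_le (by positivity) h1
  have hth1 : thB b < 1 / 4 := by
    have h1 := (cbasic_summable hb).tsum_le_tsum (cbasic_inv_le hb) (hg.summable.mul_left _)
    rw [tsum_mul_left, hg.tsum_eq] at h1
    unfold thB
    linarith
  have hys0 : 0 < ysB b := by
    have h1 := (cbasic_rho_summable hb).sum_le_tsum {0}
      (fun i _ => le_trans (by positivity) (cbasic_rho_ge hb i))
    rw [Finset.sum_singleton] at h1
    have hQ : (0 : ℝ) < Ql b 0 := by exact_mod_cast cbasic_Ql_pos b 0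
    have h2 := cbasic_rho_ge hb 0
    have h3 : 0 < 1 / (Ql b 0 : ℝ) ^ 2 := by positivity
    unfold ysB
    linarith
  have hys1 : ysB b < 1 / 4 := by
    have h1 := (cbasic_rho_summable hb).tsum_le_tsum (cbasic_rho_le' hb) (hg.summable.mul_left _)
    rw [tsum_mul_left, hg.tsum_eq] at h1
    unfold ysB
    linarith
  exact ⟨hth0, hth1, hys0, hys1, cbasic_rho_summable hb,
    fun l => ⟨cbasic_odd hb l, cbasic_rho_ge hb l, cbasic_rho_le hb l⟩⟩

end Horo
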