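import Pool.Agent.Horo.CDefs

/-!
# Part III: the cocycle
-/

open Finset MeasureTheory

namespace Horo

/-- the sign of a real number: the parity of its floor -/
noncomputable def ccoc_sg (y : ℝ) : ℝ := if Even ⌊y⌋ then 1 else -1

lemma ccoc_sg_add_one (y : ℝ) : ccoc_sg (y + 1) = - ccoc_sg y := by
  unfold ccoc_sg
  rw [Int.floor_add_one]
  by_cases h : Even ⌊y⌋
  · have h2 : ¬ Even (⌊y⌋ + 1) := by
      rw [Int.even_add_one]
      simpa using h
    simp [h, h2]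
  · have h2 : Even (⌊y⌋ + 1) := by
      rw [Int.even_add_one]
      exact h
    simp [h, h2]

lemma ccoc_sg_sub_even (y : ℝ) (n : ℕ) (hn : Even n) : ccoc_sg (y - n) = ccoc_sg y := by
  unfold ccoc_sg
  have h1 : ⌊y - (n : ℝ)⌋ = ⌊y⌋ - n := by
    rw [Int.floor_sub_natCast]
  rw [h1]
  have h2 : Even (⌊y⌋ - (n : ℤ)) ↔ Even ⌊y⌋ := by
    rw [Int.even_sub]
    have h3 : Even (n : ℤ) := by exact_mod_cast hn
    simp [h3]
  by_cases h : Even ⌊y⌋
  · rw [if_pos h, if_pos (h2.mpr h)]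
  · rw [if_neg h, if_neg (fun h4 => h (h2.mp h4))]

lemma ccoc_sg_sub_odd (y : ℝ) (n : ℕ) (hn : Odd n) : ccoc_sg (y - n) = - ccoc_sg y := by
  obtain ⟨m, rfl⟩ := hn
  have h1 : y - ((2 * m + 1 : ℕ) : ℝ) + 1 = y - ((2 * m : ℕ) : ℝ) := by
    push_cast
    ring
  have h2 := ccoc_sg_add_one (y - ((2 * m + 1 : ℕ) : ℝ))
  rw [h1, ccoc_sg_sub_even y (2 * m) (even_two_mul m)] at h2
  linarith

lemma ccoc_sg_mul_self (y : ℝ) : ccoc_sg y * ccoc_sg y = 1 := by
  unfold ccoc_sg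
  split_ifs <;> norm_num

lemma ccoc_sg_abs (y : ℝ) : |ccoc_sg y| = 1 := by
  unfold ccoc_sg
  split_ifs <;> norm_num

lemma ccoc_sg_pos {y : ℝ} (h0 : 0 ≤ y) (h1 : y < 1) : ccoc_sg y = 1 := by
  unfold ccoc_sg
  have h : ⌊y⌋ = 0 := by
    rw [Int.floor_eq_iff]
    constructor
    · simpa using h0
    · simpa using h1
  rw [h]
  simp

lemma ccoc_sg_neg {y : ℝ} (h0 : -1 ≤ y) (h1 : y < 0) : ccoc_sg y = -1 := by
  have h2 := ccoc_sg_add_one y
  rw [ccoc_sg_pos (by linarith) (by linarith)] at h2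
  linarith

lemma ccoc_sg_meas : Measurable ccoc_sg := by
  unfold ccoc_sg
  have h1 : Measurable (fun n : ℤ => if Even n then (1 : ℝ) else -1) := measurable_of_countable _
  exact h1.comp Int.measurable_floor

/-- the sign pattern `s_K` -/
noncomputable def ccoc_s (θ : ℝ) (K : ℕ) (y : ℝ) : ℝ := ∏ j ∈ range K, ccoc_sg (y - j * θ)

lemma ccoc_s_meas (θ : ℝ) (K : ℕ) : Measurable (ccoc_s θ K) := by
  unfold ccoc_s
  refine Finset.measurable_prod _ fun j _ => ?_
  exact ccoc_sg_meas.comp (measurable_id.sub_const _)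

lemma ccoc_s_abs (θ : ℝ) (K : ℕ) (y : ℝ) : |ccoc_s θ K y| = 1 := by
  unfold ccoc_s
  rw [Finset.abs_prod]
  exact Finset.prod_eq_one fun j _ => ccoc_sg_abs _

lemma ccoc_s_mul_self (θ : ℝ) (K : ℕ) (y : ℝ) : ccoc_s θ K y * ccoc_s θ K y = 1 := by
  rw [← abs_mul_abs_self, ccoc_s_abs, one_mul]

lemma ccoc_s_add (θ : ℝ) (K K' : ℕ) (y : ℝ) :
    ccoc_s θ (K + K') y = ccoc_s θ K y * ccoc_s θ K' (y - K * θ) := by
  unfold ccoc_s
  rw [Finset.prod_range_add]
  congr 1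
  refine Finset.prod_congr rfl fun j _ => ?_
  congr 1
  push_cast
  ring

lemma ccoc_s_one (θ : ℝ) (y : ℝ) : ccoc_s θ 1 y = ccoc_sg y := by
  unfold ccoc_s
  simp

lemma ccoc_s_shift (θ : ℝ) (K : ℕ) (y : ℝ) :
    ccoc_s θ K y = ccoc_s θ K (y - θ) * (ccoc_sg y * ccoc_sg (y - K * θ)) := by
  have h1 := ccoc_s_add θ K 1 y
  have h2 := ccoc_s_add θ 1 K y
  rw [ccoc_s_one] at h1 h2
  rw [add_comm 1 K] at h2
  have h3 : y - ((1 : ℕ) : ℝ) * θ = y - θ := by
    push_cast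
    ring
  rw [h3] at h2
  have h4 := ccoc_sg_mul_self (y - K * θ)
  calc ccoc_s θ K y = ccoc_s θ K y * (ccoc_sg (y - K * θ) * ccoc_sg (y - K * θ)) := by
        rw [h4, mul_one]
    _ = (ccoc_s θ K y * ccoc_sg (y - K * θ)) * ccoc_sg (y - K * θ) := by ring
    _ = (ccoc_sg y * ccoc_s θ K (y - θ)) * ccoc_sg (y - K * θ) := by rw [← h1, ← h2]
    _ = _ := by ring

lemma ccoc_prod_neg (K : ℕ) (f : ℕ → ℝ) (hK : Even K) :
    ∏ j ∈ range K, (- f j) = ∏ j ∈ range K, f j := by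
  have h1 : ∀ j ∈ range K, - f j = (-1) * f j := fun j _ => by ring
  rw [Finset.prod_congr rfl h1, Finset.prod_mul_distrib, Finset.prod_const, Finset.card_range,
    hK.neg_one_pow, one_mul]

lemma ccoc_s_per (θ : ℝ) (K : ℕ) (hK : Even K) (y : ℝ) : ccoc_s θ K (y + 1) = ccoc_s θ K y := by
  unfold ccoc_s
  rw [← ccoc_prod_neg K (fun j => ccoc_sg (y - j * θ)) hK]
  refine Finset.prod_congr rfl fun j _ => ?_
  rw [← ccoc_sg_add_one]
  congr 1
  ring

lemma ccoc_s_double (θ ρ : ℝ) (Q P : ℕ) (hQ : Even Q) (hP : Odd P) (h : (Q : ℝ) * θ = P + ρ)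
    (y : ℝ) : ccoc_s θ (2 * Q) y =
      ∏ j ∈ range Q, (ccoc_sg (y - j * θ) * ccoc_sg (y - j * θ - ρ)) := by
  rw [two_mul, ccoc_s_add, Finset.prod_mul_distrib]
  unfold ccoc_s
  congr 1
  rw [← ccoc_prod_neg Q (fun j => ccoc_sg (y - j * θ - ρ)) hQ]
  refine Finset.prod_congr rfl fun j _ => ?_
  rw [← ccoc_sg_sub_odd _ P hP, h]
  congr 1
  ring

lemma ccoc_prod_bound (K : ℕ) (f : ℕ → ℝ) (hf : ∀ j, |f j| = 1) :
    |∏ j ∈ range K, f j - 1| ≤ ∑ j ∈ range K, |f j - 1| := by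
  induction K with
  | zero => simp
  | succ K ih =>
    rw [Finset.prod_range_succ, Finset.sum_range_succ]
    have h1 : (∏ j ∈ range K, f j) * f K - 1 = (∏ j ∈ range K, f j - 1) * f K + (f K - 1) := by
      ring
    rw [h1]
    refine (abs_add_le _ _).trans ?_
    rw [abs_mul, hf, mul_one]
    linarith

/-- the elementary defect -/
noncomputable def ccoc_h (ρ y : ℝ) : ℝ := |ccoc_sg y * ccoc_sg (y - ρ) - 1|

lemma ccoc_h_per (ρ : ℝ) : Function.Periodic (ccoc_h ρ) 1 := by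
  intro y
  unfold ccoc_h
  have h1 : y + 1 - ρ = (y - ρ) + 1 := by ring
  rw [h1, ccoc_sg_add_one, ccoc_sg_add_one, neg_mul_neg]

lemma ccoc_h_meas (ρ : ℝ) : Measurable (ccoc_h ρ) := by
  unfold ccoc_h
  have h1 := ccoc_sg_meas
  have h2 : Measurable (fun y => ccoc_sg (y - ρ)) := h1.comp (measurable_id.sub_const _)
  exact ((h1.mul h2).sub_const 1).abs

lemma ccoc_int {f : ℝ → ℝ} (hf : Measurable f) {C : ℝ} (hC : ∀ x, |f x| ≤ C) (a b : ℝ) :
    IntervalIntegrable f volume a b := by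
  rw [intervalIntegrable_iff]
  refine Measure.integrableOn_of_bounded (M := C) ?_ hf.aestronglyMeasurable ?_
  · rw [Set.uIoc]
    simp
  · exact Filter.Eventually.of_forall fun x => by
      rw [Real.norm_eq_abs]
      exact hC x

lemma ccoc_h_le (ρ y : ℝ) : |ccoc_h ρ y| ≤ 2 := by
  unfold ccoc_h
  rw [abs_abs]
  refine (abs_sub _ _).trans ?_
  rw [abs_mul, ccoc_sg_abs, ccoc_sg_abs]
  norm_num

lemma ccoc_h_int (ρ : ℝ) (h0 : 0 ≤ ρ) (h1 : ρ ≤ 1) : ∫ y in (0 : ℝ)..1, ccoc_h ρ y = 2 * ρ := by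
  rw [← intervalIntegral.integral_add_adjacent_intervals
    (ccoc_int (ccoc_h_meas ρ) (ccoc_h_le ρ) 0 ρ) (ccoc_int (ccoc_h_meas ρ) (ccoc_h_le ρ) ρ 1)]
  have hne : ∀ c : ℝ, ∀ᵐ x : ℝ, x ≠ c := fun c => by
    simp [ae_iff]
  have e1 : ∫ y in (0 : ℝ)..ρ, ccoc_h ρ y = ∫ y in (0 : ℝ)..ρ, (2 : ℝ) := by
    refine intervalIntegral.integral_congr_ae ?_
    filter_upwards [hne ρ] with x hx hx2
    rw [Set.uIoc_of_le h0] at hx2
    have h2 : x < ρ := lt_of_le_of_ne hx2.2 hx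
    unfold ccoc_h
    rw [ccoc_sg_pos hx2.1.le (by linarith), ccoc_sg_neg (by linarith [hx2.1]) (by linarith)]
    norm_num
  have e2 : ∫ y in ρ..1, ccoc_h ρ y = ∫ y in ρ..1, (0 : ℝ) := by
    refine intervalIntegral.integral_congr_ae ?_
    filter_upwards [hne 1] with x hx hx2
    rw [Set.uIoc_of_le h1] at hx2
    have h2 : x < 1 := lt_of_le_of_ne hx2.2 hx
    unfold ccoc_h
    rw [ccoc_sg_pos (by linarith [hx2.1]) h2, ccoc_sg_pos (by linarith [hx2.1])
      (by linarith [hx2.1])]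
    norm_num
  rw [e1, e2]
  simp
  ring

lemma ccoc_per_shift {f : ℝ → ℝ} (hf : Function.Periodic f 1) (c : ℝ) :
    ∫ y in (0 : ℝ)..1, f (y - c) = ∫ y in (0 : ℝ)..1, f y := by
  rw [intervalIntegral.integral_comp_sub_right]
  have h := hf.intervalIntegral_add_eq (0 - c) 0
  rw [zero_add] at h
  rw [← h]
  congr 1
  ring

/-- the defect of `s_{2Q}` -/
lemma ccoc_defect (θ ρ : ℝ) (Q P : ℕ) (hQ : Even Q) (hP : Odd P) (h : (Q : ℝ) * θ = P + ρ)
    (h0 : 0 ≤ ρ) (h1 : ρ ≤ 1) (c : ℝ) :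
    ∫ y in (0 : ℝ)..1, |ccoc_s θ (2 * Q) (y - c) - 1| ≤ 2 * Q * ρ := by
  have hm : ∀ d : ℝ, Measurable (fun y => ccoc_h ρ (y - d)) := fun d =>
    (ccoc_h_meas ρ).comp (measurable_id.sub_const _)
  have h2 : ∫ y in (0 : ℝ)..1, |ccoc_s θ (2 * Q) (y - c) - 1| ≤
      ∫ y in (0 : ℝ)..1, ∑ j ∈ range Q, ccoc_h ρ (y - (c + j * θ)) := by
    refine intervalIntegral.integral_mono_on zero_le_one ?_ ?_ ?_
    · refine ccoc_int (C := 2) ?_ ?_ 0 1
      · exact (((ccoc_s_meas θ _).comp (measurable_id.sub_const _)).sub_const 1).abs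
      · intro x
        rw [abs_abs]
        refine (abs_sub _ _).trans ?_
        rw [ccoc_s_abs]
        norm_num
    · refine ccoc_int (C := ∑ j ∈ range Q, (2 : ℝ)) ?_ ?_ 0 1
      · exact Finset.measurable_sum _ fun j _ => hm _
      · intro x
        exact (Finset.abs_sum_le_sum_abs _ _).trans (Finset.sum_le_sum fun j _ => ccoc_h_le ρ _)
    · intro x _
      rw [ccoc_s_double θ ρ Q P hQ hP h]
      refine (ccoc_prod_bound Q _ ?_).trans ?_
      · intro j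
        rw [abs_mul, ccoc_sg_abs, ccoc_sg_abs, one_mul]
      · refine Finset.sum_le_sum fun j _ => ?_
        unfold ccoc_h
        refine le_of_eq ?_
        congr 3
        · congr 1
          ring
        · congr 1
          ring
  refine h2.trans ?_
  rw [intervalIntegral.integral_finsetSum (fun j _ =>
    ccoc_int (hm _) (fun x => ccoc_h_le ρ _) 0 1)]
  have h3 : ∀ j ∈ range Q, ∫ y in (0 : ℝ)..1, ccoc_h ρ (y - (c + j * θ)) = 2 * ρ := by
    intro j _
    rw [ccoc_per_shift (ccoc_h_per ρ), ccoc_h_int ρ h0 h1]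
  rw [Finset.sum_congr rfl h3, Finset.sum_const, Finset.card_range, nsmul_eq_mul]
  refine le_of_eq ?_
  ring

/-- the data of the construction -/
structure CcocData (θ : ℝ) (Q P : ℕ → ℕ) (ρ : ℕ → ℝ) : Prop where
  evQ : ∀ l, Even (Q l)
  posQ : ∀ l, 0 < Q l
  oddP : ∀ l, Odd (P l)
  eq : ∀ l, (Q l : ℝ) * θ = P l + ρ l
  nonneg : ∀ l, 0 ≤ ρ l
  le : ∀ l, ρ l ≤ 2 / (Q l : ℝ) ^ 2

/-- the sign functions -/
noncomputable def ccoc_g (θ : ℝ) (Q : ℕ → ℕ) (k : ℕ) (y : ℝ) : ℝ :=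
  ccoc_s θ (2 * ∑ l ∈ range (k + 1), Q l) (y - θ)

/-- their integrals -/
noncomputable def ccoc_G (θ : ℝ) (Q : ℕ → ℕ) (k : ℕ) (y : ℝ) : ℝ :=
  ∫ t in (0 : ℝ)..y, ccoc_g θ Q k t

section data

variable {θ : ℝ} {Q P : ℕ → ℕ} {ρ : ℕ → ℝ}

lemma ccoc_g_meas (k : ℕ) : Measurable (ccoc_g θ Q k) := by
  unfold ccoc_g
  exact (ccoc_s_meas θ _).comp (measurable_id.sub_const _)

lemma ccoc_g_abs (k : ℕ) (y : ℝ) : |ccoc_g θ Q k y| = 1 := ccoc_s_abs _ _ _

lemma ccoc_g_int (k : ℕ) (a b : ℝ) : IntervalIntegrable (ccoc_g θ Q k) volume a b :=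
  ccoc_int (ccoc_g_meas k) (fun x => (ccoc_g_abs k x).le) a b

lemma ccoc_g_per (k : ℕ) : Function.Periodic (ccoc_g θ Q k) 1 := by
  intro y
  unfold ccoc_g
  have h1 : y + 1 - θ = (y - θ) + 1 := by ring
  rw [h1, ccoc_s_per _ _ (even_two_mul _)]

lemma CcocData.sum_eq (D : CcocData θ Q P ρ) (k : ℕ) :
    ((2 * ∑ l ∈ range (k + 1), Q l : ℕ) : ℝ) * θ =
      ((2 * ∑ l ∈ range (k + 1), P l : ℕ) : ℝ) + 2 * ∑ l ∈ range (k + 1), ρ l := by
  push_cast
  rw [mul_assoc, Finset.sum_mul, ← mul_add, ← Finset.sum_add_distrib]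
  congr 1
  exact Finset.sum_congr rfl fun l _ => D.eq l

lemma CcocData.step (D : CcocData θ Q P ρ) (k : ℕ) (y : ℝ) :
    ccoc_g θ Q k (y + θ) = ccoc_g θ Q k y *
      (ccoc_sg y * ccoc_sg (y - 2 * ∑ l ∈ range (k + 1), ρ l)) := by
  unfold ccoc_g
  have h1 : y + θ - θ = y := by ring
  rw [h1, ccoc_s_shift, D.sum_eq]
  congr 2
  have h2 : y - (((2 * ∑ l ∈ range (k + 1), P l : ℕ) : ℝ) + 2 * ∑ l ∈ range (k + 1), ρ l) =
      (y - 2 * ∑ l ∈ range (k + 1), ρ l) - ((2 * ∑ l ∈ range (k + 1), P l : ℕ) : ℝ) := by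
    ring
  rw [h2, ccoc_sg_sub_even _ _ (even_two_mul _)]

lemma ccoc_ne (c : ℝ) : ∀ᵐ x : ℝ, x ≠ c := by
  simp [ae_iff]

lemma ccoc_G_sub (k : ℕ) (x y : ℝ) :
    ccoc_G θ Q k y - ccoc_G θ Q k x = ∫ t in x..y, ccoc_g θ Q k t := by
  unfold ccoc_G
  rw [intervalIntegral.integral_interval_sub_left (ccoc_g_int k _ _) (ccoc_g_int k _ _)]

lemma ccoc_G_lip (k : ℕ) (x y : ℝ) : |ccoc_G θ Q k x - ccoc_G θ Q k y| ≤ |x - y| := by
  rw [ccoc_G_sub]
  have h := intervalIntegral.norm_integral_le_of_norm_le_const (a := y) (b := x) (C := 1)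
    (f := ccoc_g θ Q k) (fun t _ => by rw [Real.norm_eq_abs, ccoc_g_abs])
  rw [Real.norm_eq_abs, one_mul] at h
  exact h

lemma ccoc_G_per (k : ℕ) (y : ℝ) :
    ccoc_G θ Q k (y + 1) = ccoc_G θ Q k y + ccoc_G θ Q k 1 := by
  have h1 := ccoc_G_sub (θ := θ) (Q := Q) k y (y + 1)
  have h2 := (ccoc_g_per (θ := θ) (Q := Q) k).intervalIntegral_add_eq y 0
  rw [zero_add] at h2
  rw [h2] at h1
  have h3 : ccoc_G θ Q k 1 = ∫ t in (0 : ℝ)..1, ccoc_g θ Q k t := rfl
  rw [← h3] at h1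
  linarith

lemma CcocData.wallk (D : CcocData θ Q P ρ) (k : ℕ) (hr : 2 * ∑ l ∈ range (k + 1), ρ l ≤ 1)
    (y : ℝ) (h0 : 0 ≤ y) (h1 : y ≤ 2 * ∑ l ∈ range (k + 1), ρ l) :
    ccoc_G θ Q k (y + θ) + ccoc_G θ Q k y = ccoc_G θ Q k θ := by
  have h2 := ccoc_G_sub (θ := θ) (Q := Q) k θ (y + θ)
  have h3 : ∫ t in θ..(y + θ), ccoc_g θ Q k t = ∫ t in (0 : ℝ)..y, ccoc_g θ Q k (t + θ) := by
    rw [intervalIntegral.integral_comp_add_right, zero_add]
  have h4 : ∫ t in (0 : ℝ)..y, ccoc_g θ Q k (t + θ) = ∫ t in (0 : ℝ)..y, - ccoc_g θ Q k t := by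
    refine intervalIntegral.integral_congr_ae ?_
    filter_upwards [ccoc_ne y] with x hx hx2
    rw [Set.uIoc_of_le h0] at hx2
    have h5 : x < y := lt_of_le_of_ne hx2.2 hx
    rw [D.step, ccoc_sg_pos hx2.1.le (by linarith), ccoc_sg_neg (by linarith [hx2.1])
      (by linarith)]
    ring
  rw [h3, h4, intervalIntegral.integral_neg] at h2
  have h5 : ccoc_G θ Q k y = ∫ t in (0 : ℝ)..y, ccoc_g θ Q k t := rfl
  rw [← h5] at h2
  linarith

lemma CcocData.gapk (D : CcocData θ Q P ρ) (k : ℕ) (y : ℝ)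
    (h0 : 0 ≤ 2 * ∑ l ∈ range (k + 1), ρ l)
    (h1 : 2 * ∑ l ∈ range (k + 1), ρ l ≤ y) (h2 : y ≤ 1) :
    ccoc_G θ Q k (y + θ) - ccoc_G θ Q k y = ccoc_G θ Q k (1 + θ) - ccoc_G θ Q k 1 := by
  have h3 := ccoc_G_sub (θ := θ) (Q := Q) k (y + θ) (1 + θ)
  have h4 : ∫ t in (y + θ)..(1 + θ), ccoc_g θ Q k t = ∫ t in y..1, ccoc_g θ Q k (t + θ) := by
    rw [intervalIntegral.integral_comp_add_right]
  have h5 : ∫ t in y..1, ccoc_g θ Q k (t + θ) = ∫ t in y..1, ccoc_g θ Q k t := by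
    refine intervalIntegral.integral_congr_ae ?_
    filter_upwards [ccoc_ne 1] with x hx hx2
    rw [Set.uIoc_of_le h2] at hx2
    have h6 : x < 1 := lt_of_le_of_ne hx2.2 hx
    rw [D.step, ccoc_sg_pos (by linarith [hx2.1]) h6, ccoc_sg_pos (by linarith [hx2.1])
      (by linarith)]
    ring
  rw [h4, h5, ← ccoc_G_sub] at h3
  linarith

/-- the difference of two successive sign functions -/
lemma ccoc_g_diff (k : ℕ) (t : ℝ) : |ccoc_g θ Q (k + 1) t - ccoc_g θ Q k t| =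
    |ccoc_s θ (2 * Q (k + 1)) (t - (θ + (2 * ∑ l ∈ range (k + 1), Q l : ℕ) * θ)) - 1| := by
  unfold ccoc_g
  rw [Finset.sum_range_succ, mul_add, ccoc_s_add]
  have h1 : t - θ - ((2 * ∑ l ∈ range (k + 1), Q l : ℕ) : ℝ) * θ =
      t - (θ + (2 * ∑ l ∈ range (k + 1), Q l : ℕ) * θ) := by ring
  rw [h1]
  have h2 : ∀ a c : ℝ, |a| = 1 → |a * c - a| = |c - 1| := by
    intro a c ha
    have h3 : a * c - a = a * (c - 1) := by ring
    rw [h3, abs_mul, ha, one_mul]
  exact h2 _ _ (ccoc_s_abs _ _ _)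

lemma CcocData.le_one (D : CcocData θ Q P ρ) (l : ℕ) : ρ l ≤ 1 := by
  refine (D.le l).trans ?_
  have h1 : (2 : ℝ) ≤ Q l := by
    have h2 := D.posQ l
    obtain ⟨r, hr⟩ := D.evQ l
    have h3 : 2 ≤ Q l := by omega
    exact_mod_cast h3
  rw [div_le_one (by positivity)]
  nlinarith

lemma CcocData.defect (D : CcocData θ Q P ρ) (l : ℕ) (c : ℝ) :
    ∫ y in (0 : ℝ)..1, |ccoc_s θ (2 * Q l) (y - c) - 1| ≤ 4 / Q l := by
  refine (ccoc_defect θ (ρ l) (Q l) (P l) (D.evQ l) (D.oddP l) (D.eq l) (D.nonneg l)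
    (D.le_one l) c).trans ?_
  have h1 : (0 : ℝ) < Q l := by exact_mod_cast D.posQ l
  have h2 := D.le l
  calc 2 * (Q l : ℝ) * ρ l ≤ 2 * (Q l : ℝ) * (2 / (Q l : ℝ) ^ 2) := by
        exact mul_le_mul_of_nonneg_left h2 (by positivity)
    _ = 4 / Q l := by
        field_simp
        ring

lemma CcocData.diff (D : CcocData θ Q P ρ) (k : ℕ) (n : ℕ) (y : ℝ) (hy : |y| ≤ n) :
    |ccoc_G θ Q (k + 1) y - ccoc_G θ Q k y| ≤ 2 * n * (4 / Q (k + 1)) := by
  have h1 : ccoc_G θ Q (k + 1) y - ccoc_G θ Q k y =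
      ∫ t in (0 : ℝ)..y, (ccoc_g θ Q (k + 1) t - ccoc_g θ Q k t) := by
    unfold ccoc_G
    rw [intervalIntegral.integral_sub (ccoc_g_int _ _ _) (ccoc_g_int _ _ _)]
  set w : ℝ → ℝ := fun t => |ccoc_g θ Q (k + 1) t - ccoc_g θ Q k t| with hw
  have hwm : Measurable w := ((ccoc_g_meas _).sub (ccoc_g_meas _)).abs
  have hwb : ∀ x, |w x| ≤ 2 := by
    intro x
    rw [hw]
    simp only [abs_abs]
    refine (abs_sub _ _).trans ?_
    rw [ccoc_g_abs, ccoc_g_abs]
    norm_num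
  have hwp : Function.Periodic w 1 := by
    intro x
    rw [hw]
    simp only
    rw [ccoc_g_per, ccoc_g_per]
  have hy2 := abs_le.mp hy
  have h2 : |∫ t in (0 : ℝ)..y, w t| ≤ |∫ t in (-(n : ℝ))..n, w t| := by
    refine intervalIntegral.abs_integral_mono_interval ?_ ?_ (ccoc_int hwm hwb _ _)
    · intro x hx
      rw [Set.mem_uIoc] at hx ⊢
      left
      rcases hx with hx | hx
      · constructor <;> linarith [hx.1, hx.2]
      · constructor <;> linarith [hx.1, hx.2]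
    · exact Filter.Eventually.of_forall fun x => abs_nonneg _
  have h3 : ∫ t in (-(n : ℝ))..n, w t = 2 * n * ∫ t in (0 : ℝ)..1, w t := by
    have h4 := hwp.intervalIntegral_add_zsmul_eq (2 * n : ℤ) (-(n : ℝ))
      (fun a c => ccoc_int hwm hwb a c)
    have h5 := hwp.intervalIntegral_add_eq (-(n : ℝ)) 0
    rw [zero_add] at h5
    rw [h5] at h4
    simp only [zsmul_eq_mul, mul_one] at h4
    push_cast at h4
    rw [← h4]
    congr 1
    ring
  have h4 : ∫ t in (0 : ℝ)..1, w t ≤ 4 / Q (k + 1) := by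
    have h5 := D.defect (k + 1) (θ + (2 * ∑ l ∈ range (k + 1), Q l : ℕ) * θ)
    refine le_trans (le_of_eq ?_) h5
    refine intervalIntegral.integral_congr fun t _ => ?_
    exact ccoc_g_diff k t
  have h5 : 0 ≤ ∫ t in (0 : ℝ)..1, w t :=
    intervalIntegral.integral_nonneg zero_le_one fun t _ => abs_nonneg _
  rw [h1]
  have h6 := intervalIntegral.norm_integral_le_abs_integral_norm (a := 0) (b := y) (μ := volume)
    (f := fun t => ccoc_g θ Q (k + 1) t - ccoc_g θ Q k t)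
  rw [Real.norm_eq_abs] at h6
  refine h6.trans (h2.trans ?_)
  rw [h3, abs_of_nonneg (by positivity)]
  exact mul_le_mul_of_nonneg_left h4 (by positivity)

lemma CcocData.lower (D : CcocData θ Q P ρ) (k : ℕ) :
    1 - ∑ l ∈ range (k + 1), 4 / (Q l : ℝ) ≤ ccoc_G θ Q k 1 := by
  have key : ∀ (f : ℝ → ℝ) (r : ℝ), IntervalIntegrable f volume 0 1 →
      ∫ t in (0 : ℝ)..1, |f t| ≤ r → |∫ t in (0 : ℝ)..1, f t| ≤ r := by
    intro f r hf h
    refine (intervalIntegral.abs_integral_le_integral_abs zero_le_one).trans h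
  induction k with
  | zero =>
    rw [zero_add, Finset.sum_range_one]
    have h1 := D.defect 0 θ
    have h2 := key (fun t => ccoc_s θ (2 * Q 0) (t - θ) - 1) _ (ccoc_int (C := 2)
      (((ccoc_s_meas θ _).comp (measurable_id.sub_const _)).sub_const 1) (fun x => by
        refine (abs_sub _ _).trans ?_
        rw [Function.comp_apply, ccoc_s_abs]
        norm_num) 0 1) h1
    have h3 : ccoc_G θ Q 0 1 - 1 = ∫ t in (0 : ℝ)..1, (ccoc_s θ (2 * Q 0) (t - θ) - 1) := by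
      have h5 : IntervalIntegrable (fun t => ccoc_s θ (2 * Q 0) (t - θ)) volume 0 1 :=
        ccoc_int (C := 1) ((ccoc_s_meas θ _).comp (measurable_id.sub_const _)) (fun x => by
          rw [Function.comp_apply, ccoc_s_abs]) 0 1
      have h6 : IntervalIntegrable (fun _ : ℝ => (1 : ℝ)) volume 0 1 :=
        intervalIntegrable_const
      rw [intervalIntegral.integral_sub h5 h6]
      have h4 : ccoc_G θ Q 0 1 = ∫ t in (0 : ℝ)..1, ccoc_s θ (2 * Q 0) (t - θ) := by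
        unfold ccoc_G ccoc_g
        rw [zero_add, Finset.sum_range_one]
      rw [h4]
      simp
    rw [← h3] at h2
    have h4 := abs_le.mp h2
    linarith [h4.1]
  | succ k ih =>
    rw [Finset.sum_range_succ]
    have h1 := D.defect (k + 1) (θ + (2 * ∑ l ∈ range (k + 1), Q l : ℕ) * θ)
    have h2 : ∫ t in (0 : ℝ)..1, |ccoc_g θ Q (k + 1) t - ccoc_g θ Q k t| ≤ 4 / Q (k + 1) := by
      refine le_trans (le_of_eq ?_) h1
      refine intervalIntegral.integral_congr fun t _ => ?_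
      exact ccoc_g_diff k t
    have h3 := key _ _ ((ccoc_g_int _ _ _).sub (ccoc_g_int _ _ _)) h2
    rw [intervalIntegral.integral_sub (ccoc_g_int _ _ _) (ccoc_g_int _ _ _)] at h3
    have h4 : |ccoc_G θ Q (k + 1) 1 - ccoc_G θ Q k 1| ≤ 4 / Q (k + 1) := h3
    have h5 := abs_le.mp h4
    linarith [h5.1]

/-- the limit -/
theorem CcocData.main (D : CcocData θ Q P ρ) (hρ : Summable ρ) (hQ : Summable fun l => 1 / (Q l : ℝ))
    (hys : 2 * ∑' l, ρ l < 1) : ∃ (a2 : ℝ) (G : ℝ → ℝ), Coc θ (2 * ∑' l, ρ l) a2 G ∧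
      1 - 4 * ∑' l, 1 / (Q l : ℝ) ≤ a2 ∧ a2 ≤ 1 := by
  have hlim : ∀ y : ℝ, ∃ z, Filter.Tendsto (fun k => ccoc_G θ Q k y) Filter.atTop (nhds z) := by
    intro y
    obtain ⟨n, hn⟩ := exists_nat_ge |y|
    have h1 : CauchySeq (fun k => ccoc_G θ Q k y) := by
      refine cauchySeq_of_dist_le_of_summable (fun k => 2 * n * (4 / (Q (k + 1) : ℝ))) ?_ ?_
      · intro k
        rw [dist_comm, Real.dist_eq]
        exact D.diff k n y hn
      · have h2 : Summable fun k => 1 / (Q (k + 1) : ℝ) := (summable_nat_add_iff 1).mpr hQ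
        have h3 : (fun k => 2 * (n : ℝ) * (4 / (Q (k + 1) : ℝ))) =
            fun k => (8 * n) * (1 / (Q (k + 1) : ℝ)) := by
          funext k
          ring
        rw [h3]
        exact h2.mul_left _
    exact cauchySeq_tendsto_of_complete h1
  choose G hG using hlim
  have hR : ∀ k, 2 * ∑ l ∈ range (k + 1), ρ l ≤ 2 * ∑' l, ρ l := fun k => by
    have := hρ.sum_le_tsum (range (k + 1)) (fun l _ => D.nonneg l)
    linarith
  have hR0 : ∀ k, 0 ≤ 2 * ∑ l ∈ range (k + 1), ρ l := fun k => by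
    have := Finset.sum_nonneg (fun l (_ : l ∈ range (k + 1)) => D.nonneg l)
    linarith
  have hRlim : Filter.Tendsto (fun k => 2 * ∑ l ∈ range (k + 1), ρ l) Filter.atTop
      (nhds (2 * ∑' l, ρ l)) :=
    ((Filter.tendsto_add_atTop_iff_nat 1).mpr hρ.hasSum.tendsto_sum_nat).const_mul 2
  have hlip : ∀ x y, |G x - G y| ≤ |x - y| := fun x y =>
    le_of_tendsto ((hG x).sub (hG y)).abs (Filter.Eventually.of_forall fun k => ccoc_G_lip k x y)
  have hG0 : G 0 = 0 := by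
    refine tendsto_nhds_unique (hG 0) ?_
    have h1 : (fun k => ccoc_G θ Q k 0) = fun _ => 0 := by
      funext k
      unfold ccoc_G
      rw [intervalIntegral.integral_same]
    rw [h1]
    exact tendsto_const_nhds
  -- the wall relation inside
  have hw : ∀ y, 0 ≤ y → y < 2 * ∑' l, ρ l → G (y + θ) + G y = G θ := by
    intro y h0 h1
    refine tendsto_nhds_unique ((hG (y + θ)).add (hG y)) ?_
    refine (hG θ).congr' ?_
    have h2 : ∀ᶠ k in Filter.atTop, y < 2 * ∑ l ∈ range (k + 1), ρ l :=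
      hRlim.eventually (lt_mem_nhds h1)
    filter_upwards [h2] with k hk
    exact (D.wallk k ((hR k).trans hys.le) y h0 hk.le).symm
  refine ⟨G 1, G, ⟨hG0, hlip, ?_, ?_, ?_⟩, ?_, ?_⟩
  · intro y
    refine tendsto_nhds_unique (hG (y + 1)) ?_
    refine ((hG y).add (hG 1)).congr fun k => ?_
    rw [ccoc_G_per]
  · intro y h0 h1
    have h2 : ∀ k, |G (y + θ) + G y - G θ| ≤
        2 * (2 * ∑' l, ρ l - 2 * ∑ l ∈ range (k + 1), ρ l) := by
      intro k
      by_cases h3 : y ≤ 2 * ∑ l ∈ range (k + 1), ρ l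
      · by_cases h4 : y < 2 * ∑' l, ρ l
        · rw [hw y h0 h4, sub_self, abs_zero]
          linarith [hR k]
        · have h5 : y = 2 * ∑ l ∈ range (k + 1), ρ l := le_antisymm h3 (by linarith [hR k])
          have h6 : ∀ j, k ≤ j → 2 * ∑ l ∈ range (j + 1), ρ l = y := by
            intro j hj
            refine le_antisymm ?_ ?_
            · linarith [hR j]
            · rw [h5]
              have := Finset.sum_le_sum_of_subset_of_nonneg
                (Finset.range_mono (Nat.add_le_add_right hj 1)) (fun l _ _ => D.nonneg l)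
              linarith
          have h7 : G (y + θ) + G y = G θ := by
            refine tendsto_nhds_unique ((hG (y + θ)).add (hG y)) ?_
            refine (hG θ).congr' ?_
            filter_upwards [Filter.eventually_ge_atTop k] with j hj
            exact (D.wallk j ((hR j).trans hys.le) y h0 (h6 j hj).ge).symm
          rw [h7, sub_self, abs_zero]
          linarith [hR k]
      · rw [not_le] at h3
        set z := 2 * ∑ l ∈ range (k + 1), ρ l with hz
        have h4 : G (z + θ) + G z = G θ := hw z (hR0 k) (lt_of_lt_of_le h3 h1)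
        have h5 := hlip (y + θ) (z + θ)
        have h6 := hlip y z
        have h7 : y + θ - (z + θ) = y - z := by ring
        rw [h7] at h5
        have h8 : G (y + θ) + G y - G θ = (G (y + θ) - G (z + θ)) + (G y - G z) := by linarith
        rw [h8]
        refine (abs_add_le _ _).trans ?_
        have h9 : |y - z| ≤ 2 * ∑' l, ρ l - z := by
          rw [abs_of_pos (by linarith)]
          linarith
        linarith
    have h3 : Filter.Tendsto (fun k => 2 * (2 * ∑' l, ρ l - 2 * ∑ l ∈ range (k + 1), ρ l))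
        Filter.atTop (nhds 0) := by
      have h4 := (hRlim.const_sub (2 * ∑' l, ρ l)).const_mul 2
      rw [sub_self, mul_zero] at h4
      exact h4
    have h4 : |G (y + θ) + G y - G θ| ≤ 0 :=
      ge_of_tendsto' h3 h2
    have h5 := abs_nonpos_iff.mp h4
    linarith
  · intro y h0 h1
    refine tendsto_nhds_unique ((hG (y + θ)).sub (hG y)) ?_
    refine ((hG (1 + θ)).sub (hG 1)).congr fun k => ?_
    exact (D.gapk k y (hR0 k) ((hR k).trans h0) h1).symm
  · refine ge_of_tendsto' (hG 1) fun k => ?_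
    refine le_trans ?_ (D.lower k)
    have h1 := hQ.sum_le_tsum (range (k + 1)) (fun l _ => by positivity)
    have h2 : ∑ l ∈ range (k + 1), 4 / (Q l : ℝ) = 4 * ∑ l ∈ range (k + 1), 1 / (Q l : ℝ) := by
      rw [Finset.mul_sum]
      exact Finset.sum_congr rfl fun l _ => by ring
    rw [h2]
    linarith
  · refine le_of_tendsto (hG 1) (Filter.Eventually.of_forall fun k => ?_)
    have h1 := ccoc_G_lip (θ := θ) (Q := Q) k 1 0
    have h2 : ccoc_G θ Q k 0 = 0 := by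
      unfold ccoc_G
      rw [intervalIntegral.integral_same]
    rw [h2, sub_zero, sub_zero, abs_one] at h1
    exact (abs_le.mp h1).2

end data

/-- (III.3) -/
theorem hCoc (h : Stmt_Basic) : Stmt_Coc := by
  intro b hb
  obtain ⟨t1, t2, t3, t4, hs, hl⟩ := h b hb
  have hpos : ∀ l, 0 < Ql b l := fun l => by
    unfold Ql
    positivity
  have D : CcocData (thB b) (Ql b) (Pl b) (rhoB b) :=
    { evQ := fun l => by
        unfold Ql
        refine (Nat.even_pow.mpr ⟨even_two, ?_⟩)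
        positivity
      posQ := hpos
      oddP := fun l => (hl l).1
      eq := fun l => by
        unfold rhoB
        ring
      nonneg := fun l => le_trans (by positivity) (hl l).2.1
      le := fun l => (hl l).2.2 }
  have hQ : Summable fun l => 1 / (Ql b l : ℝ) := by
    by_contra h1
    have h2 : thB b = 0 := by
      unfold thB
      exact tsum_eq_zero_of_not_summable h1
    rw [h2] at t1
    exact lt_irrefl _ t1
  have hys : 2 * ∑' l, rhoB b l < 1 := by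
    have h1 : ysB b = 2 * ∑' l, rhoB b l := rfl
    linarith
  obtain ⟨a2, G, hG, h1, h2⟩ := D.main hs hQ hys
  refine ⟨a2, G, hG, le_trans ?_ h1, h2⟩
  have h3 : (2 : ℝ) ≤ Ql b 0 := by
    have h4 : 2 ^ 1 ≤ Ql b 0 := by
      unfold Ql
      rw [pow_zero, mul_one]
      exact Nat.pow_le_pow_right two_pos (by omega)
    have h5 : 2 ≤ Ql b 0 := by simpa using h4
    exact_mod_cast h5
  have h4 : thB b ≤ 2 / Ql b 0 := by
    have h5 := (hl 0).2.2
    unfold rhoB at h5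
    have h6 : Pl b 0 = 1 := by
      unfold Pl
      rw [zero_add, Finset.sum_range_one, Nat.div_self (hpos 0)]
    rw [h6] at h5
    push_cast at h5
    have h7 : 2 / (Ql b 0 : ℝ) ^ 2 ≤ 1 := by
      rw [div_le_one (by positivity)]
      nlinarith
    rw [le_div_iff₀ (by linarith)]
    linarith
  have h5 : ∑' l, 1 / (Ql b l : ℝ) = thB b := rfl
  rw [h5]
  have h6 : 8 / (Ql b 0 : ℝ) = 4 * (2 / (Ql b 0 : ℝ)) := by ring
  rw [h6]
  linarith

end Horo
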