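import Pool.Agent.Horo.ADefs

/-!
# Part III: the numbers `θ`, `ys` (definitions and frozen statements)

`Q_l = 2 ^ (b 3 ^ l)`, `θ = ∑ 1 / Q_l`, `P_l = Q_l ∑_{i ≤ l} 1 / Q_i`,
`ys = 2 ∑ (Q_l θ - P_l)`.
-/

open Finset

namespace Horo

/-- `Q_l = 2 ^ (b 3 ^ l)`, so `Q_0 = 2 ^ b` and `Q_{l+1} = Q_l ^ 3` -/
def Ql (b l : ℕ) : ℕ := 2 ^ (b * 3 ^ l)

/-- `P_l = Q_l * ∑_{i ≤ l} 1 / Q_i` (all divisions are exact) -/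
def Pl (b l : ℕ) : ℕ := ∑ i ∈ Finset.range (l + 1), Ql b l / Ql b i

/-- `θ = ∑ 1 / Q_l` -/
noncomputable def thB (b : ℕ) : ℝ := ∑' l : ℕ, 1 / (Ql b l : ℝ)

/-- `ρ_l = Q_l θ - P_l` -/
noncomputable def rhoB (b l : ℕ) : ℝ := (Ql b l : ℝ) * thB b - Pl b l

/-- `ys = 2 ∑ (Q_l θ - P_l)` -/
noncomputable def ysB (b : ℕ) : ℝ := 2 * ∑' l : ℕ, rhoB b l

/-- elementary bounds -/
def Stmt_Basic : Prop := ∀ b : ℕ, 5 ≤ b →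
  0 < thB b ∧ thB b < 1 / 4 ∧ 0 < ysB b ∧ ysB b < 1 / 4 ∧ Summable (rhoB b) ∧
  ∀ l, Odd (Pl b l) ∧ 1 / (Ql b l : ℝ) ^ 2 ≤ rhoB b l ∧ rhoB b l ≤ 2 / (Ql b l : ℝ) ^ 2

/-- (III.1), (III.2) -/
def Stmt_Dioph : Prop := ∀ b : ℕ, 5 ≤ b → ∃ c : ℝ, Dioph (thB b) (ysB b) c

/-- (III.3) -/
def Stmt_Coc : Prop := ∀ b : ℕ, 5 ≤ b → ∃ (a2 : ℝ) (G : ℝ → ℝ), Coc (thB b) (ysB b) a2 G ∧
  1 - 8 / (Ql b 0 : ℝ) ≤ a2 ∧ a2 ≤ 1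

theorem constr_of (h1 : Stmt_Basic) (h2 : Stmt_Dioph) (h3 : Stmt_Coc) : Stmt_Constr := by
  intro η2 hη
  obtain ⟨n, hn⟩ := pow_unbounded_of_one_lt (4 / η2) (one_lt_two (α := ℝ))
  set b := max n 5 with hb
  have hb5 : 5 ≤ b := le_max_right _ _
  obtain ⟨c, hc⟩ := h2 b hb5
  obtain ⟨a2, G, hG, ha, ha'⟩ := h3 b hb5
  obtain ⟨t1, t2, t3, t4, -, -⟩ := h1 b hb5
  refine ⟨thB b, ysB b, c, a2, G, t1, t2, t3, t4, hc, hG, ?_, ha'⟩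
  refine le_trans ?_ ha
  have h5 : (Ql b 0 : ℝ) = 2 ^ b := by
    unfold Ql
    simp
  rw [h5]
  have h6 : 4 / η2 < (2 : ℝ) ^ b :=
    lt_of_lt_of_le hn (pow_le_pow_right₀ (by norm_num) (le_max_left _ _))
  have h7 : (0 : ℝ) < 2 ^ b := by positivity
  have h8 : 8 / (2 : ℝ) ^ b ≤ 2 * η2 := by
    rw [div_le_iff₀ h7]
    rw [div_lt_iff₀ hη] at h6
    linarith
  linarith

end Horo
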