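import Pool.Agent.Horo.CDefs

/-!
# (III.1), (III.2): Diophantine properties of `θ` and `ys`
-/

open Finset

namespace Horo

theorem cdioph_succ (b l : ℕ) : Ql b (l + 1) = Ql b l ^ 3 := by
  unfold Ql
  rw [← pow_mul]
  congr 1
  ring

theorem cdioph_ge {b : ℕ} (hb : 5 ≤ b) (l : ℕ) : 32 + l ≤ Ql b l := by
  induction l with
  | zero =>
    unfold Ql
    simp only [pow_zero, mul_one]
    calc 32 + 0 = 2 ^ 5 := by norm_num
      _ ≤ 2 ^ b := Nat.pow_le_pow_right (by norm_num) hb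
  | succ l ih =>
    rw [cdioph_succ]
    have h1 : Ql b l ^ 2 ≤ Ql b l ^ 3 := Nat.pow_le_pow_right (by omega) (by norm_num)
    nlinarith

theorem cdioph_zero (b : ℕ) {k : ℕ} : Ql b 0 ≤ Ql b k := by
  unfold Ql
  exact Nat.pow_le_pow_right (by norm_num) (Nat.mul_le_mul_left b
    (Nat.pow_le_pow_right (by norm_num) (Nat.zero_le k)))

/-- main lower bound -/
theorem cdioph_core (h : Stmt_Basic) {b : ℕ} (hb : 5 ≤ b) (l : ℕ) (q p : ℤ) (hq : 1 ≤ q)
    (hq' : 4 * (q : ℝ) ≤ (Ql b l : ℝ) ^ 2) :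
    1 / (Ql b l : ℝ) ^ 2 ≤ |(q : ℝ) * thB b - p| := by
  obtain ⟨-, -, -, -, -, hl⟩ := h b hb
  obtain ⟨hodd, hlo, hup⟩ := hl l
  have hQ : (32 : ℝ) ≤ Ql b l := by
    have := cdioph_ge hb l
    have h2 : 32 ≤ Ql b l := by omega
    exact_mod_cast h2
  have hQ0 : (0 : ℝ) < Ql b l := by linarith
  have hqr : (1 : ℝ) ≤ q := by exact_mod_cast hq
  have hth : thB b = (rhoB b l + Pl b l) / Ql b l := by
    unfold rhoB
    field_simp
    ring
  have hval : (q : ℝ) * thB b - p =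
      ((q : ℝ) * Pl b l - p * Ql b l) / Ql b l + q * rhoB b l / Ql b l := by
    rw [hth]
    field_simp
    ring
  by_cases hcase : q * (Pl b l : ℤ) = p * (Ql b l : ℤ)
  · have hr : (q : ℝ) * Pl b l = p * Ql b l := by exact_mod_cast hcase
    have hdvd : (Ql b l : ℤ) ∣ q := by
      have h1 : IsCoprime (Ql b l : ℤ) (Pl b l : ℤ) := by
        rw [Nat.isCoprime_iff_coprime]
        unfold Ql
        exact Nat.Coprime.pow_left _ ((Nat.coprime_two_left).2 hodd)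
      exact h1.dvd_of_dvd_mul_right ⟨p, by rw [hcase]; ring⟩
    have hle : (Ql b l : ℤ) ≤ q := Int.le_of_dvd (by omega) hdvd
    have hle' : (Ql b l : ℝ) ≤ q := by exact_mod_cast hle
    rw [hval, hr, sub_self, zero_div, zero_add]
    have hρ : 0 < rhoB b l := lt_of_lt_of_le (by positivity) hlo
    rw [abs_of_nonneg (by positivity)]
    refine hlo.trans ?_
    rw [le_div_iff₀ hQ0]
    nlinarith
  · have hne : q * (Pl b l : ℤ) - p * (Ql b l : ℤ) ≠ 0 := sub_ne_zero.2 hcase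
    have h1 : (1 : ℝ) ≤ |(q : ℝ) * Pl b l - p * Ql b l| := by
      have := Int.one_le_abs hne
      exact_mod_cast this
    have hρ : 0 < rhoB b l := lt_of_lt_of_le (by positivity) hlo
    have h2 : q * rhoB b l ≤ 1 / 2 := by
      have h3 : (q : ℝ) * rhoB b l ≤ q * (2 / (Ql b l : ℝ) ^ 2) :=
        mul_le_mul_of_nonneg_left hup (by linarith)
      have h4 : (q : ℝ) * (2 / (Ql b l : ℝ) ^ 2) ≤ 1 / 2 := by
        rw [mul_div_assoc', div_le_iff₀ (by positivity)]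
        linarith
      exact h3.trans h4
    have h5 : (1 / 2 : ℝ) / Ql b l ≤ |(q : ℝ) * thB b - p| := by
      rw [hval, ← add_div, abs_div, abs_of_pos hQ0]
      apply div_le_div_of_nonneg_right _ hQ0.le
      have h6 := abs_sub_abs_le_abs_sub ((q : ℝ) * Pl b l - p * Ql b l) (-(q * rhoB b l))
      rw [sub_neg_eq_add, abs_neg, abs_of_nonneg (show (0 : ℝ) ≤ q * rhoB b l by positivity)] at h6
      linarith
    refine le_trans ?_ h5
    rw [div_le_div_iff₀ (by positivity) hQ0]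
    nlinarith

theorem cdioph_core' (h : Stmt_Basic) {b : ℕ} (hb : 5 ≤ b) (l : ℕ) (q p : ℤ) (hq : q ≠ 0)
    (hq' : 4 * |(q : ℝ)| ≤ (Ql b l : ℝ) ^ 2) :
    1 / (Ql b l : ℝ) ^ 2 ≤ |(q : ℝ) * thB b - p| := by
  rcases lt_or_gt_of_ne hq with h1 | h1
  · have h2 : |(q : ℝ)| = -q := abs_of_neg (by exact_mod_cast h1)
    have h3 := cdioph_core h hb l (-q) (-p) (by omega) (by push_cast; linarith)
    have h4 : ((-q : ℤ) : ℝ) * thB b - ((-p : ℤ) : ℝ) = -((q : ℝ) * thB b - p) := by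
      push_cast
      ring
    rw [h4, abs_neg] at h3
    exact h3
  · have h2 : |(q : ℝ)| = q := abs_of_pos (by exact_mod_cast h1)
    exact cdioph_core h hb l q p (by omega) (by linarith)

/-- the minimal scale -/
theorem cdioph_scale {b : ℕ} (hb : 5 ≤ b) (A x : ℝ) (hA8 : A ≤ 8) (hx : 0 < x) :
    ∃ l, A * x ≤ (Ql b l : ℝ) ^ 2 ∧ (l = 0 ∨ (Ql b l : ℝ) ^ 2 ≤ 512 * x ^ 3) := by
  classical
  have hex : ∃ l, A * x ≤ (Ql b l : ℝ) ^ 2 := by
    obtain ⟨n, hn⟩ := exists_nat_ge (A * x)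
    refine ⟨n, hn.trans ?_⟩
    have h1 : (n : ℝ) ≤ Ql b n := by
      have := cdioph_ge hb n
      have h2 : n ≤ Ql b n := by omega
      exact_mod_cast h2
    have h3 : (1 : ℝ) ≤ Ql b n := by
      have := cdioph_ge hb n
      have h2 : 1 ≤ Ql b n := by omega
      exact_mod_cast h2
    nlinarith
  refine ⟨Nat.find hex, Nat.find_spec hex, ?_⟩
  rcases Nat.eq_zero_or_pos (Nat.find hex) with h0 | h0
  · exact Or.inl h0
  · right
    obtain ⟨k, hk⟩ : ∃ k, Nat.find hex = k + 1 := ⟨Nat.find hex - 1, by omega⟩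
    have h1 := Nat.find_min hex (show k < Nat.find hex by omega)
    rw [not_le] at h1
    rw [hk, cdioph_succ]
    push_cast
    have h2 : (Ql b k : ℝ) ^ 2 < 8 * x := h1.trans_le (by nlinarith)
    calc ((Ql b k : ℝ) ^ 3) ^ 2 = ((Ql b k : ℝ) ^ 2) ^ 3 := by ring
      _ ≤ (8 * x) ^ 3 := pow_le_pow_left₀ (by positivity) h2.le 3
      _ = 512 * x ^ 3 := by ring

theorem cdioph_Msum {b : ℕ} (hb : 5 ≤ b) (k : ℕ) :
    Ql b k ≤ ∑ l ∈ range (k + 1), Ql b l ∧ ∑ l ∈ range (k + 1), Ql b l ≤ 2 * Ql b k := by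
  constructor
  · exact Finset.single_le_sum (f := fun l => Ql b l) (fun _ _ => Nat.zero_le _)
      (Finset.mem_range.2 (Nat.lt_succ_self k))
  · induction k with
    | zero =>
      simp
      omega
    | succ k ih =>
      rw [Finset.sum_range_succ]
      have h1 := cdioph_ge hb k
      have h2 : 2 * Ql b k ≤ Ql b (k + 1) := by
        rw [cdioph_succ]
        nlinarith [Nat.pow_le_pow_left (show 2 ≤ Ql b k by omega) 2]
      omega

theorem cdioph_sumrho (b k : ℕ) : ∑ l ∈ range (k + 1), rhoB b l =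
    ((∑ l ∈ range (k + 1), Ql b l : ℕ) : ℝ) * thB b - ((∑ l ∈ range (k + 1), Pl b l : ℕ) : ℝ) := by
  unfold rhoB
  rw [Finset.sum_sub_distrib, ← Finset.sum_mul]
  push_cast
  rfl

theorem cdioph_tau (h : Stmt_Basic) {b : ℕ} (hb : 5 ≤ b) (k : ℕ) :
    ∃ τ : ℝ, ysB b = 2 * (∑ l ∈ range (k + 1), rhoB b l + τ) ∧
      1 / (Ql b k : ℝ) ^ 6 ≤ τ ∧ τ ≤ 4 / (Ql b k : ℝ) ^ 6 := by
  obtain ⟨-, -, -, -, hs, hl⟩ := h b hb
  have hpos : ∀ l, 0 < rhoB b l := by
    intro l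
    have hQ : 0 < (Ql b l : ℝ) := by
      have := cdioph_ge hb l
      have h2 : 0 < Ql b l := by omega
      exact_mod_cast h2
    exact lt_of_lt_of_le (by positivity) (hl l).2.1
  have hs' : Summable fun l => rhoB b (l + (k + 1)) := (summable_nat_add_iff (k + 1)).2 hs
  have hQ6 : (Ql b (k + 1) : ℝ) ^ 2 = (Ql b k : ℝ) ^ 6 := by
    rw [cdioph_succ]
    push_cast
    ring
  refine ⟨∑' l, rhoB b (l + (k + 1)), ?_, ?_, ?_⟩
  · unfold ysB
    rw [← hs.sum_add_tsum_nat_add (k + 1)]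
  · have h1 : rhoB b (0 + (k + 1)) ≤ ∑' l, rhoB b (l + (k + 1)) :=
      hs'.le_tsum 0 fun l _ => (hpos _).le
    refine le_trans ?_ h1
    rw [zero_add, ← hQ6]
    exact (hl (k + 1)).2.1
  · have hgr : ∀ l, (2 : ℝ) ^ l * (Ql b (k + 1) : ℝ) ^ 2 ≤ (Ql b (l + (k + 1)) : ℝ) ^ 2 := by
      intro l
      induction l with
      | zero => simp
      | succ l ih =>
        have e : l + 1 + (k + 1) = l + (k + 1) + 1 := by ring
        rw [e, cdioph_succ b (l + (k + 1)), pow_succ]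
        push_cast
        have hQ : (32 : ℝ) ≤ Ql b (l + (k + 1)) := by
          have := cdioph_ge hb (l + (k + 1))
          have h2 : 32 ≤ Ql b (l + (k + 1)) := by omega
          exact_mod_cast h2
        have h3 : 2 * (Ql b (l + (k + 1)) : ℝ) ^ 2 ≤ ((Ql b (l + (k + 1)) : ℝ) ^ 3) ^ 2 := by
          have e2 : ((Ql b (l + (k + 1)) : ℝ) ^ 3) ^ 2 =
            (Ql b (l + (k + 1)) : ℝ) ^ 4 * (Ql b (l + (k + 1)) : ℝ) ^ 2 := by ring
          rw [e2]
          apply mul_le_mul_of_nonneg_right _ (by positivity)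
          have h4 : (32 : ℝ) ^ 4 ≤ (Ql b (l + (k + 1)) : ℝ) ^ 4 :=
            pow_le_pow_left₀ (by norm_num) hQ 4
          linarith
        nlinarith
    have hQp : (0 : ℝ) < (Ql b (k + 1) : ℝ) ^ 2 := by
      have := cdioph_ge hb (k + 1)
      have h2 : 0 < Ql b (k + 1) := by omega
      have h3 : (0 : ℝ) < Ql b (k + 1) := by exact_mod_cast h2
      positivity
    have hle : ∀ l, rhoB b (l + (k + 1)) ≤ 2 / (Ql b (k + 1) : ℝ) ^ 2 * (1 / 2) ^ l := by
      intro l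
      refine (hl (l + (k + 1))).2.2.trans ?_
      have h1 := hgr l
      have h2 : (0 : ℝ) < (2 : ℝ) ^ l := by positivity
      calc 2 / (Ql b (l + (k + 1)) : ℝ) ^ 2 ≤ 2 / ((2 : ℝ) ^ l * (Ql b (k + 1) : ℝ) ^ 2) :=
            div_le_div_of_nonneg_left (by norm_num) (by positivity) h1
        _ = 2 / (Ql b (k + 1) : ℝ) ^ 2 * (1 / 2) ^ l := by
            rw [one_div_pow]
            field_simp
    have hg : Summable fun l : ℕ => 2 / (Ql b (k + 1) : ℝ) ^ 2 * (1 / 2 : ℝ) ^ l :=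
      summable_geometric_two.mul_left _
    calc ∑' l, rhoB b (l + (k + 1)) ≤ ∑' l : ℕ, 2 / (Ql b (k + 1) : ℝ) ^ 2 * (1 / 2 : ℝ) ^ l :=
          hs'.tsum_le_tsum hle hg
      _ = 4 / (Ql b k : ℝ) ^ 6 := by
          rw [tsum_mul_left, tsum_geometric_two, hQ6]
          ring

theorem hDioph (h : Stmt_Basic) : Stmt_Dioph := by
  intro b hb
  have hQ0 : (32 : ℝ) ≤ Ql b 0 := by
    have := cdioph_ge hb 0
    have h2 : 32 ≤ Ql b 0 := by omega
    exact_mod_cast h2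
  have hc : (1 : ℝ) / (Ql b 0 : ℝ) ^ 2 ≤ 1 / 1024 := by
    apply one_div_le_one_div_of_le (by norm_num)
    nlinarith
  have hc0 : (0 : ℝ) < 1 / (Ql b 0 : ℝ) ^ 2 := by positivity
  refine ⟨1 / (Ql b 0 : ℝ) ^ 2, hc0, ?_, ?_⟩
  · intro q hq p
    have hqa : (1 : ℝ) ≤ |(q : ℝ)| := by
      have := Int.one_le_abs hq
      exact_mod_cast this
    have hq3 : (1 : ℝ) ≤ |(q : ℝ)| ^ 3 := one_le_pow₀ hqa
    obtain ⟨l, hl, hl'⟩ := cdioph_scale hb 4 |(q : ℝ)| (by norm_num) (by linarith)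
    have h1 := cdioph_core' h hb l q p hq hl
    refine le_trans ?_ h1
    rcases hl' with rfl | hl'
    · exact div_le_self hc0.le hq3
    · have hQl : (0 : ℝ) < (Ql b l : ℝ) ^ 2 := by linarith
      rw [div_le_div_iff₀ (by linarith) hQl]
      nlinarith
  · intro M hM N
    have hMa : (1 : ℝ) ≤ |(M : ℝ)| := by
      have := Int.one_le_abs hM
      exact_mod_cast this
    have hM3 : (1 : ℝ) ≤ |(M : ℝ)| ^ 3 := one_le_pow₀ hMa
    have hM6 : (1 : ℝ) ≤ |(M : ℝ)| ^ 6 := one_le_pow₀ hMa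
    obtain ⟨k, hk, hk'⟩ := cdioph_scale hb 8 |(M : ℝ)| (by norm_num) (by linarith)
    obtain ⟨τ, hy, hτ1, hτ2⟩ := cdioph_tau h hb k
    rw [cdioph_sumrho] at hy
    set Mk : ℕ := ∑ l ∈ range (k + 1), Ql b l with hMk
    set Nk : ℕ := ∑ l ∈ range (k + 1), Pl b l with hNk
    obtain ⟨hMk1, hMk2⟩ := cdioph_Msum hb k
    rw [← hMk] at hMk1 hMk2
    have hMk1' : (Ql b k : ℝ) ≤ Mk := by exact_mod_cast hMk1
    have hMk2' : (Mk : ℝ) ≤ 2 * Ql b k := by exact_mod_cast hMk2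
    have hQk : (32 : ℝ) ≤ Ql b k := by
      have := cdioph_ge hb k
      have h2 : 32 ≤ Ql b k := by omega
      exact_mod_cast h2
    have hQ6 : (0 : ℝ) < (Ql b k : ℝ) ^ 6 := by positivity
    have hval : ysB b + 2 * N - 2 * M * thB b =
        -2 * (((M - Mk : ℤ) : ℝ) * thB b - ((N - Nk : ℤ) : ℝ) - τ) := by
      rw [hy]
      push_cast
      ring
    have hτ3 : τ ≤ 1 / 2 / (Ql b k : ℝ) ^ 2 := by
      refine hτ2.trans ?_
      rw [div_le_div_iff₀ hQ6 (by positivity)]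
      have e : (Ql b k : ℝ) ^ 6 = (Ql b k : ℝ) ^ 4 * (Ql b k : ℝ) ^ 2 := by ring
      rw [e]
      have h4 : (32 : ℝ) ^ 4 ≤ (Ql b k : ℝ) ^ 4 := pow_le_pow_left₀ (by norm_num) hQk 4
      have h5 : (0 : ℝ) < (Ql b k : ℝ) ^ 2 := by positivity
      nlinarith
    have hτ0 : 0 ≤ τ := le_trans (by positivity) hτ1
    by_cases hcase : M = Mk
    · by_cases hcN : N = Nk
      · have e : ysB b + 2 * N - 2 * M * thB b = 2 * τ := by
          rw [hval, hcase, hcN]
          simp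
        rw [e, abs_of_nonneg (show (0 : ℝ) ≤ 2 * τ by linarith)]
        have h1 : (Ql b k : ℝ) ^ 6 ≤ |(M : ℝ)| ^ 6 := by
          apply pow_le_pow_left₀ (by linarith)
          rw [hcase]
          push_cast
          rw [abs_of_nonneg (by positivity)]
          exact hMk1'
        have h2 : 1 / |(M : ℝ)| ^ 6 ≤ 1 / (Ql b k : ℝ) ^ 6 := one_div_le_one_div_of_le hQ6 h1
        have h3 : 1 / (Ql b 0 : ℝ) ^ 2 / |(M : ℝ)| ^ 6 ≤ 1 / |(M : ℝ)| ^ 6 :=
          div_le_div_of_nonneg_right (by linarith) (by positivity)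
        linarith
      · have e : ysB b + 2 * N - 2 * M * thB b = 2 * (((N - Nk : ℤ) : ℝ) + τ) := by
          rw [hval, hcase]
          push_cast
          ring
        rw [e, abs_mul]
        have h1 : (1 : ℝ) ≤ |((N - Nk : ℤ) : ℝ)| := by
          have := Int.one_le_abs (sub_ne_zero.2 hcN)
          exact_mod_cast this
        have h2 := abs_sub_abs_le_abs_sub (((N - Nk : ℤ) : ℝ)) (-τ)
        rw [sub_neg_eq_add, abs_neg, abs_of_nonneg hτ0] at h2
        have h3 : τ ≤ 1 / 2 := by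
          refine hτ3.trans ?_
          apply div_le_self (by norm_num)
          nlinarith
        have h4 : 1 / (Ql b 0 : ℝ) ^ 2 / |(M : ℝ)| ^ 6 ≤ 1 / (Ql b 0 : ℝ) ^ 2 :=
          div_le_self hc0.le hM6
        rw [abs_of_pos (show (0 : ℝ) < 2 by norm_num)]
        linarith
    · have hq : M - Mk ≠ 0 := sub_ne_zero.2 hcase
      have hqb : 4 * |((M - Mk : ℤ) : ℝ)| ≤ (Ql b k : ℝ) ^ 2 := by
        have h1 : |((M - Mk : ℤ) : ℝ)| ≤ |(M : ℝ)| + Mk := by
          push_cast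
          have := abs_sub (M : ℝ) (Mk : ℝ)
          rw [abs_of_nonneg (show (0 : ℝ) ≤ (Mk : ℝ) by positivity)] at this
          exact this
        nlinarith
      have h1 := cdioph_core' h hb k (M - Mk) (N - Nk) hq hqb
      have h2 := abs_sub_abs_le_abs_sub (((M - Mk : ℤ) : ℝ) * thB b - ((N - Nk : ℤ) : ℝ)) τ
      rw [abs_of_nonneg hτ0] at h2
      rw [hval, abs_mul]
      have h3 : |(-2 : ℝ)| = 2 := by norm_num
      rw [h3]
      have h4 : 1 / (Ql b k : ℝ) ^ 2 ≤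
          2 * |((M - Mk : ℤ) : ℝ) * thB b - ((N - Nk : ℤ) : ℝ) - τ| := by
        have e : 1 / 2 / (Ql b k : ℝ) ^ 2 = (1 / (Ql b k : ℝ) ^ 2) / 2 := by ring
        rw [e] at hτ3
        linarith
      refine le_trans ?_ h4
      rcases hk' with rfl | hk'
      · exact div_le_self hc0.le hM6
      · have hQl : (0 : ℝ) < (Ql b k : ℝ) ^ 2 := by positivity
        rw [div_le_div_iff₀ (by linarith) hQl]
        have e6 : |(M : ℝ)| ^ 6 = |(M : ℝ)| ^ 3 * |(M : ℝ)| ^ 3 := by ring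
        rw [e6]
        nlinarith

end Horo
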