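import Pool.Agent.Horo.ADefs

/-!
# Problem MP_943ece_an, (B3): every good `m` gives a chained pair
-/

namespace Horo

theorem chain_ind (h1 : Stmt_ChainStep) (κ η ys : ℝ) (m : ℕ) (n : ℤ) (hκ : 0 < κ)
    (hκ1 : κ ≤ 1 / 100) (hη : η = κ / 10) (hys : 0 < ys) (hys2 : ys < 1 / 2) (hm : 0 < m)
    (hcop : IsCoprime (m : ℤ) n) :
    ∀ (k : ℕ) (M N : ℤ), M.natAbs ≤ k → (Dm m n (2 * M.natAbs) : ℝ) ≤ η * m →
      2 * M.natAbs ≤ m → |(M : ℝ)| * |2 * (M : ℝ) * n / m - ys - 2 * N| ≤ η / 2 →
      (M = 0 → N = 0) → Chained ys κ (M, N) := by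
  intro k
  induction k with
  | zero =>
    intro M N hM _ _ _ h0
    have hM0 : M = 0 := by
      rw [← Int.natAbs_eq_zero]
      omega
    have hN0 := h0 hM0
    subst hM0
    subst hN0
    exact Relation.ReflTransGen.refl
  | succ k ih =>
    intro M N hM hD h2M he h0
    by_cases hM0 : M = 0
    · have hN0 := h0 hM0
      subst hM0
      subst hN0
      exact Relation.ReflTransGen.refl
    have hη0 : 0 < η := by rw [hη]; linarith
    have hη1 : η ≤ 1 / 1000 := by rw [hη]; linarith
    have hA1 : 1 ≤ M.natAbs := Int.natAbs_pos.2 hM0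
    obtain ⟨q, p, a, hq1, hq2, hqp, hx, hMa, hD'⟩ :=
      h1 m n M.natAbs η hm hcop hA1 h2M hη0 (by linarith) hD
    have hmR : (0 : ℝ) < m := by exact_mod_cast hm
    have hqR : (1 : ℝ) ≤ q := by exact_mod_cast hq1
    have hA : ((M.natAbs : ℕ) : ℝ) = |(M : ℝ)| := by
      rw [Nat.cast_natAbs, Int.cast_abs]
    rw [hA] at hx hMa
    have hApos : (1 : ℝ) ≤ |(M : ℝ)| := by
      rw [← hA]
      exact_mod_cast hA1
    have hq2R : (q : ℝ) < 2 * |(M : ℝ)| := by
      rw [← hA]
      exact_mod_cast hq2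
    -- the sign
    have hsg : M.sign * (M.natAbs : ℤ) = M := Int.sign_mul_natAbs M
    have hs1 : M.sign.natAbs = 1 := Int.natAbs_sign_of_ne_zero hM0
    have hMR : (M : ℝ) = (M.sign : ℝ) * |(M : ℝ)| := by
      have h3 : M = M.sign * |M| := by
        rw [Int.abs_eq_natAbs]
        exact hsg.symm
      exact_mod_cast h3
    have hsabs : |(M.sign : ℝ)| = 1 := by
      have : ((M.sign.natAbs : ℕ) : ℝ) = |(M.sign : ℝ)| := by
        rw [Nat.cast_natAbs, Int.cast_abs]
      rw [← this, hs1]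
      simp
    have hM' : M - M.sign * a * q = M.sign * ((M.natAbs : ℤ) - a * q) := by
      rw [mul_sub, hsg]
      ring
    have hM'abs : (M - M.sign * a * q).natAbs = ((M.natAbs : ℤ) - a * q).natAbs := by
      rw [hM', Int.natAbs_mul, hs1, one_mul]
    have hM'R : |((M - M.sign * a * q : ℤ) : ℝ)| ≤ 6 * η * q := by
      rw [hM']
      push_cast
      rw [abs_mul, hsabs, one_mul]
      exact hMa
    set X : ℝ := (q : ℝ) * n / m - p with hX
    set e : ℝ := 2 * (M : ℝ) * n / m - ys - 2 * N with hedef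
    have hL : (q : ℝ) * (ys + 2 * N) - 2 * M * p = 2 * M * X - q * e := by
      rw [hX, hedef]
      ring
    have hxa : 0 ≤ |X| := abs_nonneg _
    have hea : 0 ≤ |e| := abs_nonneg _
    have hLb : |(q : ℝ) * (ys + 2 * N) - 2 * M * p| ≤ 5 * η := by
      rw [hL]
      have h3 : |2 * (M : ℝ) * X - q * e| ≤ 2 * |(M : ℝ)| * |X| + q * |e| := by
        refine (abs_sub _ _).trans ?_
        rw [abs_mul, abs_mul, abs_mul, abs_two, Nat.abs_cast]
      have h4 : (q : ℝ) * |e| ≤ 2 * |(M : ℝ)| * |e| := mul_le_mul_of_nonneg_right hq2R.le hea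
      linarith
    have haq : |(a : ℝ)| * q ≤ (1 + 12 * η) * |(M : ℝ)| := by
      have h3 : |(a : ℝ) * q| ≤ |(M : ℝ)| + 6 * η * q := by
        have h4 : (a : ℝ) * q = |(M : ℝ)| - (|(M : ℝ)| - a * q) := by ring
        rw [h4]
        refine (abs_sub _ _).trans ?_
        rw [abs_abs]
        linarith
      rw [abs_mul, Nat.abs_cast] at h3
      have h5 : 6 * η * q ≤ 12 * η * |(M : ℝ)| := by
        have := mul_le_mul_of_nonneg_left hq2R.le (by linarith : 0 ≤ 6 * η)
        linarith
      linarith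
    have hM'lt : |((M - M.sign * a * q : ℤ) : ℝ)| ≤ 12 * η * |(M : ℝ)| := by
      have := mul_le_mul_of_nonneg_left hq2R.le (by linarith : 0 ≤ 6 * η)
      linarith
    have hM'lt2 : (M - M.sign * a * q).natAbs < M.natAbs := by
      have h3 : (((M - M.sign * a * q).natAbs : ℕ) : ℝ) < ((M.natAbs : ℕ) : ℝ) := by
        rw [Nat.cast_natAbs, Int.cast_abs, hA]
        refine lt_of_le_of_lt hM'lt ?_
        have : 12 * η * |(M : ℝ)| ≤ (12 / 1000) * |(M : ℝ)| :=
          mul_le_mul_of_nonneg_right (by linarith) (by linarith)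
        linarith
      exact_mod_cast h3
    have he' : 2 * ((M - M.sign * a * q : ℤ) : ℝ) * n / m - ys - 2 * ((N - M.sign * a * p : ℤ) : ℝ)
        = e - 2 * (M.sign * a) * X := by
      rw [hX, hedef]
      push_cast
      field_simp
      ring
    have hM'e : |((M - M.sign * a * q : ℤ) : ℝ)| *
        |2 * ((M - M.sign * a * q : ℤ) : ℝ) * n / m - ys - 2 * ((N - M.sign * a * p : ℤ) : ℝ)|
        ≤ η / 2 := by
      rw [he']
      have h3 : |e - 2 * (M.sign * a) * X| ≤ |e| + 2 * |(a : ℝ)| * |X| := by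
        refine (abs_sub _ _).trans ?_
        rw [abs_mul, abs_mul, abs_mul, hsabs, abs_two, one_mul]
      have hM'0 : 0 ≤ |((M - M.sign * a * q : ℤ) : ℝ)| := abs_nonneg _
      have h4 : |((M - M.sign * a * q : ℤ) : ℝ)| * |e| ≤ 12 * η * (η / 2) := by
        calc |((M - M.sign * a * q : ℤ) : ℝ)| * |e| ≤ 12 * η * |(M : ℝ)| * |e| :=
              mul_le_mul_of_nonneg_right hM'lt hea
          _ = 12 * η * (|(M : ℝ)| * |e|) := by ring
          _ ≤ 12 * η * (η / 2) := mul_le_mul_of_nonneg_left he (by linarith)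
      have h5 : |((M - M.sign * a * q : ℤ) : ℝ)| * (2 * |(a : ℝ)| * |X|) ≤
          12 * η * ((1 + 12 * η) * (2 * η)) := by
        calc |((M - M.sign * a * q : ℤ) : ℝ)| * (2 * |(a : ℝ)| * |X|)
            ≤ 6 * η * q * (2 * |(a : ℝ)| * |X|) :=
              mul_le_mul_of_nonneg_right hM'R (by positivity)
          _ = 12 * η * (|(a : ℝ)| * q * |X|) := by ring
          _ ≤ 12 * η * ((1 + 12 * η) * |(M : ℝ)| * |X|) := by
              refine mul_le_mul_of_nonneg_left ?_ (by linarith)
              exact mul_le_mul_of_nonneg_right haq hxa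
          _ = 12 * η * ((1 + 12 * η) * (|(M : ℝ)| * |X|)) := by ring
          _ ≤ 12 * η * ((1 + 12 * η) * (2 * η)) := by
              refine mul_le_mul_of_nonneg_left ?_ (by linarith)
              refine mul_le_mul_of_nonneg_left ?_ (by linarith)
              linarith
      have h6 := mul_le_mul_of_nonneg_left h3 hM'0
      rw [mul_add] at h6
      have h7 : 12 * η * (η / 2) ≤ (1 / 1000) * (12 * (η / 2)) := by nlinarith
      have h8 : 12 * η * ((1 + 12 * η) * (2 * η)) ≤ 12 * η * ((1 + 12 * (1 / 1000)) * (2 * (1 / 1000))) := by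
        refine mul_le_mul_of_nonneg_left ?_ (by linarith)
        refine mul_le_mul ?_ ?_ (by linarith) (by linarith)
        · linarith
        · linarith
      linarith
    have hzero : M - M.sign * a * q = 0 → N - M.sign * a * p = 0 := by
      intro hz
      have h3 : (M : ℝ) = M.sign * a * q := by
        have : M = M.sign * a * q := by linarith
        exact_mod_cast this
      have h4 : (q : ℝ) * (ys + 2 * N) - 2 * M * p =
          q * (ys + 2 * ((N - M.sign * a * p : ℤ) : ℝ)) := by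
        push_cast
        have h5 : (2 : ℝ) * M * p = 2 * (M.sign * a * q) * p := by rw [← h3]
        rw [h5]
        ring
      rw [h4, abs_mul, Nat.abs_cast] at hLb
      have h5 : |ys + 2 * ((N - M.sign * a * p : ℤ) : ℝ)| ≤ 5 * η := by
        have h6 : 1 * |ys + 2 * ((N - M.sign * a * p : ℤ) : ℝ)| ≤
            q * |ys + 2 * ((N - M.sign * a * p : ℤ) : ℝ)| :=
          mul_le_mul_of_nonneg_right hqR (abs_nonneg _)
        linarith
      obtain ⟨h6, h7⟩ := abs_le.1 h5
      by_contra hne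
      rcases lt_or_gt_of_ne hne with h8 | h8
      · have h9 : ((N - M.sign * a * p : ℤ) : ℝ) ≤ -1 := by
          have : N - M.sign * a * p ≤ -1 := by linarith
          exact_mod_cast this
        linarith
      · have h9 : (1 : ℝ) ≤ ((N - M.sign * a * p : ℤ) : ℝ) := by
          have : 1 ≤ N - M.sign * a * p := by linarith
          exact_mod_cast this
        linarith
    have hch : Chained ys κ (M - M.sign * a * q, N - M.sign * a * p) := by
      apply ih
      · omega
      · rw [hM'abs]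
        have : (Dm m n (2 * ((M.natAbs : ℤ) - a * q).natAbs) : ℝ) ≤ Dm m n (2 * M.natAbs) := by
          exact_mod_cast hD'
        linarith
      · omega
      · exact hM'e
      · exact hzero
    refine Relation.ReflTransGen.tail hch ?_
    refine ⟨q, p, M.sign * a, hq1, hqp, hq2R, ?_, ?_, ?_, ?_⟩
    · show |((M - M.sign * a * q : ℤ) : ℝ)| ≤ κ * q
      have : 6 * η * q ≤ κ * q := mul_le_mul_of_nonneg_right (by linarith) (by linarith)
      linarith
    · show |(q : ℝ) * (ys + 2 * (N : ℝ)) - 2 * (M : ℝ) * p| ≤ κ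
      linarith
    · show M = M - M.sign * a * q + M.sign * a * q
      ring
    · show N = N - M.sign * a * p + M.sign * a * p
      ring

theorem hChain (h1 : Stmt_ChainStep) (h2 : Stmt_Top) : Stmt_Chain := by
  intro κ η θ ys η3 m n hκ hκ1 hη hys hys2 hη3 hη3' hG
  obtain ⟨n1, E, hGD⟩ := hG
  obtain ⟨M, N, hM0, h2M, hMn, hD⟩ := h2 θ ys η η3 m n n1 E hGD hys hys2 hη3
  have hmR : (0 : ℝ) < m := by exact_mod_cast hGD.pos
  have hMnR : (M : ℝ) * n = n1 + N * m := by exact_mod_cast hMn
  have h2MR : 2 * |(M : ℝ)| ≤ m := by exact_mod_cast h2M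
  have hη0 : 0 < η := by rw [hη]; linarith
  have hnear : |(m : ℝ) * (ys + 2 * N) - 2 * M * n| ≤ η3 := by
    have h3 : (m : ℝ) * (ys + 2 * N) - 2 * M * n = m * ys - 2 * n1 := by
      linear_combination (-2 : ℝ) * hMnR
    rw [h3]
    exact hGD.near
  refine ⟨(M, N), hM0, h2M, ?_, hnear⟩
  refine chain_ind h1 κ η ys m n hκ hκ1 hη hys hys2 hGD.pos hGD.cop M.natAbs M N (le_refl _) hD
    ?_ ?_ (fun h => absurd h hM0)
  · have : ((2 * M.natAbs : ℕ) : ℤ) ≤ m := by
      push_cast
      exact h2M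
    exact_mod_cast this
  · have h4 : 2 * (M : ℝ) * n / m - ys - 2 * N = -(((m : ℝ) * (ys + 2 * N) - 2 * M * n) / m) := by
      field_simp
      ring
    rw [h4, abs_neg, abs_div, Nat.abs_cast, mul_div_assoc', div_le_iff₀ hmR]
    have h5 : |(M : ℝ)| * |(m : ℝ) * (ys + 2 * N) - 2 * M * n| ≤ |(M : ℝ)| * η :=
      mul_le_mul_of_nonneg_left (hnear.trans hη3') (abs_nonneg _)
    have h6 : |(M : ℝ)| * η ≤ (m / 2) * η := mul_le_mul_of_nonneg_right (by linarith) hη0.le
    linarith

end Horo
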