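import Pool.Agent.Horo.ADefs

/-!
# Counting lemmas for the chain step (B2)
-/

open Finset

namespace Horo

theorem chainCount_per {m : ℕ} {P : ℤ → Prop} (hP : ∀ r, P (r + m) ↔ P r) (k r : ℤ) :
    P (r + k * m) ↔ P r := by
  have key : ∀ k : ℕ, ∀ r, P (r + k * m) ↔ P r := by
    intro k
    induction k with
    | zero => intro r; simp
    | succ k ih =>
      intro r
      have : r + ((k + 1 : ℕ) : ℤ) * m = (r + k * m) + m := by push_cast; ring
      rw [this, hP, ih]
  rcases Int.le_total 0 k with h | h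
  · obtain ⟨j, rfl⟩ := Int.eq_ofNat_of_zero_le h
    exact key j r
  · obtain ⟨j, hj⟩ := Int.eq_ofNat_of_zero_le (show 0 ≤ -k by omega)
    have hk : k = -j := by omega
    subst hk
    rw [← key j (r + -(j : ℤ) * m)]
    have : r + -(j : ℤ) * m + j * m = r := by ring
    rw [this]

theorem chainCount_dvd {m : ℕ} {P : ℤ → Prop} (hP : ∀ r, P (r + m) ↔ P r) {a b : ℤ}
    (h : (m : ℤ) ∣ a - b) : P a ↔ P b := by
  obtain ⟨k, hk⟩ := h
  have : a = b + k * m := by linear_combination hk
  rw [this]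
  exact chainCount_per hP k b

theorem chainCount_shift (h2 : Stmt_CntShift) {m : ℕ} (hm : 0 < m) {P : ℤ → Prop}
    [DecidablePred P] (hP : ∀ r, P (r + m) ↔ P r) (a : ℤ) :
    ((range m).filter (fun r : ℕ => P (r + a))).card =
      ((range m).filter (fun r : ℕ => P r)).card := by
  have h := h2 m (fun r => if P r then -1 else 1) hm
    (fun r => by
      by_cases hr : P r
      · have := (hP r).2 hr
        simp [hr, this]
      · have : ¬ P (r + m) := fun h => hr ((hP r).1 h)
        simp [hr, this]) a (-1)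
  unfold cnt at h
  have e1 : ∀ z : ℤ, ((if P z then (-1 : ℤˣ) else 1) = -1) ↔ P z := by
    intro z
    by_cases hz : P z
    · simp [hz]
    · simp only [hz, if_false]
      constructor
      · intro h'
        exact absurd h' (by decide)
      · intro h'
        exact h'.elim
  simp only [e1] at h
  exact h

/-- Members of `Z` just below a given point. -/
theorem chainCount_window {m : ℕ} (_ : 0 < m) {Zp : ℤ → Prop} [DecidablePred Zp]
    (hZ : ∀ r, Zp (r + m) ↔ Zp r) {T W : ℕ}
    (hwin : ∀ x : ℤ, ((range T).filter (fun i : ℕ => Zp (x + i))).card ≤ W) (y : ℤ) {t : ℕ}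
    (ht : t ≤ T) (A : Finset ℕ) (hA : ∀ z ∈ A, z < m ∧ Zp z ∧
      ∃ i : ℕ, 1 ≤ i ∧ i ≤ t ∧ (m : ℤ) ∣ z + i - y) : A.card ≤ W := by
  refine le_trans ?_ (hwin (y - t))
  have hsub : A ⊆ ((range T).filter (fun i : ℕ => Zp (y - t + i))).image
      (fun i : ℕ => ((y - t + i) % m).toNat) := by
    intro z hz
    obtain ⟨hzm, hzZ, i, hi1, hit, hdvd⟩ := hA z hz
    rw [mem_image]
    have hcong : (m : ℤ) ∣ (y - t + ((t - i : ℕ) : ℤ)) - z := by
      have : ((t - i : ℕ) : ℤ) = t - i := by omega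
      rw [this]
      have h3 := (dvd_neg (a := (m : ℤ))).2 hdvd
      have h4 : (y - t + ((t : ℤ) - i)) - z = -(z + i - y) := by ring
      rw [h4]
      exact h3
    refine ⟨t - i, ?_, ?_⟩
    · rw [mem_filter, mem_range]
      exact ⟨by omega, (chainCount_dvd hZ hcong).2 hzZ⟩
    · have h5 : (y - t + ((t - i : ℕ) : ℤ)) % m = z := by
        have h6 := (Int.emod_emod_of_dvd (y - t + ((t - i : ℕ) : ℤ)) (dvd_refl (m : ℤ)))
        have h7 : (y - t + ((t - i : ℕ) : ℤ)) % m = (z : ℤ) % m :=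
          Int.emod_eq_emod_iff_emod_sub_eq_zero.2 (Int.emod_eq_zero_of_dvd hcong)
        rw [h7]
        exact Int.emod_eq_of_lt (by omega) (by omega)
      rw [h5]
      simp
  exact (card_le_card hsub).trans card_image_le

/-- The counting step. -/
theorem chainCount_main (h2 : Stmt_CntShift) {m : ℕ} (hm : 0 < m) {Zp Ap : ℤ → Prop}
    [DecidablePred Zp] [DecidablePred Ap] (hZ : ∀ r, Zp (r + m) ↔ Zp r)
    (hA : ∀ r, Ap (r + m) ↔ Ap r) {T W B : ℕ} (hT : 0 < T)
    (hwin : ∀ x : ℤ, ((range T).filter (fun i : ℕ => Zp (x + i))).card ≤ W) (y : ℕ → ℤ)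
    (hflip : ∀ (z : ℤ) (t : ℕ), Ap z → ¬ Ap (z + t) →
      ∃ j < B, ∃ i : ℕ, 1 ≤ i ∧ i ≤ t ∧ (m : ℤ) ∣ z + i - y j) :
    T * ((range m).filter (fun r : ℕ => Zp r ∧ Ap r)).card ≤
      ((range m).filter (fun r : ℕ => Ap r)).card * W + T * (B * W) := by
  classical
  set N : ℕ → ℕ := fun t => ((range m).filter (fun r : ℕ => Zp (r - t) ∧ Ap r)).card with hN
  -- double counting
  have hsum : ∑ t ∈ range T, N t ≤ ((range m).filter (fun r : ℕ => Ap r)).card * W := by
    have h3 : ∀ t, N t = ∑ r ∈ (range m).filter (fun r : ℕ => Ap r), if Zp (r - t) then 1 else 0 := by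
      intro t
      rw [hN]
      simp only
      rw [← sum_filter, filter_filter, sum_const, smul_eq_mul, mul_one]
      congr 1
      ext r
      simp only [mem_filter, mem_range]
      tauto
    simp_rw [h3]
    rw [sum_comm]
    rw [← smul_eq_mul]
    refine sum_le_card_nsmul _ _ _ ?_
    intro r _
    rw [← sum_filter, sum_const, smul_eq_mul, mul_one]
    refine le_trans ?_ (hwin (r - T + 1))
    have hsub : ((range T).filter (fun t : ℕ => Zp (r - t))) ⊆
        ((range T).filter (fun i : ℕ => Zp ((r : ℤ) - T + 1 + i))).image (fun i => T - 1 - i) := by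
      intro t ht
      rw [mem_filter, mem_range] at ht
      rw [mem_image]
      refine ⟨T - 1 - t, ?_, by omega⟩
      rw [mem_filter, mem_range]
      refine ⟨by omega, ?_⟩
      have : (r : ℤ) - T + 1 + ((T - 1 - t : ℕ) : ℤ) = r - t := by omega
      rw [this]
      exact ht.2
    exact (card_le_card hsub).trans card_image_le
  -- choose t
  obtain ⟨t, ht, hmin⟩ := exists_min_image (range T) N ⟨0, mem_range.2 hT⟩
  rw [mem_range] at ht
  have hTN : T * N t ≤ ((range m).filter (fun r : ℕ => Ap r)).card * W := by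
    refine le_trans ?_ hsum
    have := card_nsmul_le_sum (range T) N (N t) (fun x hx => hmin x hx)
    simpa using this
  -- the exceptional points
  have hexc : ((range m).filter (fun z : ℕ => Zp z ∧ Ap z ∧ ¬ Ap (z + t))).card ≤ B * W := by
    have hsub : (range m).filter (fun z : ℕ => Zp z ∧ Ap z ∧ ¬ Ap (z + t)) ⊆
        (range B).biUnion (fun j => (range m).filter (fun z : ℕ => Zp z ∧
          ∃ i : ℕ, 1 ≤ i ∧ i ≤ t ∧ (m : ℤ) ∣ z + i - y j)) := by
      intro z hz
      rw [mem_filter, mem_range] at hz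
      obtain ⟨hzm, hzZ, hzA, hzA'⟩ := hz
      obtain ⟨j, hj, i, h4, h5, h6⟩ := hflip z t hzA hzA'
      rw [mem_biUnion]
      refine ⟨j, mem_range.2 hj, ?_⟩
      rw [mem_filter, mem_range]
      exact ⟨hzm, hzZ, i, h4, h5, h6⟩
    refine (card_le_card hsub).trans (card_biUnion_le.trans ?_)
    have h4 : ∀ j ∈ range B, ((range m).filter (fun z : ℕ => Zp z ∧
          ∃ i : ℕ, 1 ≤ i ∧ i ≤ t ∧ (m : ℤ) ∣ z + i - y j)).card ≤ W := by
      intro j _
      refine chainCount_window hm hZ hwin (y j) ht.le _ ?_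
      intro z hz
      rw [mem_filter, mem_range] at hz
      exact hz
    have h5 := sum_le_card_nsmul (range B) _ W h4
    simpa using h5
  -- shift
  have hshift : ((range m).filter (fun z : ℕ => Zp z ∧ Ap (z + t))).card = N t := by
    have h5 := chainCount_shift h2 hm (P := fun z : ℤ => Zp (z - t) ∧ Ap z)
      (fun r => by
        have : r + m - t = (r - t) + m := by ring
        rw [this, hZ, hA]) t
    rw [hN]
    simp only at h5 ⊢
    rw [← h5]
    congr 1
    ext r
    simp only [mem_filter, mem_range, add_sub_cancel_right]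
  have hsplit : ((range m).filter (fun r : ℕ => Zp r ∧ Ap r)).card ≤ N t + B * W := by
    have hsub : (range m).filter (fun r : ℕ => Zp r ∧ Ap r) ⊆
        (range m).filter (fun z : ℕ => Zp z ∧ Ap (z + t)) ∪
        (range m).filter (fun z : ℕ => Zp z ∧ Ap z ∧ ¬ Ap (z + t)) := by
      intro z hz
      rw [mem_filter] at hz
      rw [mem_union, mem_filter, mem_filter]
      by_cases h : Ap (z + t)
      · exact Or.inl ⟨hz.1, hz.2.1, h⟩
      · exact Or.inr ⟨hz.1, hz.2.1, hz.2.2, h⟩
    refine (card_le_card hsub).trans ((card_union_le _ _).trans ?_)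
    rw [hshift]
    exact Nat.add_le_add_left hexc _
  calc T * ((range m).filter (fun r : ℕ => Zp r ∧ Ap r)).card ≤ T * (N t + B * W) :=
        Nat.mul_le_mul_left _ hsplit
    _ = T * N t + T * (B * W) := by ring
    _ ≤ _ := Nat.add_le_add_right hTN _

/-! ## Flips of `s_K` -/

theorem chainCount_ediv {m : ℕ} (hm : 0 < m) {x : ℤ} (hx : ¬ (m : ℤ) ∣ x) :
    x / m = (x - 1) / m := by
  have hm' : (0 : ℤ) < m := by exact_mod_cast hm
  have h1 := Int.emod_nonneg x hm'.ne'
  have h2 := Int.emod_lt_of_pos x hm'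
  have h3 : x % m ≠ 0 := fun h => hx (Int.dvd_of_emod_eq_zero h)
  have h4 := Int.emod_add_mul_ediv x m
  have h5 : x - 1 = (x % m - 1) + m * (x / m) := by linarith
  have h6 : 0 < x % m := lt_of_le_of_ne h1 h3.symm
  have h7 : (0 : ℤ) ≤ x % m - 1 := by linarith [Int.add_one_le_iff.2 h6]
  have h8 : x % m - 1 < m := by linarith
  rw [h5, Int.add_mul_ediv_left _ _ hm'.ne', Int.ediv_eq_zero_of_lt h7 h8, zero_add]

theorem chainCount_flip1 {m : ℕ} (hm : 0 < m) (n : ℤ) (K : ℕ) (r : ℤ)
    (h : sK m n K r ≠ sK m n K (r - 1)) : ∃ j < K, (m : ℤ) ∣ r - j * n := by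
  by_contra hcon
  push Not at hcon
  apply h
  unfold sK
  congr 1
  refine sum_congr rfl fun j hj => ?_
  rw [chainCount_ediv hm (hcon j (mem_range.1 hj))]
  congr 1
  ring

theorem chainCount_flip {m : ℕ} (hm : 0 < m) (n : ℤ) (K : ℕ) (c : ℤ) (z : ℤ) (t : ℕ)
    (h : sK m n K (z - c) ≠ sK m n K (z + t - c)) :
    ∃ j < K, ∃ i : ℕ, 1 ≤ i ∧ i ≤ t ∧ (m : ℤ) ∣ z + i - (c + j * n) := by
  induction t with
  | zero => simp at h
  | succ t ih =>
    by_cases h1 : sK m n K (z - c) = sK m n K (z + t - c)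
    · have h2 : sK m n K (z + (t + 1 : ℕ) - c) ≠ sK m n K (z + (t + 1 : ℕ) - c - 1) := by
        have : z + ((t + 1 : ℕ) : ℤ) - c - 1 = z + t - c := by push_cast; ring
        rw [this, ← h1]
        exact fun h' => h h'.symm
      obtain ⟨j, hj, hd⟩ := chainCount_flip1 hm n K _ h2
      refine ⟨j, hj, t + 1, by omega, le_refl _, ?_⟩
      have : z + ((t + 1 : ℕ) : ℤ) - (c + j * n) = z + ((t + 1 : ℕ) : ℤ) - c - j * n := by ring
      rw [this]
      exact hd
    · obtain ⟨j, hj, i, hi1, hi2, hd⟩ := ih h1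
      exact ⟨j, hj, i, hi1, by omega, hd⟩

end Horo
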