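import Pool.Agent.Horo.ChainCount

/-!
# The chain step (B2)
-/

open Finset

namespace Horo

theorem chainStep_dirichlet (ξ : ℝ) (M : ℕ) (η : ℝ) (hM : 1 ≤ M) (h0 : 0 < η)
    (h1 : η ≤ 1 / 100) : ∃ (q : ℕ) (p : ℤ), 1 ≤ q ∧ η * q ≤ M / 2 ∧ IsCoprime (q : ℤ) p ∧
      2 * (M : ℝ) * |q * ξ - p| < 4 * η := by
  have hM' : (1 : ℝ) ≤ M := by exact_mod_cast hM
  have hX : 0 < ⌊(M : ℝ) / (2 * η)⌋₊ := by
    rw [Nat.floor_pos, le_div_iff₀ (by positivity)]
    linarith
  obtain ⟨ρ, h2, h3⟩ := Real.exists_rat_abs_sub_le_and_den_le ξ hX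
  have hden : (0 : ℝ) < ρ.den := by exact_mod_cast ρ.den_pos
  have hle : (⌊(M : ℝ) / (2 * η)⌋₊ : ℝ) ≤ M / (2 * η) := Nat.floor_le (by positivity)
  refine ⟨ρ.den, ρ.num, ρ.den_pos, ?_, ?_, ?_⟩
  · have h4 : (ρ.den : ℝ) ≤ M / (2 * η) := le_trans (by exact_mod_cast h3) hle
    rw [le_div_iff₀ (by positivity)] at h4
    linarith
  · have := ρ.reduced
    exact (Int.isCoprime_iff_gcd_eq_one.2 (by
      rw [Int.gcd_comm]
      exact this))
  · have hlt := Nat.lt_floor_add_one ((M : ℝ) / (2 * η))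
    have h5 : (ρ.den : ℝ) * ξ - ρ.num = ρ.den * (ξ - ρ) := by
      have : (ρ : ℝ) = ρ.num / ρ.den := by exact_mod_cast (Rat.num_div_den ρ).symm
      rw [this]
      field_simp
    rw [h5, abs_mul, abs_of_pos hden]
    have h6 : (ρ.den : ℝ) * |ξ - ρ| ≤ 1 / ((⌊(M : ℝ) / (2 * η)⌋₊ : ℝ) + 1) := by
      calc (ρ.den : ℝ) * |ξ - ρ| ≤ ρ.den * (1 / (((⌊(M : ℝ) / (2 * η)⌋₊ : ℝ) + 1) * ρ.den)) :=
            mul_le_mul_of_nonneg_left h2 hden.le
        _ = _ := by field_simp
    have h7 : 1 / ((⌊(M : ℝ) / (2 * η)⌋₊ : ℝ) + 1) < 2 * η / M := by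
      rw [div_lt_div_iff₀ (by positivity) (by positivity)]
      rw [div_lt_iff₀ (by positivity)] at hlt
      linarith
    have h8 : (ρ.den : ℝ) * |ξ - ρ| < 2 * η / M := lt_of_le_of_lt h6 h7
    rw [lt_div_iff₀ (by positivity)] at h8
    linarith

theorem chainStep_sep {m : ℕ} (hm : 0 < m) (n : ℤ) {q : ℕ} {p : ℤ} (hq : 1 ≤ q)
    (hcop : IsCoprime (q : ℤ) p) {J : ℕ} (hJ : J ≤ q) {j j' : ℕ} (hj : j < J) (hj' : j' < J)
    (hne : j ≠ j') (k : ℤ) {κ : ℝ} (hκ : (J : ℝ) * |(q : ℝ) * ((n : ℝ) / m) - p| ≤ κ) :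
    (1 - κ) * m / q ≤ |((j : ℝ) - j') * n - k * m| := by
  have hm' : (0 : ℝ) < m := by exact_mod_cast hm
  have hq' : (0 : ℝ) < q := by exact_mod_cast hq
  set δ := (q : ℝ) * ((n : ℝ) / m) - p with hδ
  have hI : ((j : ℤ) - j') * p - k * q ≠ 0 := by
    intro h
    have h1 : (q : ℤ) ∣ ((j : ℤ) - j') * p := ⟨k, by linear_combination h⟩
    have h2 : (q : ℤ) ∣ (j : ℤ) - j' := hcop.dvd_of_dvd_mul_right h1
    have h3 : |(j : ℤ) - j'| < q := by
      rw [abs_lt]
      constructor <;> omega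
    have h4 := Int.eq_zero_of_abs_lt_dvd h2 h3
    omega
  have hI' : (1 : ℝ) ≤ |(((j : ℤ) - j') * p - k * q : ℤ)| := by
    exact_mod_cast Int.one_le_abs hI
  have hJd : |((j : ℝ) - j') * δ| ≤ κ := by
    rw [abs_mul]
    refine le_trans (mul_le_mul_of_nonneg_right ?_ (abs_nonneg δ)) hκ
    have h5 : (j : ℝ) < J := by exact_mod_cast hj
    have h6 : (j' : ℝ) < J := by exact_mod_cast hj'
    have h7 : (0 : ℝ) ≤ j := Nat.cast_nonneg j
    have h8 : (0 : ℝ) ≤ j' := Nat.cast_nonneg j'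
    rw [abs_le]
    constructor <;> linarith
  have hid : ((j : ℝ) - j') * n - k * m =
      (m / q) * ((((j : ℤ) - j') * p - k * q : ℤ) + ((j : ℝ) - j') * δ) := by
    rw [hδ]
    push_cast
    field_simp
    ring
  rw [hid, abs_mul, abs_of_pos (by positivity : (0 : ℝ) < m / q)]
  have h9 : 1 - κ ≤ |((((j : ℤ) - j') * p - k * q : ℤ) : ℝ) + ((j : ℝ) - j') * δ| := by
    have h10 := abs_sub_abs_le_abs_sub ((((j : ℤ) - j') * p - k * q : ℤ) : ℝ)
      (-(((j : ℝ) - j') * δ))
    rw [abs_neg, sub_neg_eq_add] at h10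
    have h11 : (1 : ℝ) ≤ |((((j : ℤ) - j') * p - k * q : ℤ) : ℝ)| := by
      rw [← Int.cast_abs]
      exact hI'
    linarith
  calc (1 - κ) * m / q = (m / q) * (1 - κ) := by ring
    _ ≤ _ := mul_le_mul_of_nonneg_left h9 (by positivity)

theorem chainStep_units (x y : ℤˣ) : x = y ∨ x = -y := by
  rcases Int.units_eq_one_or x with rfl | rfl <;> rcases Int.units_eq_one_or y with rfl | rfl <;>
    simp

theorem chainStep_ne_neg (x : ℤˣ) : x ≠ -x := by
  rcases Int.units_eq_one_or x with rfl | rfl <;> decide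

theorem hChainStep (h1 : Stmt_SK) (h2 : Stmt_CntShift) (h3 : Stmt_Gap) (h4 : Stmt_Cluster) :
    Stmt_ChainStep := by
  intro m n M η hm hcop hM hMm hη0 hη1 hD
  obtain ⟨q, p, hq1, hqM, hqp, hκ⟩ := chainStep_dirichlet ((n : ℝ) / m) M η hM hη0 hη1
  set δ := |(q : ℝ) * ((n : ℝ) / m) - p| with hδ
  have hδ0 : 0 ≤ δ := abs_nonneg _
  have hm' : (0 : ℝ) < m := by exact_mod_cast hm
  have hq' : (0 : ℝ) < q := by exact_mod_cast hq1
  have hM' : (1 : ℝ) ≤ M := by exact_mod_cast hM
  -- (1) `q < 2 M`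
  have hq2M : q < 2 * M := by
    by_contra hcon
    push Not at hcon
    have hgap := h3 m n M ((1 - 2 * M * δ) * m / q) hm (fun j j' hj hj' hne k =>
      chainStep_sep hm n hq1 hqp hcon hj hj' hne k (by push_cast; exact le_refl _))
    have h5 : (M : ℝ) * ((1 - 2 * M * δ) * m / q) ≤ η * m := hgap.trans hD
    have h6 : (M : ℝ) * (1 - 2 * M * δ) ≤ η * q := by
      have h7 : (M : ℝ) * ((1 - 2 * M * δ) * m / q) = (M * (1 - 2 * M * δ)) * m / q := by ring
      rw [h7, div_le_iff₀ hq'] at h5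
      have h8 : (M * (1 - 2 * M * δ)) * m ≤ (η * q) * m := by linarith
      exact le_of_mul_le_mul_right h8 hm'
    have h9 : (M : ℝ) * (1 - 2 * M * δ) ≤ M * (1 / 2) := by linarith
    have h10 := le_of_mul_le_mul_left h9 (by linarith)
    linarith
  have hq2M' : (q : ℝ) < 2 * M := by exact_mod_cast hq2M
  -- (2) `d`
  set d : ℤ := q * n - p * m with hd
  have hdeq : (q : ℤ) * n = p * m + d := by rw [hd]; ring
  have hd0 : d ≠ 0 := by
    intro h
    have h5 : (m : ℤ) ∣ q * n := ⟨p, by rw [hdeq, h]; ring⟩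
    have h6 : (m : ℤ) ∣ q := hcop.dvd_of_dvd_mul_right h5
    have h7 : m ∣ q := by exact_mod_cast h6
    have := Nat.le_of_dvd (by omega) h7
    omega
  have hdabs : (|d| : ℤ) = (d.natAbs : ℤ) := Int.abs_eq_natAbs d
  have hdreal : ((d.natAbs : ℕ) : ℝ) = m * δ := by
    rw [Nat.cast_natAbs, Int.cast_abs, hd, hδ]
    rw [← abs_of_pos hm', ← abs_mul, abs_of_pos hm']
    congr 1
    push_cast
    field_simp
  have hd1 : (1 : ℝ) ≤ (d.natAbs : ℕ) := by
    exact_mod_cast Int.natAbs_pos.2 hd0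
  have hMd : 2 * (M : ℝ) * (d.natAbs : ℕ) < 4 * η * m := by
    rw [hdreal]
    have := mul_lt_mul_of_pos_right hκ hm'
    linarith
  have hMη : 2 * (M : ℝ) < 4 * η * m := by nlinarith
  have hηm : 4 * η * m ≤ m / 25 := by nlinarith
  -- (3) `a`
  set a : ℕ := (2 * M + q) / (2 * q) with ha
  have ha1 : 1 ≤ a := Nat.div_pos (by omega) (by omega)
  have ha2 : a * (2 * q) ≤ 2 * M + q := Nat.div_mul_le_self _ _
  have ha3 : 2 * M + q < (a + 1) * (2 * q) := by
    have := Nat.lt_succ_iff.2 (le_refl ((2 * M + q) / (2 * q)))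
    exact (Nat.div_lt_iff_lt_mul (by omega)).1 this
  have ha4 : 2 * (a * q) ≤ 2 * M + q := by
    calc 2 * (a * q) = a * (2 * q) := by ring
      _ ≤ _ := ha2
  have ha5 : 2 * M < 2 * (a * q) + q := by
    have : (a + 1) * (2 * q) = 2 * (a * q) + 2 * q := by ring
    omega
  have haq : a * q ≤ 2 * M := by omega
  have haq' : (a : ℝ) * q ≤ 2 * M := by exact_mod_cast haq
  set L : ℕ := ((M : ℤ) - a * q).natAbs with hL
  have hLq : 2 * L ≤ q := by
    have h5 : (2 : ℤ) * (a * q) ≤ 2 * M + q := by exact_mod_cast ha4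
    have h6 : (2 : ℤ) * M < 2 * (a * q) + q := by exact_mod_cast ha5
    omega
  -- (4) `T`
  set T : ℕ := m / (2 * q) with hTdef
  have hT1 : T * (2 * q) ≤ m := Nat.div_mul_le_self _ _
  have hT2 : m < (T + 1) * (2 * q) := by
    have := Nat.lt_succ_iff.2 (le_refl (m / (2 * q)))
    exact (Nat.div_lt_iff_lt_mul (by omega)).1 this
  have hT1' : (T : ℝ) * (2 * q) ≤ m := by exact_mod_cast hT1
  have hT2' : (m : ℝ) < (T + 1) * (2 * q) := by exact_mod_cast hT2
  have hqm : (q : ℝ) * 25 < m := by linarith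
  have hT4 : (m : ℝ) ≤ T * (4 * q) := by linarith
  have hT0 : 0 < T := by
    rcases Nat.eq_zero_or_pos T with h | h
    · rw [h] at hT4
      simp only [Nat.cast_zero, zero_mul] at hT4
      linarith
    · exact h
  have hT0' : (0 : ℝ) < T := by exact_mod_cast hT0
  -- (5) the cluster structure
  have hWreal : (q : ℝ) * (2 * a * (d.natAbs : ℕ)) < 8 * η * m := by
    have h5 : (0 : ℝ) ≤ (d.natAbs : ℕ) := Nat.cast_nonneg _
    have h6 := mul_le_mul_of_nonneg_right haq' h5
    linarith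
  have hsum : (q : ℝ) * (2 * a * (d.natAbs : ℕ) + T) ≤ (58 / 100) * m := by
    have h5 : 8 * η * m ≤ (8 / 100) * m := by nlinarith
    linarith
  have hqδ : (q : ℝ) * δ < 4 * η := by
    have := mul_le_mul_of_nonneg_right hq2M'.le hδ0
    linarith
  obtain ⟨hZcard, hwin⟩ := h4 m n q a T p d hm (by omega) (by omega) hdeq hd0
    (by
      have h5 : (2 * a * (d.natAbs : ℕ) + T : ℝ) ≤ m := by
        have h6 : (1 : ℝ) ≤ q := by exact_mod_cast hq1
        have h7 : (0 : ℝ) ≤ 2 * a * (d.natAbs : ℕ) + T := by positivity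
        nlinarith
      rw [hdabs]
      exact_mod_cast h5)
    (by
      intro j j' hj hj' hne k
      have h5 := chainStep_sep hm n hq1 hqp (le_refl q) hj hj' hne k (κ := q * δ) (le_refl _)
      have h6 : (2 * a * (d.natAbs : ℕ) + T : ℝ) ≤ (1 - q * δ) * m / q := by
        rw [le_div_iff₀ hq']
        have h7 : (96 / 100) * (m : ℝ) ≤ (1 - q * δ) * m := by
          apply mul_le_mul_of_nonneg_right _ hm'.le
          linarith
        linarith
      have h8 : (2 * a * (d.natAbs : ℕ) + T : ℝ) ≤ |((j : ℝ) - j') * n - k * m| := h6.trans h5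
      rw [hdabs]
      refine (Int.cast_le (R := ℝ)).1 ?_
      have h9 : ((d.natAbs : ℕ) : ℝ) = |(d : ℝ)| := by rw [Nat.cast_natAbs, Int.cast_abs]
      rw [h9] at h8
      push_cast
      exact h8)
  set σ : ℤˣ := Int.negOnePow (a * q * p) with hσ
  set s : ℤ → ℤˣ := sK m n (2 * (a * q)) with hs
  set W : ℕ := a * d.natAbs with hW
  have hWint : (a : ℤ) * |d| = (W : ℤ) := by rw [hdabs, hW]; push_cast; ring
  -- (6) factorisation
  obtain ⟨c, hc⟩ : ∃ c : ℤ, ∀ r, sK m n (2 * M) r = s r * sK m n (2 * L) (r - c) := by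
    rcases le_total (a * q) M with h | h
    · refine ⟨((2 * (a * q) : ℕ) : ℤ) * n, fun r => ?_⟩
      have h5 := (h1 m n hm).1 (2 * (a * q)) (2 * L) r
      have h6 : 2 * (a * q) + 2 * L = 2 * M := by
        have h7 : ((a * q : ℕ) : ℤ) ≤ M := by exact_mod_cast h
        push_cast at h7
        have h8 : (L : ℤ) = M - a * q := by rw [hL]; exact Int.natAbs_of_nonneg (by linarith)
        have h9 : ((2 * (a * q) + 2 * L : ℕ) : ℤ) = ((2 * M : ℕ) : ℤ) := by
          push_cast
          rw [h8]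
          ring
        exact_mod_cast h9
      rw [h6] at h5
      exact h5
    · refine ⟨((2 * M : ℕ) : ℤ) * n, fun r => ?_⟩
      have h5 := (h1 m n hm).1 (2 * M) (2 * L) r
      have h6 : 2 * M + 2 * L = 2 * (a * q) := by
        have h7 : (M : ℤ) ≤ ((a * q : ℕ) : ℤ) := by exact_mod_cast h
        push_cast at h7
        have h8 : (L : ℤ) = a * q - M := by
          rw [hL, ← Int.natAbs_neg, neg_sub]
          exact Int.natAbs_of_nonneg (by linarith)
        have h9 : ((2 * M + 2 * L : ℕ) : ℤ) = ((2 * (a * q) : ℕ) : ℤ) := by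
          push_cast
          rw [h8]
          ring
        exact_mod_cast h9
      rw [h6] at h5
      rw [hs, h5, mul_assoc, Int.units_mul_self, mul_one]
  obtain ⟨u, hu⟩ : ∃ u : ℤˣ, cnt m (sK m n (2 * M)) u = Dm m n (2 * M) := by
    unfold Dm
    rcases le_total (cnt m (sK m n (2 * M)) 1) (cnt m (sK m n (2 * M)) (-1)) with h | h
    · exact ⟨1, (min_eq_left h).symm⟩
    · exact ⟨-1, (min_eq_right h).symm⟩
  set f : ℤ → ℤˣ := fun r => sK m n (2 * L) (r - c) with hf
  set v : ℤˣ := σ * u with hv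
  have hσσ : σ * σ = 1 := Int.units_mul_self σ
  have hequiv : ∀ r, sK m n (2 * M) r = u ↔ ((¬ s r = -σ) ∧ f r = v) ∨ (s r = -σ ∧ ¬ f r = v) := by
    intro r
    rw [hc r]
    change s r * f r = u ↔ _
    have key : ∀ x y z w : ℤˣ, x * y = w ↔ ((¬ x = -z) ∧ y = z * w) ∨ (x = -z ∧ ¬ y = z * w) := by
      intro x y z w
      rcases Int.units_eq_one_or x with rfl | rfl <;>
        rcases Int.units_eq_one_or y with rfl | rfl <;>
        rcases Int.units_eq_one_or z with rfl | rfl <;>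
        rcases Int.units_eq_one_or w with rfl | rfl <;> decide
    exact key _ _ _ _
  have hsper : ∀ r, s (r + m) = s r := fun r => (h1 m n hm).2.2 (a * q) r
  have hfper : ∀ r, f (r + m) = f r := fun r => by
    change sK m n (2 * L) (r + m - c) = sK m n (2 * L) (r - c)
    have : r + m - c = (r - c) + m := by ring
    rw [this]
    exact (h1 m n hm).2.2 L (r - c)
  have hγ := chainCount_main h2 hm (Zp := fun r => s r = -σ) (Ap := fun r => f r = v)
    (fun r => by simp only [hsper r]) (fun r => by simp only [hfper r]) (W := W) (B := 2 * L) hT0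
    (fun x => by
      have h5 := hwin x
      rw [hWint] at h5
      exact_mod_cast h5)
    (fun j => c + j * n)
    (fun z t hz hz' => by
      apply chainCount_flip hm n (2 * L) c z t
      intro h
      apply hz'
      change sK m n (2 * L) (z + t - c) = v
      rw [← h]
      exact hz)
  -- cardinalities
  set α := ((range m).filter (fun r : ℕ => ¬ s r = -σ ∧ f r = v)).card with hα
  set β := ((range m).filter (fun r : ℕ => s r = -σ ∧ ¬ f r = v)).card with hβ
  set γ := ((range m).filter (fun r : ℕ => s r = -σ ∧ f r = v)).card with hγdef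
  have hA : ((range m).filter (fun r : ℕ => f r = v)).card = α + γ := by
    have h5 := card_filter_add_card_filter_not (s := (range m).filter (fun r : ℕ => f r = v))
      (fun r : ℕ => s r = -σ)
    rw [filter_filter, filter_filter] at h5
    rw [← h5, add_comm, hα, hγdef]
    congr 2 <;> (congr 1; ext r; simp only [and_comm])
  have hZ : ((range m).filter (fun r : ℕ => s r = -σ)).card = β + γ := by
    have h5 := card_filter_add_card_filter_not (s := (range m).filter (fun r : ℕ => s r = -σ))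
      (fun r : ℕ => f r = v)
    rw [filter_filter, filter_filter] at h5
    rw [← h5, add_comm]
  have hDα : Dm m n (2 * M) = α + β := by
    rw [← hu]
    unfold cnt
    have h5 : (range m).filter (fun r : ℕ => sK m n (2 * M) r = u) =
        (range m).filter (fun r : ℕ => ¬ s r = -σ ∧ f r = v) ∪
        (range m).filter (fun r : ℕ => s r = -σ ∧ ¬ f r = v) := by
      rw [← filter_or]
      apply filter_congr
      intro r _
      exact hequiv r
    rw [h5, card_union_of_disjoint]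
    rw [disjoint_filter]
    intro r _ h6 h7
    exact h6.1 h7.1
  have hZq : β + γ = q * W := by
    rw [← hZ]
    have h5 : ((cnt m s (-σ) : ℕ) : ℤ) = ((q * W : ℕ) : ℤ) := by
      rw [hZcard, mul_right_comm, hWint]
      push_cast
      ring
    exact_mod_cast h5
  have hDA : Dm m n (2 * L) ≤ α + γ := by
    rw [← hA]
    have h5 : cnt m f v = cnt m (sK m n (2 * L)) v := by
      have := h2 m (sK m n (2 * L)) hm ((h1 m n hm).2.2 L) (-c) v
      simpa only [hf, sub_eq_add_neg] using this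
    have h6 : cnt m f v = ((range m).filter (fun r : ℕ => f r = v)).card := rfl
    rw [← h6, h5]
    unfold Dm
    rcases Int.units_eq_one_or v with h7 | h7 <;> rw [h7]
    · exact min_le_left _ _
    · exact min_le_right _ _
  -- reals
  have hZqr : (β : ℝ) + γ = q * W := by exact_mod_cast hZq
  have hDr : (α : ℝ) + β ≤ η * m := by
    have h5 : ((Dm m n (2 * M) : ℕ) : ℝ) = α + β := by rw [hDα]; push_cast; ring
    rw [← h5]
    exact hD
  have hqW : (q : ℝ) * W < 4 * η * m := by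
    have h5 : (W : ℝ) = a * (d.natAbs : ℕ) := by rw [hW]; push_cast; ring
    rw [h5]
    linarith
  have hα0 : (0 : ℝ) ≤ α := Nat.cast_nonneg _
  have hβ0 : (0 : ℝ) ≤ β := Nat.cast_nonneg _
  have hγ0 : (0 : ℝ) ≤ γ := Nat.cast_nonneg _
  have hW0 : (0 : ℝ) ≤ W := Nat.cast_nonneg _
  have hAle : (α : ℝ) + γ ≤ 5 * η * m := by linarith
  have hLr : (L : ℝ) ≤ 6 * η * q := by
    have hgap := h3 m n L ((1 - q * δ) * m / q) hm (fun j j' hj hj' hne k =>
      chainStep_sep hm n hq1 hqp (le_refl q) (by omega) (by omega) hne k (le_refl _))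
    have h5 : ((Dm m n (2 * L) : ℕ) : ℝ) ≤ α + γ := by exact_mod_cast hDA
    have h6 : (L : ℝ) * ((1 - q * δ) * m / q) ≤ 5 * η * m := by linarith
    have h7 : (L : ℝ) * ((1 - q * δ) * m / q) = (L * (1 - q * δ)) * m / q := by ring
    rw [h7, div_le_iff₀ hq'] at h6
    have h8 : (L : ℝ) * (1 - q * δ) ≤ 5 * η * q := by
      have h9 : (L * (1 - q * δ)) * m ≤ (5 * η * q) * m := by linarith
      exact le_of_mul_le_mul_right h9 hm'
    have h9 : (L : ℝ) * (96 / 100) ≤ L * (1 - q * δ) :=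
      mul_le_mul_of_nonneg_left (by linarith) (Nat.cast_nonneg _)
    have h10 : 0 < η * q := by positivity
    linarith
  have hγβ : (γ : ℝ) ≤ β := by
    rw [hA] at hγ
    have h5 : (T : ℝ) * γ ≤ (α + γ) * W + T * (2 * L * W) := by exact_mod_cast hγ
    have h6 : ((α : ℝ) + γ) * W ≤ T * (20 * η * (q * W)) := by
      have h7 : (α : ℝ) + γ ≤ 5 * η * (T * (4 * q)) := by
        refine hAle.trans ?_
        exact mul_le_mul_of_nonneg_left hT4 (by positivity)
      have h8 := mul_le_mul_of_nonneg_right h7 hW0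
      linarith
    have h7 : 2 * (L : ℝ) * W ≤ 12 * η * (q * W) := by
      have h8 := mul_le_mul_of_nonneg_right hLr hW0
      linarith
    have h8 : (T : ℝ) * (2 * L * W) ≤ T * (12 * η * (q * W)) :=
      mul_le_mul_of_nonneg_left h7 hT0'.le
    have h9 : (T : ℝ) * γ ≤ T * (32 * η * (q * W)) := by linarith
    have h10 := le_of_mul_le_mul_left h9 hT0'
    have h11 : 32 * η * ((q : ℝ) * W) ≤ (1 / 2) * (q * W) :=
      mul_le_mul_of_nonneg_right (by linarith) (by positivity)
    linarith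
  have hγβ' : γ ≤ β := by exact_mod_cast hγβ
  refine ⟨q, p, a, hq1, hq2M, hqp, ?_, ?_, ?_⟩
  · have h5 : (q : ℝ) * n / m - p = (q : ℝ) * ((n : ℝ) / m) - p := by ring
    rw [h5]
    exact hκ
  · have h5 : |(M : ℝ) - ((a : ℤ) : ℝ) * q| = (L : ℝ) := by
      rw [hL, Nat.cast_natAbs, Int.cast_abs]
      push_cast
      rfl
    rw [h5]
    exact hLr
  · rw [hDα]
    exact hDA.trans (by omega)

end Horo
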