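import Pool.Agent.Horo.Quot

/-! Charts on quotients of compact Hausdorff spaces from functions on compact saturated sets. -/

open Topology Set

namespace Horo

section

variable {X : Type*} [TopologicalSpace X] (K : Set X) (z : X → ℂ) (ρ : ℝ)

lemma bijOn_of_compact (hi : InjOn z K) (hs : ∀ w : ℂ, ‖w‖ < ρ → ∃ x ∈ K, z x = w) :
    BijOn z {x | x ∈ K ∧ ‖z x‖ < ρ} {w | ‖w‖ < ρ} := by
  refine ⟨fun x hx => hx.2, fun x hx y hy h => hi hx.1 hy.1 h, ?_⟩
  intro w hw
  obtain ⟨x, hx, rfl⟩ := hs w hw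
  exact ⟨x, ⟨hx, hw⟩, rfl⟩

/-- A chart from an injective continuous function on a compact set. -/
noncomputable def chartOfCompact [Nonempty X] (hK : IsCompact K) (hc : ContinuousOn z K)
    (hi : InjOn z K)
    (hU : IsOpen {x | x ∈ K ∧ ‖z x‖ < ρ}) (hs : ∀ w : ℂ, ‖w‖ < ρ → ∃ x ∈ K, z x = w) :
    OpenPartialHomeomorph X ℂ where
  toPartialEquiv := BijOn.toPartialEquiv z _ _ (bijOn_of_compact K z ρ hi hs)
  open_source := hU
  open_target := by
    have : {w : ℂ | ‖w‖ < ρ} = Metric.ball 0 ρ := by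
      ext w; simp
    show IsOpen {w : ℂ | ‖w‖ < ρ}
    rw [this]
    exact Metric.isOpen_ball
  continuousOn_toFun := hc.mono fun x hx => hx.1
  continuousOn_invFun := by
    rw [continuousOn_iff_isClosed]
    intro C hC
    refine ⟨z '' (K ∩ C), ?_, ?_⟩
    · exact ((hK.inter_right hC).image_of_continuousOn (hc.mono inter_subset_left)).isClosed
    · set e := BijOn.toPartialEquiv z _ _ (bijOn_of_compact K z ρ hi hs) with he
      ext w
      constructor
      · rintro ⟨h1, h2⟩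
        refine ⟨?_, h2⟩
        have h3 : e.symm w ∈ e.source := e.map_target h2
        exact ⟨e.symm w, ⟨h3.1, h1⟩, e.right_inv h2⟩
      · rintro ⟨⟨x, ⟨hxK, hxC⟩, hxw⟩, h2⟩
        refine ⟨?_, h2⟩
        have h2' : ‖w‖ < ρ := h2
        have hx : x ∈ e.source := ⟨hxK, by rw [hxw]; exact h2'⟩
        have h4 : e.symm w = x := by
          have : e x = w := hxw
          rw [← this]
          exact e.left_inv hx
        show e.symm w ∈ C
        rw [h4]
        exact hxC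

variable [Nonempty X] (hK : IsCompact K) (hc : ContinuousOn z K)
    (hi : InjOn z K)
    (hU : IsOpen {x | x ∈ K ∧ ‖z x‖ < ρ}) (hs : ∀ w : ℂ, ‖w‖ < ρ → ∃ x ∈ K, z x = w)

@[simp] lemma chartOfCompact_apply (x : X) :
    chartOfCompact K z ρ hK hc hi hU hs x = z x := rfl

@[simp] lemma chartOfCompact_source :
    (chartOfCompact K z ρ hK hc hi hU hs).source = {x | x ∈ K ∧ ‖z x‖ < ρ} := rfl

@[simp] lemma chartOfCompact_target :
    (chartOfCompact K z ρ hK hc hi hU hs).target = {w | ‖w‖ < ρ} := rfl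

end

section Quotient

variable {Y : Type*} [TopologicalSpace Y] (r : Setoid Y) (K : Set Y) (z : Y → ℂ) (ρ : ℝ)

open Classical in
/-- The function induced on the quotient by `z` on the saturated set `K`. -/
noncomputable def qfun (x : Quotient r) : ℂ :=
  if h : ∃ y ∈ K, Quotient.mk r y = x then z h.choose else 0

variable (hz : ∀ y ∈ K, ∀ y' ∈ K, (z y = z y' ↔ r y y'))
  (hsat : ∀ y ∈ K, ∀ y', r y y' → y' ∈ K)

include hz in
lemma qfun_mk {y : Y} (hy : y ∈ K) : qfun r K z (Quotient.mk r y) = z y := by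
  have h : ∃ y' ∈ K, Quotient.mk r y' = Quotient.mk r y := ⟨y, hy, rfl⟩
  unfold qfun
  rw [dif_pos h]
  have h1 := h.choose_spec
  exact (hz _ h1.1 _ hy).mpr (Quotient.exact h1.2)

include hz in
lemma qfun_injOn : InjOn (qfun r K z) (Quotient.mk r '' K) := by
  rintro _ ⟨y, hy, rfl⟩ _ ⟨y', hy', rfl⟩ h
  rw [qfun_mk r K z hz hy, qfun_mk r K z hz hy'] at h
  exact Quotient.sound ((hz y hy y' hy').mp h)

include hz in
lemma qfun_continuousOn (hK : IsClosed K) (hsat : ∀ y ∈ K, ∀ y', r y y' → y' ∈ K)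
    (hc : ContinuousOn z K) (hq : IsClosed {p : Y × Y | r p.1 p.2}) [CompactSpace Y] [T2Space Y] :
    ContinuousOn (qfun r K z) (Quotient.mk r '' K) := by
  rw [continuousOn_iff_isClosed]
  intro C hC
  rw [continuousOn_iff_isClosed] at hc
  obtain ⟨u, hu, hu'⟩ := hc C hC
  refine ⟨Quotient.mk r '' (u ∩ K), ?_, ?_⟩
  · have : T2Space (Quotient r) := t2Space_quotient r hq
    exact ((hu.inter hK).isCompact.image continuous_quotient_mk').isClosed
  · ext x
    constructor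
    · rintro ⟨h1, ⟨y, hy, rfl⟩⟩
      refine ⟨⟨y, ?_, rfl⟩, ⟨y, hy, rfl⟩⟩
      have h2 : y ∈ z ⁻¹' C ∩ K := by
        refine ⟨?_, hy⟩
        have h3 : qfun r K z (Quotient.mk r y) ∈ C := h1
        rw [qfun_mk r K z hz hy] at h3
        exact h3
      rw [hu'] at h2
      exact h2
    · rintro ⟨⟨y, hy, rfl⟩, h2⟩
      refine ⟨?_, h2⟩
      have h3 : y ∈ z ⁻¹' C ∩ K := by
        rw [hu']; exact hy
      show qfun r K z (Quotient.mk r y) ∈ C
      rw [qfun_mk r K z hz hy.2]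
      exact h3.1

include hz hsat in
lemma qfun_open (hO : IsOpen {y | y ∈ K ∧ ‖z y‖ < ρ}) :
    IsOpen {x | x ∈ Quotient.mk r '' K ∧ ‖qfun r K z x‖ < ρ} := by
  rw [← isQuotientMap_quotient_mk'.isOpen_preimage]
  convert hO using 1
  ext y
  constructor
  · rintro ⟨⟨y', hy', h1⟩, h2⟩
    have hy : y ∈ K := hsat y' hy' y (Quotient.exact h1)
    refine ⟨hy, ?_⟩
    have h3 : ‖qfun r K z (Quotient.mk r y)‖ < ρ := h2
    rwa [qfun_mk r K z hz hy] at h3
  · rintro ⟨h1, h2⟩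
    refine ⟨⟨y, h1, rfl⟩, ?_⟩
    show ‖qfun r K z (Quotient.mk r y)‖ < ρ
    rwa [qfun_mk r K z hz h1]

/-- A chart on a quotient. -/
noncomputable def qchart [CompactSpace Y] [T2Space Y] [Nonempty Y]
    (hq : IsClosed {p : Y × Y | r p.1 p.2}) (hK : IsClosed K) (hc : ContinuousOn z K)
    (hO : IsOpen {y | y ∈ K ∧ ‖z y‖ < ρ}) (hs : ∀ w : ℂ, ‖w‖ < ρ → ∃ y ∈ K, z y = w) :
    OpenPartialHomeomorph (Quotient r) ℂ :=
  haveI : Nonempty (Quotient r) := ⟨Quotient.mk r (Classical.arbitrary Y)⟩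
  chartOfCompact (Quotient.mk r '' K) (qfun r K z) ρ
    (hK.isCompact.image continuous_quotient_mk')
    (qfun_continuousOn r K z hz hK hsat hc hq)
    (qfun_injOn r K z hz) (qfun_open r K z ρ hz hsat hO)
    (fun w hw => by
      obtain ⟨y, hy, h⟩ := hs w hw
      exact ⟨Quotient.mk r y, ⟨y, hy, rfl⟩, by rw [qfun_mk r K z hz hy, h]⟩)

variable [CompactSpace Y] [T2Space Y] [Nonempty Y]
    (hq : IsClosed {p : Y × Y | r p.1 p.2}) (hK : IsClosed K) (hc : ContinuousOn z K)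
    (hO : IsOpen {y | y ∈ K ∧ ‖z y‖ < ρ}) (hs : ∀ w : ℂ, ‖w‖ < ρ → ∃ y ∈ K, z y = w)

lemma qchart_apply (x : Quotient r) :
    qchart r K z ρ hz hsat hq hK hc hO hs x = qfun r K z x := rfl

lemma qchart_mk {y : Y} (hy : y ∈ K) :
    qchart r K z ρ hz hsat hq hK hc hO hs (Quotient.mk r y) = z y :=
  qfun_mk r K z hz hy

lemma mk_mem_qchart_source {y : Y} :
    Quotient.mk r y ∈ (qchart r K z ρ hz hsat hq hK hc hO hs).source ↔ y ∈ K ∧ ‖z y‖ < ρ := by
  constructor
  · rintro ⟨⟨y', hy', h1⟩, h2⟩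
    have hy : y ∈ K := hsat y' hy' y (Quotient.exact h1)
    refine ⟨hy, ?_⟩
    have h3 : ‖qfun r K z (Quotient.mk r y)‖ < ρ := h2
    rwa [qfun_mk r K z hz hy] at h3
  · rintro ⟨h1, h2⟩
    refine ⟨⟨y, h1, rfl⟩, ?_⟩
    show ‖qfun r K z (Quotient.mk r y)‖ < ρ
    rwa [qfun_mk r K z hz h1]

end Quotient

end Horo
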