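import Pool.Agent.Horo.ADefs

/-!
# Problem MP_943ece_an, Part II, (B4) first half: number of children directions at scale `Q`
-/

open Finset

namespace Horo

/-- the fibre bound: pairs with a fixed determinant `k` -/
theorem children_fiber {ys κ : ℝ} {M' N' : ℤ} {q' : ℕ} {p' : ℤ} {k : ℤ} {l : ℝ}
    (W : Finset (ℤ × ℤ)) (hq' : 1 ≤ q') (hcop : IsCoprime (q' : ℤ) p') (hl : 0 < l)
    (hlL : l = |(q' : ℝ) * (ys + 2 * N') - 2 * M' * p'|)
    (hκ : 0 < κ)
    (hW : ∀ v ∈ W, v.1 * p' - q' * v.2 = k ∧ |(v.1 : ℝ) * (ys + 2 * N') - 2 * M' * v.2| ≤ κ) :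
    (W.card : ℝ) ≤ 2 * κ / l + 1 := by
  classical
  rcases W.eq_empty_or_nonempty with hE | hne
  · subst hE
    have : (0 : ℝ) ≤ 2 * κ / l := by positivity
    simp only [card_empty, Nat.cast_zero]
    linarith
  obtain ⟨v0, hv0, hmin⟩ := W.exists_min_image (fun v => v.1) hne
  have hq'R : (0 : ℝ) < q' := by exact_mod_cast hq'
  have hq'Z : (0 : ℤ) < q' := by exact_mod_cast hq'
  -- divisibility
  have hdiv : ∀ v ∈ W, (q' : ℤ) ∣ v.1 - v0.1 := by
    intro v hv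
    have h1 := (hW v hv).1
    have h0 := (hW v0 hv0).1
    have h2 : (v.1 - v0.1) * p' = q' * (v.2 - v0.2) := by linear_combination h1 - h0
    exact hcop.dvd_of_dvd_mul_right (Dvd.intro _ h2.symm)
  -- distance
  have hdist : ∀ v ∈ W, ((v.1 - v0.1 : ℤ) : ℝ) ≤ q' * (2 * κ / l) := by
    intro v hv
    have h1 := hW v hv
    have h0 := hW v0 hv0
    set L' : ℝ := (q' : ℝ) * (ys + 2 * N') - 2 * M' * p' with hL'
    have e1 : (v.1 : ℝ) * p' - q' * v.2 = k := by exact_mod_cast h1.1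
    have e0 : (v0.1 : ℝ) * p' - q' * v0.2 = k := by exact_mod_cast h0.1
    set A : ℝ := (v.1 : ℝ) * (ys + 2 * N') - 2 * M' * v.2 with hA
    set B : ℝ := (v0.1 : ℝ) * (ys + 2 * N') - 2 * M' * v0.2 with hB
    have key : ((v.1 : ℝ) - v0.1) * L' = q' * (A - B) := by
      rw [hL', hA, hB]
      linear_combination (-2 * (M' : ℝ)) * e1 + (2 * (M' : ℝ)) * e0
    have hAB : |A - B| ≤ 2 * κ := by
      calc |A - B| ≤ |A| + |B| := abs_sub _ _
        _ ≤ 2 * κ := by linarith [h1.2, h0.2]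
    have h3 : |((v.1 : ℝ) - v0.1)| * l ≤ q' * (2 * κ) := by
      rw [hlL, ← abs_mul, key, abs_mul, abs_of_pos hq'R]
      exact mul_le_mul_of_nonneg_left hAB hq'R.le
    have h4 : ((v.1 : ℝ) - v0.1) ≤ |((v.1 : ℝ) - v0.1)| := le_abs_self _
    have h5 : |((v.1 : ℝ) - v0.1)| ≤ q' * (2 * κ / l) := by
      rw [← mul_div_assoc, le_div_iff₀ hl]
      exact h3
    push_cast
    linarith
  -- injection into a range
  set n : ℕ := ⌊2 * κ / l⌋₊ with hn
  have hmaps : ∀ v ∈ W, ((v.1 - v0.1) / (q' : ℤ)).toNat ∈ Finset.range (n + 1) := by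
    intro v hv
    rw [Finset.mem_range, Nat.lt_succ_iff, hn]
    apply Nat.le_floor
    obtain ⟨c, hc⟩ := hdiv v hv
    have hc0 : 0 ≤ c := by
      have h0 : 0 ≤ v.1 - v0.1 := by linarith [hmin v hv]
      rw [hc] at h0
      exact nonneg_of_mul_nonneg_right h0 hq'Z
    have hq : (v.1 - v0.1) / (q' : ℤ) = c := by
      rw [hc, Int.mul_ediv_cancel_left _ hq'Z.ne']
    rw [hq]
    have h6 := hdist v hv
    rw [hc] at h6
    push_cast at h6
    have h7 : (c : ℝ) ≤ 2 * κ / l := le_of_mul_le_mul_left h6 hq'R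
    have h8 : ((c.toNat : ℕ) : ℝ) = (c : ℝ) := by
      have : ((c.toNat : ℕ) : ℤ) = c := Int.toNat_of_nonneg hc0
      exact_mod_cast this
    rw [h8]
    exact h7
  have hinj : Set.InjOn (fun v : ℤ × ℤ => ((v.1 - v0.1) / (q' : ℤ)).toNat) (W : Set (ℤ × ℤ)) := by
    intro v hv w hw hvw
    simp only at hvw
    obtain ⟨c, hc⟩ := hdiv v hv
    obtain ⟨d, hd⟩ := hdiv w hw
    have hc0 : 0 ≤ c := by
      have h0 : 0 ≤ v.1 - v0.1 := by linarith [hmin v hv]
      rw [hc] at h0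
      exact nonneg_of_mul_nonneg_right h0 hq'Z
    have hd0 : 0 ≤ d := by
      have h0 : 0 ≤ w.1 - v0.1 := by linarith [hmin w hw]
      rw [hd] at h0
      exact nonneg_of_mul_nonneg_right h0 hq'Z
    rw [hc, hd, Int.mul_ediv_cancel_left _ hq'Z.ne', Int.mul_ediv_cancel_left _ hq'Z.ne'] at hvw
    have hcd : c = d := by
      have h1 : ((c.toNat : ℕ) : ℤ) = c := Int.toNat_of_nonneg hc0
      have h2 : ((d.toNat : ℕ) : ℤ) = d := Int.toNat_of_nonneg hd0
      rw [← h1, ← h2, hvw]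
    have hfst : v.1 = w.1 := by
      have : v.1 - v0.1 = w.1 - v0.1 := by rw [hc, hd, hcd]
      linarith
    have e1 := (hW v hv).1
    have e2 := (hW w hw).1
    have hsnd : v.2 = w.2 := by
      have h3 : (q' : ℤ) * v.2 = q' * w.2 := by
        rw [hfst] at e1
        linarith
      exact mul_left_cancel₀ hq'Z.ne' h3
    exact Prod.ext hfst hsnd
  have hcard : W.card ≤ n + 1 := by
    have := Finset.card_le_card_of_injOn _ hmaps hinj
    rwa [Finset.card_range] at this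
  have hfl : (n : ℝ) ≤ 2 * κ / l := Nat.floor_le (by positivity)
  have : (W.card : ℝ) ≤ (n : ℝ) + 1 := by exact_mod_cast hcard
  linarith

/-- (B4), first half -/
theorem hChildren : Stmt_Children := by
  classical
  intro ys κ M' N' q' p' Q V hκ hκ1 hM' hq' hcop hqM hL hQ hV
  have hMR : (0 : ℝ) < |(M' : ℝ)| := by
    rw [abs_pos]
    exact_mod_cast hM'
  have hQR : (0 : ℝ) < Q := by exact_mod_cast hQ
  have hq'R : (0 : ℝ) < q' := by exact_mod_cast hq'
  have hq'Z : (0 : ℤ) < q' := by exact_mod_cast hq'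
  rcases V.eq_empty_or_nonempty with hE | hne
  · subst hE
    simp only [card_empty, Nat.cast_zero]
    positivity
  set L' : ℝ := (q' : ℝ) * (ys + 2 * N') - 2 * M' * p' with hL'
  set l : ℝ := |L'| with hl
  -- determinant
  have hk : ∀ v ∈ V, v.1 * p' - q' * v.2 ≠ 0 := by
    intro v hv h0
    obtain ⟨h1, h2, h3, h4, h5⟩ := hV v hv
    have hv1 : 0 < v.1 := by
      have : (1 : ℤ) ≤ Q := by exact_mod_cast hQ
      linarith
    have he : v.1 * p' = q' * v.2 := by linarith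
    have hd : v.1 ∣ (q' : ℤ) := h3.dvd_of_dvd_mul_right (Dvd.intro _ he)
    have hle : v.1 ≤ (q' : ℤ) := Int.le_of_dvd hq'Z hd
    have hleR : (v.1 : ℝ) ≤ q' := by exact_mod_cast hle
    have hv1R : (0 : ℝ) < v.1 := by exact_mod_cast hv1
    have : |(M' : ℝ)| ≤ (1 / 100) * v.1 := by
      have : κ * (v.1 : ℝ) ≤ (1 / 100) * v.1 := by
        apply mul_le_mul_of_nonneg_right hκ1 hv1R.le
      linarith
    linarith
  have hkey : ∀ v ∈ V, 2 * |(M' : ℝ)| * |((v.1 * p' - q' * v.2 : ℤ) : ℝ)|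
      ≤ q' * κ + 2 * Q * l := by
    intro v hv
    obtain ⟨h1, h2, h3, h4, h5⟩ := hV v hv
    have hv1 : (0 : ℝ) ≤ (v.1 : ℝ) := by
      have : (1 : ℤ) ≤ Q := by exact_mod_cast hQ
      have : (0 : ℤ) ≤ v.1 := by linarith
      exact_mod_cast this
    have hv2 : (v.1 : ℝ) ≤ 2 * Q := by
      have : v.1 ≤ 2 * (Q : ℤ) := h2.le
      exact_mod_cast this
    have e : 2 * (M' : ℝ) * ((v.1 * p' - q' * v.2 : ℤ) : ℝ)
        = q' * ((v.1 : ℝ) * (ys + 2 * N') - 2 * M' * v.2) - v.1 * L' := by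
      rw [hL']
      push_cast
      ring
    have e2 : 2 * |(M' : ℝ)| * |((v.1 * p' - q' * v.2 : ℤ) : ℝ)|
        = |2 * (M' : ℝ) * ((v.1 * p' - q' * v.2 : ℤ) : ℝ)| := by
      rw [abs_mul, abs_mul, abs_two]
    rw [e2, e]
    calc |(q' : ℝ) * ((v.1 : ℝ) * (ys + 2 * N') - 2 * M' * v.2) - v.1 * L'|
        ≤ |(q' : ℝ) * ((v.1 : ℝ) * (ys + 2 * N') - 2 * M' * v.2)| + |(v.1 : ℝ) * L'| := abs_sub _ _
      _ = q' * |(v.1 : ℝ) * (ys + 2 * N') - 2 * M' * v.2| + v.1 * l := by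
          rw [abs_mul, abs_mul, abs_of_pos hq'R, abs_of_nonneg hv1]
      _ ≤ q' * κ + 2 * Q * l := by
          have := mul_le_mul_of_nonneg_left h5 hq'R.le
          have := mul_le_mul_of_nonneg_right hv2 (abs_nonneg L')
          linarith
  have hkey2 : ∀ v ∈ V, |((v.1 * p' - q' * v.2 : ℤ) : ℝ)| ≤ κ + Q * l / |(M' : ℝ)| := by
    intro v hv
    have h1 := hkey v hv
    have h2 : q' * κ ≤ 2 * |(M' : ℝ)| * κ := mul_le_mul_of_nonneg_right hqM.le hκ.le
    have h3 : |((v.1 * p' - q' * v.2 : ℤ) : ℝ)| * |(M' : ℝ)| ≤ (κ + Q * l / |(M' : ℝ)|) * |(M' : ℝ)| := by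
      have : (κ + Q * l / |(M' : ℝ)|) * |(M' : ℝ)| = κ * |(M' : ℝ)| + Q * l := by
        field_simp
      rw [this]
      linarith
    exact le_of_mul_le_mul_right h3 hMR
  -- l is positive and not small
  have hone : ∀ v ∈ V, (1 : ℝ) ≤ |((v.1 * p' - q' * v.2 : ℤ) : ℝ)| := by
    intro v hv
    have h1 : (1 : ℤ) ≤ |v.1 * p' - q' * v.2| := Int.one_le_abs (hk v hv)
    have : ((1 : ℤ) : ℝ) ≤ ((|v.1 * p' - q' * v.2| : ℤ) : ℝ) := by exact_mod_cast h1
    rw [Int.cast_abs] at this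
    simpa using this
  obtain ⟨v1, hv1⟩ := hne
  set T : ℝ := Q * l / |(M' : ℝ)| with hT
  have hTlow : 99 / 100 ≤ T := by
    have := hkey2 v1 hv1
    have := hone v1 hv1
    linarith
  have hl0 : 0 < l := by
    rcases (abs_nonneg L').lt_or_eq with h | h
    · exact h
    · exfalso
      have : l = 0 := h.symm
      rw [hT, this] at hTlow
      simp at hTlow
      linarith
  set K : ℝ := κ + T with hK
  have hK0 : 0 ≤ K := by linarith
  -- the set of determinants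
  set KS : Finset ℤ := (Finset.Icc (-⌊K⌋) ⌊K⌋).erase 0 with hKS
  have hmaps : ∀ v ∈ V, (v.1 * p' - q' * v.2) ∈ KS := by
    intro v hv
    rw [hKS, Finset.mem_erase, Finset.mem_Icc]
    refine ⟨hk v hv, ?_⟩
    rw [← abs_le]
    apply Int.le_floor.mpr
    have := hkey2 v hv
    rw [Int.cast_abs]
    exact this
  have hKScard : (KS.card : ℝ) ≤ 2 * K := by
    have hfl : 0 ≤ ⌊K⌋ := Int.floor_nonneg.mpr hK0
    have h0 : (0 : ℤ) ∈ Finset.Icc (-⌊K⌋) ⌊K⌋ := by
      rw [Finset.mem_Icc]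
      constructor <;> linarith
    have h1 : KS.card = (Finset.Icc (-⌊K⌋) ⌊K⌋).card - 1 := by
      rw [hKS, Finset.card_erase_of_mem h0]
    have h2 : (Finset.Icc (-⌊K⌋) ⌊K⌋).card = (⌊K⌋ + 1 - (-⌊K⌋)).toNat := Int.card_Icc _ _
    have h3 : (KS.card : ℤ) = 2 * ⌊K⌋ := by
      rw [h1, h2]
      omega
    have h4 : (KS.card : ℝ) = 2 * (⌊K⌋ : ℝ) := by exact_mod_cast h3
    rw [h4]
    have := Int.floor_le K
    linarith
  have hfib : ∀ k ∈ KS, (((V.filter (fun v => v.1 * p' - q' * v.2 = k)).card : ℕ) : ℝ)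
      ≤ 2 * κ / l + 1 := by
    intro k _
    apply children_fiber (ys := ys) (N' := N') (M' := M') (p' := p') (q' := q') (k := k) _ hq' hcop hl0 rfl hκ
    intro v hv
    rw [Finset.mem_filter] at hv
    exact ⟨hv.2, (hV v hv.1).2.2.2.2⟩
  have hsum : (V.card : ℝ) = ∑ k ∈ KS, (((V.filter (fun v => v.1 * p' - q' * v.2 = k)).card : ℕ) : ℝ) := by
    have := Finset.card_eq_sum_card_fiberwise (f := fun v : ℤ × ℤ => v.1 * p' - q' * v.2)
      (s := V) (t := KS) (fun v hv => hmaps v hv)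
    rw [this]
    push_cast
    rfl
  have hB : (0 : ℝ) ≤ 2 * κ / l + 1 := by positivity
  have h1 : (V.card : ℝ) ≤ KS.card * (2 * κ / l + 1) := by
    rw [hsum]
    calc ∑ k ∈ KS, (((V.filter (fun v => v.1 * p' - q' * v.2 = k)).card : ℕ) : ℝ)
        ≤ ∑ _k ∈ KS, (2 * κ / l + 1) := Finset.sum_le_sum hfib
      _ = KS.card * (2 * κ / l + 1) := by rw [Finset.sum_const, nsmul_eq_mul]
  have h2 : (V.card : ℝ) ≤ 2 * K * (2 * κ / l + 1) :=
    h1.trans (mul_le_mul_of_nonneg_right hKScard hB)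
  have hK2 : K ≤ 2 * T := by
    rw [hK]
    linarith
  have hlκ : l ≤ κ := hL
  have h3 : 2 * K * (2 * κ / l + 1) ≤ 4 * T * (2 * κ / l + 1) := by
    apply mul_le_mul_of_nonneg_right _ hB
    linarith
  have h4 : 4 * T * (2 * κ / l + 1) ≤ 12 * κ * Q / |(M' : ℝ)| := by
    have e1 : 4 * T * (2 * κ / l + 1) = (8 * κ * Q + 4 * Q * l) / |(M' : ℝ)| := by
      rw [hT]
      field_simp
      ring
    rw [e1]
    apply div_le_div_of_nonneg_right _ hMR.le
    have := mul_le_mul_of_nonneg_left hlκ hQR.le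
    linarith
  linarith

end Horo
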