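import Pool.Agent.Horo.ADefs

set_option autoImplicit false

/-! # The cluster structure of `s_{2aq}` -/

open Finset

namespace Horo

theorem cluster_div_eq {m : ℕ} (hm : 0 < m) {y k : ℤ} (h1 : k * m ≤ y) (h2 : y < (k + 1) * m) :
    y / (m : ℤ) = k := by
  have hm' : (0 : ℤ) < m := by exact_mod_cast hm
  apply le_antisymm
  · exact Int.lt_add_one_iff.1 (Int.ediv_lt_of_lt_mul hm' h2)
  · exact (Int.le_ediv_iff_mul_le hm').2 h1

/-- difference of two floors -/
def clusterH (m : ℕ) (d x : ℤ) : ℤ := x / m - (x - d) / m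

theorem clusterH_ne {m : ℕ} (hm : 0 < m) {d : ℤ} (hd : |d| ≤ m) {x : ℤ}
    (h : clusterH m d x ≠ 0) : clusterH m d x = d.sign ∧
      ∃ k : ℤ, min 0 d ≤ x - k * m ∧ x - k * m < max 0 d := by
  have hm' : (0 : ℤ) < m := by exact_mod_cast hm
  have hQR : (m : ℤ) * (x / m) + x % m = x := Int.mul_ediv_add_emod x m
  have hR0 : 0 ≤ x % (m : ℤ) := Int.emod_nonneg x hm'.ne'
  have hR1 : x % (m : ℤ) < m := Int.emod_lt_of_pos x hm'
  unfold clusterH at h ⊢
  set Q := x / (m : ℤ) with hQ
  set R := x % (m : ℤ) with hR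
  rcases lt_trichotomy d 0 with hd0 | hd0 | hd0
  · rw [abs_of_neg hd0] at hd
    by_cases hc : R - d < m
    · have : (x - d) / (m : ℤ) = Q := cluster_div_eq hm (by nlinarith) (by nlinarith)
      rw [this] at h
      exact (h (sub_self _)).elim
    · push Not at hc
      have : (x - d) / (m : ℤ) = Q + 1 := cluster_div_eq hm (by nlinarith) (by nlinarith)
      refine ⟨?_, Q + 1, ?_, ?_⟩
      · rw [this, Int.sign_eq_neg_one_of_neg hd0]
        ring
      · rw [min_eq_right hd0.le]
        nlinarith
      · rw [max_eq_left hd0.le]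
        nlinarith
  · subst hd0
    rw [sub_zero] at h
    exact (h (sub_self _)).elim
  · rw [abs_of_pos hd0] at hd
    by_cases hc : d ≤ R
    · have : (x - d) / (m : ℤ) = Q := cluster_div_eq hm (by nlinarith) (by nlinarith)
      rw [this] at h
      exact (h (sub_self _)).elim
    · push Not at hc
      have : (x - d) / (m : ℤ) = Q - 1 := cluster_div_eq hm (by nlinarith) (by nlinarith)
      refine ⟨?_, Q, ?_, ?_⟩
      · rw [this, Int.sign_eq_one_of_pos hd0]
        ring
      · rw [min_eq_left hd0.le]
        nlinarith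
      · rw [max_eq_right hd0.le]
        nlinarith

theorem cluster_sum {m : ℕ} (hm : 0 < m) (y : ℤ) :
    ∑ r ∈ range m, ((r : ℤ) + y) / (m : ℤ) = y := by
  have hm' : (m : ℤ) ≠ 0 := by exact_mod_cast hm.ne'
  have step : ∀ y : ℤ, ∑ r ∈ range m, ((r : ℤ) + (y + 1)) / (m : ℤ) =
      ∑ r ∈ range m, ((r : ℤ) + y) / (m : ℤ) + 1 := by
    intro y
    have h1 := Finset.sum_range_succ' (fun r : ℕ => ((r : ℤ) + y) / (m : ℤ)) m
    have h2 := Finset.sum_range_succ (fun r : ℕ => ((r : ℤ) + y) / (m : ℤ)) m
    have h3 : ((m : ℤ) + y) / (m : ℤ) = 1 + y / (m : ℤ) := by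
      rw [add_comm (m : ℤ) y, Int.add_ediv_of_dvd_right (dvd_refl _), Int.ediv_self hm', add_comm]
    have h4 : ∑ r ∈ range m, ((r : ℤ) + (y + 1)) / (m : ℤ) =
        ∑ r ∈ range m, (((r + 1 : ℕ) : ℤ) + y) / (m : ℤ) := by
      refine Finset.sum_congr rfl fun r _ => ?_
      congr 1
      push_cast
      ring
    simp only [Nat.cast_zero, zero_add] at h1
    rw [h4]
    linarith
  have base : ∑ r ∈ range m, ((r : ℤ) + 0) / (m : ℤ) = 0 := by
    refine Finset.sum_eq_zero fun r hr => ?_
    rw [add_zero]
    exact Int.ediv_eq_zero_of_lt (by positivity) (by exact_mod_cast Finset.mem_range.1 hr)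
  induction y using Int.induction_on with
  | zero => exact base
  | succ i ih => rw [step, ih]
  | pred i ih =>
    have := step (-(i : ℤ) - 1)
    rw [sub_add_cancel, ih] at this
    linarith

theorem cluster_sumH {m : ℕ} (hm : 0 < m) (d c : ℤ) :
    ∑ r ∈ range m, clusterH m d ((r : ℤ) - c) = d := by
  unfold clusterH
  rw [Finset.sum_sub_distrib]
  have h1 := cluster_sum hm (-c)
  have h2 := cluster_sum hm (-c - d)
  have h3 : ∑ r ∈ range m, ((r : ℤ) - c) / (m : ℤ) = ∑ r ∈ range m, ((r : ℤ) + -c) / (m : ℤ) :=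
    Finset.sum_congr rfl fun r _ => by rw [sub_eq_add_neg]
  have h4 : ∑ r ∈ range m, ((r : ℤ) - c - d) / (m : ℤ) =
      ∑ r ∈ range m, ((r : ℤ) + (-c - d)) / (m : ℤ) :=
    Finset.sum_congr rfl fun r _ => by
      congr 1
      ring
  rw [h3, h4, h1, h2]
  ring

theorem cluster_range (q : ℕ) (f : ℕ → ℤ) (a : ℕ) : ∑ j ∈ range (2 * (a * q)), f j =
    ∑ i ∈ range a, ∑ j ∈ range q, (f (2 * i * q + j) + f ((2 * i + 1) * q + j)) := by
  induction a with
  | zero => simp
  | succ a ih =>
    have h : 2 * ((a + 1) * q) = 2 * (a * q) + (q + q) := by ring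
    rw [h, Finset.sum_range_add, Finset.sum_range_add, ih, Finset.sum_range_succ,
      Finset.sum_add_distrib (s := range q)]
    congr 2
    · refine Finset.sum_congr rfl fun j _ => ?_
      congr 1
      ring
    · refine Finset.sum_congr rfl fun j _ => ?_
      congr 1
      ring

/-- the sum of all floor differences -/
def clusterS (m : ℕ) (n : ℤ) (q a : ℕ) (d r : ℤ) : ℤ :=
  ∑ i ∈ range a, ∑ j ∈ range q, clusterH m d (r - j * n - 2 * i * d)

theorem cluster_sK {m : ℕ} (hm : 0 < m) (n : ℤ) (q a : ℕ) (p d : ℤ)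
    (h : (q : ℤ) * n = p * m + d) (r : ℤ) :
    sK m n (2 * (a * q)) r = Int.negOnePow (a * q * p) * Int.negOnePow (clusterS m n q a d r) := by
  have hm' : (m : ℤ) ≠ 0 := by exact_mod_cast hm.ne'
  set W : ℤ := ∑ i ∈ range a, ∑ j ∈ range q,
    ((r - j * n - 2 * i * d - d) / (m : ℤ) - (2 * (i : ℤ) + 1) * p) with hW
  have key : ∑ j ∈ range (2 * (a * q)), (r - (j : ℤ) * n) / (m : ℤ) =
      (a * q * p + clusterS m n q a d r) + 2 * W := by
    rw [cluster_range]
    have h1 : (a : ℤ) * q * p = ∑ i ∈ range a, ∑ j ∈ range q, p := by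
      simp only [Finset.sum_const, card_range, nsmul_eq_mul]
      ring
    rw [h1, hW, clusterS, ← Finset.sum_add_distrib, Finset.mul_sum, ← Finset.sum_add_distrib]
    refine Finset.sum_congr rfl fun i _ => ?_
    rw [← Finset.sum_add_distrib, Finset.mul_sum, ← Finset.sum_add_distrib]
    refine Finset.sum_congr rfl fun j _ => ?_
    have e1 : (r - ((2 * i * q + j : ℕ) : ℤ) * n) / (m : ℤ) =
        (r - j * n - 2 * i * d) / (m : ℤ) - 2 * i * p := by
      have : r - ((2 * i * q + j : ℕ) : ℤ) * n =
          (r - j * n - 2 * i * d) + (m : ℤ) * (-(2 * i * p)) := by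
        push_cast
        linear_combination (-2 * (i : ℤ)) * h
      rw [this, Int.add_mul_ediv_left _ _ hm']
      ring
    have e2 : (r - (((2 * i + 1) * q + j : ℕ) : ℤ) * n) / (m : ℤ) =
        (r - j * n - 2 * i * d - d) / (m : ℤ) - (2 * i + 1) * p := by
      have : r - (((2 * i + 1) * q + j : ℕ) : ℤ) * n =
          (r - j * n - 2 * i * d - d) + (m : ℤ) * (-((2 * i + 1) * p)) := by
        push_cast
        linear_combination (-(2 * (i : ℤ) + 1)) * h
      rw [this, Int.add_mul_ediv_left _ _ hm']
      ring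
    rw [e1, e2, clusterH]
    ring
  unfold sK
  rw [key, Int.negOnePow_add, Int.negOnePow_add, Int.negOnePow_two_mul, mul_one]

theorem hCluster (_ : Stmt_SK) : Stmt_Cluster := by
  intro m n q a T p d hm hq ha hqn hd hT hsep
  have hm' : (0 : ℤ) < m := by exact_mod_cast hm
  have ha1 : (1 : ℤ) ≤ a := by exact_mod_cast ha
  have hdpos : 0 < |d| := abs_pos.2 hd
  have hT0 : (0 : ℤ) ≤ T := by positivity
  have hdm : |d| ≤ m := by nlinarith
  -- representation of the nonzero terms
  have hrep : ∀ (r : ℤ) (i j : ℕ), clusterH m d (r - j * n - 2 * i * d) ≠ 0 →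
      clusterH m d (r - j * n - 2 * i * d) = d.sign ∧ ∃ k : ℤ,
        min 0 d ≤ r - j * n - 2 * i * d - k * m ∧ r - j * n - 2 * i * d - k * m < max 0 d :=
    fun r i j h => clusterH_ne hm hdm h
  -- offsets of a cluster
  have hoff : ∀ (i i' : ℕ) (u u' : ℤ), i < a → i' < a → min 0 d ≤ u → u < max 0 d →
      min 0 d ≤ u' → u' < max 0 d → |(u + 2 * i * d) - (u' + 2 * i' * d)| < 2 * a * |d| := by
    intro i i' u u' hi hi' h1 h2 h3 h4
    have hi1 : (i : ℤ) ≤ a - 1 := by
      have : (i : ℤ) < a := by exact_mod_cast hi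
      linarith
    have hi2 : (i' : ℤ) ≤ a - 1 := by
      have : (i' : ℤ) < a := by exact_mod_cast hi'
      linarith
    have hi0 : (0 : ℤ) ≤ i := by positivity
    have hi0' : (0 : ℤ) ≤ i' := by positivity
    have huu : |u - u'| < |d| := by
      rcases lt_or_gt_of_ne hd with h | h
      · rw [min_eq_right h.le] at h1 h3
        rw [max_eq_left h.le] at h2 h4
        rw [abs_of_neg h, abs_lt]
        constructor <;> linarith
      · rw [min_eq_left h.le] at h1 h3
        rw [max_eq_right h.le] at h2 h4
        rw [abs_of_pos h, abs_lt]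
        constructor <;> linarith
    have hii : |(i : ℤ) - i'| ≤ a - 1 := by
      rw [abs_le]
      constructor <;> linarith
    have e : (u + 2 * i * d) - (u' + 2 * i' * d) = (u - u') + 2 * (((i : ℤ) - i') * d) := by ring
    rw [e]
    calc |(u - u') + 2 * (((i : ℤ) - i') * d)| ≤ |u - u'| + |2 * (((i : ℤ) - i') * d)| :=
          abs_add_le _ _
      _ = |u - u'| + 2 * (|(i : ℤ) - i'| * |d|) := by
          rw [abs_mul, abs_mul]
          norm_num
      _ < 2 * a * |d| := by nlinarith
  -- uniqueness of the cluster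
  have huniq : ∀ (r r' : ℤ) (i j i' j' : ℕ) (k k' : ℤ), |r - r'| ≤ T → i < a → i' < a → j < q →
      j' < q → min 0 d ≤ r - j * n - 2 * i * d - k * m → r - j * n - 2 * i * d - k * m < max 0 d →
      min 0 d ≤ r' - j' * n - 2 * i' * d - k' * m →
      r' - j' * n - 2 * i' * d - k' * m < max 0 d → j = j' ∧ k = k' := by
    intro r r' i j i' j' k k' hrr hi hi' hj hj' h1 h2 h3 h4
    have hlt := hoff i i' _ _ hi hi' h1 h2 h3 h4
    have e : (r - j * n - 2 * i * d - k * m + 2 * i * d) -
        (r' - j' * n - 2 * i' * d - k' * m + 2 * i' * d) =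
        (r - r') - (((j : ℤ) - j') * n - (k' - k) * m) := by ring
    rw [e] at hlt
    have hjj : j = j' := by
      by_contra hne
      have h5 := hsep j j' hj hj' hne (k' - k)
      have h6 : |((j : ℤ) - j') * n - (k' - k) * m| ≤ |r - r'| +
          |(r - r') - (((j : ℤ) - j') * n - (k' - k) * m)| := by
        have := abs_sub (r - r') ((r - r') - (((j : ℤ) - j') * n - (k' - k) * m))
        rw [sub_sub_cancel] at this
        exact this
      linarith
    refine ⟨hjj, ?_⟩
    subst hjj
    by_contra hne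
    have h7 : (m : ℤ) ≤ |(k' - k) * m| := by
      rw [abs_mul, abs_of_pos hm']
      have : 1 ≤ |k' - k| := Int.one_le_abs (sub_ne_zero.2 (Ne.symm hne))
      nlinarith
    have h6 : |(k' - k) * m| ≤ |r - r'| + |(r - r') - (((j : ℤ) - j) * n - (k' - k) * m)| := by
      have := abs_sub ((r - r') - (((j : ℤ) - j) * n - (k' - k) * m)) (r - r')
      have e2 : (r - r') - (((j : ℤ) - j) * n - (k' - k) * m) - (r - r') = (k' - k) * m := by ring
      rw [e2] at this
      linarith
    linarith
  -- uniqueness of the interval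
  have huniq' : ∀ (r : ℤ) (i j i' j' : ℕ), i < a → i' < a → j < q → j' < q →
      clusterH m d (r - j * n - 2 * i * d) ≠ 0 → clusterH m d (r - j' * n - 2 * i' * d) ≠ 0 →
      i = i' ∧ j = j' := by
    intro r i j i' j' hi hi' hj hj' h1 h2
    obtain ⟨-, k, h3, h4⟩ := hrep r i j h1
    obtain ⟨-, k', h5, h6⟩ := hrep r i' j' h2
    obtain ⟨hjj, hkk⟩ := huniq r r i j i' j' k k' (by simp) hi hi' hj hj' h3 h4 h5 h6
    subst hjj
    subst hkk
    refine ⟨?_, rfl⟩
    by_contra hne
    have h7 : |2 * (((i : ℤ) - i') * d)| < |d| := by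
      have e : 2 * (((i : ℤ) - i') * d) = (r - j * n - 2 * i' * d - k * m) -
        (r - j * n - 2 * i * d - k * m) := by ring
      rw [e]
      rcases lt_or_gt_of_ne hd with h | h
      · rw [min_eq_right h.le] at h3 h5
        rw [max_eq_left h.le] at h4 h6
        rw [abs_of_neg h, abs_lt]
        constructor <;> linarith
      · rw [min_eq_left h.le] at h3 h5
        rw [max_eq_right h.le] at h4 h6
        rw [abs_of_pos h, abs_lt]
        constructor <;> linarith
    have h8 : 1 ≤ |(i : ℤ) - i'| := Int.one_le_abs (sub_ne_zero.2 (by exact_mod_cast hne))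
    rw [abs_mul, abs_mul] at h7
    norm_num at h7
    nlinarith
  -- the value of the sum
  have hval : ∀ r : ℤ, (clusterS m n q a d r = 0 ∨ clusterS m n q a d r = d.sign) ∧
      (clusterS m n q a d r ≠ 0 → ∃ i < a, ∃ j < q, clusterH m d (r - j * n - 2 * i * d) ≠ 0) := by
    intro r
    have hS : clusterS m n q a d r = ∑ x ∈ range a ×ˢ range q,
        clusterH m d (r - (x.2 : ℤ) * n - 2 * (x.1 : ℤ) * d) := by
      rw [clusterS, Finset.sum_product]
    by_cases hex : ∃ i < a, ∃ j < q, clusterH m d (r - j * n - 2 * i * d) ≠ 0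
    · obtain ⟨i, hi, j, hj, hne⟩ := hex
      refine ⟨?_, fun _ => ⟨i, hi, j, hj, hne⟩⟩
      right
      rw [hS, Finset.sum_eq_single (i, j)]
      · exact (hrep r i j hne).1
      · rintro ⟨i', j'⟩ hx hxne
        rw [Finset.mem_product, Finset.mem_range, Finset.mem_range] at hx
        by_contra hne'
        obtain ⟨h1, h2⟩ := huniq' r i j i' j' hi hx.1 hj hx.2 hne hne'
        exact hxne (by rw [h1, h2])
      · intro hx
        exact (hx (Finset.mem_product.2 ⟨Finset.mem_range.2 hi, Finset.mem_range.2 hj⟩)).elim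
    · push Not at hex
      have h0 : clusterS m n q a d r = 0 := by
        rw [clusterS]
        exact Finset.sum_eq_zero fun i hi => Finset.sum_eq_zero fun j hj =>
          hex i (Finset.mem_range.1 hi) j (Finset.mem_range.1 hj)
      exact ⟨Or.inl h0, fun h => (h h0).elim⟩
  have hsgn : d.sign = 1 ∨ d.sign = -1 := by
    rcases lt_or_gt_of_ne hd with h | h
    · exact Or.inr (Int.sign_eq_neg_one_of_neg h)
    · exact Or.inl (Int.sign_eq_one_of_pos h)
  have hZ : ∀ r : ℤ, sK m n (2 * (a * q)) r = -(Int.negOnePow (a * q * p)) ↔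
      clusterS m n q a d r = d.sign := by
    intro r
    rw [cluster_sK hm n q a p d hqn r]
    rcases (hval r).1 with h | h
    · rw [h]
      constructor
      · intro h1
        exfalso
        rw [Int.negOnePow_zero, mul_one] at h1
        rcases Int.units_eq_one_or (Int.negOnePow (a * q * p)) with h2 | h2 <;>
          rw [h2] at h1 <;> revert h1 <;> decide
      · intro h1
        rcases hsgn with h2 | h2 <;> rw [h2] at h1 <;> omega
    · rw [h]
      constructor
      · intro _
        rfl
      · intro _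
        have : Int.negOnePow d.sign = -1 := by
          rcases hsgn with h2 | h2 <;> rw [h2] <;> rfl
        rw [this, mul_neg, mul_one]
  constructor
  · -- the number per period
    have h1 : (cnt m (sK m n (2 * (a * q))) (-(Int.negOnePow (a * q * p))) : ℤ) =
        ∑ r ∈ range m, d.sign * clusterS m n q a d r := by
      rw [cnt, Finset.card_filter]
      push_cast
      refine Finset.sum_congr rfl fun r _ => ?_
      by_cases h : clusterS m n q a d r = d.sign
      · rw [if_pos ((hZ r).2 h), h]
        rcases hsgn with h2 | h2 <;> rw [h2] <;> norm_num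
      · rw [if_neg (fun h' => h ((hZ r).1 h'))]
        rcases (hval r).1 with h0 | h0
        · rw [h0, mul_zero]
        · exact (h h0).elim
    rw [h1, ← Finset.mul_sum]
    have h2 : ∑ r ∈ range m, clusterS m n q a d r = a * q * d := by
      unfold clusterS
      rw [Finset.sum_comm]
      have : ∀ i ∈ range a, ∑ r ∈ range m, ∑ j ∈ range q,
          clusterH m d ((r : ℤ) - j * n - 2 * i * d) = q * d := by
        intro i _
        rw [Finset.sum_comm]
        have : ∀ j ∈ range q, ∑ r ∈ range m, clusterH m d ((r : ℤ) - j * n - 2 * i * d) = d := by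
          intro j _
          have := cluster_sumH hm d ((j : ℤ) * n + 2 * i * d)
          rw [← this]
          refine Finset.sum_congr rfl fun r _ => ?_
          rw [this]
          congr 1
          ring
        rw [Finset.sum_congr rfl this]
        simp
      rw [Finset.sum_congr rfl this]
      simp
      ring
    rw [h2]
    rw [← Int.sign_mul_self_eq_abs]
    ring
  · -- a window
    intro x
    set Fi := (Finset.range T).filter (fun i : ℕ =>
      sK m n (2 * (a * q)) (x + i) = -(Int.negOnePow (a * q * p))) with hFi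
    have hmem : ∀ t ∈ Fi, t < T ∧ ∃ i < a, ∃ j < q, ∃ k : ℤ,
        min 0 d ≤ (x + t) - j * n - 2 * i * d - k * m ∧
        (x + t) - j * n - 2 * i * d - k * m < max 0 d := by
      intro t ht
      rw [hFi, Finset.mem_filter, Finset.mem_range] at ht
      refine ⟨ht.1, ?_⟩
      have h1 := (hZ _).1 ht.2
      have h2 : clusterS m n q a d (x + t) ≠ 0 := by
        rw [h1]
        rcases hsgn with h | h <;> rw [h] <;> decide
      obtain ⟨i, hi, j, hj, hne⟩ := (hval _).2 h2
      obtain ⟨-, k, h3, h4⟩ := hrep _ i j hne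
      exact ⟨i, hi, j, hj, k, h3, h4⟩
    rcases Finset.eq_empty_or_nonempty Fi with hem | ⟨t0, ht0⟩
    · rw [hem]
      simp
      positivity
    · obtain ⟨ht0T, i0, hi0, j0, hj0, k0, h01, h02⟩ := hmem t0 ht0
      set U : Finset ℤ := (range a).biUnion fun i =>
        Finset.Ico (min 0 d + 2 * i * d) (max 0 d + 2 * i * d) with hU
      have hcardU : (U.card : ℤ) ≤ a * |d| := by
        have h1 : U.card ≤ (range a).card * (|d|).toNat := by
          refine Finset.card_biUnion_le_card_mul _ _ _ fun i _ => ?_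
          rw [Int.card_Ico]
          apply le_of_eq
          congr 1
          rcases lt_or_gt_of_ne hd with h | h
          · rw [min_eq_right h.le, max_eq_left h.le, abs_of_neg h]
            ring
          · rw [min_eq_left h.le, max_eq_right h.le, abs_of_pos h]
            ring
        rw [card_range] at h1
        have h2 : ((U.card : ℕ) : ℤ) ≤ ((a * (|d|).toNat : ℕ) : ℤ) := by exact_mod_cast h1
        rw [Nat.cast_mul, Int.toNat_of_nonneg (abs_nonneg d)] at h2
        exact h2
      have hinj : Fi.card ≤ U.card := by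
        refine Finset.card_le_card_of_injOn (fun t : ℕ => x + t - j0 * n - k0 * m) ?_ ?_
        · intro t ht
          obtain ⟨htT, i, hi, j, hj, k, h1, h2⟩ := hmem t ht
          have habs : |(x + t) - (x + t0)| ≤ T := by
            have e1 : (t : ℤ) < T := by exact_mod_cast htT
            have e2 : (t0 : ℤ) < T := by exact_mod_cast ht0T
            have e3 : (0 : ℤ) ≤ t := by positivity
            have e4 : (0 : ℤ) ≤ t0 := by positivity
            rw [abs_le]
            constructor <;> linarith
          obtain ⟨hjj, hkk⟩ := huniq _ _ i j i0 j0 k k0 habs hi hi0 hj hj0 h1 h2 h01 h02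
          subst hjj
          subst hkk
          rw [hU, Finset.mem_coe, Finset.mem_biUnion]
          refine ⟨i, Finset.mem_range.2 hi, ?_⟩
          rw [Finset.mem_Ico]
          constructor <;> linarith
        · intro t _ t' _ h
          simp only at h
          have : (t : ℤ) = t' := by linarith
          exact_mod_cast this
      have : ((Fi.card : ℕ) : ℤ) ≤ U.card := by exact_mod_cast hinj
      linarith

end Horo
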