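import Pool.Agent.Horo.GDefs

/-!
# Problem MP_943ece_an, (A9), combinatorial half
-/

open Finset

namespace Horo

theorem comb_step {M : Type} [CommGroup M] (m : ℕ) (g : ℤ → M) (hg : ∀ r, g (r + m) = g r) :
    ∏ r ∈ Finset.range m, g ((r : ℤ) + 1) = ∏ r ∈ Finset.range m, g (r : ℤ) := by
  have h1 := Finset.prod_range_succ (fun r : ℕ => g (r : ℤ)) m
  have h2 := Finset.prod_range_succ' (fun r : ℕ => g (r : ℤ)) m
  rw [h1] at h2
  have h3 : g (m : ℤ) = g ((0 : ℕ) : ℤ) := by
    have := hg 0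
    rw [zero_add] at this
    simpa using this
  rw [h3] at h2
  have h4 := mul_right_cancel h2
  rw [h4]
  refine Finset.prod_congr rfl fun r _ => ?_
  push_cast
  rfl

theorem comb_shift {M : Type} [CommGroup M] (m : ℕ) (f : ℤ → M) (hf : ∀ r, f (r + m) = f r)
    (a : ℤ) : ∏ r ∈ Finset.range m, f ((r : ℤ) + a) = ∏ r ∈ Finset.range m, f (r : ℤ) := by
  induction a using Int.induction_on with
  | zero => simp
  | succ i ih =>
    rw [← ih]
    have := comb_step m (fun x => f (x + i)) (fun r => by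
      show f (r + m + i) = f (r + i)
      rw [show r + (m : ℤ) + i = r + i + m by ring, hf])
    rw [← this]
    refine Finset.prod_congr rfl fun r _ => ?_
    congr 1
    ring
  | pred i ih =>
    rw [← ih]
    have := comb_step m (fun x => f (x + (-i - 1))) (fun r => by
      show f (r + m + (-i - 1)) = f (r + (-i - 1))
      rw [show r + (m : ℤ) + (-i - 1) = r + (-i - 1) + m by ring, hf])
    rw [← this]
    refine Finset.prod_congr rfl fun r _ => ?_
    congr 1
    ring

theorem comb_even (m : ℕ) (n c : ℤ) (E : ℤ → ℤˣ) (hper : ∀ r, E (r + m) = E r)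
    (hstep : ∀ r : ℤ, E (r + n) = E r * (if r % (m : ℤ) < c then -1 else 1)) (h0 : 0 ≤ c)
    (hc : c ≤ m) : Even c := by
  have h1 : ∏ r ∈ Finset.range m, E ((r : ℤ) + n) = ∏ r ∈ Finset.range m, E (r : ℤ) :=
    comb_shift m E hper n
  have h2 : ∏ r ∈ Finset.range m, E ((r : ℤ) + n) =
      (∏ r ∈ Finset.range m, E (r : ℤ)) *
        ∏ r ∈ Finset.range m, (if ((r : ℕ) : ℤ) < c then (-1 : ℤˣ) else 1) := by
    rw [← Finset.prod_mul_distrib]
    refine Finset.prod_congr rfl fun r hr => ?_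
    rw [hstep]
    have h3 : ((r : ℕ) : ℤ) % (m : ℤ) = r := by
      rw [Finset.mem_range] at hr
      exact Int.emod_eq_of_lt (by omega) (by omega)
    rw [h3]
  rw [h1] at h2
  have h3 : ∏ r ∈ Finset.range m, (if ((r : ℕ) : ℤ) < c then (-1 : ℤˣ) else 1) = 1 := by
    have := mul_left_cancel (a := ∏ r ∈ Finset.range m, E (r : ℤ)) (b := 1)
      (c := ∏ r ∈ Finset.range m, (if ((r : ℕ) : ℤ) < c then (-1 : ℤˣ) else 1))
      (by rw [mul_one]; exact h2)
    exact this.symm
  obtain ⟨k, rfl⟩ := Int.eq_ofNat_of_zero_le h0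
  rw [Finset.prod_ite, Finset.prod_const, Finset.prod_const_one, mul_one] at h3
  have h4 : (Finset.range m).filter (fun r : ℕ => ((r : ℕ) : ℤ) < (k : ℤ)) = Finset.range k := by
    ext r
    simp only [Finset.mem_filter, Finset.mem_range]
    omega
  rw [h4, Finset.card_range] at h3
  have h5 : Even k := by
    by_contra hodd
    rw [Nat.not_even_iff_odd] at hodd
    rw [hodd.neg_one_pow] at h3
    exact absurd h3 (by decide)
  exact_mod_cast h5

theorem comb_sumE (m : ℕ) (E : ℤ → ℤˣ) :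
    ∑ r ∈ Finset.range m, (((E (r : ℤ) : ℤˣ) : ℤ) : ℝ) = m - 2 * (cnt m E (-1) : ℝ) := by
  unfold cnt
  rw [Finset.card_filter]
  push_cast
  have h1 : ∀ r ∈ Finset.range m, (((E (r : ℤ) : ℤˣ) : ℤ) : ℝ) =
      1 - 2 * (if E (r : ℤ) = -1 then (1 : ℝ) else 0) := by
    intro r _
    rcases Int.units_eq_one_or (E (r : ℤ)) with h | h
    · rw [h]
      have : ¬ ((1 : ℤˣ) = -1) := by decide
      rw [if_neg this]
      norm_num
    · rw [h, if_pos rfl]
      norm_num
  rw [Finset.sum_congr rfl h1, Finset.sum_sub_distrib, ← Finset.mul_sum]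
  simp

theorem comb_D (a2 Y ρ : ℝ) (H : ℝ → ℝ) (m : ℕ) (hm : 0 < m) (hmono : Monotone H)
    (hper : ∀ y, H (y + 1) = H y + (1 - a2)) (hY : Y ≤ 2) :
    ∑ r ∈ Finset.range m, (H ((ρ + r) / m) - H ((ρ + r - Y) / m)) ≤ 2 * (1 - a2) := by
  have hmR : (0 : ℝ) < m := by exact_mod_cast hm
  have h1 : ∑ r ∈ Finset.range m, (H ((ρ + r) / m) - H ((ρ + r - Y) / m)) ≤
      ∑ r ∈ Finset.range m, ((H ((ρ + (r : ℝ)) / m) - H ((ρ + r - 1) / m)) +
        (H ((ρ + r - 1) / m) - H ((ρ + r - 2) / m))) := by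
    refine Finset.sum_le_sum fun r _ => ?_
    have : H ((ρ + r - 2) / m) ≤ H ((ρ + r - Y) / m) := by
      apply hmono
      exact div_le_div_of_nonneg_right (by linarith) hmR.le
    linarith
  refine h1.trans ?_
  rw [Finset.sum_add_distrib]
  have h2 : ∑ r ∈ Finset.range m, (H ((ρ + (r : ℝ)) / m) - H ((ρ + r - 1) / m)) = 1 - a2 := by
    have h3 := Finset.sum_range_sub (fun r : ℕ => H ((ρ + (r : ℝ) - 1) / m)) m
    have h4 : ∑ r ∈ Finset.range m, (H ((ρ + (r : ℝ)) / m) - H ((ρ + r - 1) / m)) =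
        ∑ r ∈ Finset.range m, (H ((ρ + ((r + 1 : ℕ) : ℝ) - 1) / m) - H ((ρ + (r : ℝ) - 1) / m)) := by
      refine Finset.sum_congr rfl fun r _ => ?_
      congr 3
      push_cast
      ring
    rw [h4, h3]
    have h5 : (ρ + (m : ℝ) - 1) / m = (ρ + ((0 : ℕ) : ℝ) - 1) / m + 1 := by
      push_cast
      field_simp
      ring
    rw [h5, hper]
    ring
  have h2' : ∑ r ∈ Finset.range m, (H ((ρ + (r : ℝ) - 1) / m) - H ((ρ + r - 2) / m)) = 1 - a2 := by
    have h3 := Finset.sum_range_sub (fun r : ℕ => H ((ρ + (r : ℝ) - 2) / m)) m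
    have h4 : ∑ r ∈ Finset.range m, (H ((ρ + (r : ℝ) - 1) / m) - H ((ρ + r - 2) / m)) =
        ∑ r ∈ Finset.range m, (H ((ρ + ((r + 1 : ℕ) : ℝ) - 2) / m) - H ((ρ + (r : ℝ) - 2) / m)) := by
      refine Finset.sum_congr rfl fun r _ => ?_
      congr 3
      push_cast
      ring
    rw [h4, h3]
    have h5 : (ρ + (m : ℝ) - 2) / m = (ρ + ((0 : ℕ) : ℝ) - 2) / m + 1 := by
      push_cast
      field_simp
      ring
    rw [h5, hper]
    ring
  rw [h2, h2']
  linarith

theorem hComb : Stmt_Comb := by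
  intro θ ys a2 η η2 η3 G m n Y Δ ρ E hG hys hys2 hη2 hη hη1 ha2 ha2' hη3 hη3' hm hcop hY hY1 hρ
    hρ1 hper hstep hΔ hnear hbig
  have hmR : (0 : ℝ) < m := by exact_mod_cast hm
  obtain ⟨hY2, hY3⟩ := abs_le.1 hY1
  set c : ℤ := ⌈(m : ℝ) * ys - ρ⌉ with hc
  have hstep' : ∀ r : ℤ, E (r + n) = E r * (if r % (m : ℤ) < c then -1 else 1) := by
    intro r
    rw [hstep r]
    congr 1
    have h1 : (((r % (m : ℤ) : ℤ) : ℝ) + ρ < m * ys) ↔ r % (m : ℤ) < c := by
      rw [hc, Int.lt_ceil]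
      constructor
      · intro h
        linarith
      · intro h
        linarith
    by_cases h2 : r % (m : ℤ) < c
    · rw [if_pos h2, if_pos (h1.2 h2)]
    · rw [if_neg h2, if_neg fun h => h2 (h1.1 h)]
  have hc0 : 0 ≤ c := by
    have h1 : (-1 : ℝ) < m * ys - ρ := by
      have := mul_pos hmR hys
      linarith
    have h2 : (-1 : ℤ) < c := by
      rw [hc, Int.lt_ceil]
      push_cast
      exact h1
    omega
  have hcm : c ≤ m := by
    rw [hc, Int.ceil_le]
    push_cast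
    have : (m : ℝ) * ys ≤ m * (1 / 4) := mul_le_mul_of_nonneg_left hys2.le hmR.le
    linarith
  obtain ⟨n1, hn1⟩ := comb_even m n c E hper hstep' hc0 hcm
  have hc2 : c = 2 * n1 := by rw [hn1]; ring
  refine ⟨n1, E, hm, hcop, ?_, ?_, hper, ?_, ?_⟩
  · rw [← hY]
    exact hY1.trans (by norm_num)
  · have : ((c : ℤ) : ℝ) = 2 * n1 := by
      rw [hc2]
      push_cast
      ring
    rw [← this]
    exact hnear
  · intro r
    rw [← hc2]
    exact hstep' r
  · -- few minus signs
    have hmono : Monotone (fun y => y - G y) := by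
      intro x y hxy
      have h1 := hG.lip y x
      rw [abs_of_nonneg (by linarith : 0 ≤ y - x)] at h1
      have h2 := (abs_le.1 h1).2
      show x - G x ≤ y - G y
      linarith
    have hHper : ∀ y, (fun y => y - G y) (y + 1) = (fun y => y - G y) y + (1 - a2) := by
      intro y
      show y + 1 - G (y + 1) = y - G y + (1 - a2)
      rw [hG.per]
      ring
    have hD := comb_D a2 Y ρ (fun y => y - G y) m hm hmono hHper (by linarith)
    have hS := comb_sumE m E
    have h1 : ∀ r ∈ Finset.range m, (((E (r : ℤ) : ℤˣ) : ℤ) : ℝ) *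
        (G ((ρ + r) / m) - G ((ρ + r - Y) / m)) ≤
        (((E (r : ℤ) : ℤˣ) : ℤ) : ℝ) * (Y / m) +
          ((fun y => y - G y) ((ρ + r) / m) - (fun y => y - G y) ((ρ + r - Y) / m)) := by
      intro r _
      have h2 : (ρ + (r : ℝ) - Y) / m = (ρ + r) / m - Y / m := by
        rw [← sub_div]
      have h3 : 0 ≤ (fun y => y - G y) ((ρ + r) / m) - (fun y => y - G y) ((ρ + r - Y) / m) := by
        have : (ρ + (r : ℝ) - Y) / m ≤ (ρ + r) / m :=
          div_le_div_of_nonneg_right (by linarith) hmR.le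
        have := hmono this
        linarith
      have h4 : G ((ρ + r) / m) - G ((ρ + r - Y) / m) = Y / m -
          ((fun y => y - G y) ((ρ + r) / m) - (fun y => y - G y) ((ρ + r - Y) / m)) := by
        show G ((ρ + r) / m) - G ((ρ + r - Y) / m) = Y / m -
          (((ρ + r) / m - G ((ρ + r) / m)) - ((ρ + r - Y) / m - G ((ρ + r - Y) / m)))
        rw [h2]
        ring
      rw [h4]
      rcases Int.units_eq_one_or (E (r : ℤ)) with h | h
      · rw [h]
        push_cast
        linarith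
      · rw [h]
        push_cast
        linarith
    have h2 := Finset.sum_le_sum h1
    rw [← hΔ, Finset.sum_add_distrib, ← Finset.sum_mul, hS] at h2
    have h3 : (1 - 5 * η2) * Y ≤ (m - 2 * (cnt m E (-1) : ℝ)) * (Y / m) + 2 * (1 - a2) := by
      linarith
    have h4 : (m - 2 * (cnt m E (-1) : ℝ)) * (Y / m) = Y - 2 * (cnt m E (-1) : ℝ) * Y / m := by
      field_simp
    rw [h4] at h3
    have h5 : 2 * (cnt m E (-1) : ℝ) * Y / m ≤ 5 * η2 * Y + 4 * η2 := by linarith
    rw [div_le_iff₀ hmR] at h5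
    have h6 : 5 * η2 * Y + 4 * η2 ≤ 2 * η * Y := by
      rw [hη]
      nlinarith
    have h7 : (5 * η2 * Y + 4 * η2) * m ≤ 2 * η * Y * m := mul_le_mul_of_nonneg_right h6 hmR.le
    have hYpos : 0 < Y := by linarith
    have h8 : (cnt m E (-1) : ℝ) * (2 * Y) ≤ (η * m) * (2 * Y) := by linarith
    exact le_of_mul_le_mul_right h8 (by linarith)

end Horo
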