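import Pool.Agent.Horo.D.abDiff
import Pool.Agent.Horo.D.chartInt
import Pool.Agent.Horo.D.chartParam
import Pool.Agent.Horo.D.chartSeam
import Pool.Agent.Horo.D.circles
import Pool.Agent.Horo.D.classes
import Pool.Agent.Horo.D.closedRel
import Pool.Agent.Horo.D.connX
import Pool.Agent.Horo.D.contPsi
import Pool.Agent.Horo.D.finSupp
import Pool.Agent.Horo.D.goodRad
import Pool.Agent.Horo.D.incrPsi
import Pool.Agent.Horo.D.injPsi
import Pool.Agent.Horo.D.nhdsInt
import Pool.Agent.Horo.D.nhdsSeam
import Pool.Agent.Horo.D.openPsi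
import Pool.Agent.Horo.D.primCompat
import Pool.Agent.Horo.D.roots
import Pool.Agent.Horo.D.surjPsi
import Pool.Agent.Horo.E.Ebij
import Pool.Agent.Horo.E.Enear
import Pool.Agent.Horo.E.GG
import Pool.Agent.Horo.E.Rbij
import Pool.Agent.Horo.E.Rnear
import Pool.Agent.Horo.E.baseC
import Pool.Agent.Horo.E.baseSum
import Pool.Agent.Horo.E.bendCoc
import Pool.Agent.Horo.E.bendInv
import Pool.Agent.Horo.E.connC
import Pool.Agent.Horo.E.diag
import Pool.Agent.Horo.E.rep

/-! Assembly of the surface constructor and of the concrete diagram. -/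

namespace Horo

theorem abDiff_all (C : Type) [TopologicalSpace C] [AddAction ℝ C] : Stmt_abDiff C :=
  have hfs := finSupp C
  have hcl := closedRel C hfs
  have hgr := goodRad C hfs
  have hni := nhdsInt C
  have hns := nhdsSeam C hgr
  have hco := contPsi C roots hfs
  abDiff C hcl hfs (chartInt C chartParam hni hcl)
    (chartSeam C chartParam hcl hfs hgr hco (injPsi C roots (classes C) hfs)
      (surjPsi C roots hfs) (openPsi C hcl hfs hco) (incrPsi C roots hfs))
    (primCompat C hni hns) (connX C)

theorem bendCoc_all : Stmt_bendCoc := bendCoc rep GGthm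

theorem bendInv_all : Stmt_bendInv := bendInv rep GGthm bendCoc_all

theorem diag_all : Stmt_diag :=
  diag (Ebij rep) (Enear rep) Rbij (Rnear rep) bendCoc_all bendInv_all (connC rep)

theorem baseC_all : Stmt_baseC := baseC baseSum circles

end Horo
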