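import Pool.Agent.Horo.SeamDefs

/-!
Frozen statements for the surface constructor.  Module `N` proves `theorem N : Stmt_N`.
Conventions: `C` compact Hausdorff base space.
-/

open Topology Filter Set Complex

namespace Horo

/-- Chart from a compact parameter space. -/
def Stmt_chartParam : Prop :=
  ∀ (X : Type) [TopologicalSpace X] [T2Space X] (K : Type) [TopologicalSpace K] [CompactSpace K]
    [Nonempty K] (Ψ : K → X) (ζ : K → ℂ) (ρ : ℝ), Continuous Ψ → Continuous ζ →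
    (∀ a b, ζ a = ζ b ↔ Ψ a = Ψ b) → IsOpen (Ψ '' {a | ‖ζ a‖ < ρ}) →
    (∀ w : ℂ, ‖w‖ < ρ → ∃ a, ζ a = w) →
    ∃ e : OpenPartialHomeomorph X ℂ, e.source = Ψ '' {a | ‖ζ a‖ < ρ} ∧
      e.target = {w | ‖w‖ < ρ} ∧ ∀ a, e (Ψ a) = ζ a

/-- Elementary facts on principal roots. -/
def Stmt_roots : Prop :=
  ∀ k : ℕ, 0 < k →
    (rt k 0 = 0) ∧
    (∀ w, rt k w ^ k = w) ∧
    (∀ w, w ∈ slitPlane ∨ w = 0 → ContinuousAt (rt k) w) ∧
    (∀ w, 0 < w.im → rt k (-w) * et k = rt k w) ∧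
    (∀ w, w.im < 0 → rt k (-w) * et k = rt k w * om k) ∧
    (om k ^ k = 1) ∧ (et k ^ k = -1) ∧
    (∀ w, w ≠ 0 → ∀ i j : ℕ, i < k → j < k → rt k w * om k ^ i = rt k w * om k ^ j → i = j) ∧
    (∀ v w, v ≠ 0 → v ^ k = w → ∃ j : ℕ, j < k ∧ rt k w * om k ^ j = v) ∧
    (∀ v w, v ≠ 0 → v ^ k = w → ∃ j : ℕ, j < k ∧ rt k (-w) * et k * om k ^ j = v)

section

variable (C : Type) [TopologicalSpace C] [AddAction ℝ C]

/-- Only finitely many points of the left boundary are moved by `τ`; hence cycles are finite. -/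
def Stmt_finSupp : Prop := ∀ [CompactSpace C] [T2Space C] [BaseSpace C] (D : Diagram C),
  {y | D.τ y ≠ y}.Finite ∧ (∀ y, 0 < D.len y) ∧
    ∀ y y', D.τ.SameCycle y y' → ∃ j : ℕ, j < D.len y ∧ (D.τ ^ j) y = y'

/-- The gluing relation is closed. -/
def Stmt_closedRel : Prop := ∀ [CompactSpace C] [T2Space C] [BaseSpace C] (D : Diagram C),
  IsClosed {p : Diagram.Y C × Diagram.Y C | D.setoid p.1 p.2}

/-- Neighbourhoods of interior points. -/
def Stmt_nhdsInt : Prop := ∀ [CompactSpace C] [T2Space C] [BaseSpace C] (D : Diagram C) (x : C)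
  (s r : ℝ), 0 < s → s < D.wid x → 0 < r →
  {q | ∃ v u : ℝ, |v| < r ∧ |u| < r ∧ q = D.proj (D.pt (u +ᵥ x) (s + v))}
    ∈ 𝓝 (D.proj (D.pt x s))

/-- Neighbourhoods of seam points. -/
def Stmt_nhdsSeam : Prop := ∀ [CompactSpace C] [T2Space C] [BaseSpace C] (D : Diagram C) (y : C)
  (r : ℝ), 0 < r →
  {q | ∃ y', D.τ.SameCycle y y' ∧ ∃ v u : ℝ, 0 ≤ v ∧ v < r ∧ |u| < r ∧
      (q = D.ptR y' v u ∨ q = D.ptL y' v u)} ∈ 𝓝 (D.proj (D.pt y 0))

/-- Good radii exist, arbitrarily small. -/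
def Stmt_goodRad : Prop := ∀ [CompactSpace C] [T2Space C] [BaseSpace C] (D : Diagram C) (y : C),
  ∃ r : ℝ, D.GoodRad y r

/-- When two parameters give the same point of the surface. -/
def Stmt_classes : Prop := ∀ [CompactSpace C] [T2Space C] [BaseSpace C] (D : Diagram C) (y : C)
  (r : ℝ), D.GoodRad y r → ∀ y' y'', D.τ.SameCycle y y' → D.τ.SameCycle y y'' →
  ∀ v v' u u' : ℝ, 0 ≤ v → v ≤ r → 0 ≤ v' → v' ≤ r → |u| ≤ r → |u'| ≤ r →
    (D.ptR y' v u = D.ptR y'' v' u' ↔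
      (v = v' ∧ u = u' ∧ y' = y'') ∨ (v = 0 ∧ v' = 0 ∧ u = 0 ∧ u' = 0)) ∧
    (D.ptL y' v u = D.ptL y'' v' u' ↔
      (v = v' ∧ u = u' ∧ y' = y'') ∨ (v = 0 ∧ v' = 0 ∧ u = 0 ∧ u' = 0)) ∧
    (D.ptR y' v u = D.ptL y'' v' u' ↔
      (v = 0 ∧ v' = 0 ∧ u = u' ∧ (u = 0 ∨ (0 < u ∧ y' = y'') ∨ (u < 0 ∧ y' = D.τ y''))))

/-- Continuity of the parametrisation and of the coordinate. -/
def Stmt_contPsi : Prop := ∀ [CompactSpace C] [T2Space C] [BaseSpace C] (D : Diagram C) (y : C)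
  (r : ℝ), D.GoodRad y r → Continuous (D.Psi y r) ∧ Continuous (D.zeta y r)

/-- The coordinate separates exactly the points of the surface. -/
def Stmt_injPsi : Prop := ∀ [CompactSpace C] [T2Space C] [BaseSpace C] (D : Diagram C) (y : C)
  (r : ℝ), D.GoodRad y r → ∀ a b, D.zeta y r a = D.zeta y r b ↔ D.Psi y r a = D.Psi y r b

/-- The coordinate is onto a disc, and small values occur only inside. -/
def Stmt_surjPsi : Prop := ∀ [CompactSpace C] [T2Space C] [BaseSpace C] (D : Diagram C) (y : C)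
  (r : ℝ), D.GoodRad y r →
  (∀ w : ℂ, ‖w‖ < (1 - D.κ) * r → ∃ a, D.zeta y r a = w) ∧
  (∀ a, ‖D.zeta y r a‖ < (1 - D.κ) * r → (a.2.2.1 : ℝ) < r ∧ |(a.2.2.2 : ℝ)| < r)

/-- Saturated open sets of inner parameters have open image. -/
def Stmt_openPsi : Prop := ∀ [CompactSpace C] [T2Space C] [BaseSpace C] (D : Diagram C) (y : C)
  (r : ℝ), D.GoodRad y r → ∀ U : Set (Diagram.KK (D.len y) r), IsOpen U →
  (∀ a ∈ U, (a.2.2.1 : ℝ) < r ∧ |(a.2.2.2 : ℝ)| < r) →
  (∀ a b, a ∈ U → D.Psi y r a = D.Psi y r b → b ∈ U) → IsOpen (D.Psi y r '' U)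

/-- The `k`-th power of the coordinate increases as a primitive must (inside). -/
def Stmt_incrPsi : Prop := ∀ [CompactSpace C] [T2Space C] [BaseSpace C] (D : Diagram C) (y : C)
  (r : ℝ), D.GoodRad y r → ∀ (P : D.X → ℂ), (∀ a, P (D.Psi y r a) = D.zeta y r a ^ D.len y) →
  ∀ a : Diagram.KK (D.len y) r, (a.2.2.1 : ℝ) < r → |(a.2.2.2 : ℝ)| < r →
    (∀ x s, 0 < s → s < D.wid x → D.proj (D.pt x s) = D.Psi y r a → D.IncrInt P x s) ∧
    (∀ y', D.proj (D.pt y' 0) = D.Psi y r a → D.IncrSeam P y')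

/-- Charts at interior points. -/
def Stmt_chartInt : Prop := ∀ [CompactSpace C] [T2Space C] [BaseSpace C] (D : Diagram C) (x : C)
  (s : ℝ), 0 < s → s < D.wid x → ∃ e : OpenPartialHomeomorph D.X ℂ,
    D.proj (D.pt x s) ∈ e.source ∧ e (D.proj (D.pt x s)) = 0 ∧ D.IsPrimOn e e.source

/-- Charts at seam points. -/
def Stmt_chartSeam : Prop := ∀ [CompactSpace C] [T2Space C] [BaseSpace C] (D : Diagram C) (y : C),
  ∃ e : OpenPartialHomeomorph D.X ℂ, D.proj (D.pt y 0) ∈ e.source ∧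
    e (D.proj (D.pt y 0)) = 0 ∧ D.IsPrimOn (fun q => e q ^ D.len y) e.source

/-- Two functions that increase as primitives differ by a locally constant function. -/
def Stmt_primCompat : Prop := ∀ [CompactSpace C] [T2Space C] [BaseSpace C] (D : Diagram C)
  (P P' : D.X → ℂ) (S S' : Set D.X), D.IsPrimOn P S → D.IsPrimOn P' S' → ∀ q ∈ S ∩ S',
  ∀ᶠ q' in 𝓝 q, P q' - P' q' = P q - P' q

/-- The surface is connected. -/
def Stmt_connX : Prop := ∀ [CompactSpace C] [T2Space C] [BaseSpace C] [Nonempty C]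
  (D : Diagram C), ConnectedSpace D.X

/-- The Abelian differential of a diagram. -/
def Stmt_abDiff : Prop := ∀ [CompactSpace C] [T2Space C] [BaseSpace C] [Nonempty C]
  (D : Diagram C), CompactSpace D.X ∧ T2Space D.X ∧ ConnectedSpace D.X ∧
    ∃ A : AbDiff D.X, (∀ x s, 0 < s → s < D.wid x → A.ord (D.proj (D.pt x s)) = 0) ∧
      (∀ y, A.ord (D.proj (D.pt y 0)) = D.len y - 1) ∧
      ∀ q, D.IsPrimOn (A.P q) (A.z q).source

end

/-- The disjoint union of the circles of lengths `len c`. -/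
abbrev Circles {ι : Type} (len : ι → ℝ) : Type := Σ c : ι, AddCircle (len c)

/-- The translation action on the circles. -/
noncomputable instance circlesAction {ι : Type} (len : ι → ℝ) : AddAction ℝ (Circles len) where
  vadd u x := ⟨x.1, (u : AddCircle (len x.1)) + x.2⟩
  zero_vadd x := by
    obtain ⟨c, x⟩ := x
    show (⟨c, ((0 : ℝ) : AddCircle (len c)) + x⟩ : Circles len) = ⟨c, x⟩
    simp
  add_vadd u v x := by
    obtain ⟨c, x⟩ := x
    show (⟨c, ((u + v : ℝ) : AddCircle (len c)) + x⟩ : Circles len)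
      = ⟨c, (u : AddCircle (len c)) + ((v : AddCircle (len c)) + x)⟩
    rw [AddCircle.coe_add, add_assoc]

/-- Circles form a base space. -/
def Stmt_circles : Prop := ∀ (ι : Type) [Fintype ι] (len : ι → ℝ), (∀ c, 0 < len c) →
  CompactSpace (Circles len) ∧ T2Space (Circles len) ∧ BaseSpace (Circles len)

end Horo
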