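import Pool.Agent.Horo.ADefs

/-! # Counting descendants (paper (B4), second half) -/

open Finset

namespace Horo

lemma desc_child {κ : ℝ} (hκ : κ ≤ 1 / 100) {ρ' c : ℤ × ℤ} (h0 : ρ'.1 ≠ 0) {q : ℕ}
    {a : ℤ} (hq : 1 ≤ q) (hq2 : (q : ℝ) < 2 * |(c.1 : ℝ)|) (hM : |(ρ'.1 : ℝ)| ≤ κ * q)
    (hc : c.1 = ρ'.1 + a * q) : a ≠ 0 ∧ 99 / 100 * (|(a : ℝ)| * q) ≤ |(c.1 : ℝ)| ∧
      50 * |(ρ'.1 : ℝ)| ≤ |(c.1 : ℝ)| := by
  have hq1 : (1 : ℝ) ≤ q := by exact_mod_cast hq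
  have hM0 : 0 < |(ρ'.1 : ℝ)| := by
    rw [abs_pos]; exact_mod_cast h0
  have hM1 : |(ρ'.1 : ℝ)| ≤ 1 / 100 * q := hM.trans (mul_le_mul_of_nonneg_right hκ (by linarith))
  have ha : a ≠ 0 := by
    rintro rfl
    have : c.1 = ρ'.1 := by rw [hc]; ring
    rw [this] at hq2
    linarith
  have ha1 : (1 : ℝ) ≤ |(a : ℝ)| := by
    have : (1 : ℤ) ≤ |a| := Int.one_le_abs ha
    have h2 : ((1 : ℤ) : ℝ) ≤ ((|a| : ℤ) : ℝ) := by exact_mod_cast this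
    rwa [Int.cast_one, Int.cast_abs] at h2
  have hcr : (c.1 : ℝ) = ρ'.1 + a * q := by rw [hc]; push_cast; ring
  have h3 : |(a : ℝ)| * q - |(ρ'.1 : ℝ)| ≤ |(c.1 : ℝ)| := by
    have h4 : |(a : ℝ)| * q = |(c.1 : ℝ) - ρ'.1| := by
      rw [hcr, add_sub_cancel_left, abs_mul, Nat.abs_cast]
    have h5 := abs_sub (c.1 : ℝ) (ρ'.1 : ℝ)
    linarith
  have h6 : (q : ℝ) ≤ |(a : ℝ)| * q := by nlinarith
  refine ⟨ha, by linarith, by linarith⟩

lemma desc_mono {ys κ : ℝ} (hκ : κ ≤ 1 / 100) {c ρ : ℤ × ℤ} (h0 : c.1 ≠ 0)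
    (h : Relation.ReflTransGen (Child ys κ) c ρ) : ρ.1 ≠ 0 ∧ |(c.1 : ℝ)| ≤ |(ρ.1 : ℝ)| := by
  induction h with
  | refl => exact ⟨h0, le_rfl⟩
  | tail _ hch ih =>
    obtain ⟨h1, h2⟩ := ih
    obtain ⟨q, p, a, hq, -, hq2, hM, -, hc, -⟩ := hch
    obtain ⟨-, -, h5⟩ := desc_child hκ h1 hq hq2 hM hc
    rename_i b d _
    have hb : 0 < |(b.1 : ℝ)| := by rw [abs_pos]; exact_mod_cast h1
    refine ⟨?_, by linarith⟩
    intro h7
    rw [h7] at h5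
    simp at h5
    linarith

/-- sums over sparse dyadic scales -/
lemma desc_geom {δ : ℝ} (hδ : 0 < δ) {Y : ℝ} (hY : 0 < Y) (I : Finset ℕ)
    (hI : ∀ i ∈ I, Y < 2 ^ (i + 1)) :
    ∑ i ∈ I, (2 : ℝ) ^ (-(δ * i)) ≤ (Y / 2) ^ (-δ) * (1 - (2 : ℝ) ^ (-δ))⁻¹ := by
  have hr0 : (0 : ℝ) < (2 : ℝ) ^ (-δ) := Real.rpow_pos_of_pos (by norm_num) _
  have hr1 : (2 : ℝ) ^ (-δ) < 1 := Real.rpow_lt_one_of_one_lt_of_neg (by norm_num) (by linarith)
  have hpos : 0 ≤ (Y / 2) ^ (-δ) * (1 - (2 : ℝ) ^ (-δ))⁻¹ := by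
    have : 0 < 1 - (2 : ℝ) ^ (-δ) := by linarith
    positivity
  rcases I.eq_empty_or_nonempty with rfl | hne
  · simpa using hpos
  set i0 := I.min' hne with hi0
  have hterm : ∀ j : ℕ, (2 : ℝ) ^ (-(δ * ((i0 + j : ℕ) : ℝ))) =
      (2 : ℝ) ^ (-(δ * (i0 : ℝ))) * ((2 : ℝ) ^ (-δ)) ^ j := by
    intro j
    rw [← Real.rpow_natCast ((2 : ℝ) ^ (-δ)) j, ← Real.rpow_mul (by norm_num),
      ← Real.rpow_add (by norm_num)]
    congr 1
    push_cast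
    ring
  have hsum : ∑ i ∈ I, (2 : ℝ) ^ (-(δ * i)) =
      ∑ j ∈ I.image (fun i => i - i0), (2 : ℝ) ^ (-(δ * ((i0 + j : ℕ) : ℝ))) := by
    rw [Finset.sum_image]
    · refine Finset.sum_congr rfl fun i hi => ?_
      have : i0 ≤ i := I.min'_le i hi
      rw [Nat.add_sub_cancel' this]
    · intro x hx y hy hxy
      have h1 : i0 ≤ x := I.min'_le x hx
      have h2 : i0 ≤ y := I.min'_le y hy
      simp only at hxy
      omega
  rw [hsum, Finset.sum_congr rfl (fun j _ => hterm j), ← Finset.mul_sum]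
  have h1 : ∑ j ∈ I.image (fun i => i - i0), ((2 : ℝ) ^ (-δ)) ^ j ≤ (1 - (2 : ℝ) ^ (-δ))⁻¹ := by
    rw [← tsum_geometric_of_lt_one hr0.le hr1]
    exact Summable.sum_le_tsum _ (fun _ _ => by positivity)
      (summable_geometric_of_lt_one hr0.le hr1)
  have h2 : (2 : ℝ) ^ (-(δ * (i0 : ℝ))) ≤ (Y / 2) ^ (-δ) := by
    have h3 : Y < 2 ^ (i0 + 1) := hI i0 (I.min'_mem hne)
    have h4 : Y / 2 ≤ (2 : ℝ) ^ (i0 : ℝ) := by
      rw [Real.rpow_natCast]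
      rw [pow_succ] at h3
      linarith
    calc (2 : ℝ) ^ (-(δ * (i0 : ℝ))) = ((2 : ℝ) ^ (i0 : ℝ)) ^ (-δ) := by
          rw [← Real.rpow_mul (by norm_num)]
          congr 1
          ring
      _ ≤ (Y / 2) ^ (-δ) :=
          Real.rpow_le_rpow_of_nonpos (by positivity) h4 (by linarith)
  exact mul_le_mul h2 h1 (Finset.sum_nonneg fun _ _ => by positivity) (by positivity)

/-- the constant of the child sum -/
noncomputable def descK (δ : ℝ) : ℝ :=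
  (99 / 100 : ℝ) ^ (-(1 + δ)) * (∑' n : ℤ, |(n : ℝ)| ^ (-(1 + δ))) * 12 *
    ((1 / 2 : ℝ) ^ (-δ) * (1 - (2 : ℝ) ^ (-δ))⁻¹)

lemma descK_nonneg {δ : ℝ} (hδ : 0 < δ) : 0 ≤ descK δ := by
  have hr1 : (2 : ℝ) ^ (-δ) < 1 := Real.rpow_lt_one_of_one_lt_of_neg (by norm_num) (by linarith)
  have h2 : 0 < 1 - (2 : ℝ) ^ (-δ) := by linarith
  have h3 : 0 ≤ ∑' n : ℤ, |(n : ℝ)| ^ (-(1 + δ)) := tsum_nonneg fun _ => by positivity
  unfold descK
  positivity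

lemma desc_sum (hCh : Stmt_Children) {δ : ℝ} (hδ : 0 < δ) {κ : ℝ} (hκ0 : 0 < κ)
    (hκ : κ ≤ 1 / 100) {ys : ℝ} {ρ' : ℤ × ℤ} {q' : ℕ} {p' : ℤ} (h0 : ρ'.1 ≠ 0) (hq' : 1 ≤ q')
    (hcop : IsCoprime (q' : ℤ) p') (hq2 : (q' : ℝ) < 2 * |(ρ'.1 : ℝ)|)
    (hL : |(q' : ℝ) * (ys + 2 * ρ'.2) - 2 * ρ'.1 * p'| ≤ κ) (𝒞 : Finset (ℤ × ℤ))
    (h𝒞 : ∀ c ∈ 𝒞, Child ys κ ρ' c) :
    ∑ c ∈ 𝒞, |(c.1 : ℝ)| ^ (-(1 + δ)) ≤
      descK δ * κ ^ (1 + δ) * |(ρ'.1 : ℝ)| ^ (-(1 + δ)) := by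
  classical
  have hM0 : 0 < |(ρ'.1 : ℝ)| := by rw [abs_pos]; exact_mod_cast h0
  choose! q p a hq hcp hq3 hM hLc hc1 hc2 using h𝒞
  -- the direction and the multiple
  set vv : ℤ × ℤ → ℤ × ℤ := fun c => ((q c : ℤ), p c) with hvv
  have hinj : Set.InjOn (fun c => (vv c, a c)) (𝒞 : Set (ℤ × ℤ)) := by
    intro c hc d hd h
    have hc' : c ∈ 𝒞 := hc
    have hd' : d ∈ 𝒞 := hd
    simp only [hvv, Prod.mk.injEq] at h
    obtain ⟨⟨h1, h2⟩, h3⟩ := h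
    ext
    · rw [hc1 c hc', hc1 d hd', h1, h3]
    · rw [hc2 c hc', hc2 d hd', h2, h3]
  set V : Finset (ℤ × ℤ) := 𝒞.image vv with hV
  set A : Finset ℤ := 𝒞.image a with hA
  set fV : ℤ × ℤ → ℝ := fun v => (2 : ℝ) ^ (-((1 + δ) * (Nat.log 2 v.1.natAbs : ℝ))) with hfV
  set gA : ℤ → ℝ := fun n => |(n : ℝ)| ^ (-(1 + δ)) with hgA
  have hfV0 : ∀ v, 0 ≤ fV v := fun v => by simp only [hfV]; positivity
  have hgA0 : ∀ n, 0 ≤ gA n := fun n => by simp only [hgA]; positivity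
  -- termwise bound
  have hterm : ∀ c ∈ 𝒞, |(c.1 : ℝ)| ^ (-(1 + δ)) ≤
      (99 / 100 : ℝ) ^ (-(1 + δ)) * (fV (vv c) * gA (a c)) := by
    intro c hc
    obtain ⟨ha, h1, -⟩ := desc_child hκ h0 (hq c hc) (hq3 c hc) (hM c hc) (hc1 c hc)
    have ha0 : 0 < |((a c : ℤ) : ℝ)| := by rw [abs_pos]; exact_mod_cast ha
    have hqpos : 0 < q c := hq c hc
    have h2 : (2 : ℝ) ^ (Nat.log 2 (q c)) ≤ q c := by
      exact_mod_cast Nat.pow_log_le_self 2 hqpos.ne'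
    have h3 : 99 / 100 * (|((a c : ℤ) : ℝ)| * (2 : ℝ) ^ (Nat.log 2 (q c))) ≤ |(c.1 : ℝ)| := by
      refine le_trans ?_ h1
      have := mul_le_mul_of_nonneg_left h2 ha0.le
      linarith
    calc |(c.1 : ℝ)| ^ (-(1 + δ))
        ≤ (99 / 100 * (|((a c : ℤ) : ℝ)| * (2 : ℝ) ^ (Nat.log 2 (q c)))) ^ (-(1 + δ)) :=
          Real.rpow_le_rpow_of_nonpos (by positivity) h3 (by linarith)
      _ = (99 / 100 : ℝ) ^ (-(1 + δ)) * (fV (vv c) * gA (a c)) := by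
          rw [Real.mul_rpow (by norm_num) (by positivity),
            Real.mul_rpow (by positivity) (by positivity)]
          simp only [hfV, hgA, hvv, Int.natAbs_natCast]
          rw [← Real.rpow_natCast 2 (Nat.log 2 (q c)), ← Real.rpow_mul (by norm_num)]
          have : (Nat.log 2 (q c) : ℝ) * (-(1 + δ)) = -((1 + δ) * (Nat.log 2 (q c) : ℝ)) := by ring
          rw [this]
          ring
  -- product bound
  have hprod : ∑ c ∈ 𝒞, fV (vv c) * gA (a c) ≤ (∑ v ∈ V, fV v) * ∑ n ∈ A, gA n := by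
    rw [Finset.sum_mul_sum, ← Finset.sum_product']
    have : ∑ c ∈ 𝒞, fV (vv c) * gA (a c) =
        ∑ x ∈ 𝒞.image (fun c => (vv c, a c)), fV x.1 * gA x.2 := by
      rw [Finset.sum_image hinj]
    rw [this]
    refine Finset.sum_le_sum_of_subset_of_nonneg ?_ (fun x _ _ => mul_nonneg (hfV0 _) (hgA0 _))
    intro x hx
    obtain ⟨c, hc, rfl⟩ := Finset.mem_image.1 hx
    exact Finset.mem_product.2 ⟨Finset.mem_image_of_mem _ hc, Finset.mem_image_of_mem _ hc⟩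
  -- the sum over multiples
  have hsA : ∑ n ∈ A, gA n ≤ ∑' n : ℤ, |(n : ℝ)| ^ (-(1 + δ)) :=
    Summable.sum_le_tsum _ (fun n _ => hgA0 n) (Real.summable_abs_int_rpow (by linarith))
  -- the sum over directions
  set ix : ℤ × ℤ → ℕ := fun v => Nat.log 2 v.1.natAbs with hix
  set I : Finset ℕ := V.image ix with hI
  have hIY : ∀ i ∈ I, |(ρ'.1 : ℝ)| / κ < 2 ^ (i + 1) := by
    intro i hi
    obtain ⟨v, hv, rfl⟩ := Finset.mem_image.1 hi
    obtain ⟨c, hc, rfl⟩ := Finset.mem_image.1 hv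
    have h1 : |(ρ'.1 : ℝ)| / κ ≤ q c := by
      rw [div_le_iff₀ hκ0]
      have := hM c hc
      linarith
    have h2 : q c < 2 ^ (Nat.log 2 (q c) + 1) := Nat.lt_pow_succ_log_self (by norm_num) _
    have h3 : (q c : ℝ) < 2 ^ (Nat.log 2 (q c) + 1) := by exact_mod_cast h2
    simp only [hix, hvv, Int.natAbs_natCast]
    linarith
  have hcount : ∀ i ∈ I, ((V.filter (fun v => ix v = i)).card : ℝ) ≤
      12 * κ * (2 : ℝ) ^ i / |(ρ'.1 : ℝ)| := by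
    intro i _
    have := hCh ys κ ρ'.1 ρ'.2 q' p' (2 ^ i) (V.filter (fun v => ix v = i)) hκ0 hκ h0 hq' hcop
      hq2 hL Nat.one_le_two_pow ?_
    · push_cast at this
      exact this
    · intro v hv
      obtain ⟨hv1, hv2⟩ := Finset.mem_filter.1 hv
      obtain ⟨c, hc, rfl⟩ := Finset.mem_image.1 hv1
      have hqpos : 0 < q c := hq c hc
      simp only [hix, hvv, Int.natAbs_natCast] at hv2
      have h4 : 2 ^ i ≤ q c := by rw [← hv2]; exact Nat.pow_log_le_self 2 hqpos.ne'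
      have h5 : q c < 2 * 2 ^ i := by
        have := Nat.lt_pow_succ_log_self (b := 2) (by norm_num) (q c)
        rw [hv2, pow_succ] at this
        omega
      refine ⟨by simp only [hvv]; exact_mod_cast h4, by simp only [hvv]; exact_mod_cast h5,
        hcp c hc, by simp only [hvv]; exact_mod_cast hM c hc, ?_⟩
      have h6 := hLc c hc
      have h7 : (c.1 : ℝ) = ρ'.1 + a c * q c := by rw [hc1 c hc]; push_cast; ring
      have h8 : (c.2 : ℝ) = ρ'.2 + a c * p c := by rw [hc2 c hc]; push_cast; ring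
      rw [h7, h8] at h6
      simp only [hvv]
      have h9 : ((q c : ℤ) : ℝ) * (ys + 2 * (ρ'.2 : ℝ)) - 2 * (ρ'.1 : ℝ) * (p c : ℝ) =
          (q c : ℝ) * (ys + 2 * (ρ'.2 + a c * p c)) - 2 * (ρ'.1 + a c * q c) * p c := by
        push_cast
        ring
      rw [h9]
      exact h6
  have hsV : ∑ v ∈ V, fV v ≤ 12 * κ / |(ρ'.1 : ℝ)| *
      ((|(ρ'.1 : ℝ)| / κ / 2) ^ (-δ) * (1 - (2 : ℝ) ^ (-δ))⁻¹) := by
    have h1 : ∑ v ∈ V, fV v = ∑ i ∈ I, ∑ v ∈ V.filter (fun v => ix v = i), fV v :=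
      (Finset.sum_fiberwise_of_maps_to (fun v hv => Finset.mem_image_of_mem ix hv) fV).symm
    have h2 : ∀ i ∈ I, ∑ v ∈ V.filter (fun v => ix v = i), fV v ≤
        12 * κ / |(ρ'.1 : ℝ)| * (2 : ℝ) ^ (-(δ * (i : ℝ))) := by
      intro i hi
      have h3 : ∀ v ∈ V.filter (fun v => ix v = i), fV v = (2 : ℝ) ^ (-((1 + δ) * (i : ℝ))) := by
        intro v hv
        have := (Finset.mem_filter.1 hv).2
        simp only [hix] at this
        simp only [hfV, this]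
      rw [Finset.sum_congr rfl h3, Finset.sum_const, nsmul_eq_mul]
      calc ((V.filter (fun v => ix v = i)).card : ℝ) * (2 : ℝ) ^ (-((1 + δ) * (i : ℝ)))
          ≤ (12 * κ * (2 : ℝ) ^ i / |(ρ'.1 : ℝ)|) * (2 : ℝ) ^ (-((1 + δ) * (i : ℝ))) :=
            mul_le_mul_of_nonneg_right (hcount i hi) (by positivity)
        _ = 12 * κ / |(ρ'.1 : ℝ)| * ((2 : ℝ) ^ (i : ℝ) * (2 : ℝ) ^ (-((1 + δ) * (i : ℝ)))) := by
            rw [Real.rpow_natCast]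
            ring
        _ = 12 * κ / |(ρ'.1 : ℝ)| * (2 : ℝ) ^ (-(δ * (i : ℝ))) := by
            rw [← Real.rpow_add (by norm_num)]
            congr 2
            ring
    rw [h1]
    refine (Finset.sum_le_sum h2).trans ?_
    rw [← Finset.mul_sum]
    exact mul_le_mul_of_nonneg_left (desc_geom hδ (by positivity) I hIY) (by positivity)
  -- assemble
  have hr1 : (2 : ℝ) ^ (-δ) < 1 := Real.rpow_lt_one_of_one_lt_of_neg (by norm_num) (by linarith)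
  have h1r : 0 < 1 - (2 : ℝ) ^ (-δ) := by linarith
  have hZ0 : 0 ≤ ∑' n : ℤ, |(n : ℝ)| ^ (-(1 + δ)) := tsum_nonneg fun _ => by positivity
  calc ∑ c ∈ 𝒞, |(c.1 : ℝ)| ^ (-(1 + δ))
      ≤ ∑ c ∈ 𝒞, (99 / 100 : ℝ) ^ (-(1 + δ)) * (fV (vv c) * gA (a c)) := Finset.sum_le_sum hterm
    _ = (99 / 100 : ℝ) ^ (-(1 + δ)) * ∑ c ∈ 𝒞, fV (vv c) * gA (a c) := by rw [Finset.mul_sum]
    _ ≤ (99 / 100 : ℝ) ^ (-(1 + δ)) * ((∑ v ∈ V, fV v) * ∑ n ∈ A, gA n) :=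
        mul_le_mul_of_nonneg_left hprod (by positivity)
    _ ≤ (99 / 100 : ℝ) ^ (-(1 + δ)) * ((12 * κ / |(ρ'.1 : ℝ)| *
      ((|(ρ'.1 : ℝ)| / κ / 2) ^ (-δ) * (1 - (2 : ℝ) ^ (-δ))⁻¹)) *
        ∑' n : ℤ, |(n : ℝ)| ^ (-(1 + δ))) := by
        refine mul_le_mul_of_nonneg_left ?_ (by positivity)
        exact mul_le_mul hsV hsA (Finset.sum_nonneg fun n _ => hgA0 n) (by positivity)
    _ = descK δ * κ ^ (1 + δ) * |(ρ'.1 : ℝ)| ^ (-(1 + δ)) := by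
        have e1 : (|(ρ'.1 : ℝ)| / κ / 2) ^ (-δ) =
            |(ρ'.1 : ℝ)| ^ (-δ) * κ ^ δ * (1 / 2 : ℝ) ^ (-δ) := by
          have : |(ρ'.1 : ℝ)| / κ / 2 = |(ρ'.1 : ℝ)| * κ⁻¹ * (1 / 2) := by
            rw [div_eq_mul_inv, div_eq_mul_inv]; ring
          rw [this, Real.mul_rpow (by positivity) (by norm_num),
            Real.mul_rpow (by positivity) (by positivity), Real.inv_rpow hκ0.le,
            Real.rpow_neg hκ0.le, inv_inv]
        have e2 : κ ^ (1 + δ) = κ * κ ^ δ := by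
          rw [Real.rpow_add hκ0, Real.rpow_one]
        have e3 : |(ρ'.1 : ℝ)| ^ (-(1 + δ)) = |(ρ'.1 : ℝ)|⁻¹ * |(ρ'.1 : ℝ)| ^ (-δ) := by
          rw [show -(1 + δ) = -1 + -δ by ring, Real.rpow_add hM0, Real.rpow_neg_one]
        rw [e1, e2, e3]
        unfold descK
        rw [div_eq_mul_inv (12 * κ)]
        ring

theorem hDesc (h : Stmt_Children) : Stmt_Desc := by
  classical
  intro δ hδ
  have hK := descK_nonneg hδ
  refine ⟨min (1 / 100) (1 / (2 * (descK δ + 1))), by positivity, min_le_left _ _, ?_⟩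
  intro κ hκ0 hκ1 ys
  have hκ : κ ≤ 1 / 100 := hκ1.trans (min_le_left _ _)
  have hκ2 : descK δ * κ ^ (1 + δ) ≤ 1 / 2 := by
    have h1 : κ ^ (1 + δ) ≤ κ := by
      calc κ ^ (1 + δ) ≤ κ ^ (1 : ℝ) :=
            Real.rpow_le_rpow_of_exponent_ge hκ0 (by linarith) (by linarith)
        _ = κ := Real.rpow_one κ
    have h2 : κ ≤ 1 / (2 * (descK δ + 1)) := hκ1.trans (min_le_right _ _)
    have h3 : κ * (2 * (descK δ + 1)) ≤ 1 := by
      rwa [le_div_iff₀ (by positivity)] at h2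
    have h4 : descK δ * κ ^ (1 + δ) ≤ descK δ * κ := mul_le_mul_of_nonneg_left h1 hK
    nlinarith
  have main : ∀ n : ℕ, ∀ (ρ' : ℤ × ℤ) (q' : ℕ) (p' : ℤ), ρ'.1 ≠ 0 → 1 ≤ q' →
      IsCoprime (q' : ℤ) p' → (q' : ℝ) < 2 * |(ρ'.1 : ℝ)| →
      |(q' : ℝ) * (ys + 2 * ρ'.2) - 2 * ρ'.1 * p'| ≤ κ →
      ∀ (X : ℝ), |(ρ'.1 : ℝ)| ≤ X → X < |(ρ'.1 : ℝ)| * 50 ^ n → ∀ V : Finset (ℤ × ℤ),
      (∀ ρ ∈ V, Relation.ReflTransGen (Child ys κ) ρ' ρ ∧ |(ρ.1 : ℝ)| ≤ X) →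
      (V.card : ℝ) ≤ 2 * (X / |(ρ'.1 : ℝ)|) ^ (1 + δ) := by
    intro n
    induction n with
    | zero =>
      intro ρ' q' p' h0 _ _ _ _ X hX hX2
      simp at hX2
      linarith
    | succ n ih =>
      intro ρ' q' p' h0 hq' hcop hq2 hL X hX hX2 V hV
      have hM0 : 0 < |(ρ'.1 : ℝ)| := by rw [abs_pos]; exact_mod_cast h0
      have hX0 : 0 < X := lt_of_lt_of_le hM0 hX
      have hfirst : ∀ ρ ∈ V.erase ρ', ∃ c, Child ys κ ρ' c ∧
          Relation.ReflTransGen (Child ys κ) c ρ := by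
        intro ρ hρ
        obtain ⟨h1, h2⟩ := Finset.mem_erase.1 hρ
        rcases Relation.ReflTransGen.cases_head (hV ρ h2).1 with h3 | h3
        · exact absurd h3.symm h1
        · exact h3
      choose! f hf1 hf2 using hfirst
      set W := V.erase ρ' with hW
      set 𝒞 := W.image f with h𝒞
      have hCh : ∀ c ∈ 𝒞, Child ys κ ρ' c := by
        intro c hc
        obtain ⟨ρ, hρ, rfl⟩ := Finset.mem_image.1 hc
        exact hf1 ρ hρ
      have hcard : (W.card : ℝ) = ∑ c ∈ 𝒞, ((W.filter (fun ρ => f ρ = c)).card : ℝ) := by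
        rw [Finset.card_eq_sum_card_image f W]
        push_cast
        rfl
      have hfib : ∀ c ∈ 𝒞, ((W.filter (fun ρ => f ρ = c)).card : ℝ) ≤
          2 * X ^ (1 + δ) * |(c.1 : ℝ)| ^ (-(1 + δ)) := by
        intro c hc
        obtain ⟨ρ, hρ, hρc⟩ := Finset.mem_image.1 hc
        obtain ⟨q, p, a, hq, hcp, hq3, hM, hLc, hc1, hc2⟩ := hCh c hc
        obtain ⟨ha, h1, h50⟩ := desc_child hκ h0 hq hq3 hM hc1
        have hc0 : 0 < |(c.1 : ℝ)| := by linarith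
        have hcne : c.1 ≠ 0 := by
          intro h
          rw [h] at hc0
          simp at hc0
        have hcX : |(c.1 : ℝ)| ≤ X := by
          have h2 := (desc_mono hκ hcne (hρc ▸ hf2 ρ hρ)).2
          have h3 := (hV ρ (Finset.mem_of_mem_erase hρ)).2
          linarith
        have hXc : X < |(c.1 : ℝ)| * 50 ^ n := by
          calc X < |(ρ'.1 : ℝ)| * 50 ^ (n + 1) := hX2
            _ = (50 * |(ρ'.1 : ℝ)|) * 50 ^ n := by ring
            _ ≤ |(c.1 : ℝ)| * 50 ^ n := mul_le_mul_of_nonneg_right h50 (by positivity)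
        have := ih c q p hcne hq hcp hq3 hLc X hcX hXc (W.filter (fun ρ => f ρ = c)) ?_
        · refine this.trans (le_of_eq ?_)
          rw [div_eq_mul_inv, Real.mul_rpow hX0.le (by positivity), Real.inv_rpow hc0.le,
            Real.rpow_neg hc0.le]
          ring
        · intro σ hσ
          obtain ⟨h2, h3⟩ := Finset.mem_filter.1 hσ
          exact ⟨h3 ▸ hf2 σ h2, (hV σ (Finset.mem_of_mem_erase h2)).2⟩
      have hWle : (W.card : ℝ) ≤ (X / |(ρ'.1 : ℝ)|) ^ (1 + δ) := by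
        rw [hcard]
        calc ∑ c ∈ 𝒞, ((W.filter (fun ρ => f ρ = c)).card : ℝ)
            ≤ ∑ c ∈ 𝒞, 2 * X ^ (1 + δ) * |(c.1 : ℝ)| ^ (-(1 + δ)) := Finset.sum_le_sum hfib
          _ = 2 * X ^ (1 + δ) * ∑ c ∈ 𝒞, |(c.1 : ℝ)| ^ (-(1 + δ)) := by rw [Finset.mul_sum]
          _ ≤ 2 * X ^ (1 + δ) * (descK δ * κ ^ (1 + δ) * |(ρ'.1 : ℝ)| ^ (-(1 + δ))) :=
              mul_le_mul_of_nonneg_left
                (desc_sum h hδ hκ0 hκ h0 hq' hcop hq2 hL 𝒞 hCh) (by positivity)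
          _ ≤ 2 * X ^ (1 + δ) * (1 / 2 * |(ρ'.1 : ℝ)| ^ (-(1 + δ))) := by
              refine mul_le_mul_of_nonneg_left ?_ (by positivity)
              exact mul_le_mul_of_nonneg_right hκ2 (by positivity)
          _ = (X / |(ρ'.1 : ℝ)|) ^ (1 + δ) := by
              rw [div_eq_mul_inv X, Real.mul_rpow hX0.le (by positivity), Real.inv_rpow hM0.le,
                Real.rpow_neg hM0.le]
              ring
      have hVW : (V.card : ℝ) ≤ W.card + 1 := by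
        have : V.card ≤ W.card + 1 := by
          have h1 := Finset.pred_card_le_card_erase (s := V) (a := ρ')
          rw [← hW] at h1
          omega
        exact_mod_cast this
      have hone : 1 ≤ (X / |(ρ'.1 : ℝ)|) ^ (1 + δ) := by
        apply Real.one_le_rpow _ (by linarith)
        rw [le_div_iff₀ hM0]
        linarith
      linarith
  intro ρ' q' p' h0 hq' hcop hq2 hL X hX V hV
  have hM0 : 0 < |(ρ'.1 : ℝ)| := by rw [abs_pos]; exact_mod_cast h0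
  obtain ⟨n, hn⟩ := pow_unbounded_of_one_lt (X / |(ρ'.1 : ℝ)|) (by norm_num : (1 : ℝ) < 50)
  refine main n ρ' q' p' h0 hq' hcop hq2 hL X hX ?_ V hV
  rw [div_lt_iff₀ hM0] at hn
  linarith

end Horo
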