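import Pool.Agent.Horo.Model
import Pool.Agent.Horo.Chart

/-!
# Surfaces from diagrams of vertical annuli

`C` is the base: a compact Hausdorff space with a translation action of `ℝ` (in the application a
finite disjoint union of circles).  Over `C` we take the annuli `Y = C × [0,1]` (the annulus over
`x` has width `wid x`) and glue the right boundary `t = 1` to the left boundary `t = 0` by a
piecewise translation, given by its limits from above (`up`) and from below (`dn`).  The bend is
the horizontal displacement of a tremor.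
-/

open Topology Filter Set

namespace Horo

/-- A base space: small vertical intervals are embedded and open. -/
class BaseSpace (C : Type) [TopologicalSpace C] [AddAction ℝ C] : Prop where
  cont : Continuous fun p : ℝ × C => p.1 +ᵥ p.2
  rad : ∃ r0 : ℝ, 0 < r0 ∧ ∀ x : C, InjOn (fun u : ℝ => u +ᵥ x) (Icc (-r0) r0)
  isOpen_ball : ∀ (x : C) (r : ℝ), 0 < r → IsOpen ((fun u : ℝ => u +ᵥ x) '' Ioo (-r) r)

/-- A diagram of vertical annuli. -/
structure Diagram (C : Type) [TopologicalSpace C] [AddAction ℝ C] where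
  /-- width of the annulus over a point -/
  wid : C → ℝ
  wid_pos : ∀ x, 0 < wid x
  wid_cont : Continuous wid
  wid_vadd : ∀ (u : ℝ) x, wid (u +ᵥ x) = wid x
  /-- seam map, limit from above -/
  up : C ≃ C
  /-- seam map, limit from below -/
  dn : C ≃ C
  near : ∀ x, ∃ r : ℝ, 0 < r ∧ ∀ u, 0 < u → u < r →
    up (u +ᵥ x) = u +ᵥ up x ∧ dn (u +ᵥ x) = u +ᵥ up x ∧
    up (-u +ᵥ x) = -u +ᵥ dn x ∧ dn (-u +ᵥ x) = -u +ᵥ dn x
  /-- the bend: `bend x u` is the horizontal displacement when moving up by `u` from `x` -/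
  bend : C → ℝ → ℝ
  /-- Lipschitz constant of the bend -/
  κ : ℝ
  κ_lt_one : κ < 1
  bend_add : ∀ x u v, bend x (u + v) = bend x u + bend (u +ᵥ x) v
  bend_le : ∀ x u, |bend x u| ≤ κ * |u|
  bend_up : ∀ x, ∃ r : ℝ, 0 < r ∧ ∀ u, 0 ≤ u → u < r → bend (up x) u = bend x u
  bend_dn : ∀ x, ∃ r : ℝ, 0 < r ∧ ∀ u, 0 ≤ u → u < r → bend (dn x) (-u) = bend x (-u)
  conn : ∀ x y : C, Relation.EqvGen (fun x y => (∃ u : ℝ, y = u +ᵥ x) ∨ y = up x) x y

namespace Diagram

variable {C : Type} [TopologicalSpace C] [AddAction ℝ C] (D : Diagram C)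

/-- The union of the annuli. -/
abbrev Y (C : Type) : Type := C × unitInterval

/-- The permutation of the left boundary whose cycles are the cone points: the right half disc at
`y` is followed (counterclockwise) by the left half disc at `up⁻¹ y`, and this one by the right
half disc at `τ y = dn (up⁻¹ y)`. -/
def τ : Equiv.Perm C := D.up.symm.trans D.dn

lemma τ_apply (y : C) : D.τ y = D.dn (D.up.symm y) := rfl

/-- Seam points of `Y`. -/
def IsSeam (p : Y C) : Prop := (p.2 : ℝ) = 0 ∨ (p.2 : ℝ) = 1

open Classical in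
/-- The base point of a seam point on the left boundary. -/
noncomputable def base (p : Y C) : C := if (p.2 : ℝ) = 0 then p.1 else D.up p.1

/-- The gluing relation. -/
def Rel (p q : Y C) : Prop :=
  p = q ∨ (IsSeam p ∧ IsSeam q ∧ D.τ.SameCycle (D.base p) (D.base q))

/-- The gluing relation as a setoid. -/
def setoid : Setoid (Y C) where
  r := D.Rel
  iseqv :=
    { refl := fun p => Or.inl rfl
      symm := by
        rintro p q (h | ⟨h1, h2, h3⟩)
        · exact Or.inl h.symm
        · exact Or.inr ⟨h2, h1, h3.symm⟩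
      trans := by
        rintro p q r (h | ⟨h1, h2, h3⟩) (h' | ⟨h1', h2', h3'⟩)
        · exact Or.inl (h.trans h')
        · subst h; exact Or.inr ⟨h1', h2', h3'⟩
        · subst h'; exact Or.inr ⟨h1, h2, h3⟩
        · exact Or.inr ⟨h1, h2', h3.trans h3'⟩ }

/-- The closed surface. -/
abbrev X : Type := Quotient D.setoid

/-- The projection from the annuli to the surface. -/
def proj (p : Y C) : D.X := Quotient.mk D.setoid p

/-- The point of `Y` over `x` at flat distance `s` from the left boundary (clamped). -/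
noncomputable def pt (x : C) (s : ℝ) : Y C := (x, Set.projIcc 0 1 zero_le_one (s / D.wid x))

/-- Cycle length: the cone angle is `2 π` times this number. -/
noncomputable def len (y : C) : ℕ := Function.minimalPeriod D.τ y

/-- The function `P` on the surface increases at the interior point `proj (pt x s)`
as a primitive must. -/
def IncrInt (P : D.X → ℂ) (x : C) (s : ℝ) : Prop :=
  ∃ r : ℝ, 0 < r ∧ ∀ v u : ℝ, |v| < r → |u| < r →
    P (D.proj (D.pt (u +ᵥ x) (s + v))) = P (D.proj (D.pt x s)) + ⟨v + D.bend x u, u⟩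

/-- The function `P` on the surface increases at the seam point `proj (pt y 0)`
as a primitive must, on all right and left half discs of its cycle. -/
def IncrSeam (P : D.X → ℂ) (y : C) : Prop :=
  ∃ r : ℝ, 0 < r ∧ ∀ y', D.τ.SameCycle y y' → ∀ v u : ℝ, 0 ≤ v → v < r → |u| < r →
    P (D.proj (D.pt (u +ᵥ y') v)) = P (D.proj (D.pt y 0)) + ⟨v + D.bend y' u, u⟩ ∧
    P (D.proj (D.pt (u +ᵥ D.up.symm y') (D.wid (D.up.symm y') - v)))
      = P (D.proj (D.pt y 0)) + ⟨-v + D.bend (D.up.symm y') u, u⟩

/-- `P` increases as a primitive must at all points of the set `S`. -/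
def IsPrimOn (P : D.X → ℂ) (S : Set D.X) : Prop :=
  (∀ x s, 0 < s → s < D.wid x → D.proj (D.pt x s) ∈ S → D.IncrInt P x s) ∧
  (∀ y, D.proj (D.pt y 0) ∈ S → D.IncrSeam P y)

end Diagram

end Horo
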