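import Pool.Agent.Horo.DStmts
import Pool.Agent.Horo.ADefs

/-!
# The concrete diagram

`B` blocks, block `j` has height `r j`; sheets `σ = ±1`.  Three stages of annuli:
stage 1 (`0 < x < x0`) and stage 3 (`x0 + L < x < 1`) over the small circles `(j,σ)` of length
`r j`; stage 2 (`x0 < x < x0 + L`) over two big circles `σ` of length `∑ r j` (the blocks are
joined cyclically through the slits).
-/

open Topology Filter Set

namespace Horo

section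

variable (B : ℕ) (r : ZMod B → ℝ)

/-- Height of the bottom of block `n` in the big circle. -/
noncomputable def VV (n : ℕ) : ℝ := ∑ i ∈ Finset.range n, r (i : ZMod B)

/-- The small circles. -/
abbrev Cs : Type := Circles (fun p : ZMod B × ℤˣ => r p.1)

/-- The big circles. -/
abbrev Cb : Type := Circles (fun _ : ℤˣ => VV B r B)

/-- Base space of the surface. -/
abbrev CC : Type := Cs B r ⊕ (Cb B r ⊕ Cs B r)

variable {B r}

/-- Representative in `[0, p)`. -/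
noncomputable def repO {p : ℝ} (x : AddCircle p) : ℝ :=
  p * Int.fract (Quotient.out x / p)

/-- Representative in `(0, p]`. -/
noncomputable def repC {p : ℝ} (x : AddCircle p) : ℝ :=
  p * (1 - Int.fract (-(Quotient.out x / p)))

variable (B r)

/-- Joining the small circles to the big ones, limit from above. -/
noncomputable def Eup (x : Cs B r) : Cb B r :=
  ⟨x.1.2, ((VV B r x.1.1.val + repO x.2 : ℝ) : AddCircle (VV B r B))⟩

/-- Joining the small circles to the big ones, limit from below. -/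
noncomputable def Edn (x : Cs B r) : Cb B r :=
  ⟨x.1.2, ((VV B r x.1.1.val + repC x.2 : ℝ) : AddCircle (VV B r B))⟩

variable (θ ys : ℝ)

open Classical in
/-- Rotation and wall, limit from above. -/
noncomputable def Rup (x : Cs B r) : Cs B r :=
  let x' : AddCircle (r x.1.1) := x.2 - ((θ * r x.1.1 : ℝ) : AddCircle (r x.1.1))
  if repO x' < ys * r x.1.1 then ⟨(x.1.1, -x.1.2), x'⟩ else ⟨(x.1.1, x.1.2), x'⟩

open Classical in
/-- Rotation and wall, limit from below. -/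
noncomputable def Rdn (x : Cs B r) : Cs B r :=
  let x' : AddCircle (r x.1.1) := x.2 - ((θ * r x.1.1 : ℝ) : AddCircle (r x.1.1))
  if repC x' ≤ ys * r x.1.1 then ⟨(x.1.1, -x.1.2), x'⟩ else ⟨(x.1.1, x.1.2), x'⟩

variable (t a2 : ℝ) (G : ℝ → ℝ)

/-- `max 0 (min 1 y)` -/
noncomputable def cl01 (y : ℝ) : ℝ := max 0 (min 1 y)

/-- The potential of the bend on `[0, ∑ r]`. -/
noncomputable def GG0 (P : ℝ) : ℝ :=
  ∑ i ∈ Finset.range B, G (cl01 ((P - VV B r i) / r (i : ZMod B)))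

/-- The potential of the bend on the big circle. -/
noncomputable def GG (P : ℝ) : ℝ :=
  ⌊P / VV B r B⌋ * (B * a2) + GG0 B r G (VV B r B * Int.fract (P / VV B r B))

/-- The bend. -/
noncomputable def bendC : CC B r → ℝ → ℝ
  | Sum.inl x, u => t * (x.1.2 : ℤ) * (G ((repO x.2 + u) / r x.1.1) - G (repO x.2 / r x.1.1))
  | Sum.inr (Sum.inl x), u => t * (x.1 : ℤ) * (GG B r a2 G (repO x.2 + u) - GG B r a2 G (repO x.2))
  | Sum.inr (Sum.inr x), u =>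
      t * (x.1.2 : ℤ) * (G ((repO x.2 + u) / r x.1.1) - G (repO x.2 / r x.1.1))

variable (x0 L : ℝ)

/-- The widths. -/
noncomputable def widC : CC B r → ℝ
  | Sum.inl _ => x0
  | Sum.inr (Sum.inl _) => L
  | Sum.inr (Sum.inr _) => 1 - x0 - L

/-- `D` is the diagram of the surface. -/
structure IsDiag (D : Diagram (CC B r)) : Prop where
  wid : ∀ c, D.wid c = widC B r x0 L c
  bend : ∀ c u, D.bend c u = bendC B r t a2 G c u
  up1 : ∀ x, D.up (Sum.inl x) = Sum.inr (Sum.inl (Eup B r x))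
  dn1 : ∀ x, D.dn (Sum.inl x) = Sum.inr (Sum.inl (Edn B r x))
  up2 : ∀ x, D.up (Sum.inr (Sum.inl (Eup B r x))) = Sum.inr (Sum.inr x)
  dn2 : ∀ x, D.dn (Sum.inr (Sum.inl (Edn B r x))) = Sum.inr (Sum.inr x)
  up3 : ∀ x, D.up (Sum.inr (Sum.inr x)) = Sum.inl (Rup B r θ ys x)
  dn3 : ∀ x, D.dn (Sum.inr (Sum.inr x)) = Sum.inl (Rdn B r θ ys x)

end

/-- Base spaces are closed under disjoint sums. -/
def Stmt_baseSum : Prop := ∀ (C C' : Type) [TopologicalSpace C] [AddAction ℝ C]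
  [TopologicalSpace C'] [AddAction ℝ C'], BaseSpace C → BaseSpace C' → BaseSpace (C ⊕ C')

/-- Representatives. -/
def Stmt_rep : Prop := ∀ p : ℝ, 0 < p →
  (∀ x : AddCircle p, ((repO x : ℝ) : AddCircle p) = x ∧ 0 ≤ repO x ∧ repO x < p) ∧
  (∀ x : AddCircle p, ((repC x : ℝ) : AddCircle p) = x ∧ 0 < repC x ∧ repC x ≤ p) ∧
  (∀ y : ℝ, 0 ≤ y → y < p → repO ((y : ℝ) : AddCircle p) = y) ∧
  (∀ y : ℝ, 0 < y → y ≤ p → repC ((y : ℝ) : AddCircle p) = y)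

/-- `Eup` and `Edn` are bijective. -/
def Stmt_Ebij : Prop := ∀ (B : ℕ) (r : ZMod B → ℝ), 0 < B → (∀ j, 0 < r j) →
  Function.Bijective (Eup B r) ∧ Function.Bijective (Edn B r)

/-- `Eup` and `Edn` are the two limits of a piecewise translation. -/
def Stmt_Enear : Prop := ∀ (B : ℕ) (r : ZMod B → ℝ), 0 < B → (∀ j, 0 < r j) →
  ∀ x : Cs B r, ∃ δ : ℝ, 0 < δ ∧ ∀ u, 0 < u → u < δ →
    Eup B r (u +ᵥ x) = u +ᵥ Eup B r x ∧ Edn B r (u +ᵥ x) = u +ᵥ Eup B r x ∧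
    Eup B r (-u +ᵥ x) = -u +ᵥ Edn B r x ∧ Edn B r (-u +ᵥ x) = -u +ᵥ Edn B r x

/-- `Rup` and `Rdn` are bijective. -/
def Stmt_Rbij : Prop := ∀ (B : ℕ) (r : ZMod B → ℝ) (θ ys : ℝ), 0 < B → (∀ j, 0 < r j) →
  Function.Bijective (Rup B r θ ys) ∧ Function.Bijective (Rdn B r θ ys)

/-- `Rup` and `Rdn` are the two limits of a piecewise translation. -/
def Stmt_Rnear : Prop := ∀ (B : ℕ) (r : ZMod B → ℝ) (θ ys : ℝ), 0 < B → (∀ j, 0 < r j) →
  0 < ys → ys < 1 → ∀ x : Cs B r, ∃ δ : ℝ, 0 < δ ∧ ∀ u, 0 < u → u < δ →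
    Rup B r θ ys (u +ᵥ x) = u +ᵥ Rup B r θ ys x ∧ Rdn B r θ ys (u +ᵥ x) = u +ᵥ Rup B r θ ys x ∧
    Rup B r θ ys (-u +ᵥ x) = -u +ᵥ Rdn B r θ ys x ∧ Rdn B r θ ys (-u +ᵥ x) = -u +ᵥ Rdn B r θ ys x

/-- The potential on the big circle. -/
def Stmt_GG : Prop := ∀ (B : ℕ) (r : ZMod B → ℝ) (θ ys a2 : ℝ) (G : ℝ → ℝ), 0 < B →
  (∀ j, 1 ≤ r j) → Coc θ ys a2 G →
  (∀ P, GG B r a2 G (P + VV B r B) = GG B r a2 G P + B * a2) ∧
  (∀ P P', |GG B r a2 G P - GG B r a2 G P'| ≤ |P - P'|) ∧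
  (∀ j : ZMod B, ∀ y, 0 ≤ y → y ≤ r j →
    GG B r a2 G (VV B r j.val + y) = j.val * a2 + G (y / r j))

/-- The bend is a cocycle, Lipschitz and does not depend on the lift. -/
def Stmt_bendCoc : Prop := ∀ (B : ℕ) (r : ZMod B → ℝ) (θ ys t a2 : ℝ) (G : ℝ → ℝ), 0 < B →
  (∀ j, 1 ≤ r j) → Coc θ ys a2 G → 0 ≤ t → t ≤ 1 / 2 →
  (∀ c u v, bendC B r t a2 G c (u + v) = bendC B r t a2 G c u + bendC B r t a2 G (u +ᵥ c) v) ∧
  (∀ c u, |bendC B r t a2 G c u| ≤ 1 / 2 * |u|) ∧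
  (∀ j σ (y u : ℝ), bendC B r t a2 G (Sum.inl ⟨(j, σ), (y : AddCircle (r j))⟩) u
    = t * (σ : ℤ) * (G ((y + u) / r j) - G (y / r j))) ∧
  (∀ σ (y u : ℝ), bendC B r t a2 G (Sum.inr (Sum.inl ⟨σ, (y : AddCircle (VV B r B))⟩)) u
    = t * (σ : ℤ) * (GG B r a2 G (y + u) - GG B r a2 G y)) ∧
  (∀ j σ (y u : ℝ), bendC B r t a2 G (Sum.inr (Sum.inr ⟨(j, σ), (y : AddCircle (r j))⟩)) u
    = t * (σ : ℤ) * (G ((y + u) / r j) - G (y / r j)))

/-- The bend is invariant under `E` and `R`. -/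
def Stmt_bendInv : Prop := ∀ (B : ℕ) (r : ZMod B → ℝ) (θ ys t a2 : ℝ) (G : ℝ → ℝ), 0 < B →
  (∀ j, 1 ≤ r j) → Coc θ ys a2 G → 0 ≤ t → t ≤ 1 / 2 → 0 < ys → ys < 1 → ∀ x : Cs B r,
  ∃ δ : ℝ, 0 < δ ∧ ∀ u, 0 ≤ u → u < δ →
    bendC B r t a2 G (Sum.inr (Sum.inl (Eup B r x))) u = bendC B r t a2 G (Sum.inl x) u ∧
    bendC B r t a2 G (Sum.inr (Sum.inl (Edn B r x))) (-u) = bendC B r t a2 G (Sum.inl x) (-u) ∧
    bendC B r t a2 G (Sum.inl (Rup B r θ ys x)) u = bendC B r t a2 G (Sum.inr (Sum.inr x)) u ∧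
    bendC B r t a2 G (Sum.inl (Rdn B r θ ys x)) (-u)
      = bendC B r t a2 G (Sum.inr (Sum.inr x)) (-u)

/-- The base is connected through translations and the seam maps. -/
def Stmt_connC : Prop := ∀ (B : ℕ) (r : ZMod B → ℝ) (θ ys : ℝ), 0 < B → (∀ j, 0 < r j) →
  0 < ys → ys < 1 → ∀ up : CC B r → CC B r,
  (∀ x, up (Sum.inl x) = Sum.inr (Sum.inl (Eup B r x))) →
  (∀ x, up (Sum.inr (Sum.inl (Eup B r x))) = Sum.inr (Sum.inr x)) →
  (∀ x, up (Sum.inr (Sum.inr x)) = Sum.inl (Rup B r θ ys x)) →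
  ∀ x y : CC B r, Relation.EqvGen (fun x y => (∃ u : ℝ, y = u +ᵥ x) ∨ y = up x) x y

/-- The diagram exists. -/
def Stmt_diag : Prop := ∀ (B : ℕ) (r : ZMod B → ℝ) (θ ys t a2 x0 L : ℝ) (G : ℝ → ℝ), 0 < B →
  (∀ j, 1 ≤ r j) → Coc θ ys a2 G → 0 ≤ t → t ≤ 1 / 2 → 0 < ys → ys < 1 → 0 < x0 → 0 < L →
  x0 + L < 1 → ∃ D : Diagram (CC B r), IsDiag B r θ ys t a2 G x0 L D

/-- The base is a compact Hausdorff base space. -/
def Stmt_baseC : Prop := ∀ (B : ℕ) (r : ZMod B → ℝ), 0 < B → (∀ j, 0 < r j) →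
  CompactSpace (CC B r) ∧ T2Space (CC B r) ∧ BaseSpace (CC B r) ∧ Nonempty (CC B r)

end Horo
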