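import Pool.Agent.Horo.DEAll
import Pool.Agent.Horo.F.SurfAsm
import Pool.Agent.Horo.F.cellAt
import Pool.Agent.Horo.F.gapAt
import Pool.Agent.Horo.F.ltInt
import Pool.Agent.Horo.F.ltSeam
import Pool.Agent.Horo.F.ptInj
import Pool.Agent.Horo.F.ptPer
import Pool.Agent.Horo.F.ptSurj
import Pool.Agent.Horo.F.regPts
import Pool.Agent.Horo.F.slitAt
import Pool.Agent.Horo.F.wallAt

/-! Assembly: the surface exists. -/

namespace Horo

theorem surf_all : Stmt_Surf :=
  have hE := Ebij rep
  have hreg := regPts rep hE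
  surfAsm diag_all baseC_all abDiff_all ptPer (ptInj hreg hE)
    (ptSurj rep hE hreg baseC_all finSupp)
    (cellAt ltInt ltSeam hreg baseC_all (Enear rep) bendCoc_all bendInv_all)
    (wallAt ltInt ltSeam hreg rep baseC_all bendCoc_all)
    (gapAt ltInt ltSeam hreg rep baseC_all bendCoc_all)
    (slitAt ltInt baseC_all rep GGthm bendCoc_all)

end Horo
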