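import Pool.Agent.Horo.Model
import Pool.Agent.Horo.ADefs

/-!
# Problem MP_943ece_an: frozen geometric definitions and statements (surface and Part I)

Paper proof: /team-store/HOROCYCLE_paper.md (Part I).  Normalisation: one lattice
`Λ = ⟨(1, θ), (0, 1)⟩` for all blocks, block `j` has charts `(x + t σ G(y), r_j y)`.
-/

open Topology Filter

namespace Horo

/-- local translation map: `P (Ψ ζ) (Ψ ζ') = ζ' - ζ` for `ζ'` near `ζ` (and regular values) -/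
def IsLT {X : Type} [TopologicalSpace X] (A : AbDiff X) (U : Set ℂ) (Ψ : ℂ → X) : Prop :=
  ContinuousOn Ψ U ∧ ∀ ζ ∈ U, A.ord (Ψ ζ) = 0 ∧ ∀ᶠ ζ' in 𝓝 ζ, A.P (Ψ ζ) (Ψ ζ') = ζ' - ζ

/-- the lattice vector `k (1, θ) + l (0, 1)` -/
def lat (θ : ℝ) (k l : ℤ) : ℂ := ⟨(k : ℝ), (k : ℝ) * θ + l⟩

/-- not a puncture -/
def Nonsing (θ ys x0 L : ℝ) (z : ℂ) : Prop :=
  ∀ k l : ℤ, z ≠ lat θ k l ∧ z ≠ ⟨0, ys⟩ + lat θ k l ∧ z ≠ ⟨x0, 0⟩ + lat θ k l ∧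
    z ≠ ⟨x0 + L, 0⟩ + lat θ k l

/-- flat coordinate (normalised height) of the tremored coordinate `Z` on block scale `r`,
sheet `σ` -/
noncomputable def fl (t r : ℝ) (G : ℝ → ℝ) (σ : ℤˣ) (Z : ℂ) : ℂ :=
  ⟨Z.re - t * ((σ : ℤ) : ℝ) * G (Z.im / r), Z.im / r⟩

/-- The tremored slit surface: blocks `j`, sheets `σ`, points `pt j σ z` (`z` modulo `Λ`).
Crossing the vertical wall `{0} × (0, ys)` changes the sheet, crossing the horizontal slit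
`(x0, x0+L) × {0}` upwards changes block `j - 1` to block `j` (both sheets).  A wall point
belongs to the sheet on its right, a slit point to the block above it. -/
structure Surf (B : ℕ) (r : ZMod B → ℝ) (θ ys x0 L t : ℝ) (G : ℝ → ℝ) where
  A : AbelianDifferential
  pt : ZMod B → ℤˣ → ℂ → A.X
  per : ∀ j σ z (k l : ℤ), pt j σ (z + lat θ k l) = pt j σ z
  inj : ∀ j σ z j' σ' z', Nonsing θ ys x0 L z → Nonsing θ ys x0 L z' → pt j σ z = pt j' σ' z' →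
    j = j' ∧ σ = σ' ∧ ∃ k l : ℤ, z' = z + lat θ k l
  surj : ∀ p, A.ω.ord p = 0 → ∃ j σ z, Nonsing θ ys x0 L z ∧ pt j σ z = p
  cell : ∀ j σ, IsLT A.ω
    {Z | 0 < (fl t (r j) G σ Z).re ∧ (fl t (r j) G σ Z).re < 1 ∧
      ¬ (x0 ≤ (fl t (r j) G σ Z).re ∧ (fl t (r j) G σ Z).re ≤ x0 + L ∧
        ∃ l : ℤ, (fl t (r j) G σ Z).im = l)}
    (fun Z => pt j σ (fl t (r j) G σ Z))
  wall : ∀ j σ, IsLT A.ω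
    {Z | |(fl t (r j) G σ Z).re| < x0 ∧ 0 < (fl t (r j) G σ Z).im ∧ (fl t (r j) G σ Z).im < ys}
    (fun Z => if 0 ≤ (fl t (r j) G σ Z).re then pt j σ (fl t (r j) G σ Z)
      else pt j (-σ) (fl t (r j) G σ Z))
  gap : ∀ j σ, IsLT A.ω
    {Z | |(fl t (r j) G σ Z).re| < x0 ∧ ys < (fl t (r j) G σ Z).im ∧ (fl t (r j) G σ Z).im < 1}
    (fun Z => pt j σ (fl t (r j) G σ Z))
  slit : ∀ j σ, IsLT A.ω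
    {Z | |Z.im| < 1 / 2 ∧
      (0 ≤ Z.im → x0 < (fl t (r j) G σ Z).re ∧ (fl t (r j) G σ Z).re < x0 + L) ∧
      (Z.im < 0 → x0 < (fl t (r (j - 1)) G σ Z).re ∧ (fl t (r (j - 1)) G σ Z).re < x0 + L)}
    (fun Z => if 0 ≤ Z.im then pt j σ (fl t (r j) G σ Z)
      else pt (j - 1) σ (fl t (r (j - 1)) G σ Z))

/-- existence of the surface -/
def Stmt_Surf : Prop := ∀ (B : ℕ) [NeZero B] (r : ZMod B → ℝ) (θ ys x0 L t a2 : ℝ) (G : ℝ → ℝ),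
  2 ≤ B → (∀ j, 1 ≤ r j ∧ r j ≤ 1.01) → 0 < θ → θ < 1 / 4 → 0 < ys → ys < 1 / 4 →
  Coc θ ys a2 G → 0 < x0 → x0 < 1 / 100 → 0 < L → L < 1 / 100 → 0 ≤ t → t < 1 / 100 →
  Nonempty (Surf B r θ ys x0 L t G)

/-! ## general lemmas -/

/-- (A1) local primitives on a convex open set glue -/
def Stmt_Glue : Prop := ∀ (U : Set ℂ) (E : Type) [AddCommGroup E] (f : ℂ → ℂ → E)
  (N : ℂ → Set ℂ), Convex ℝ U → IsOpen U → (∀ a ∈ U, IsOpen (N a) ∧ a ∈ N a) →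
  (∀ a ∈ U, ∀ b ∈ U, ∀ x ∈ U, x ∈ N a → x ∈ N b →
    ∀ᶠ y in 𝓝 x, f a y - f b y = f a x - f b x) →
  ∃ g : ℂ → E, ∀ a ∈ U, ∀ᶠ y in 𝓝 a, g y - g a = f a y - f a a

/-- locally `ε`-Lipschitz on a convex open set implies `ε`-Lipschitz -/
def Stmt_LocLip : Prop := ∀ (U : Set ℂ) (f : ℂ → ℂ) (ε : ℝ), Convex ℝ U → IsOpen U → 0 ≤ ε →
  (∀ a ∈ U, ∀ᶠ xy : ℂ × ℂ in 𝓝 a ×ˢ 𝓝 a, ‖f xy.1 - f xy.2‖ ≤ ε * ‖xy.1 - xy.2‖) →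
  ∀ x ∈ U, ∀ y ∈ U, ‖f x - f y‖ ≤ ε * ‖x - y‖

/-- the strip `c1 < re - (h.re/h.im) im < c2` -/
def Strip (h : ℂ) (c1 c2 : ℝ) : Set ℂ :=
  {ζ | c1 < ζ.re - h.re / h.im * ζ.im ∧ ζ.re - h.re / h.im * ζ.im < c2}

/-- (A2) the near map sends a long cylinder to a long cylinder -/
def Stmt_Strip : Prop := ∀ (X X' : Type) [TopologicalSpace X] [TopologicalSpace X'] [T2Space X]
  [T2Space X'] (A : AbDiff X) (A' : AbDiff X') (F : X ≃ₜ X') (ε : ℝ), 0 < ε → ε ≤ 1 / 100 →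
  (∀ p, A.ord p = 0 → A'.ord (F p) = 0) →
  (∀ p, A.ord p = 0 → ∀ᶠ xy : X × X in 𝓝 p ×ˢ 𝓝 p,
    ‖(A'.P (F p) (F xy.1) - A'.P (F p) (F xy.2)) - (A.P p xy.1 - A.P p xy.2)‖
      ≤ ε * ‖A.P p xy.1 - A.P p xy.2‖) →
  ∀ (e : ℂ) (α β : ℝ) (Φ : ℂ → X), 9 / 10 ≤ e.im → e.im ≤ 11 / 10 → |e.re| ≤ 1 / 10 →
  β - α ≤ 11 / 10 → 40 * ε < β - α → IsLT A (Strip e α β) Φ →
  (∀ ζ ∈ Strip e α β, Φ (ζ + e) = Φ ζ) →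
  (∀ ζ ∈ Strip e α β, ∀ ζ' ∈ Strip e α β, Φ ζ = Φ ζ' → ∃ n : ℤ, ζ' = ζ + n * e) →
  ∃ (h : ℂ) (Ψ : ℂ → X'), ‖h - e‖ ≤ 2 * ε ∧ IsLT A' (Strip h (α + 10 * ε) (β - 10 * ε)) Ψ ∧
    (∀ ζ ∈ Strip h (α + 10 * ε) (β - 10 * ε), Ψ (ζ + h) = Ψ ζ) ∧
    (∀ ζ ∈ Strip h (α + 10 * ε) (β - 10 * ε), ∀ ζ' ∈ Strip h (α + 10 * ε) (β - 10 * ε),
      Ψ ζ = Ψ ζ' → ∃ n : ℤ, ζ' = ζ + n * h)

/-! ## the strips in the surface -/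

/-- (A2), first part: the straight cylinders of the surface -/
def Stmt_SurfStrip : Prop := ∀ (B : ℕ) [NeZero B] (r : ZMod B → ℝ) (θ ys x0 L t a2 : ℝ)
  (G : ℝ → ℝ) (S : Surf B r θ ys x0 L t G), (∀ j, 1 ≤ r j ∧ r j ≤ 1.01) → Coc θ ys a2 G →
  0 < x0 → 0 < L → 0 < t → x0 + L + 3 * t < 1 / 10 → 0 ≤ a2 → a2 ≤ 1 →
  ∀ (i : ZMod B) (σ : ℤˣ), ∃ Φ : ℂ → S.A.X,
    IsLT S.A.ω (Strip ⟨((σ : ℤ) : ℝ) * t * a2, r i⟩ (x0 + L + 3 * t) (1 - (x0 + L + 3 * t))) Φ ∧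
    (∀ ζ ∈ Strip ⟨((σ : ℤ) : ℝ) * t * a2, r i⟩ (x0 + L + 3 * t) (1 - (x0 + L + 3 * t)),
      Φ (ζ + ⟨((σ : ℤ) : ℝ) * t * a2, r i⟩) = Φ ζ) ∧
    (∀ ζ ∈ Strip ⟨((σ : ℤ) : ℝ) * t * a2, r i⟩ (x0 + L + 3 * t) (1 - (x0 + L + 3 * t)),
      ∀ ζ' ∈ Strip ⟨((σ : ℤ) : ℝ) * t * a2, r i⟩ (x0 + L + 3 * t) (1 - (x0 + L + 3 * t)),
      Φ ζ = Φ ζ' → ∃ n : ℤ, ζ' = ζ + n * ⟨((σ : ℤ) : ℝ) * t * a2, r i⟩)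

/-- flat coordinate along a strip -/
noncomputable def PP (s t : ℝ) (φ : ℝ → ℝ) (c0 : ℂ) (ζ : ℂ) : ℂ :=
  ⟨ζ.re - s * ζ.im - t * φ ζ.im, ζ.im⟩ + c0

/-- The plane data of a cylinder `Ψ` of `u_s x` contained in one block, in normalised
coordinates: `Ψ = pt j (Sg ζ) (PP ζ)`. -/
structure LiftedStrip (θ ys s t : ℝ) (G : ℝ → ℝ) (h : ℂ) (c1 c2 : ℝ) (φ : ℝ → ℝ)
    (Sg : ℂ → ℤˣ) (c0 : ℂ) : Prop where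
  him : 0 < h.im
  lip : ∀ y y', |φ y - φ y'| ≤ |y - y'|
  sing : ∀ ζ ∈ Strip h c1 c2, ∀ k l : ℤ, PP s t φ c0 ζ ≠ lat θ k l ∧
    PP s t φ c0 ζ ≠ ⟨0, ys⟩ + lat θ k l
  per : ∀ ζ ∈ Strip h c1 c2, Sg (ζ + h) = Sg ζ ∧
    ∃ k l : ℤ, PP s t φ c0 (ζ + h) = PP s t φ c0 ζ + lat θ k l
  inj : ∀ ζ ∈ Strip h c1 c2, ∀ ζ' ∈ Strip h c1 c2,
    (∃ k l : ℤ, PP s t φ c0 ζ' = PP s t φ c0 ζ + lat θ k l) → Sg ζ' = Sg ζ →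
    ∃ n : ℤ, ζ' = ζ + n * h
  loc : ∀ ζ ∈ Strip h c1 c2, ∀ᶠ ζ' in 𝓝 ζ,
    φ ζ'.im - φ ζ.im = ((Sg ζ : ℤ) : ℝ) *
      (G ((PP s t φ c0 ζ').im - ⌊(PP s t φ c0 ζ).re⌋ * θ)
        - G ((PP s t φ c0 ζ).im - ⌊(PP s t φ c0 ζ).re⌋ * θ)) ∧
    Sg ζ' = if (PP s t φ c0 ζ).re = ⌊(PP s t φ c0 ζ).re⌋ ∧
        (PP s t φ c0 ζ').re < (PP s t φ c0 ζ).re ∧
        Int.fract ((PP s t φ c0 ζ).im - ⌊(PP s t φ c0 ζ).re⌋ * θ) < ys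
      then -Sg ζ else Sg ζ

/-- on a (closed) slit, modulo `Λ` -/
def OnSlit (θ x0 L : ℝ) (z : ℂ) : Prop :=
  ∃ k l : ℤ, x0 ≤ (z - lat θ k l).re ∧ (z - lat θ k l).re ≤ x0 + L ∧ (z - lat θ k l).im = 0

/-- flat position after moving by `δ` in the coordinates of `u_s x` -/
noncomputable def stepPt (t r s : ℝ) (G : ℝ → ℝ) (σ : ℤˣ) (z δ : ℂ) : ℂ :=
  ⟨z.re + δ.re - s * δ.im - t * ((σ : ℤ) : ℝ) * (G (z.im + δ.im / r) - G z.im),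
    z.im + δ.im / r⟩

/-- local form of a local translation map of `u_s x` off the slits -/
def Stmt_Local : Prop := ∀ (B : ℕ) [NeZero B] (r : ZMod B → ℝ) (θ ys x0 L t a2 s : ℝ)
  (G : ℝ → ℝ) (S : Surf B r θ ys x0 L t G), (∀ j, 1 ≤ r j ∧ r j ≤ 1.01) → Coc θ ys a2 G →
  0 < θ → θ < 1 / 4 → 0 < ys → ys < 1 / 4 →
  0 < x0 → x0 < 1 / 100 → 0 < L → L < 1 / 100 → 0 < t → t < 1 / 100 →
  ∀ (U : Set ℂ) (Ψ : ℂ → S.A.X), IsOpen U → IsLT (S.A.ω.act s) U Ψ → ∀ ζ ∈ U,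
  ∀ (j : ZMod B) (σ : ℤˣ) (z : ℂ), Nonsing θ ys x0 L z → ¬ OnSlit θ x0 L z →
    0 ≤ z.re → z.re < 1 → Ψ ζ = S.pt j σ z →
    ∀ᶠ ζ' in 𝓝 ζ, Ψ ζ' = S.pt j
      (if z.re = 0 ∧ (stepPt t (r j) s G σ z (ζ' - ζ)).re < 0 ∧ Int.fract z.im < ys
        then -σ else σ)
      (stepPt t (r j) s G σ z (ζ' - ζ))

/-- small horizontal moves (any nonsingular point, slit points included): moving right keeps the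
label, moving left keeps the block; off the lines `re ∈ ℤ` the label is kept -/
def Stmt_Hor : Prop := ∀ (B : ℕ) [NeZero B] (r : ZMod B → ℝ) (θ ys x0 L t a2 s : ℝ)
  (G : ℝ → ℝ) (S : Surf B r θ ys x0 L t G), (∀ j, 1 ≤ r j ∧ r j ≤ 1.01) → Coc θ ys a2 G →
  0 < θ → θ < 1 / 4 → 0 < ys → ys < 1 / 4 →
  0 < x0 → x0 < 1 / 100 → 0 < L → L < 1 / 100 → 0 < t → t < 1 / 100 →
  ∀ (U : Set ℂ) (Ψ : ℂ → S.A.X), IsOpen U → IsLT (S.A.ω.act s) U Ψ → ∀ ζ ∈ U,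
  ∀ (j : ZMod B) (σ : ℤˣ) (z : ℂ), Nonsing θ ys x0 L z → Ψ ζ = S.pt j σ z →
    ∀ᶠ d : ℝ in 𝓝 0, (0 ≤ d → Ψ (ζ + d) = S.pt j σ (z + d)) ∧
      (z.re ≠ ⌊z.re⌋ → Ψ (ζ + d) = S.pt j σ (z + d)) ∧
      ∃ σ' : ℤˣ, Ψ (ζ + d) = S.pt j σ' (z + d)

/-- (A3) a wide cylinder does not meet the slits -/
def Stmt_AvoidSlit : Prop := ∀ (B : ℕ) [NeZero B] (r : ZMod B → ℝ) (θ ys x0 L t a2 s : ℝ)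
  (G : ℝ → ℝ) (S : Surf B r θ ys x0 L t G), (∀ j, 1 ≤ r j ∧ r j ≤ 1.01) → Coc θ ys a2 G →
  0 < θ → θ < 1 / 4 → 0 < ys → ys < 1 / 4 →
  0 < x0 → x0 < 1 / 100 → 0 < L → L < 1 / 100 → 0 < t → t < 1 / 100 →
  ∀ (h : ℂ) (c1 c2 : ℝ) (Ψ : ℂ → S.A.X), 0 < h.im → L < c2 - c1 →
    IsLT (S.A.ω.act s) (Strip h c1 c2) Ψ →
    ∀ ζ ∈ Strip h c1 c2, ∀ (j : ZMod B) (σ : ℤˣ) (z : ℂ), Nonsing θ ys x0 L z →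
      Ψ ζ = S.pt j σ z → ¬ OnSlit θ x0 L z

/-- (A3)+(A4): a wide cylinder of `u_s x` lies in one block and lifts -/
def Stmt_Lift : Prop := ∀ (B : ℕ) [NeZero B] (r : ZMod B → ℝ) (θ ys x0 L t a2 s : ℝ)
  (G : ℝ → ℝ) (S : Surf B r θ ys x0 L t G), (∀ j, 1 ≤ r j ∧ r j ≤ 1.01) → Coc θ ys a2 G →
  0 < θ → θ < 1 / 4 → 0 < ys → ys < 1 / 4 →
  0 < x0 → x0 < 1 / 100 → 0 < L → L < 1 / 100 → 0 < t → t < 1 / 100 →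
  ∀ (h : ℂ) (c1 c2 : ℝ) (Ψ : ℂ → S.A.X), 0 < h.im → L < c2 - c1 →
    IsLT (S.A.ω.act s) (Strip h c1 c2) Ψ →
    (∀ ζ ∈ Strip h c1 c2, Ψ (ζ + h) = Ψ ζ) →
    (∀ ζ ∈ Strip h c1 c2, ∀ ζ' ∈ Strip h c1 c2, Ψ ζ = Ψ ζ' → ∃ n : ℤ, ζ' = ζ + n * h) →
    ∃ (j : ZMod B) (φ : ℝ → ℝ) (Sg : ℂ → ℤˣ) (c0 : ℂ),
      LiftedStrip θ ys (s * r j) t G ⟨h.re, h.im / r j⟩ c1 c2 φ Sg c0

/-! ## Part I in the plane -/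

/-- period data: `PP (ζ + h) = PP ζ + lat k l` for all `ζ` in the strip, `Δ` is the increment of
`φ` over the period -/
def Stmt_Period : Prop := ∀ (θ ys s t : ℝ) (G : ℝ → ℝ) (h : ℂ) (c1 c2 : ℝ) (φ : ℝ → ℝ)
  (Sg : ℂ → ℤˣ) (c0 : ℂ), LiftedStrip θ ys s t G h c1 c2 φ Sg c0 → c1 < c2 → 0 < t →
  ∃ (k l : ℤ) (Δ : ℝ), (∀ y, φ (y + h.im) = φ y + Δ) ∧ |Δ| ≤ h.im ∧
    (∀ ζ, PP s t φ c0 (ζ + h) = PP s t φ c0 ζ + lat θ k l) ∧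
    (k : ℝ) + s * (k * θ + l) = h.re - t * Δ ∧ (k : ℝ) * θ + l = h.im

/-- (A5) systole -/
def Stmt_Systole : Prop := ∀ (θ ys s t : ℝ) (G : ℝ → ℝ) (h : ℂ) (c1 c2 : ℝ) (φ : ℝ → ℝ)
  (Sg : ℂ → ℤˣ) (c0 : ℂ), LiftedStrip θ ys s t G h c1 c2 φ Sg c0 → 0 < t → t ≤ 1 / 100 →
  9 / 10 ≤ c2 - c1 → |h.re| ≤ 1 / 10 → 9 / 10 ≤ h.im → h.im ≤ 11 / 10 →
  ∀ k l : ℤ, |(k : ℝ) + s * (k * θ + l)| ≤ 1 / 20 → |(k : ℝ) * θ + l| ≤ 1 / 20 →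
    k = 0 ∧ l = 0

/-- (A7) primitivity of the period vector -/
def Stmt_Primitive : Prop := ∀ (θ ys s t a2 : ℝ) (G : ℝ → ℝ) (h : ℂ) (c1 c2 : ℝ) (φ : ℝ → ℝ)
  (Sg : ℂ → ℤˣ) (c0 : ℂ), LiftedStrip θ ys s t G h c1 c2 φ Sg c0 → Coc θ ys a2 G →
  0 < t → t ≤ 1 / 100 → 9 / 10 ≤ c2 - c1 → |h.re| ≤ 1 / 10 → 9 / 10 ≤ h.im → h.im ≤ 11 / 10 →
  ∀ (k l : ℤ) (Δ : ℝ), (∀ y, φ (y + h.im) = φ y + Δ) → Δ ≠ 0 →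
    (∀ ζ, PP s t φ c0 (ζ + h) = PP s t φ c0 ζ + lat θ k l) → IsCoprime k l

/-- (A8), first part: the width of the strip is at most the area over the height -/
def Stmt_Width : Prop := ∀ (θ ys s t : ℝ) (G : ℝ → ℝ) (h : ℂ) (c1 c2 : ℝ) (φ : ℝ → ℝ)
  (Sg : ℂ → ℤˣ) (c0 : ℂ), LiftedStrip θ ys s t G h c1 c2 φ Sg c0 → 0 < t → t ≤ 1 / 100 →
  9 / 10 ≤ c2 - c1 → |h.re| ≤ 1 / 10 → 9 / 10 ≤ h.im → h.im ≤ 11 / 10 →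
  ∀ (k l : ℤ), IsCoprime k l → (∀ ζ, PP s t φ c0 (ζ + h) = PP s t φ c0 ζ + lat θ k l) →
    h.im * (c2 - c1 - 5 * t) ≤ 1

/-- (A8)+(A9), geometric half: the signs along the middle line of the strip -/
def Stmt_Line : Prop := ∀ (θ ys s t a2 η3 : ℝ) (G : ℝ → ℝ) (h : ℂ) (c1 c2 : ℝ)
  (φ : ℝ → ℝ) (Sg : ℂ → ℤˣ) (c0 : ℂ), LiftedStrip θ ys s t G h c1 c2 φ Sg c0 →
  Coc θ ys a2 G → 0 < θ → θ < 1 / 4 → 0 < ys → ys < 1 / 4 → 0 < η3 → η3 ≤ 1 / 10 →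
  0 < t → t ≤ 1 / 100 → |h.re| ≤ 1 / 50 → |h.im - 1| ≤ 1 / 100 →
  1 - η3 ≤ h.im * (c2 - c1 - 5 * t) →
  ∀ (m : ℕ) (n : ℤ) (Δ : ℝ), 0 < m → IsCoprime (m : ℤ) n →
    (∀ ζ, PP s t φ c0 (ζ + h) = PP s t φ c0 ζ + lat θ (-(m : ℤ)) n) →
    (∀ y, φ (y + h.im) = φ y + Δ) →
    ∃ (ρ : ℝ) (E : ℤ → ℤˣ), 0 < ρ ∧ ρ < 1 ∧ (∀ r, E (r + m) = E r) ∧
      (∀ r : ℤ, E (r + n) = E r * (if ((r % (m : ℤ) : ℤ) : ℝ) + ρ < m * ys then -1 else 1)) ∧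
      Δ = ∑ r ∈ Finset.range m, (((E (r : ℤ) : ℤˣ) : ℤ) : ℝ) *
        (G ((ρ + r) / m) - G ((ρ + r - h.im) / m)) ∧
      |(m : ℝ) * ys - ⌈(m : ℝ) * ys - ρ⌉| ≤ η3

/-- (A9), combinatorial half -/
def Stmt_Comb : Prop := ∀ (θ ys a2 η η2 η3 : ℝ) (G : ℝ → ℝ) (m : ℕ) (n : ℤ) (Y Δ ρ : ℝ)
  (E : ℤ → ℤˣ), Coc θ ys a2 G → 0 < ys → ys < 1 / 4 → 0 < η2 → η = 10 * η2 → η ≤ 1 / 1000 →
  1 - 2 * η2 ≤ a2 → a2 ≤ 1 → 0 < η3 → η3 ≤ ys / 2 → 0 < m → IsCoprime (m : ℤ) n →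
  Y = n - m * θ → |Y - 1| ≤ 1 / 100 → 0 < ρ → ρ < 1 → (∀ r, E (r + m) = E r) →
  (∀ r : ℤ, E (r + n) = E r * (if ((r % (m : ℤ) : ℤ) : ℝ) + ρ < m * ys then -1 else 1)) →
  Δ = ∑ r ∈ Finset.range m, (((E (r : ℤ) : ℤˣ) : ℤ) : ℝ) *
    (G ((ρ + r) / m) - G ((ρ + r - Y) / m)) →
  |(m : ℝ) * ys - ⌈(m : ℝ) * ys - ρ⌉| ≤ η3 → (1 - 5 * η2) * Y ≤ Δ →
  Good θ ys η η3 m n

/-- (A8)+(A9): from the strip to the sign pattern of a good `m` -/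
def Stmt_Pattern : Prop := ∀ (θ ys s t a2 η η2 η3 : ℝ) (G : ℝ → ℝ) (h : ℂ) (c1 c2 : ℝ)
  (φ : ℝ → ℝ) (Sg : ℂ → ℤˣ) (c0 : ℂ), LiftedStrip θ ys s t G h c1 c2 φ Sg c0 →
  Coc θ ys a2 G → 0 < θ → θ < 1 / 4 → 0 < ys → ys < 1 / 4 → 0 < η2 → η = 10 * η2 → η ≤ 1 / 1000 →
  1 - 2 * η2 ≤ a2 → a2 ≤ 1 → 0 < η3 → η3 ≤ ys / 2 → η3 ≤ 1 / 10 → 0 < t → t ≤ 1 / 100 → 1 ≤ s →
  |h.re| ≤ 1 / 50 → |h.im - 1| ≤ 1 / 100 → 1 - η3 ≤ h.im * (c2 - c1 - 5 * t) →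
  ∀ (k l : ℤ) (Δ : ℝ), IsCoprime k l →
    (∀ ζ, PP s t φ c0 (ζ + h) = PP s t φ c0 ζ + lat θ k l) →
    (∀ y, φ (y + h.im) = φ y + Δ) → (1 - 5 * η2) * h.im ≤ Δ →
    ∃ (m : ℕ) (n : ℤ), Good θ ys η η3 m n ∧ |s - (m : ℝ) / (n - m * θ)| ≤ 1

/-- Part I for one near return -/
def Stmt_PartI : Prop := ∀ (B : ℕ) [NeZero B] (r : ZMod B → ℝ)
  (θ ys x0 L t a2 s η η2 η3 gap ε : ℝ) (G : ℝ → ℝ) (S : Surf B r θ ys x0 L t G),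
  (∀ j, 1 ≤ r j ∧ r j ≤ 1.01) → Coc θ ys a2 G →
  0 < θ → θ < 1 / 4 → 0 < ys → ys < 1 / 4 → 0 < η2 → η = 10 * η2 → η ≤ 1 / 1000 →
  1 - 2 * η2 ≤ a2 → a2 ≤ 1 → 0 < η3 → η3 ≤ ys / 2 → η3 ≤ 1 / 1000 →
  0 < gap → gap ≤ 1 / 100 → (∀ i j, i ≠ j → gap ≤ |r i - r j|) →
  0 < t → t ≤ η3 / 100 → t ≤ gap / 100 → x0 = t → L = t → 0 < ε → ε ≤ t * η2 / 100 →
  10 ≤ s → Near ε S.A (horocycle s S.A) →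
  ∀ j, ∃ (m : ℕ) (n : ℤ), Good θ ys η η3 m n ∧ |s * r j - (m : ℝ) / (n - m * θ)| ≤ 1

/-- the main theorem in quantitative form -/
def Stmt_Main : Prop := ∃ (A : AbelianDifferential) (ε S0 : ℝ), 0 < ε ∧
  ∀ s : ℝ, S0 ≤ s → ¬ Near ε A (horocycle s A)

end Horo
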