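import Pool.Agent.Horo.EDefs
import Pool.Agent.Horo.GDefs

/-!
# From the diagram to `Surf`
-/

open Topology Filter Set

namespace Horo

/-- local translation map at a point -/
def LTAt {X : Type} [TopologicalSpace X] (A : AbDiff X) (Ψ : ℂ → X) (ζ : ℂ) : Prop :=
  ContinuousAt Ψ ζ ∧ A.ord (Ψ ζ) = 0 ∧ ∀ᶠ ζ' in 𝓝 ζ, A.P (Ψ ζ) (Ψ ζ') = ζ' - ζ

/-- the properties of the differential produced by `Stmt_abDiff` -/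
structure GoodAb {C : Type} [TopologicalSpace C] [AddAction ℝ C] (D : Diagram C)
    (A : AbDiff D.X) : Prop where
  ord_int : ∀ x s, 0 < s → s < D.wid x → A.ord (D.proj (D.pt x s)) = 0
  ord_seam : ∀ y, A.ord (D.proj (D.pt y 0)) = D.len y - 1
  prim : ∀ q, D.IsPrimOn (A.P q) (A.z q).source

/-- local translation maps at interior points -/
def Stmt_ltInt : Prop := ∀ (C : Type) [TopologicalSpace C] [AddAction ℝ C] [CompactSpace C]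
  [T2Space C] [BaseSpace C] (D : Diagram C) (A : AbDiff D.X), GoodAb D A →
  ∀ (x : C) (s : ℝ) (Ψ : ℂ → D.X) (ζ : ℂ), 0 < s → s < D.wid x →
  (∀ᶠ ζ' in 𝓝 ζ, Ψ ζ' = D.proj (D.pt ((ζ'.im - ζ.im) +ᵥ x)
    (s + (ζ'.re - ζ.re) - D.bend x (ζ'.im - ζ.im)))) → LTAt A Ψ ζ

/-- local translation maps at regular seam points -/
def Stmt_ltSeam : Prop := ∀ (C : Type) [TopologicalSpace C] [AddAction ℝ C] [CompactSpace C]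
  [T2Space C] [BaseSpace C] (D : Diagram C) (A : AbDiff D.X), GoodAb D A →
  ∀ (y : C) (Ψ : ℂ → D.X) (ζ : ℂ), D.τ y = y →
  (∀ᶠ ζ' in 𝓝 ζ,
    (0 ≤ (ζ'.re - ζ.re) - D.bend y (ζ'.im - ζ.im) →
      Ψ ζ' = D.ptR y ((ζ'.re - ζ.re) - D.bend y (ζ'.im - ζ.im)) (ζ'.im - ζ.im)) ∧
    ((ζ'.re - ζ.re) - D.bend y (ζ'.im - ζ.im) < 0 →
      Ψ ζ' = D.ptL y (-((ζ'.re - ζ.re) - D.bend y (ζ'.im - ζ.im))) (ζ'.im - ζ.im))) →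
  LTAt A Ψ ζ

section

variable {B : ℕ} {r : ZMod B → ℝ}

/-- the point of the small circle `(j, σ)` at flat height `y` -/
noncomputable def smallPt (j : ZMod B) (σ : ℤˣ) (y : ℝ) : Cs B r :=
  ⟨(j, σ), ((y * r j : ℝ) : AddCircle (r j))⟩

open Classical in
/-- the point of block `j`, sheet `σ` with flat coordinate `z` -/
noncomputable def ptS (θ x0 L : ℝ) (D : Diagram (CC B r)) (j : ZMod B) (σ : ℤˣ) (z : ℂ) : D.X :=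
  if Int.fract z.re < x0 then
    D.proj (D.pt (Sum.inl (smallPt j σ (z.im - ⌊z.re⌋ * θ))) (Int.fract z.re))
  else if Int.fract z.re < x0 + L then
    D.proj (D.pt (Sum.inr (Sum.inl (Eup B r (smallPt j σ (z.im - ⌊z.re⌋ * θ)))))
      (Int.fract z.re - x0))
  else
    D.proj (D.pt (Sum.inr (Sum.inr (smallPt j σ (z.im - ⌊z.re⌋ * θ)))) (Int.fract z.re - x0 - L))

end

/-- all hypotheses on the parameters -/
structure Par (B : ℕ) (r : ZMod B → ℝ) (θ ys x0 L t a2 : ℝ) (G : ℝ → ℝ) : Prop where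
  B2 : 2 ≤ B
  r1 : ∀ j, 1 ≤ r j
  r2 : ∀ j, r j ≤ 1.01
  θ0 : 0 < θ
  θ1 : θ < 1 / 4
  ys0 : 0 < ys
  ys1 : ys < 1 / 4
  coc : Coc θ ys a2 G
  x00 : 0 < x0
  x01 : x0 < 1 / 100
  L0 : 0 < L
  L1 : L < 1 / 100
  t0 : 0 ≤ t
  t1 : t < 1 / 100

/-- when is a left boundary point regular -/
def Stmt_regPts : Prop := ∀ (B : ℕ) [NeZero B] (r : ZMod B → ℝ) (θ ys x0 L t a2 : ℝ) (G : ℝ → ℝ),
  Par B r θ ys x0 L t a2 G → ∀ D : Diagram (CC B r), IsDiag B r θ ys t a2 G x0 L D →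
  ∀ (j : ZMod B) (σ : ℤˣ) (y : ℝ),
    (D.τ (Sum.inl (smallPt j σ y)) = Sum.inl (smallPt j σ y) ↔
      Int.fract y ≠ 0 ∧ Int.fract y ≠ ys) ∧
    (D.τ (Sum.inr (Sum.inl (Eup B r (smallPt j σ y)))) =
        Sum.inr (Sum.inl (Eup B r (smallPt j σ y))) ↔ Int.fract y ≠ 0) ∧
    (D.τ (Sum.inr (Sum.inr (smallPt j σ y))) = Sum.inr (Sum.inr (smallPt j σ y)) ↔
      Int.fract y ≠ 0) ∧
    (Int.fract y ≠ 0 → Edn B r (smallPt j σ y) = Eup B r (smallPt j σ y))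

def Stmt_ptPer : Prop := ∀ (B : ℕ) [NeZero B] (r : ZMod B → ℝ) (θ ys x0 L t a2 : ℝ) (G : ℝ → ℝ),
  Par B r θ ys x0 L t a2 G → ∀ D : Diagram (CC B r), IsDiag B r θ ys t a2 G x0 L D →
  ∀ j σ z (k l : ℤ), ptS θ x0 L D j σ (z + lat θ k l) = ptS θ x0 L D j σ z

def Stmt_ptInj : Prop := ∀ (B : ℕ) [NeZero B] (r : ZMod B → ℝ) (θ ys x0 L t a2 : ℝ) (G : ℝ → ℝ),
  Par B r θ ys x0 L t a2 G → ∀ D : Diagram (CC B r), IsDiag B r θ ys t a2 G x0 L D →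
  ∀ j σ z j' σ' z', Nonsing θ ys x0 L z → Nonsing θ ys x0 L z' →
    ptS θ x0 L D j σ z = ptS θ x0 L D j' σ' z' →
    j = j' ∧ σ = σ' ∧ ∃ k l : ℤ, z' = z + lat θ k l

def Stmt_ptSurj : Prop := ∀ (B : ℕ) [NeZero B] (r : ZMod B → ℝ) (θ ys x0 L t a2 : ℝ) (G : ℝ → ℝ),
  Par B r θ ys x0 L t a2 G → ∀ D : Diagram (CC B r), IsDiag B r θ ys t a2 G x0 L D →
  ∀ A : AbDiff D.X, GoodAb D A → ∀ p, A.ord p = 0 →
    ∃ j σ z, Nonsing θ ys x0 L z ∧ ptS θ x0 L D j σ z = p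

def Stmt_cellAt : Prop := ∀ (B : ℕ) [NeZero B] (r : ZMod B → ℝ) (θ ys x0 L t a2 : ℝ) (G : ℝ → ℝ),
  Par B r θ ys x0 L t a2 G → ∀ D : Diagram (CC B r), IsDiag B r θ ys t a2 G x0 L D →
  ∀ A : AbDiff D.X, GoodAb D A → ∀ j σ (ζ : ℂ), 0 < (fl t (r j) G σ ζ).re →
  (fl t (r j) G σ ζ).re < 1 →
  ¬ (x0 ≤ (fl t (r j) G σ ζ).re ∧ (fl t (r j) G σ ζ).re ≤ x0 + L ∧
    ∃ l : ℤ, (fl t (r j) G σ ζ).im = l) →
  LTAt A (fun Z => ptS θ x0 L D j σ (fl t (r j) G σ Z)) ζ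

def Stmt_wallAt : Prop := ∀ (B : ℕ) [NeZero B] (r : ZMod B → ℝ) (θ ys x0 L t a2 : ℝ) (G : ℝ → ℝ),
  Par B r θ ys x0 L t a2 G → ∀ D : Diagram (CC B r), IsDiag B r θ ys t a2 G x0 L D →
  ∀ A : AbDiff D.X, GoodAb D A → ∀ j σ (ζ : ℂ), |(fl t (r j) G σ ζ).re| < x0 →
  0 < (fl t (r j) G σ ζ).im → (fl t (r j) G σ ζ).im < ys →
  LTAt A (fun Z => if 0 ≤ (fl t (r j) G σ Z).re then ptS θ x0 L D j σ (fl t (r j) G σ Z)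
      else ptS θ x0 L D j (-σ) (fl t (r j) G σ Z)) ζ

def Stmt_gapAt : Prop := ∀ (B : ℕ) [NeZero B] (r : ZMod B → ℝ) (θ ys x0 L t a2 : ℝ) (G : ℝ → ℝ),
  Par B r θ ys x0 L t a2 G → ∀ D : Diagram (CC B r), IsDiag B r θ ys t a2 G x0 L D →
  ∀ A : AbDiff D.X, GoodAb D A → ∀ j σ (ζ : ℂ), |(fl t (r j) G σ ζ).re| < x0 →
  ys < (fl t (r j) G σ ζ).im → (fl t (r j) G σ ζ).im < 1 →
  LTAt A (fun Z => ptS θ x0 L D j σ (fl t (r j) G σ Z)) ζ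

def Stmt_slitAt : Prop := ∀ (B : ℕ) [NeZero B] (r : ZMod B → ℝ) (θ ys x0 L t a2 : ℝ) (G : ℝ → ℝ),
  Par B r θ ys x0 L t a2 G → ∀ D : Diagram (CC B r), IsDiag B r θ ys t a2 G x0 L D →
  ∀ A : AbDiff D.X, GoodAb D A → ∀ j σ (ζ : ℂ), |ζ.im| < 1 / 2 →
  (0 ≤ ζ.im → x0 < (fl t (r j) G σ ζ).re ∧ (fl t (r j) G σ ζ).re < x0 + L) →
  (ζ.im < 0 → x0 < (fl t (r (j - 1)) G σ ζ).re ∧ (fl t (r (j - 1)) G σ ζ).re < x0 + L) →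
  LTAt A (fun Z => if 0 ≤ Z.im then ptS θ x0 L D j σ (fl t (r j) G σ Z)
      else ptS θ x0 L D (j - 1) σ (fl t (r (j - 1)) G σ Z)) ζ

end Horo
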