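import Pool.Agent.Horo.Local

/-!
# Small horizontal moves
-/

set_option autoImplicit false

open Topology Filter

namespace Horo

theorem hor_step (t r s : ℝ) (G : ℝ → ℝ) (σ : ℤˣ) (z ζ : ℂ) (d : ℝ) :
    stepPt t r s G σ z (ζ + d - ζ) = z + d := by
  apply Complex.ext
  · simp [stepPt]
  · simp [stepPt]

theorem hor_tendsto (ζ : ℂ) : Tendsto (fun d : ℝ => ζ + (d : ℂ)) (𝓝 0) (𝓝 ζ) := by
  have h1 : Continuous (fun d : ℝ => ζ + (d : ℂ)) := by fun_prop
  have h2 := h1.tendsto 0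
  simpa using h2

theorem hor_fl (t r : ℝ) (G : ℝ → ℝ) (hG : G 0 = 0) (σ : ℤˣ) (Z : ℂ) (hZ : Z.im = 0) :
    fl t r G σ Z = Z := by
  apply Complex.ext
  · simp [fl, hZ, hG]
  · simp [fl, hZ]

/-- the case of a point with real part in `[0, 1)` -/
theorem hor_core (hLoc : Stmt_Local) (B : ℕ) [NeZero B] (r : ZMod B → ℝ) (θ ys x0 L t a2 s : ℝ)
    (G : ℝ → ℝ) (S : Surf B r θ ys x0 L t G) (hr : ∀ j, 1 ≤ r j ∧ r j ≤ 1.01)
    (hG : Coc θ ys a2 G) (hθ : 0 < θ) (hθ4 : θ < 1 / 4) (hys : 0 < ys) (hys4 : ys < 1 / 4)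
    (hx0 : 0 < x0) (hx01 : x0 < 1 / 100) (hL : 0 < L) (hL1 : L < 1 / 100) (ht : 0 < t)
    (ht1 : t < 1 / 100) (U : Set ℂ) (Ψ : ℂ → S.A.X) (hU : IsOpen U)
    (hΨ : IsLT (S.A.ω.act s) U Ψ) (ζ : ℂ) (hζ : ζ ∈ U) (j : ZMod B) (σ : ℤˣ) (z : ℂ)
    (hns : Nonsing θ ys x0 L z) (hz0 : 0 ≤ z.re) (hz1 : z.re < 1) (hval : Ψ ζ = S.pt j σ z) :
    ∀ᶠ d : ℝ in 𝓝 0, (0 ≤ d → Ψ (ζ + d) = S.pt j σ (z + d)) ∧
      (z.re ≠ 0 → Ψ (ζ + d) = S.pt j σ (z + d)) ∧
      ∃ σ' : ℤˣ, Ψ (ζ + d) = S.pt j σ' (z + d) := by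
  by_cases hos : OnSlit θ x0 L z
  · obtain ⟨k, l, h1, h2, h3⟩ := hos
    simp only [lat, Complex.sub_re, Complex.sub_im] at h1 h2 h3
    have hk : k = 0 := by
      have h4 : (k : ℝ) < 1 := by linarith
      have h5 : (-1 : ℝ) < k := by linarith
      have h6 : k < 1 := by exact_mod_cast h4
      have h7 : -1 < k := by exact_mod_cast h5
      omega
    subst hk
    simp only [Int.cast_zero, zero_mul, zero_add, sub_zero] at h1 h2 h3
    have hzim : z.im = l := by linarith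
    have hne1 : z.re ≠ x0 := by
      intro h
      apply (hns 0 l).2.2.1
      apply Complex.ext
      · simp [lat, h]
      · simp [lat, hzim]
    have hne2 : z.re ≠ x0 + L := by
      intro h
      apply (hns 0 l).2.2.2
      apply Complex.ext
      · simp [lat, h]
      · simp [lat, hzim]
    have hlt1 : x0 < z.re := lt_of_le_of_ne h1 (Ne.symm hne1)
    have hlt2 : z.re < x0 + L := lt_of_le_of_ne h2 hne2
    obtain ⟨Z0, hZ0⟩ : ∃ Z0 : ℂ, Z0 = ⟨z.re, 0⟩ := ⟨_, rfl⟩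
    have hZre : Z0.re = z.re := by rw [hZ0]
    have hZim : Z0.im = 0 := by rw [hZ0]
    have hz : z = Z0 + lat θ 0 l := by
      apply Complex.ext
      · simp [lat, hZre]
      · simp [lat, hZim, hzim]
    have hGc := local_contG θ ys a2 G hG
    have hV : {Z | |Z.im| < 1 / 2 ∧
      (0 ≤ Z.im → x0 < (fl t (r j) G σ Z).re ∧ (fl t (r j) G σ Z).re < x0 + L) ∧
      (Z.im < 0 → x0 < (fl t (r (j - 1)) G σ Z).re ∧
        (fl t (r (j - 1)) G σ Z).re < x0 + L)} ∈ 𝓝 Z0 := by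
      have e1 : ∀ᶠ Z : ℂ in 𝓝 Z0, |Z.im| < 1 / 2 := by
        have ho : IsOpen {w : ℂ | |w.im| < 1 / 2} :=
          isOpen_lt Complex.continuous_im.abs continuous_const
        refine ho.mem_nhds ?_
        show |Z0.im| < 1 / 2
        rw [hZim]
        norm_num
      have e2 : ∀ i : ZMod B, ∀ᶠ Z : ℂ in 𝓝 Z0,
          x0 < (fl t (r i) G σ Z).re ∧ (fl t (r i) G σ Z).re < x0 + L := by
        intro i
        have hc := local_contfl t (r i) G hGc σ
        have ho : IsOpen {w : ℂ | x0 < w.re ∧ w.re < x0 + L} :=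
          (isOpen_lt continuous_const Complex.continuous_re).inter
            (isOpen_lt Complex.continuous_re continuous_const)
        refine (ho.preimage hc).mem_nhds ?_
        show x0 < (fl t (r i) G σ Z0).re ∧ (fl t (r i) G σ Z0).re < x0 + L
        rw [hor_fl t (r i) G hG.zero σ Z0 hZim, hZre]
        exact ⟨hlt1, hlt2⟩
      filter_upwards [e1, e2 j, e2 (j - 1)] with Z h5 h6 h7
      exact ⟨h5, fun _ => h6, fun _ => h7⟩
    have h := local_unique S.A.ω s U _ Ψ _ ζ Z0 (hU.mem_nhds hζ) hV hΨ (S.slit j σ) (by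
      show Ψ ζ = if 0 ≤ Z0.im then S.pt j σ (fl t (r j) G σ Z0)
        else S.pt (j - 1) σ (fl t (r (j - 1)) G σ Z0)
      rw [hZim, if_pos le_rfl, hor_fl t (r j) G hG.zero σ Z0 hZim, hval, hz, S.per])
    have h' := (hor_tendsto ζ).eventually h
    filter_upwards [h'] with d hd
    have hd' : Ψ (ζ + d) = S.pt j σ (z + d) := by
      rw [hd]
      have h8 : Z0 + shear (-s) (ζ + d - ζ) = Z0 + d := by
        rw [add_sub_cancel_left]
        congr 1
        apply Complex.ext <;> simp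
      have h9 : (Z0 + (d : ℂ)).im = 0 := by simp [hZim]
      rw [h8]
      show (if 0 ≤ (Z0 + (d : ℂ)).im then S.pt j σ (fl t (r j) G σ (Z0 + (d : ℂ)))
        else S.pt (j - 1) σ (fl t (r (j - 1)) G σ (Z0 + (d : ℂ)))) = _
      rw [h9, if_pos le_rfl, hor_fl t (r j) G hG.zero σ _ h9, hz]
      have h10 : Z0 + lat θ 0 l + (d : ℂ) = Z0 + (d : ℂ) + lat θ 0 l := by ring
      rw [h10, S.per]
    exact ⟨fun _ => hd', fun _ => hd', σ, hd'⟩
  · have h := hLoc B r θ ys x0 L t a2 s G S hr hG hθ hθ4 hys hys4 hx0 hx01 hL hL1 ht ht1 U Ψ hU hΨ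
      ζ hζ j σ z hns hos hz0 hz1 hval
    have h' := (hor_tendsto ζ).eventually h
    filter_upwards [h'] with d hd
    rw [hor_step] at hd
    refine ⟨fun h0 => ?_, fun h0 => ?_, ⟨_, hd⟩⟩
    · rw [hd, if_neg]
      rintro ⟨-, h2, -⟩
      rw [Complex.add_re, Complex.ofReal_re] at h2
      linarith
    · rw [hd, if_neg]
      rintro ⟨h2, -, -⟩
      exact h0 h2

theorem hHor : Stmt_Hor := by
  intro B _ r θ ys x0 L t a2 s G S hr hG hθ hθ4 hys hys4 hx0 hx01 hL hL1 ht ht1 U Ψ hU hΨ ζ hζ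
    j σ z hns hval
  obtain ⟨z', hz'⟩ : ∃ z' : ℂ, z' = z - lat θ ⌊z.re⌋ 0 := ⟨_, rfl⟩
  have hz : z = z' + lat θ ⌊z.re⌋ 0 := by
    rw [hz']
    ring
  have hre : z'.re = z.re - ⌊z.re⌋ := by
    rw [hz']
    simp [lat]
  have hadd : ∀ k l : ℤ, lat θ k l + lat θ ⌊z.re⌋ 0 = lat θ (k + ⌊z.re⌋) l := by
    intro k l
    apply Complex.ext
    · simp [lat]
    · simp only [lat, Complex.add_im]
      push_cast
      ring
  have hns' : Nonsing θ ys x0 L z' := by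
    intro k l
    have h1 := hns (k + ⌊z.re⌋) l
    have h2 : ∀ w : ℂ, z' = w → z = w + lat θ ⌊z.re⌋ 0 := by
      intro w hw
      rw [← hw]
      exact hz
    refine ⟨fun h => h1.1 ?_, fun h => h1.2.1 ?_, fun h => h1.2.2.1 ?_, fun h => h1.2.2.2 ?_⟩
    · have h3 := h2 _ h
      rw [hadd] at h3
      exact h3
    · have h3 := h2 _ h
      rw [add_assoc, hadd] at h3
      exact h3
    · have h3 := h2 _ h
      rw [add_assoc, hadd] at h3
      exact h3
    · have h3 := h2 _ h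
      rw [add_assoc, hadd] at h3
      exact h3
  have hval' : Ψ ζ = S.pt j σ z' := by
    rw [hval]
    conv_lhs => rw [hz]
    rw [S.per]
  have hf0 := Int.floor_le z.re
  have hf1 := Int.lt_floor_add_one z.re
  have h := hor_core hLocal B r θ ys x0 L t a2 s G S hr hG hθ hθ4 hys hys4 hx0 hx01 hL hL1 ht ht1
    U Ψ hU hΨ ζ hζ j σ z' hns' (by linarith) (by linarith) hval'
  have hpt : ∀ (σ' : ℤˣ) (d : ℝ), S.pt j σ' (z' + d) = S.pt j σ' (z + d) := by
    intro σ' d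
    have h1 : z + (d : ℂ) = z' + d + lat θ ⌊z.re⌋ 0 := by
      conv_lhs => rw [hz]
      ring
    rw [h1, S.per]
  filter_upwards [h] with d hd
  obtain ⟨h1, h2, σ', h3⟩ := hd
  refine ⟨fun h0 => ?_, fun h0 => ?_, σ', ?_⟩
  · rw [h1 h0, hpt]
  · rw [h2 (by
      rw [hre]
      exact sub_ne_zero.2 h0), hpt]
  · rw [h3, hpt]

end Horo
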