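import Pool.Agent.Horo.GDefs

set_option autoImplicit false

open Topology Filter

namespace Horo

/-! # (A3)+(A4): a wide cylinder of `u_s x` lies in one block and lifts -/

lemma lift_lat_zero {θ : ℝ} {k l : ℤ} (h : ‖lat θ k l‖ < 1) : k = 0 ∧ l = 0 := by
  have h1 : |(k : ℝ)| < 1 := lt_of_le_of_lt (Complex.abs_re_le_norm (lat θ k l)) h
  have hk : k = 0 := by
    have h2 : |k| < 1 := by exact_mod_cast h1
    exact Int.abs_lt_one_iff.mp h2
  subst hk
  have h2 : |((0 : ℤ) : ℝ) * θ + l| < 1 :=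
    lt_of_le_of_lt (Complex.abs_im_le_norm (lat θ 0 l)) h
  have h3 : |(l : ℝ)| < 1 := by simpa using h2
  have h4 : |l| < 1 := by exact_mod_cast h3
  exact ⟨rfl, Int.abs_lt_one_iff.mp h4⟩

lemma lift_lat_sub (θ : ℝ) (k l k' l' : ℤ) :
    lat θ k l - lat θ k' l' = lat θ (k - k') (l - l') := by
  apply Complex.ext
  · simp [lat]
  · simp [lat]; ring

lemma lift_lat_add (θ : ℝ) (k l k' l' : ℤ) :
    lat θ k l + lat θ k' l' = lat θ (k + k') (l + l') := by
  apply Complex.ext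
  · simp [lat]
  · simp [lat]; ring

lemma lift_lat_neg (θ : ℝ) (k l : ℤ) : - lat θ k l = lat θ (-k) (-l) := by
  apply Complex.ext
  · simp [lat]
  · simp [lat]; ring

/-- the lattice -/
def liftLat (θ : ℝ) : Set ℂ := {w | ∃ k l : ℤ, w = lat θ k l}

lemma lift_isClosed (θ : ℝ) : IsClosed (liftLat θ) := by
  apply Metric.isClosed_of_pairwise_le_dist one_pos
  rintro _ ⟨k, l, rfl⟩ _ ⟨k', l', rfl⟩ hne
  by_contra hlt
  rw [not_le, dist_eq_norm, lift_lat_sub] at hlt
  obtain ⟨h1, h2⟩ := lift_lat_zero hlt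
  apply hne
  have e1 : k = k' := by omega
  have e2 : l = l' := by omega
  rw [e1, e2]

lemma lift_nonsing_iff (θ ys x0 L : ℝ) (z : ℂ) : Nonsing θ ys x0 L z ↔
    z ∉ liftLat θ ∧ z - ⟨0, ys⟩ ∉ liftLat θ ∧ z - ⟨x0, 0⟩ ∉ liftLat θ ∧
      z - ⟨x0 + L, 0⟩ ∉ liftLat θ := by
  constructor
  · intro h
    refine ⟨?_, ?_, ?_, ?_⟩
    · rintro ⟨k, l, e⟩
      exact (h k l).1 e
    · rintro ⟨k, l, e⟩
      exact (h k l).2.1 (by rw [← e]; ring)
    · rintro ⟨k, l, e⟩
      exact (h k l).2.2.1 (by rw [← e]; ring)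
    · rintro ⟨k, l, e⟩
      exact (h k l).2.2.2 (by rw [← e]; ring)
  · rintro ⟨h1, h2, h3, h4⟩ k l
    refine ⟨fun e => h1 ⟨k, l, e⟩, fun e => h2 ⟨k, l, ?_⟩, fun e => h3 ⟨k, l, ?_⟩,
      fun e => h4 ⟨k, l, ?_⟩⟩
    · rw [e]; ring
    · rw [e]; ring
    · rw [e]; ring

lemma lift_nonsing_open (θ ys x0 L : ℝ) : IsOpen {z | Nonsing θ ys x0 L z} := by
  have h : {z | Nonsing θ ys x0 L z} = (liftLat θ)ᶜ ∩ ((fun z : ℂ => z - ⟨0, ys⟩) ⁻¹' (liftLat θ)ᶜ ∩
      ((fun z : ℂ => z - ⟨x0, 0⟩) ⁻¹' (liftLat θ)ᶜ ∩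
      (fun z : ℂ => z - ⟨x0 + L, 0⟩) ⁻¹' (liftLat θ)ᶜ)) := by
    ext z
    exact lift_nonsing_iff θ ys x0 L z
  rw [h]
  have ho := (lift_isClosed θ).isOpen_compl
  refine ho.inter ((ho.preimage (by fun_prop)).inter ((ho.preimage (by fun_prop)).inter
    (ho.preimage (by fun_prop))))

lemma lift_nonsing_add {θ ys x0 L : ℝ} {z : ℂ} (h : Nonsing θ ys x0 L z) (k l : ℤ) :
    Nonsing θ ys x0 L (z + lat θ k l) := by
  intro k' l'
  have h2 := h (k' - k) (l' - l)
  have e := lift_lat_sub θ k' l' k l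
  rw [← e] at h2
  refine ⟨fun h3 => h2.1 ?_, fun h3 => h2.2.1 ?_, fun h3 => h2.2.2.1 ?_, fun h3 => h2.2.2.2 ?_⟩
  · rw [← h3]; ring
  · rw [add_sub, ← h3]; ring
  · rw [add_sub, ← h3]; ring
  · rw [add_sub, ← h3]; ring

/-- local `1`-Lipschitz at every point implies `1`-Lipschitz -/
lemma lift_lip (φ : ℝ → ℝ) (h : ∀ x, ∀ᶠ y in 𝓝 x, |φ y - φ x| ≤ |y - x|) :
    ∀ x y, |φ x - φ y| ≤ |x - y| := by
  have hc : Continuous φ := by
    rw [continuous_iff_continuousAt]
    intro x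
    rw [ContinuousAt, tendsto_iff_dist_tendsto_zero]
    have h0 : Tendsto (fun y : ℝ => |y - x|) (𝓝 x) (𝓝 0) := by
      have : Tendsto (fun y : ℝ => |y - x|) (𝓝 x) (𝓝 |x - x|) := by
        apply Continuous.tendsto
        fun_prop
      simpa using this
    refine squeeze_zero' (Eventually.of_forall fun _ => dist_nonneg) ?_ h0
    filter_upwards [h x] with y hy
    rw [Real.dist_eq]
    exact hy
  have key : ∀ a b, a ≤ b → |φ b - φ a| ≤ b - a := by
    intro a b hab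
    have hs : IsClosed ({y | |φ y - φ a| ≤ y - a} ∩ Set.Icc a b) := by
      refine IsClosed.inter (isClosed_le ?_ ?_) isClosed_Icc
      · fun_prop
      · fun_prop
    have hsub := hs.Icc_subset_of_forall_exists_gt (a := a) (b := b)
      (show a ∈ {y | |φ y - φ a| ≤ y - a} by simp) (by
        rintro x ⟨hx1, hx2, hx3⟩ y hy
        rcases Metric.eventually_nhds_iff.1 (h x) with ⟨ε, hε, hb⟩
        have hy' : x < y := hy
        refine ⟨min y (x + ε / 2), ?_, ?_, min_le_left _ _⟩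
        · have h3 : x < min y (x + ε / 2) := lt_min hy' (by linarith)
          have h4 : |φ (min y (x + ε / 2)) - φ x| ≤ |min y (x + ε / 2) - x| := by
            apply hb
            rw [Real.dist_eq, abs_of_pos (by linarith)]
            have := min_le_right y (x + ε / 2)
            linarith
          rw [abs_of_pos (show 0 < min y (x + ε / 2) - x by linarith)] at h4
          have h5 : |φ x - φ a| ≤ x - a := hx1
          show |φ (min y (x + ε / 2)) - φ a| ≤ min y (x + ε / 2) - a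
          calc |φ (min y (x + ε / 2)) - φ a|
              = |(φ (min y (x + ε / 2)) - φ x) + (φ x - φ a)| := by ring_nf
            _ ≤ |φ (min y (x + ε / 2)) - φ x| + |φ x - φ a| := abs_add_le _ _
            _ ≤ min y (x + ε / 2) - a := by linarith
        · exact lt_min hy' (by linarith))
    exact hsub ⟨hab, le_refl b⟩
  intro x y
  rcases le_total x y with hxy | hxy
  · rw [abs_sub_comm (φ x), abs_sub_comm x, abs_of_nonneg (sub_nonneg.2 hxy)]
    exact key x y hxy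
  · rw [abs_of_nonneg (sub_nonneg.2 hxy)]
    exact key y x hxy

/-- locally constant on a preconnected set -/
lemma lift_const {T : Type} {s : Set ℂ} (hs : IsPreconnected s) (F : ℂ → T)
    (h : ∀ x ∈ s, ∀ᶠ y in 𝓝 x, y ∈ s → F y = F x) : ∀ x ∈ s, ∀ y ∈ s, F x = F y := by
  intro x hx y hy
  refine hs.induction₂ (fun x y => F x = F y) ?_ ?_ ?_ hx hy
  · intro x hx
    rw [eventually_nhdsWithin_iff]
    filter_upwards [h x hx] with y hy hys
    exact (hy hys).symm
  · intro x y z _ _ _ h1 h2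
    exact h1.trans h2
  · intro x y _ _ h1
    exact h1.symm

lemma lift_G_cont {θ ys a2 : ℝ} {G : ℝ → ℝ} (hG : Coc θ ys a2 G) : Continuous G := by
  have : LipschitzWith 1 G := by
    apply LipschitzWith.of_dist_le_mul
    intro x y
    rw [Real.dist_eq, Real.dist_eq]
    simpa using hG.lip x y
  exact this.continuous

lemma lift_G_int {θ ys a2 : ℝ} {G : ℝ → ℝ} (hG : Coc θ ys a2 G) (y : ℝ) (l : ℤ) :
    G (y + l) = G y + l * a2 := by
  induction l with
  | zero => simp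
  | succ n ih =>
    have h1 := hG.per (y + n)
    push_cast at ih ⊢
    rw [← add_assoc, h1, ih]
    ring
  | pred n ih =>
    have h1 := hG.per (y + (-(n : ℝ) - 1))
    push_cast at ih ⊢
    have h2 : y + (-(n : ℝ) - 1) + 1 = y + -(n : ℝ) := by ring
    rw [h2, ih] at h1
    linarith

lemma lift_step_cont {θ ys a2 : ℝ} {G : ℝ → ℝ} (hG : Coc θ ys a2 G) (t R s : ℝ) (σ : ℤˣ)
    (z : ℂ) : Continuous (stepPt t R s G σ z) := by
  have h1 := lift_G_cont hG
  have h2 : stepPt t R s G σ z = fun δ : ℂ =>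
      ((z.re + δ.re - s * δ.im - t * ((σ : ℤ) : ℝ) * (G (z.im + δ.im / R) - G z.im) : ℝ) : ℂ)
        + ((z.im + δ.im / R : ℝ) : ℂ) * Complex.I := by
    funext δ
    apply Complex.ext
    · simp [stepPt]
    · simp [stepPt]
  rw [h2]
  fun_prop

lemma lift_step_zero (t R s : ℝ) (G : ℝ → ℝ) (σ : ℤˣ) (z : ℂ) :
    stepPt t R s G σ z 0 = z := by
  apply Complex.ext
  · simp [stepPt]
  · simp [stepPt]

lemma lift_strip_eq (h : ℂ) (c1 c2 : ℝ) : Strip h c1 c2 =
    (Complex.reLm - (h.re / h.im) • Complex.imLm : ℂ →ₗ[ℝ] ℝ) ⁻¹' Set.Ioo c1 c2 := by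
  ext ζ
  simp [Strip]

lemma lift_strip_convex (h : ℂ) (c1 c2 : ℝ) : Convex ℝ (Strip h c1 c2) := by
  rw [lift_strip_eq]
  exact (convex_Ioo c1 c2).linear_preimage _

lemma lift_strip_open (h : ℂ) (c1 c2 : ℝ) : IsOpen (Strip h c1 c2) := by
  have : Continuous (fun ζ : ℂ => ζ.re - h.re / h.im * ζ.im) := by fun_prop
  exact isOpen_Ioo.preimage this


/-- the lattice is discrete: a continuous lattice valued difference is locally constant -/
lemma lift_disc {θ : ℝ} {F : ℂ → ℂ} {x : ℂ} (hF : ContinuousAt F x)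
    (h : ∀ᶠ y in 𝓝 x, F y ∈ liftLat θ) (hx : F x ∈ liftLat θ) : ∀ᶠ y in 𝓝 x, F y = F x := by
  have h1 : ∀ᶠ y in 𝓝 x, dist (F y) (F x) < 1 := hF.eventually (Metric.ball_mem_nhds _ one_pos)
  filter_upwards [h, h1] with y hy hd
  obtain ⟨k, l, e⟩ := hy
  obtain ⟨k', l', e'⟩ := hx
  rw [e, e', dist_eq_norm, lift_lat_sub] at hd
  obtain ⟨h2, h3⟩ := lift_lat_zero hd
  rw [e, e', show k = k' by omega, show l = l' by omega]

/-- the local data of the cylinder, after the block is known to be constant -/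
structure LiftLoc (θ ys x0 L t R s : ℝ) (G : ℝ → ℝ) (W : Set ℂ) (sg : ℂ → ℤˣ) (z : ℂ → ℂ) :
    Prop where
  ns : ∀ ζ ∈ W, Nonsing θ ys x0 L (z ζ)
  re0 : ∀ ζ ∈ W, 0 ≤ (z ζ).re
  re1 : ∀ ζ ∈ W, (z ζ).re < 1
  sgn : ∀ ζ ∈ W, ∀ᶠ ζ' in 𝓝 ζ, sg ζ' = if (z ζ).re = 0 ∧
      (stepPt t R s G (sg ζ) (z ζ) (ζ' - ζ)).re < 0 ∧ Int.fract (z ζ).im < ys
        then -sg ζ else sg ζ
  zz : ∀ ζ ∈ W, ∀ᶠ ζ' in 𝓝 ζ, ∃ k l : ℤ, z ζ' = stepPt t R s G (sg ζ) (z ζ) (ζ' - ζ) + lat θ k l

/-- the developing map -/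
lemma lift_dev (h1 : Stmt_Glue) {θ ys a2 x0 L t R s : ℝ} {G : ℝ → ℝ} (hG : Coc θ ys a2 G)
    {W : Set ℂ} (hWo : IsOpen W) (hWc : Convex ℝ W) (hWn : W.Nonempty) {sg : ℂ → ℤˣ} {z : ℂ → ℂ}
    (hd : LiftLoc θ ys x0 L t R s G W sg z) : ∃ g : ℂ → ℂ,
      (∀ ζ ∈ W, ∃ k l : ℤ, g ζ = z ζ + lat θ k l) ∧
      ∀ ζ ∈ W, ∀ᶠ ζ' in 𝓝 ζ, g ζ' - g ζ = stepPt t R s G (sg ζ) (z ζ) (ζ' - ζ) - z ζ := by
  have hN : ∀ a, ∃ N : Set ℂ, a ∈ W → (∀ y ∈ N, ∃ k l : ℤ,
      z y = stepPt t R s G (sg a) (z a) (y - a) + lat θ k l) ∧ IsOpen N ∧ a ∈ N := by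
    intro a
    by_cases ha : a ∈ W
    · obtain ⟨N, hN⟩ := eventually_nhds_iff.1 (hd.zz a ha)
      exact ⟨N, fun _ => hN⟩
    · exact ⟨∅, fun h => absurd h ha⟩
  choose N hN using hN
  have hcont : ∀ a : ℂ, Continuous fun y : ℂ => stepPt t R s G (sg a) (z a) (y - a) := fun a =>
    (lift_step_cont hG t R s (sg a) (z a)).comp (by fun_prop)
  obtain ⟨g, hg⟩ := h1 W ℂ (fun a y => stepPt t R s G (sg a) (z a) (y - a)) N hWc hWo
    (fun a ha => (hN a ha).2) (by
      intro a ha b hb x hx hxa hxb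
      have hmem : ∀ y, y ∈ N a → y ∈ N b → stepPt t R s G (sg a) (z a) (y - a) -
          stepPt t R s G (sg b) (z b) (y - b) ∈ liftLat θ := by
        intro y hya hyb
        obtain ⟨k, l, e⟩ := (hN a ha).1 y hya
        obtain ⟨k', l', e'⟩ := (hN b hb).1 y hyb
        refine ⟨k' - k, l' - l, ?_⟩
        rw [← lift_lat_sub]
        rw [e] at e'
        linear_combination e'
      apply lift_disc (θ := θ)
        (F := fun y => stepPt t R s G (sg a) (z a) (y - a) - stepPt t R s G (sg b) (z b) (y - b))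
      · exact ((hcont a).sub (hcont b)).continuousAt
      · filter_upwards [(hN a ha).2.1.mem_nhds hxa, (hN b hb).2.1.mem_nhds hxb] with y h1 h2
        exact hmem y h1 h2
      · exact hmem x hxa hxb)
  obtain ⟨a0, ha0⟩ := hWn
  have hg' : ∀ ζ ∈ W, ∀ᶠ ζ' in 𝓝 ζ,
      g ζ' - g ζ = stepPt t R s G (sg ζ) (z ζ) (ζ' - ζ) - z ζ := by
    intro ζ hζ
    filter_upwards [hg ζ hζ] with y hy
    rw [hy, sub_self, lift_step_zero]
  refine ⟨fun ζ => g ζ - g a0 + z a0, ?_, ?_⟩
  · intro ζ hζ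
    have hc := lift_const hWc.isPreconnected
      (fun ζ => ((g ζ - g a0 + z a0) - z ζ ∈ liftLat θ : Prop)) (by
      intro x hx
      filter_upwards [hg' x hx, hd.zz x hx] with y hy hy' _
      obtain ⟨k, l, e⟩ := hy'
      apply propext
      constructor
      · rintro ⟨k', l', e'⟩
        refine ⟨k' + k, l' + l, ?_⟩
        rw [← lift_lat_add, ← e']
        linear_combination e - hy
      · rintro ⟨k', l', e'⟩
        refine ⟨k' - k, l' - l, ?_⟩
        rw [← lift_lat_sub, ← e']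
        linear_combination hy - e) ζ hζ a0 ha0
    have h0 : (g a0 - g a0 + z a0) - z a0 ∈ liftLat θ :=
      ⟨0, 0, by apply Complex.ext <;> simp [lat]⟩
    have h2 : (g ζ - g a0 + z a0) - z ζ ∈ liftLat θ := by
      rw [hc]
      exact h0
    obtain ⟨k, l, e⟩ := h2
    exact ⟨k, l, by linear_combination e⟩
  · intro ζ hζ
    filter_upwards [hg' ζ hζ] with y hy
    linear_combination hy


theorem hLift (h1 : Stmt_Glue) (h2 : Stmt_Local) (h3 : Stmt_AvoidSlit) : Stmt_Lift := by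
  intro B _ r θ ys x0 L t a2 s G S hr hG hθ0 hθ1 hys0 hys1 hx0 hx1 hL0 hL1 ht0 ht1 h c1 c2 Ψ him
    hc hLT hper hinj
  have hWo := lift_strip_open h c1 c2
  have hWc := lift_strip_convex h c1 c2
  have hWp := hWc.isPreconnected
  -- a point of every height
  set mid : ℝ → ℂ := fun y => ⟨(c1 + c2) / 2 + h.re / h.im * y, y⟩ with hmid
  have hmidW : ∀ y, mid y ∈ Strip h c1 c2 := by
    intro y
    constructor
    · show c1 < ((c1 + c2) / 2 + h.re / h.im * y) - h.re / h.im * y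
      linarith
    · show ((c1 + c2) / 2 + h.re / h.im * y) - h.re / h.im * y < c2
      linarith
  -- choice of block, sheet, flat position
  have hch : ∀ ζ, ∃ (j : ZMod B) (σ : ℤˣ) (z : ℂ), ζ ∈ Strip h c1 c2 →
      Nonsing θ ys x0 L z ∧ 0 ≤ z.re ∧ z.re < 1 ∧ Ψ ζ = S.pt j σ z := by
    intro ζ
    by_cases hζ : ζ ∈ Strip h c1 c2
    · have hord : S.A.ω.ord (Ψ ζ) = 0 := (hLT.2 ζ hζ).1
      obtain ⟨j, σ, z, hz, hpz⟩ := S.surj (Ψ ζ) hord
      refine ⟨j, σ, z + lat θ (-⌊z.re⌋) 0, fun _ => ⟨lift_nonsing_add hz _ _, ?_, ?_, ?_⟩⟩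
      · show 0 ≤ z.re + ((-⌊z.re⌋ : ℤ) : ℝ)
        push_cast
        linarith [Int.floor_le z.re]
      · show z.re + ((-⌊z.re⌋ : ℤ) : ℝ) < 1
        push_cast
        linarith [Int.lt_floor_add_one z.re]
      · rw [S.per, hpz]
    · exact ⟨0, 1, 0, fun h => absurd h hζ⟩
  choose J sg z hz using hch
  have hkey : ∀ ζ ∈ Strip h c1 c2, ∀ᶠ ζ' in 𝓝 ζ, J ζ' = J ζ ∧
      (sg ζ' = if (z ζ).re = 0 ∧ (stepPt t (r (J ζ)) s G (sg ζ) (z ζ) (ζ' - ζ)).re < 0 ∧
        Int.fract (z ζ).im < ys then -sg ζ else sg ζ) ∧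
      ∃ k l : ℤ, z ζ' = stepPt t (r (J ζ)) s G (sg ζ) (z ζ) (ζ' - ζ) + lat θ k l := by
    intro ζ hζ
    obtain ⟨hn, hre0, hre1, hpt⟩ := hz ζ hζ
    have hslit := h3 B r θ ys x0 L t a2 s G S hr hG hθ0 hθ1 hys0 hys1 hx0 hx1 hL0 hL1 ht0 ht1
      h c1 c2 Ψ him hc hLT ζ hζ (J ζ) (sg ζ) (z ζ) hn hpt
    have hl := h2 B r θ ys x0 L t a2 s G S hr hG hθ0 hθ1 hys0 hys1 hx0 hx1 hL0 hL1 ht0 ht1
      (Strip h c1 c2) Ψ hWo hLT ζ hζ (J ζ) (sg ζ) (z ζ) hn hslit hre0 hre1 hpt
    have hcs : ContinuousAt (fun ζ' : ℂ => stepPt t (r (J ζ)) s G (sg ζ) (z ζ) (ζ' - ζ)) ζ :=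
      ((lift_step_cont hG t (r (J ζ)) s (sg ζ) (z ζ)).comp (by fun_prop)).continuousAt
    have hns : ∀ᶠ ζ' in 𝓝 ζ,
        Nonsing θ ys x0 L (stepPt t (r (J ζ)) s G (sg ζ) (z ζ) (ζ' - ζ)) := by
      have h4 := (lift_nonsing_open θ ys x0 L).mem_nhds (show z ζ ∈ _ from hn)
      have h5 : stepPt t (r (J ζ)) s G (sg ζ) (z ζ) (ζ - ζ) = z ζ := by
        rw [sub_self, lift_step_zero]
      rw [← h5] at h4
      exact hcs.eventually h4
    filter_upwards [hl, hns, hWo.mem_nhds hζ] with y hy hny hyW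
    obtain ⟨hny', -, -, hpty⟩ := hz y hyW
    rw [hpty] at hy
    obtain ⟨e1, e2, k, l, e3⟩ := S.inj _ _ _ _ _ _ hny' hny hy
    refine ⟨e1, e2, -k, -l, ?_⟩
    rw [← lift_lat_neg, e3]
    ring
  have hJ := lift_const hWp J (fun x hx => by
    filter_upwards [hkey x hx] with y hy _
    exact hy.1)
  obtain ⟨j, hj⟩ : ∃ j, J (mid 0) = j := ⟨_, rfl⟩
  have hJj : ∀ ζ ∈ Strip h c1 c2, J ζ = j := fun ζ hζ => (hJ ζ hζ _ (hmidW 0)).trans hj
  have hR : 0 < r j := by linarith [(hr j).1]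
  have hR' : r j ≠ 0 := hR.ne'
  have hd : LiftLoc θ ys x0 L t (r j) s G (Strip h c1 c2) sg z :=
    { ns := fun ζ hζ => (hz ζ hζ).1
      re0 := fun ζ hζ => (hz ζ hζ).2.1
      re1 := fun ζ hζ => (hz ζ hζ).2.2.1
      sgn := fun ζ hζ => by
        have h4 := hkey ζ hζ
        rw [hJj ζ hζ] at h4
        filter_upwards [h4] with y hy using hy.2.1
      zz := fun ζ hζ => by
        have h4 := hkey ζ hζ
        rw [hJj ζ hζ] at h4
        filter_upwards [h4] with y hy using hy.2.2 }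
  obtain ⟨g, hg1, hg2⟩ := lift_dev h1 hG hWo hWc ⟨_, hmidW 0⟩ hd
  have hΨ : ∀ ζ ∈ Strip h c1 c2, Ψ ζ = S.pt j (sg ζ) (g ζ) := by
    intro ζ hζ
    obtain ⟨k, l, e⟩ := hg1 ζ hζ
    rw [e, S.per, (hz ζ hζ).2.2.2, hJj ζ hζ]
  have hgn : ∀ ζ ∈ Strip h c1 c2, Nonsing θ ys x0 L (g ζ) := by
    intro ζ hζ
    obtain ⟨k, l, e⟩ := hg1 ζ hζ
    rw [e]
    exact lift_nonsing_add (hz ζ hζ).1 k l
  -- imaginary parts
  have hIm : ∀ ζ ∈ Strip h c1 c2, (g ζ).im = ζ.im / r j + (g (mid 0)).im := by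
    intro ζ hζ
    have h4 := lift_const hWp (fun ζ => (g ζ).im - ζ.im / r j) (by
      intro x hx
      filter_upwards [hg2 x hx] with y hy _
      have h5 := congrArg Complex.im hy
      simp only [Complex.sub_im, stepPt] at h5
      show (g y).im - y.im / r j = (g x).im - x.im / r j
      have h6 : (y.im - x.im) / r j = y.im / r j - x.im / r j := by ring
      rw [h6] at h5
      linarith) ζ hζ (mid 0) (hmidW 0)
    simp only [hmid, zero_div, sub_zero] at h4 ⊢
    linarith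
  -- real parts
  set D : ℂ → ℝ := fun ζ => (g ζ).re - ζ.re + s * ζ.im with hD
  have hDloc : ∀ ζ ∈ Strip h c1 c2, ∀ᶠ ζ' in 𝓝 ζ, D ζ' - D ζ =
      -(t * ((sg ζ : ℤ) : ℝ) * (G ((z ζ).im + (ζ' - ζ).im / r j) - G (z ζ).im)) := by
    intro ζ hζ
    filter_upwards [hg2 ζ hζ] with y hy
    have h5 := congrArg Complex.re hy
    simp only [Complex.sub_re, Complex.sub_im, stepPt] at h5
    simp only [hD, Complex.sub_im]
    linarith
  have hDh : ∀ ζ ∈ Strip h c1 c2, ∀ ζ' ∈ Strip h c1 c2, ζ'.im = ζ.im → D ζ' = D ζ := by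
    intro ζ hζ ζ' hζ' him'
    have hcv : Convex ℝ (Strip h c1 c2 ∩ {x : ℂ | x.im = ζ.im}) :=
      hWc.inter ((convex_singleton ζ.im).linear_preimage Complex.imLm)
    refine lift_const hcv.isPreconnected D ?_ ζ' ⟨hζ', him'⟩ ζ ⟨hζ, rfl⟩
    rintro x ⟨hx, hxi⟩
    filter_upwards [hDloc x hx] with y hy hy'
    have h6 : (y - x).im = 0 := by
      rw [Complex.sub_im, show y.im = ζ.im from hy'.2, show x.im = ζ.im from hxi, sub_self]
    rw [h6] at hy
    simp only [zero_div, add_zero, sub_self, mul_zero, neg_zero] at hy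
    linarith
  set φ : ℝ → ℝ := fun y => -(D (mid (r j * y)) - D (mid 0)) / t with hφ
  have hφD : ∀ ζ ∈ Strip h c1 c2, t * φ (ζ.im / r j) = -(D ζ - D (mid 0)) := by
    intro ζ hζ
    have h4 : D (mid (r j * (ζ.im / r j))) = D ζ := by
      apply hDh ζ hζ _ (hmidW _)
      show r j * (ζ.im / r j) = ζ.im
      field_simp
    simp only [hφ, h4]
    field_simp
  have hφloc : ∀ ζ ∈ Strip h c1 c2, ∀ᶠ ζ' in 𝓝 ζ, φ (ζ'.im / r j) - φ (ζ.im / r j) =
      ((sg ζ : ℤ) : ℝ) * (G ((z ζ).im + (ζ' - ζ).im / r j) - G (z ζ).im) := by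
    intro ζ hζ
    filter_upwards [hDloc ζ hζ, hWo.mem_nhds hζ] with y hy hyW
    have h4 := hφD ζ hζ
    have h5 := hφD y hyW
    have h6 : t * (φ (y.im / r j) - φ (ζ.im / r j)) =
        t * (((sg ζ : ℤ) : ℝ) * (G ((z ζ).im + (y - ζ).im / r j) - G (z ζ).im)) := by
      rw [mul_sub, h4, h5]
      linarith
    exact mul_left_cancel₀ ht0.ne' h6
  have hsgabs : ∀ u : ℤˣ, |((u : ℤ) : ℝ)| = 1 := by
    intro u
    rcases Int.units_eq_one_or u with h | h <;> simp [h]
  have hlip : ∀ y y', |φ y - φ y'| ≤ |y - y'| := by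
    apply lift_lip
    intro y0
    have h4 := hφloc (mid (r j * y0)) (hmidW _)
    have h5 : Tendsto (fun y : ℝ => mid (r j * y)) (𝓝 y0) (𝓝 (mid (r j * y0))) := by
      have h6 : Continuous fun y : ℝ => mid (r j * y) := by
        have h7 : (fun y : ℝ => mid (r j * y)) = fun y : ℝ =>
            (((c1 + c2) / 2 + h.re / h.im * (r j * y) : ℝ) : ℂ) +
              ((r j * y : ℝ) : ℂ) * Complex.I := by
          funext y
          apply Complex.ext
          · simp [hmid]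
          · simp [hmid]
        rw [h7]
        fun_prop
      exact h6.tendsto y0
    filter_upwards [h5.eventually h4] with y hy
    have h6 : (mid (r j * y)).im / r j = y := by
      show r j * y / r j = y
      field_simp
    have h7 : (mid (r j * y0)).im / r j = y0 := by
      show r j * y0 / r j = y0
      field_simp
    have h8 : (mid (r j * y) - mid (r j * y0)).im / r j = y - y0 := by
      rw [Complex.sub_im, sub_div, h6, h7]
    rw [h6, h7, h8] at hy
    rw [hy, abs_mul, hsgabs, one_mul]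
    have h9 := hG.lip ((z (mid (r j * y0))).im + (y - y0)) (z (mid (r j * y0))).im
    rwa [add_sub_cancel_left] at h9
  -- normalised coordinates
  set un : ℂ → ℂ := fun w => ⟨w.re, r j * w.im⟩ with hun
  have hunc : Continuous un := by
    have h7 : un = fun w : ℂ => ((w.re : ℝ) : ℂ) + ((r j * w.im : ℝ) : ℂ) * Complex.I := by
      funext y
      apply Complex.ext
      · simp [hun]
      · simp [hun]
    rw [h7]
    fun_prop
  have hmem : ∀ w, w ∈ Strip ⟨h.re, h.im / r j⟩ c1 c2 ↔ un w ∈ Strip h c1 c2 := by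
    intro w
    have h4 : h.re / (h.im / r j) * w.im = h.re / h.im * (r j * w.im) := by
      field_simp
    simp only [Strip, Set.mem_ofPred_eq, hun, h4]
  have hmemh : ∀ ζ, ζ ∈ Strip h c1 c2 → ζ + h ∈ Strip h c1 c2 := by
    intro ζ hζ
    have h4 : (ζ + h).re - h.re / h.im * (ζ + h).im = ζ.re - h.re / h.im * ζ.im := by
      rw [Complex.add_re, Complex.add_im]
      field_simp
      ring
    simp only [Strip, Set.mem_ofPred_eq, h4]
    exact hζ
  have hunim : ∀ w : ℂ, (un w).im / r j = w.im := by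
    intro w
    show r j * w.im / r j = w.im
    field_simp
  have hunadd : ∀ w : ℂ, un (w + ⟨h.re, h.im / r j⟩) = un w + h := by
    intro w
    apply Complex.ext
    · simp [hun]
    · simp only [hun, Complex.add_im]
      field_simp
  set c0 : ℂ := ⟨D (mid 0), (g (mid 0)).im⟩ with hc0
  have hPP : ∀ w ∈ Strip ⟨h.re, h.im / r j⟩ c1 c2, PP (s * r j) t φ c0 w = g (un w) := by
    intro w hw
    have hw' := (hmem w).1 hw
    have h4 := hφD (un w) hw'
    rw [hunim] at h4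
    have h5 := hIm (un w) hw'
    rw [hunim] at h5
    apply Complex.ext
    · show w.re - s * r j * w.im - t * φ w.im + D (mid 0) = (g (un w)).re
      rw [h4]
      simp only [hD, hun]
      ring
    · show w.im + (g (mid 0)).im = (g (un w)).im
      rw [h5]
  refine ⟨j, φ, fun w => sg (un w), c0, ?_⟩
  constructor
  · exact div_pos him hR
  · exact hlip
  · intro w hw k l
    rw [hPP w hw]
    have h4 := hgn (un w) ((hmem w).1 hw) k l
    exact ⟨h4.1, h4.2.1⟩
  · intro w hw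
    have hw' := (hmem w).1 hw
    have hwh : w + ⟨h.re, h.im / r j⟩ ∈ Strip ⟨h.re, h.im / r j⟩ c1 c2 := by
      rw [hmem, hunadd]
      exact hmemh _ hw'
    have h4 := hper (un w) hw'
    rw [hΨ _ hw', hΨ _ (hmemh _ hw')] at h4
    obtain ⟨-, e2, k, l, e3⟩ := S.inj _ _ _ _ _ _ (hgn _ (hmemh _ hw')) (hgn _ hw') h4
    refine ⟨?_, -k, -l, ?_⟩
    · show sg (un (w + ⟨h.re, h.im / r j⟩)) = sg (un w)
      rw [hunadd]
      exact e2
    · rw [hPP w hw, hPP _ hwh, hunadd, ← lift_lat_neg, e3]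
      ring
  · intro w hw w' hw' hkl hsg
    have h4 := (hmem w).1 hw
    have h5 := (hmem w').1 hw'
    obtain ⟨k, l, e⟩ := hkl
    rw [hPP w hw, hPP w' hw'] at e
    have hsg' : sg (un w') = sg (un w) := hsg
    have h6 : Ψ (un w) = Ψ (un w') := by
      rw [hΨ _ h4, hΨ _ h5, e, hsg', S.per]
    obtain ⟨n, hn⟩ := hinj _ h4 _ h5 h6
    refine ⟨n, ?_⟩
    have h7 := congrArg Complex.re hn
    have h8 := congrArg Complex.im hn
    simp only [hun, Complex.add_re, Complex.add_im, Complex.mul_re, Complex.mul_im,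
      Complex.intCast_re, Complex.intCast_im, zero_mul, sub_zero, add_zero] at h7 h8
    apply Complex.ext
    · simp only [Complex.add_re, Complex.mul_re, Complex.intCast_re, Complex.intCast_im,
        zero_mul, sub_zero]
      exact h7
    · simp only [Complex.add_im, Complex.mul_im, Complex.intCast_re, Complex.intCast_im,
        zero_mul, add_zero]
      have h9 : r j * w'.im = r j * (w.im + n * (h.im / r j)) := by
        rw [h8]
        field_simp
      exact mul_left_cancel₀ hR' h9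
  · intro w hw
    have hw' := (hmem w).1 hw
    have hev : ∀ᶠ w' in 𝓝 w, w' ∈ Strip ⟨h.re, h.im / r j⟩ c1 c2 := by
      exact (lift_strip_open _ _ _).mem_nhds hw
    obtain ⟨k, l, e⟩ := hg1 (un w) hw'
    have hre0 := (hz _ hw').2.1
    have hre1 := (hz _ hw').2.2.1
    have hgre : (g (un w)).re = (z (un w)).re + k := by
      rw [e]
      rfl
    have hgim : (g (un w)).im = (z (un w)).im + (k * θ + l) := by
      rw [e]
      rfl
    have hfl : ⌊(g (un w)).re⌋ = k := by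
      rw [hgre, Int.floor_eq_iff]
      exact ⟨by linarith, by linarith⟩
    filter_upwards [hunc.continuousAt.eventually (hφloc _ hw'),
      hunc.continuousAt.eventually (hd.sgn _ hw'), hunc.continuousAt.eventually (hg2 _ hw'),
      hev] with w' h4 h5 h6 h7
    rw [hPP w hw, hPP w' h7, hfl]
    have h8 : (g (un w')).im = (g (un w)).im + (un w' - un w).im / r j := by
      have h9 := congrArg Complex.im h6
      simp only [Complex.sub_im, stepPt] at h9
      rw [Complex.sub_im]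
      linarith
    constructor
    · rw [hunim, hunim] at h4
      rw [h4, h8, hgim]
      have e1 : (z (un w)).im + (k * θ + l) + (un w' - un w).im / r j - k * θ =
          (z (un w)).im + (un w' - un w).im / r j + l := by ring
      have e2 : (z (un w)).im + (k * θ + l) - k * θ = (z (un w)).im + l := by ring
      rw [e1, e2, lift_G_int hG, lift_G_int hG]
      ring
    · have e2 : (z (un w)).im + (k * θ + l) - k * θ = (z (un w)).im + l := by ring
      have e3 : Int.fract ((g (un w)).im - k * θ) = Int.fract (z (un w)).im := by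
        rw [hgim, e2, Int.fract_add_intCast]
      have e4 : ((g (un w)).re = (k : ℝ)) ↔ (z (un w)).re = 0 := by
        rw [hgre]
        constructor
        · intro h9
          linarith
        · intro h9
          rw [h9, zero_add]
      have e5 : (z (un w)).re = 0 → ((g (un w')).re < (g (un w)).re ↔
          (stepPt t (r j) s G (sg (un w)) (z (un w)) (un w' - un w)).re < 0) := by
        intro h9
        have h10 := congrArg Complex.re h6
        simp only [Complex.sub_re] at h10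
        rw [h9, sub_zero] at h10
        rw [← h10, sub_neg]
      show sg (un w') = _
      rw [h5, e3]
      by_cases h9 : (z (un w)).re = 0
      · simp only [e4, h9, e5 h9]
      · simp only [e4, h9, false_and, if_false]

end Horo
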