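import Pool.Agent.Horo.GDefs

/-!
# Problem MP_943ece_an: (A8)+(A9), geometric half

The signs along the middle line of the strip.
-/

open Topology Filter

namespace Horo

/-- locally constant on a half-open interval implies constant -/
lemma line_const {α : Type*} (f : ℝ → α) (a b : ℝ)
    (h : ∀ y ∈ Set.Ioc a b, ∀ᶠ y' in 𝓝 y, y' ∈ Set.Ioc a b → f y' = f y) :
    ∀ y ∈ Set.Ioc a b, f y = f b := by
  let _ : TopologicalSpace α := ⊥
  have _ : DiscreteTopology α := ⟨rfl⟩
  have hc : ContinuousOn f (Set.Ioc a b) := by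
    intro y hy
    unfold ContinuousWithinAt
    rw [nhds_discrete, tendsto_pure, eventually_nhdsWithin_iff]
    exact h y hy
  intro y hy
  exact isPreconnected_Ioc.constant hc hy ⟨hy.1.trans_le hy.2, le_rfl⟩

/-- one-dimensional data along the line: one segment and one crossing -/
lemma line_seg (θ ys Y ξ0 : ℝ) (m : ℕ) (hm : 0 < m) (hY : 0 < Y) (G φ : ℝ → ℝ) (S : ℝ → ℤˣ)
    (hG : Continuous G) (hφ : Continuous φ)
    (loc : ∀ y, ∀ᶠ y' in 𝓝 y,
      φ y' - φ y = ((S y : ℤ) : ℝ) * (G (y' - ⌊ξ0 - m / Y * y⌋ * θ)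
        - G (y - ⌊ξ0 - m / Y * y⌋ * θ)) ∧
      S y' = if ξ0 - m / Y * y = ⌊ξ0 - m / Y * y⌋ ∧ ξ0 - m / Y * y' < ξ0 - m / Y * y ∧
        Int.fract (y - ⌊ξ0 - m / Y * y⌋ * θ) < ys then -S y else S y) (i : ℤ) :
    (φ (Y * (ξ0 + i) / m) - φ (Y * (ξ0 + i - 1) / m)
      = ((S (Y * (ξ0 + i) / m) : ℤ) : ℝ) * (G (Y * (ξ0 + i) / m + i * θ)
          - G (Y * (ξ0 + i - 1) / m + i * θ))) ∧
    (S (Y * (ξ0 + i + 1) / m) = if Int.fract (Y * (ξ0 + i) / m + i * θ) < ys
      then -S (Y * (ξ0 + i) / m) else S (Y * (ξ0 + i) / m)) := by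
  have hm' : (0 : ℝ) < m := by exact_mod_cast hm
  -- relations between y and the value of ξ0 - m / Y * y
  have key : ∀ (y c : ℝ), Y * (ξ0 + c) / m < y ↔ ξ0 - m / Y * y < -c := by
    intro y c
    rw [div_lt_iff₀ hm']
    have h1 : m / Y * y = (y * m) / Y := by ring
    rw [h1]
    constructor
    · intro h
      have : ξ0 + c < y * m / Y := by rw [lt_div_iff₀ hY]; linarith
      linarith
    · intro h
      have : ξ0 + c < y * m / Y := by linarith
      rw [lt_div_iff₀ hY] at this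
      linarith
  have key' : ∀ (y c : ℝ), y ≤ Y * (ξ0 + c) / m ↔ -c ≤ ξ0 - m / Y * y := by
    intro y c
    have := key y c
    constructor
    · intro h
      by_contra h'
      push Not at h'
      have := this.2 h'
      linarith
    · intro h
      by_contra h'
      push Not at h'
      have := this.1 h'
      linarith
  -- one segment
  have seg : ∀ j : ℤ, ∀ y ∈ Set.Ioc (Y * (ξ0 + j - 1) / m) (Y * (ξ0 + j) / m),
      S y = S (Y * (ξ0 + j) / m) ∧
      φ y - ((S y : ℤ) : ℝ) * G (y + j * θ) = φ (Y * (ξ0 + j) / m)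
        - ((S (Y * (ξ0 + j) / m) : ℤ) : ℝ) * G (Y * (ξ0 + j) / m + j * θ) := by
    intro j
    have hfl : ∀ y ∈ Set.Ioc (Y * (ξ0 + j - 1) / m) (Y * (ξ0 + j) / m),
        ⌊ξ0 - m / Y * y⌋ = -j := by
      intro y hy
      rw [Int.floor_eq_iff]
      have h1 := (key' y j).1 hy.2
      have h2 := (key y (j - 1)).1 (by
        have := hy.1
        rw [show ξ0 + (j : ℝ) - 1 = ξ0 + ((j : ℝ) - 1) by ring] at this
        exact this)
      push_cast
      constructor <;> linarith
    have h := line_const (fun y => (S y, φ y - ((S y : ℤ) : ℝ) * G (y + j * θ)))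
      (Y * (ξ0 + j - 1) / m) (Y * (ξ0 + j) / m) (by
        intro y hy
        filter_upwards [loc y] with y' hy' hmem
        have e := hfl y hy
        rw [e] at hy'
        obtain ⟨h1, h2⟩ := hy'
        have hS : S y' = S y := by
          rw [h2, if_neg]
          rintro ⟨h3, h4, -⟩
          have h5 : ξ0 - m / Y * y' < -j := by
            have : (((-j : ℤ)) : ℝ) = -(j : ℝ) := by push_cast; ring
            rw [this] at h3
            linarith
          have h6 := (key y' j).2 h5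
          linarith [hmem.2]
        have h7 : y' - ((-j : ℤ) : ℝ) * θ = y' + j * θ := by push_cast; ring
        have h8 : y - ((-j : ℤ) : ℝ) * θ = y + j * θ := by push_cast; ring
        rw [h7, h8] at h1
        simp only [hS, Prod.mk.injEq, true_and]
        linarith)
    intro y hy
    have h9 := h y hy
    simp only [Prod.mk.injEq] at h9
    exact h9
  constructor
  · -- the increment
    have hlt : Y * (ξ0 + i - 1) / m < Y * (ξ0 + i) / m := by
      rw [div_lt_div_iff_of_pos_right hm']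
      nlinarith
    set a := Y * (ξ0 + i - 1) / m with ha
    set b := Y * (ξ0 + i) / m with hb
    have hcont : Continuous (fun y => φ y - ((S b : ℤ) : ℝ) * G (y + i * θ)) := by
      fun_prop
    have heq : Set.EqOn (fun y => φ y - ((S b : ℤ) : ℝ) * G (y + i * θ))
        (fun _ => φ b - ((S b : ℤ) : ℝ) * G (b + i * θ)) (Set.Ioc a b) := by
      intro y hy
      have h1 := seg i y hy
      simp only
      rw [← h1.2, h1.1]
    have hcl := heq.closure hcont continuous_const
    have hmem : a ∈ closure (Set.Ioc a b) := by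
      rw [closure_Ioc hlt.ne]
      exact ⟨le_rfl, hlt.le⟩
    have := hcl hmem
    simp only at this
    linarith
  · -- the crossing
    set b := Y * (ξ0 + i) / m with hb
    have hR : ξ0 - m / Y * b = -(i : ℝ) := by
      rw [hb]
      field_simp
      ring
    have hfl : ⌊ξ0 - m / Y * b⌋ = -i := by
      rw [hR]
      have : (-(i : ℝ)) = ((-i : ℤ) : ℝ) := by push_cast; ring
      rw [this, Int.floor_intCast]
    have hlt : b < Y * (ξ0 + i + 1) / m := by
      rw [hb, div_lt_div_iff_of_pos_right hm']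
      nlinarith
    have h1 := loc b
    rw [hfl] at h1
    have h2 : ∀ᶠ y' in 𝓝[>] b, y' ∈ Set.Ioc b (Y * (ξ0 + i + 1) / m) :=
      Ioc_mem_nhdsGT hlt
    have h3 := (h1.filter_mono (nhdsWithin_le_nhds (s := Set.Ioi b))).and h2
    obtain ⟨y', ⟨-, h4⟩, h5⟩ := h3.exists
    have h6 := seg (i + 1) y' (by
      push_cast
      rw [show ξ0 + ((i : ℝ) + 1) - 1 = ξ0 + i by ring, show ξ0 + ((i : ℝ) + 1) = ξ0 + i + 1 by ring]
      exact h5)
    have h7 := h6.1
    push_cast at h7
    rw [show ξ0 + ((i : ℝ) + 1) = ξ0 + i + 1 by ring] at h7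
    rw [← h7, h4]
    have h8 : b - ((-i : ℤ) : ℝ) * θ = b + i * θ := by push_cast; ring
    rw [h8]
    have h9 : ξ0 - m / Y * y' < -i := (key y' i).1 h5.1
    have h10 : ξ0 - m / Y * b = ((-i : ℤ) : ℝ) := by rw [hR]; push_cast; ring
    have h11 : ξ0 - m / Y * y' < ξ0 - m / Y * b := by rw [hR]; exact h9
    simp only [h10, true_and]
    rw [hR] at h11
    have h12 : ξ0 - m / Y * y' < ((-i : ℤ) : ℝ) := by push_cast; linarith
    simp only [h12, true_and]


/-- periodic functions: value at the residue -/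
lemma line_per_emod {α : Type*} (m : ℕ) (F : ℤ → α) (hF : ∀ r, F (r + m) = F r) (r c : ℤ) :
    F (r + c * m) = F r := by
  induction c using Int.induction_on with
  | zero => simp
  | succ i ih => rw [← ih, show r + ((i : ℤ) + 1) * m = (r + i * m) + m by ring, hF]
  | pred i ih =>
    rw [← ih, ← hF (r + (-(i : ℤ) - 1) * m)]
    congr 1
    ring

/-- sum of a periodic function over an arithmetic progression prime to the period -/
lemma line_sum (m : ℕ) (hm : 0 < m) (n c : ℤ) (hmn : IsCoprime (m : ℤ) n) (F : ℤ → ℝ)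
    (hF : ∀ r, F (r + m) = F r) :
    ∑ i ∈ Finset.range m, F (c + i * n) = ∑ r ∈ Finset.range m, F r := by
  have hmod : ∀ r : ℤ, F r = F (r % m) := by
    intro r
    have := line_per_emod m F hF (r % m) (r / m)
    rw [← this]
    congr 1
    have := Int.emod_add_mul_ediv r m
    linarith
  obtain ⟨u, v, huv⟩ := hmn
  have hm0 : (m : ℤ) ≠ 0 := by exact_mod_cast hm.ne'
  have hmpos : (0 : ℤ) < m := by exact_mod_cast hm
  refine Finset.sum_nbij' (fun i : ℕ => ((c + i * n) % m).toNat)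
    (fun r : ℕ => ((v * (r - c)) % m).toNat) ?_ ?_ ?_ ?_ ?_
  · intro i _
    rw [Finset.mem_range]
    have h1 := Int.emod_nonneg (c + i * n) hm0
    have h2 := Int.emod_lt_of_pos (c + i * n) hmpos
    omega
  · intro r _
    rw [Finset.mem_range]
    have h1 := Int.emod_nonneg (v * (r - c)) hm0
    have h2 := Int.emod_lt_of_pos (v * (r - c)) hmpos
    omega
  · intro i hi
    rw [Finset.mem_range] at hi
    have h1 := Int.emod_nonneg (c + i * n) hm0
    rw [Int.toNat_of_nonneg h1]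
    have h3 : (v * ((c + i * n) % m - c)) % m = i := by
      have h4 : (v * ((c + i * n) % m - c)) % m = (v * (c + i * n - c)) % m := by
        rw [Int.mul_emod, Int.sub_emod, Int.emod_emod_of_dvd _ (dvd_refl _), ← Int.sub_emod,
          ← Int.mul_emod]
      rw [h4]
      have h5 : v * (c + i * n - c) = i + (-(u * i)) * m := by
        have : v * n = 1 - u * m := by linarith
        calc v * (c + i * n - c) = (v * n) * i := by ring
          _ = i + (-(u * i)) * m := by rw [this]; ring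
      rw [h5, Int.add_mul_emod_self_right]
      exact Int.emod_eq_of_lt (by positivity) (by exact_mod_cast hi)
    rw [h3]
    simp
  · intro r hr
    rw [Finset.mem_range] at hr
    have h1 := Int.emod_nonneg (v * (r - c)) hm0
    rw [Int.toNat_of_nonneg h1]
    have h3 : (c + (v * (r - c)) % m * n) % m = r := by
      have h4 : (c + (v * (r - c)) % m * n) % m = (c + (v * (r - c)) * n) % m := by
        rw [Int.add_emod, Int.mul_emod, Int.emod_emod_of_dvd _ (dvd_refl _), ← Int.mul_emod,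
          ← Int.add_emod]
      rw [h4]
      have h5 : c + (v * (r - c)) * n = r + (-(u * (r - c))) * m := by
        have : v * n = 1 - u * m := by linarith
        calc c + (v * (r - c)) * n = c + (v * n) * (r - c) := by ring
          _ = r + (-(u * (r - c))) * m := by rw [this]; ring
      rw [h5, Int.add_mul_emod_self_right]
      exact Int.emod_eq_of_lt (by positivity) (by exact_mod_cast hr)
    rw [h3]
    simp
  · intro i _
    rw [Int.toNat_of_nonneg (Int.emod_nonneg (c + i * n) hm0)]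
    exact hmod _

/-- the fractional part of `(ρ + r) / m` -/
lemma line_fract (m : ℕ) (hm : 0 < m) (ρ : ℝ) (h0 : 0 < ρ) (h1 : ρ < 1) (r : ℤ) :
    Int.fract ((ρ + r) / m) = (((r % (m : ℤ) : ℤ) : ℝ) + ρ) / m := by
  have hm' : (0 : ℝ) < m := by exact_mod_cast hm
  have hm0 : (m : ℤ) ≠ 0 := by exact_mod_cast hm.ne'
  have hmpos : (0 : ℤ) < m := by exact_mod_cast hm
  rw [Int.fract_eq_iff]
  have h2 := Int.emod_nonneg r hm0
  have h3 := Int.emod_lt_of_pos r hmpos
  have h2' : (0 : ℝ) ≤ ((r % (m : ℤ) : ℤ) : ℝ) := by exact_mod_cast h2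
  have h3' : ((r % (m : ℤ) : ℤ) : ℝ) ≤ m - 1 := by
    have : r % (m : ℤ) ≤ m - 1 := by omega
    exact_mod_cast this
  refine ⟨by positivity, ?_, r / m, ?_⟩
  · rw [div_lt_one hm']
    linarith
  · have h4 := Int.emod_add_mul_ediv r m
    have h5 : (r : ℝ) = ((r % (m : ℤ) : ℤ) : ℝ) + m * ((r / (m : ℤ) : ℤ) : ℝ) := by
      exact_mod_cast h4.symm
    rw [div_sub_div_same, div_eq_iff hm'.ne']
    linarith

/-- from the crossing data to the sign pattern `E` -/
lemma line_pattern (ys a2 Y Δ ρ : ℝ) (G : ℝ → ℝ) (m : ℕ) (n N : ℤ) (T : ℤ → ℤˣ) (f : ℤ → ℝ)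
    (hm : 0 < m) (hmn : IsCoprime (m : ℤ) n) (hGp : ∀ y, G (y + 1) = G y + a2)
    (h0 : 0 < ρ) (h1 : ρ < 1)
    (hT : ∀ i, T (i + m) = T i)
    (hstep : ∀ i : ℤ, T (i + 1) = if Int.fract ((ρ + (N + i * n : ℤ)) / m) < ys
      then -T i else T i)
    (hinc : ∀ i : ℤ, f i - f (i - 1) = ((T i : ℤ) : ℝ) * (G ((ρ + (N + i * n : ℤ)) / m)
      - G ((ρ + (N + i * n : ℤ) - Y) / m)))
    (hf : f m = f 0 + Δ) :
    ∃ E : ℤ → ℤˣ, (∀ r, E (r + m) = E r) ∧
      (∀ r : ℤ, E (r + n) = E r * (if ((r % (m : ℤ) : ℤ) : ℝ) + ρ < m * ys then -1 else 1)) ∧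
      Δ = ∑ r ∈ Finset.range m, (((E (r : ℤ) : ℤˣ) : ℤ) : ℝ) *
        (G ((ρ + r) / m) - G ((ρ + r - Y) / m)) := by
  have hm' : (0 : ℝ) < m := by exact_mod_cast hm
  have hmn' := hmn
  obtain ⟨u, v, huv⟩ := hmn
  have hvn : v * n = 1 - u * m := by linarith
  have hfr : ∀ (x : ℝ) (c : ℤ), Int.fract (x + c) = Int.fract x := fun x c => Int.fract_add_intCast x c
  refine ⟨fun r => T (v * (r - N)), ?_, ?_, ?_⟩
  · intro r
    simp only
    rw [show v * (r + m - N) = v * (r - N) + v * m by ring, line_per_emod m T hT]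
  · intro r
    simp only
    have e1 : v * (r + n - N) = (v * (r - N) + 1) + (-u) * m := by
      calc v * (r + n - N) = v * (r - N) + v * n := by ring
        _ = _ := by rw [hvn]; ring
    rw [e1, line_per_emod m T hT, hstep]
    have e2 : (ρ + ((N + v * (r - N) * n : ℤ) : ℝ)) / m = (ρ + r) / m + ((-(u * (r - N)) : ℤ) : ℝ) := by
      have e3 : N + v * (r - N) * n = r + (-(u * (r - N))) * m := by
        calc N + v * (r - N) * n = N + (v * n) * (r - N) := by ring
          _ = _ := by rw [hvn]; ring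
      rw [e3]
      push_cast
      field_simp
      ring
    rw [e2, hfr, line_fract m hm ρ h0 h1]
    by_cases h : ((r % (m : ℤ) : ℤ) : ℝ) + ρ < m * ys
    · rw [if_pos h, if_pos (by rw [div_lt_iff₀ hm', mul_comm ys]; exact h)]
      simp
    · rw [if_neg h, if_neg (by rw [div_lt_iff₀ hm', mul_comm ys]; exact h)]
      simp
  · -- the sum
    set F : ℤ → ℝ := fun r => ((T (v * (r - N)) : ℤ) : ℝ) *
        (G ((ρ + r) / m) - G ((ρ + r - Y) / m)) with hFdef
    have hFper : ∀ r, F (r + m) = F r := by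
      intro r
      simp only [hFdef]
      rw [show v * (r + m - N) = v * (r - N) + v * m by ring, line_per_emod m T hT]
      have e1 : (ρ + ((r + m : ℤ) : ℝ)) / m = (ρ + r) / m + 1 := by
        push_cast
        field_simp
        ring
      have e2 : (ρ + ((r + m : ℤ) : ℝ) - Y) / m = (ρ + r - Y) / m + 1 := by
        push_cast
        field_simp
        ring
      rw [e1, e2, hGp, hGp]
      ring
    have hsum := line_sum m hm n (N + n) hmn' F hFper
    have hFT : ∀ i : ℤ, F (N + i * n) = f i - f (i - 1) := by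
      intro i
      simp only [hFdef]
      rw [hinc]
      have e1 : v * (N + i * n - N) = i + (-(u * i)) * m := by
        calc v * (N + i * n - N) = (v * n) * i := by ring
          _ = _ := by rw [hvn]; ring
      rw [e1, line_per_emod m T hT]
    have e3 : ∑ i ∈ Finset.range m, F (N + n + i * n) = f m - f 0 := by
      have : ∀ i : ℕ, F (N + n + i * n) = f ((i : ℤ) + 1) - f i := by
        intro i
        have := hFT ((i : ℤ) + 1)
        rw [show N + n + (i : ℤ) * n = N + ((i : ℤ) + 1) * n by ring, this]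
        congr 2
        ring
      simp_rw [this]
      have h := Finset.sum_range_sub (fun i : ℕ => f (i : ℤ)) m
      push_cast at h
      exact h
    rw [e3] at hsum
    have e4 : Δ = f m - f 0 := by linarith
    rw [e4, hsum]
    apply Finset.sum_congr rfl
    intro r _
    simp only [hFdef]
    push_cast
    rfl

/-- the arithmetic of the middle line -/
lemma line_arith (ys η3 k1 k2 : ℝ) (m : ℕ) (hη : 0 < η3) (hη' : η3 ≤ 1 / 10)
    (hw : 1 - η3 ≤ k2 - k1) (h1 : ∀ c : ℤ, ¬ (k1 < c ∧ (c : ℝ) < k2))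
    (h2 : ∀ c : ℤ, ¬ (k1 < m * ys + c ∧ m * ys + c < k2)) :
    0 < Int.fract ((k1 + k2) / 2) ∧ Int.fract ((k1 + k2) / 2) < 1 ∧
      |(m : ℝ) * ys - ⌈(m : ℝ) * ys - Int.fract ((k1 + k2) / 2)⌉| ≤ η3 := by
  set x := (k1 + k2) / 2 with hx
  have hx1 : k1 < x := by rw [hx]; linarith
  have hx2 : x < k2 := by rw [hx]; linarith
  have hf0 := Int.fract_nonneg x
  have hf1 := Int.fract_lt_one x
  have hfx := Int.floor_add_fract x
  have hN : (⌊x⌋ : ℝ) ≤ k1 := by
    by_contra h
    push Not at h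
    exact h1 ⌊x⌋ ⟨h, by linarith⟩
  have hN1 : k2 ≤ (⌊x⌋ : ℝ) + 1 := by
    by_contra h
    push Not at h
    apply h1 (⌊x⌋ + 1)
    push_cast
    exact ⟨by linarith, h⟩
  set g := Int.fract ((m : ℝ) * ys) with hg
  have hg0 : 0 ≤ g := Int.fract_nonneg _
  have hg1 : g < 1 := Int.fract_lt_one _
  have hgx : (⌊(m : ℝ) * ys⌋ : ℝ) + g = m * ys := Int.floor_add_fract _
  have h3 := h2 (⌊x⌋ - ⌊(m : ℝ) * ys⌋)
  push_cast at h3
  have h4 : (m : ℝ) * ys + (⌊x⌋ - ⌊(m : ℝ) * ys⌋) = ⌊x⌋ + g := by linarith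
  rw [h4] at h3
  refine ⟨by linarith, hf1, ?_⟩
  rcases le_or_gt ((⌊x⌋ : ℝ) + g) k1 with h5 | h5
  · -- g ≤ η3
    have hgη : g ≤ η3 := by linarith
    have hc : ⌈(m : ℝ) * ys - Int.fract x⌉ = ⌊(m : ℝ) * ys⌋ := by
      rw [Int.ceil_eq_iff]
      constructor <;> linarith
    rw [hc, abs_le]
    constructor <;> linarith
  · have h6 : k2 ≤ ⌊x⌋ + g := by
      by_contra h
      push Not at h
      exact h3 ⟨h5, h⟩
    have hgη : 1 - η3 ≤ g := by linarith
    have hc : ⌈(m : ℝ) * ys - Int.fract x⌉ = ⌊(m : ℝ) * ys⌋ + 1 := by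
      rw [Int.ceil_eq_iff]
      push_cast
      constructor <;> linarith
    rw [hc, abs_le]
    push_cast
    constructor <;> linarith


lemma line_PP_re (s t : ℝ) (φ : ℝ → ℝ) (c0 ζ : ℂ) :
    (PP s t φ c0 ζ).re = ζ.re - s * ζ.im - t * φ ζ.im + c0.re := by
  simp [PP]

lemma line_PP_im (s t : ℝ) (φ : ℝ → ℝ) (c0 ζ : ℂ) :
    (PP s t φ c0 ζ).im = ζ.im + c0.im := by
  simp [PP]

/-- the inverse of `PP` -/
noncomputable def lineInv (s t : ℝ) (φ : ℝ → ℝ) (c0 z : ℂ) : ℂ :=
  ⟨z.re - c0.re + s * (z.im - c0.im) + t * φ (z.im - c0.im), z.im - c0.im⟩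

lemma line_PP_inv (s t : ℝ) (φ : ℝ → ℝ) (c0 z : ℂ) : PP s t φ c0 (lineInv s t φ c0 z) = z := by
  apply Complex.ext
  · rw [line_PP_re]
    simp only [lineInv]
    ring
  · rw [line_PP_im]
    simp only [lineInv]
    ring

/-- the oscillation of `φ` around its mean slope -/
lemma line_osc (φ : ℝ → ℝ) (Y Δ : ℝ) (hY : 0 < Y) (lip : ∀ y y', |φ y - φ y'| ≤ |y - y'|)
    (hΔ : ∀ y, φ (y + Y) = φ y + Δ) (v : ℝ) : |φ v - Δ / Y * v - φ 0| ≤ 2 * Y := by
  have hΔ1 : |Δ| ≤ Y := by
    have h1 := lip (0 + Y) 0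
    rw [hΔ 0] at h1
    have h2 : φ 0 + Δ - φ 0 = Δ := by ring
    rw [h2, zero_add, sub_zero, abs_of_pos hY] at h1
    exact h1
  have hper : Function.Periodic (fun v => φ v - Δ / Y * v) Y := by
    intro x
    simp only
    rw [hΔ]
    field_simp
    ring
  obtain ⟨w, hw, hvw⟩ := hper.exists_mem_Ico₀ hY v
  rw [hvw]
  have h3 := lip w 0
  rw [sub_zero, abs_of_nonneg hw.1] at h3
  have h4 : |Δ / Y * w| ≤ Y := by
    rw [abs_mul, abs_div, abs_of_pos hY, abs_of_nonneg hw.1, div_mul_eq_mul_div, div_le_iff₀ hY]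
    have := hw.2.le
    have := hw.1
    nlinarith [abs_nonneg Δ]
  rw [abs_le] at h3 h4 ⊢
  have := hw.2.le
  constructor <;> linarith [h3.1, h3.2, h4.1, h4.2]

theorem hLine (_h : Stmt_Period) : Stmt_Line := by
  intro θ ys s t a2 η3 G h c1 c2 φ Sg c0 LS hG hθ0 hθ1 hys0 hys1 hη0 hη1 ht0 ht1 hre him hwid
    m n Δ hm hmn hPP hΔ
  have hm' : (0 : ℝ) < m := by exact_mod_cast hm
  have hY : 0 < h.im := LS.him
  have hY1 : h.im ≤ 1.01 := by
    have := (abs_le.1 him).2
    linarith
  -- the period relations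
  have hrel := hPP 0
  have hre1 : h.re - s * h.im - t * Δ = -m := by
    have h1 := congrArg Complex.re hrel
    rw [Complex.add_re (PP s t φ c0 0), line_PP_re, line_PP_re] at h1
    have h2 := hΔ 0
    simp only [zero_add, Complex.zero_re, Complex.zero_im, mul_zero, lat, Int.cast_neg,
      Int.cast_natCast] at h1 h2
    rw [h2] at h1
    linarith
  have him1 : h.im = n - m * θ := by
    have h1 := congrArg Complex.im hrel
    rw [Complex.add_im (PP s t φ c0 0), line_PP_im, line_PP_im] at h1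
    simp only [zero_add, Complex.zero_im, lat, Int.cast_neg, Int.cast_natCast] at h1
    linarith
  generalize hYd : h.im = Y at *
  -- the plane strip
  set C : ℝ := c0.re + m / Y * c0.im - t * φ 0 with hC
  set k1 : ℝ := c1 + C + 5 / 2 * t with hk1
  set k2 : ℝ := c2 + C - 5 / 2 * t with hk2
  have hstrip : ∀ z : ℂ, k1 < z.re + m / Y * z.im → z.re + m / Y * z.im < k2 →
      lineInv s t φ c0 z ∈ Strip h c1 c2 := by
    intro z hz1 hz2
    have h1 := line_osc φ Y Δ hY LS.lip hΔ (z.im - c0.im)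
    rw [abs_le] at h1
    have h2 : h.re / Y = s + t * Δ / Y - m / Y := by
      rw [div_eq_iff hY.ne', sub_mul, add_mul, div_mul_cancel₀ _ hY.ne',
        div_mul_cancel₀ _ hY.ne']
      linarith
    have h3 : (lineInv s t φ c0 z).re - h.re / h.im * (lineInv s t φ c0 z).im
        = (z.re + m / Y * z.im) - C + t * (φ (z.im - c0.im) - Δ / Y * (z.im - c0.im) - φ 0) := by
      simp only [lineInv, hYd, h2, hC]
      ring
    unfold Strip
    rw [Set.mem_ofPred_eq, h3]
    have h4 : t * (φ (z.im - c0.im) - Δ / Y * (z.im - c0.im) - φ 0) ≤ t * (2 * Y) :=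
      mul_le_mul_of_nonneg_left h1.2 ht0.le
    have h5 : t * (-(2 * Y)) ≤ t * (φ (z.im - c0.im) - Δ / Y * (z.im - c0.im) - φ 0) :=
      mul_le_mul_of_nonneg_left h1.1 ht0.le
    have h6 : t * (2 * Y) ≤ t * (2.02) := mul_le_mul_of_nonneg_left (by linarith) ht0.le
    constructor
    · linarith
    · linarith
  obtain ⟨u, v, huv⟩ := id hmn
  have huvR : (u : ℝ) * m + v * n = 1 := by exact_mod_cast huv
  have hnY : (n : ℝ) = Y + m * θ := by linarith
  have hlat : ∀ c : ℤ, ¬ (Y * k1 < c ∧ (c : ℝ) < Y * k2) := by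
    rintro c ⟨h1, h2⟩
    have h3 : (lat θ (c * v) (c * u)).re + m / Y * (lat θ (c * v) (c * u)).im = c / Y := by
      simp only [lat]
      rw [eq_div_iff hY.ne', add_mul]
      have e1 : (m : ℝ) / Y * (((c * v : ℤ) : ℝ) * θ + ((c * u : ℤ) : ℝ)) * Y
        = m * (((c * v : ℤ) : ℝ) * θ + ((c * u : ℤ) : ℝ)) := by
        field_simp
      rw [e1]
      push_cast
      have e2 : (c : ℝ) * v * Y + m * (c * v * θ + c * u) = c * (v * (Y + m * θ) + u * m) := by ring
      rw [e2, ← hnY]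
      rw [show (v : ℝ) * n + u * m = 1 by linarith, mul_one]
    have h4 := hstrip (lat θ (c * v) (c * u)) (by rw [h3, lt_div_iff₀ hY]; linarith)
      (by rw [h3, div_lt_iff₀ hY]; linarith)
    exact (LS.sing _ h4 (c * v) (c * u)).1 (line_PP_inv _ _ _ _ _)
  have hlat2 : ∀ c : ℤ, ¬ (Y * k1 < m * ys + c ∧ (m : ℝ) * ys + c < Y * k2) := by
    rintro c ⟨h1, h2⟩
    have h3 : ((⟨0, ys⟩ + lat θ (c * v) (c * u) : ℂ)).re
        + m / Y * ((⟨0, ys⟩ + lat θ (c * v) (c * u) : ℂ)).im = (m * ys + c) / Y := by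
      simp only [lat, Complex.add_re, Complex.add_im]
      rw [eq_div_iff hY.ne', add_mul]
      have e1 : (m : ℝ) / Y * (ys + (((c * v : ℤ) : ℝ) * θ + ((c * u : ℤ) : ℝ))) * Y
        = m * (ys + (((c * v : ℤ) : ℝ) * θ + ((c * u : ℤ) : ℝ))) := by
        field_simp
      rw [e1]
      push_cast
      have e2 : (0 + (c : ℝ) * v) * Y + m * (ys + (c * v * θ + c * u))
        = m * ys + c * (v * (Y + m * θ) + u * m) := by ring
      rw [e2, ← hnY]
      rw [show (v : ℝ) * n + u * m = 1 by linarith, mul_one]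
    have h4 := hstrip (⟨0, ys⟩ + lat θ (c * v) (c * u)) (by rw [h3, lt_div_iff₀ hY]; linarith)
      (by rw [h3, div_lt_iff₀ hY]; linarith)
    exact (LS.sing _ h4 (c * v) (c * u)).2 (line_PP_inv _ _ _ _ _)
  have hwK : 1 - η3 ≤ Y * k2 - Y * k1 := by
    rw [← mul_sub]
    have : k2 - k1 = c2 - c1 - 5 * t := by rw [hk1, hk2]; ring
    rw [this]
    exact hwid
  obtain ⟨hρ0, hρ1, hlast⟩ := line_arith ys η3 (Y * k1) (Y * k2) m hη0 hη1 hwK hlat hlat2
  set ξ0 : ℝ := (k1 + k2) / 2 with hξ0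
  have hmid : (Y * k1 + Y * k2) / 2 = Y * ξ0 := by rw [hξ0]; ring
  rw [hmid] at hρ0 hρ1 hlast
  set ρ : ℝ := Int.fract (Y * ξ0) with hρ
  set N : ℤ := ⌊Y * ξ0⌋ with hN
  have hNρ : Y * ξ0 = N + ρ := (Int.floor_add_fract _).symm
  have hk12 : k1 < k2 := by
    have : 0 < Y * k2 - Y * k1 := by linarith
    rw [← mul_sub] at this
    have := (pos_iff_pos_of_mul_pos this).1 hY
    linarith
  -- the line
  set ζ : ℝ → ℂ := fun y => lineInv s t φ c0 ⟨ξ0 - m / Y * y, y⟩ with hζ
  have hζs : ∀ y, ζ y ∈ Strip h c1 c2 := by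
    intro y
    apply hstrip
    · simp only
      linarith
    · simp only
      linarith
  have hPPζ : ∀ y, PP s t φ c0 (ζ y) = ⟨ξ0 - m / Y * y, y⟩ := fun y => line_PP_inv _ _ _ _ _
  have hφc : Continuous φ := by
    have : LipschitzWith 1 φ := by
      apply LipschitzWith.of_dist_le_mul
      intro x y
      rw [Real.dist_eq, Real.dist_eq, NNReal.coe_one, one_mul]
      exact LS.lip x y
    exact this.continuous
  have hGc : Continuous G := by
    have : LipschitzWith 1 G := by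
      apply LipschitzWith.of_dist_le_mul
      intro x y
      rw [Real.dist_eq, Real.dist_eq, NNReal.coe_one, one_mul]
      exact hG.lip x y
    exact this.continuous
  have hζc : Continuous ζ := by
    simp only [hζ, lineInv]
    simp_rw [Complex.mk_eq_add_mul_I]
    fun_prop
  have hζper : ∀ y, ζ (y + Y) = ζ y + h := by
    intro y
    have e : y + Y - c0.im = (y - c0.im) + Y := by ring
    apply Complex.ext
    · simp only [hζ, lineInv, Complex.add_re]
      rw [e, hΔ, mul_add, div_mul_cancel₀ _ hY.ne']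
      linarith
    · simp only [hζ, lineInv, Complex.add_im]
      rw [hYd]
      ring
  have hζim : ∀ y, (ζ y).im = y - c0.im := fun y => rfl
  have hloc : ∀ y, ∀ᶠ y' in 𝓝 y,
      φ (y' - c0.im) - φ (y - c0.im) = ((Sg (ζ y) : ℤ) : ℝ) * (G (y' - ⌊ξ0 - m / Y * y⌋ * θ)
        - G (y - ⌊ξ0 - m / Y * y⌋ * θ)) ∧
      Sg (ζ y') = if ξ0 - m / Y * y = ⌊ξ0 - m / Y * y⌋ ∧ ξ0 - m / Y * y' < ξ0 - m / Y * y ∧
        Int.fract (y - ⌊ξ0 - m / Y * y⌋ * θ) < ys then -Sg (ζ y) else Sg (ζ y) := by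
    intro y
    have h1 := LS.loc (ζ y) (hζs y)
    have h2 := hζc.continuousAt (x := y)
    have h3 := h2.eventually h1
    filter_upwards [h3] with y' hy'
    rw [hPPζ, hPPζ, hζim, hζim] at hy'
    exact hy'
  have hseg := line_seg θ ys Y ξ0 m hm hY G (fun y => φ (y - c0.im)) (fun y => Sg (ζ y)) hGc
    (by fun_prop) hloc
  have hSper : ∀ y, Sg (ζ (y + Y)) = Sg (ζ y) := by
    intro y
    rw [hζper]
    exact (LS.per _ (hζs y)).1
  obtain ⟨E, hE1, hE2, hE3⟩ := line_pattern ys a2 Y Δ ρ G m n N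
    (fun i => Sg (ζ (Y * (ξ0 + i) / m))) (fun i => φ (Y * (ξ0 + i) / m - c0.im)) hm hmn hG.per
    hρ0 hρ1
    (by
      intro i
      rw [← hSper (Y * (ξ0 + i) / m)]
      congr 2
      push_cast
      field_simp
      ring)
    (by
      intro i
      have h1 := (hseg i).2
      rw [show ξ0 + (((i + 1 : ℤ)) : ℝ) = ξ0 + i + 1 by push_cast; ring, h1]
      have e1 : Y * (ξ0 + i) / m + i * θ = (ρ + ((N + i * n : ℤ) : ℝ)) / m := by
        rw [mul_add, hNρ, eq_div_iff hm'.ne', add_mul, div_mul_cancel₀ _ hm'.ne']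
        push_cast
        rw [hnY]
        ring
      rw [e1])
    (by
      intro i
      have h1 := (hseg i).1
      rw [show ξ0 + (((i - 1 : ℤ)) : ℝ) = ξ0 + i - 1 by push_cast; ring, h1]
      have e1 : Y * (ξ0 + i) / m + i * θ = (ρ + ((N + i * n : ℤ) : ℝ)) / m := by
        rw [mul_add, hNρ, eq_div_iff hm'.ne', add_mul, div_mul_cancel₀ _ hm'.ne']
        push_cast
        rw [hnY]
        ring
      have e2 : Y * (ξ0 + i - 1) / m + i * θ = (ρ + ((N + i * n : ℤ) : ℝ) - Y) / m := by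
        have e3 : Y * (ξ0 + i - 1) = N + ρ + Y * i - Y := by rw [← hNρ]; ring
        rw [e3, eq_div_iff hm'.ne', add_mul, div_mul_cancel₀ _ hm'.ne']
        push_cast
        rw [hnY]
        ring
      rw [e1, e2])
    (by
      simp only [Int.cast_zero, add_zero, Int.cast_natCast]
      rw [← hΔ]
      congr 1
      field_simp
      ring)
  exact ⟨ρ, E, hρ0, hρ1, hE1, hE2, hE3, hlast⟩

end Horo
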