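import Pool.Agent.Horo.GDefs

/-!
# Problem MP_943ece_an: a locally `ε`-Lipschitz map on a convex open set is `ε`-Lipschitz
-/

open Topology Filter

namespace Horo

/-- the local estimate along a segment -/
theorem locLip_seg {U : Set ℂ} {f : ℂ → ℂ} {ε : ℝ} (hconv : Convex ℝ U)
    (h : ∀ a ∈ U, ∀ᶠ xy : ℂ × ℂ in 𝓝 a ×ˢ 𝓝 a, ‖f xy.1 - f xy.2‖ ≤ ε * ‖xy.1 - xy.2‖)
    {x y : ℂ} (hx : x ∈ U) (hy : y ∈ U) {s : ℝ} (hs : s ∈ Set.Icc (0 : ℝ) 1) :
    ∀ᶠ p in 𝓝 s, ‖f (AffineMap.lineMap x y p) - f (AffineMap.lineMap x y s)‖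
      ≤ ε * ‖x - y‖ * |p - s| := by
  have hmem : (AffineMap.lineMap x y s : ℂ) ∈ U := hconv.lineMap_mem hx hy hs
  have h1 := h _ hmem
  have hc : Tendsto (fun p : ℝ => (AffineMap.lineMap x y p : ℂ)) (𝓝 s)
      (𝓝 (AffineMap.lineMap x y s)) :=
    (AffineMap.lineMap_continuous (R := ℝ)).continuousAt
  have hc2 : Tendsto (fun p : ℝ => ((AffineMap.lineMap x y p : ℂ), (AffineMap.lineMap x y s : ℂ)))
      (𝓝 s) (𝓝 (AffineMap.lineMap x y s : ℂ) ×ˢ 𝓝 (AffineMap.lineMap x y s : ℂ)) :=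
    hc.prodMk tendsto_const_nhds
  filter_upwards [hc2.eventually h1] with p hp
  refine hp.trans (le_of_eq ?_)
  have h2 : (AffineMap.lineMap x y p : ℂ) - AffineMap.lineMap x y s = ((p - s : ℝ) : ℂ) * (y - x) := by
    simp only [AffineMap.lineMap_apply, vsub_eq_sub, vadd_eq_add, Complex.real_smul]
    push_cast
    ring
  show ε * ‖(AffineMap.lineMap x y p : ℂ) - AffineMap.lineMap x y s‖ = _
  rw [h2, norm_mul, Complex.norm_real, Real.norm_eq_abs, norm_sub_rev y x]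
  ring

theorem hLocLip : Stmt_LocLip := by
  intro U f ε hconv hopen hε h x hx y hy
  set g : ℝ → ℂ := fun s => f (AffineMap.lineMap x y s) with hg
  set K : ℝ := ε * ‖x - y‖ with hK
  have hloc : ∀ s ∈ Set.Icc (0 : ℝ) 1, ∀ᶠ p in 𝓝 s, ‖g p - g s‖ ≤ K * |p - s| :=
    fun s hs => locLip_seg hconv h hx hy hs
  have hcont : ContinuousOn g (Set.Icc (0 : ℝ) 1) := by
    intro s hs
    apply ContinuousAt.continuousWithinAt
    rw [ContinuousAt, tendsto_iff_norm_sub_tendsto_zero]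
    have hz : Tendsto (fun p : ℝ => K * |p - s|) (𝓝 s) (𝓝 0) := by
      have : ContinuousAt (fun p : ℝ => K * |p - s|) s := by fun_prop
      simpa [ContinuousAt] using this
    exact squeeze_zero' (Eventually.of_forall fun p => norm_nonneg _) (hloc s hs) hz
  have hsub : Set.Icc (0 : ℝ) 1 ⊆ {s | ‖g s - g 0‖ ≤ K * s} := by
    apply IsClosed.Icc_subset_of_forall_exists_gt
    · have := isClosed_Icc.isClosed_le (s := Set.Icc (0 : ℝ) 1) (f := fun s => ‖g s - g 0‖)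
        (g := fun s => K * s) ((hcont.sub continuousOn_const).norm) (by fun_prop)
      convert this using 1
      ext s
      simp only [Set.mem_inter_iff, Set.mem_setOf_eq]
      tauto
    · simp
    · rintro s ⟨hs1, hs2⟩ b hb
      have h1 : ∀ᶠ p in 𝓝[>] s, ‖g p - g s‖ ≤ K * |p - s| :=
        (hloc s ⟨hs2.1, hs2.2.le⟩).filter_mono nhdsWithin_le_nhds
      have h2 : ∀ᶠ p in 𝓝[>] s, p ∈ Set.Ioc s b := Ioc_mem_nhdsGT hb
      obtain ⟨p, hp1, hp2⟩ := (h1.and h2).exists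
      refine ⟨p, ?_, hp2⟩
      have hs1' : ‖g s - g 0‖ ≤ K * s := hs1
      show ‖g p - g 0‖ ≤ K * p
      rw [abs_of_pos (sub_pos.2 hp2.1)] at hp1
      calc ‖g p - g 0‖ = ‖(g p - g s) + (g s - g 0)‖ := by congr 1; ring
        _ ≤ ‖g p - g s‖ + ‖g s - g 0‖ := norm_add_le _ _
        _ ≤ K * (p - s) + K * s := add_le_add hp1 hs1'
        _ = K * p := by ring
  have h1 := hsub (Set.right_mem_Icc.2 zero_le_one)
  simp only [Set.mem_setOf_eq, hg, AffineMap.lineMap_apply_one, AffineMap.lineMap_apply_zero,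
    mul_one] at h1
  rw [norm_sub_rev]
  exact h1

end Horo
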