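import Pool.Agent.Horo.GDefs

/-!
# Local form of a local translation map of `u_s x` off the slits
-/

set_option autoImplicit false

open Topology Filter

namespace Horo

/-- two local translation maps with the same value agree up to the shear -/
theorem local_unique {X : Type} [TopologicalSpace X] (A : AbDiff X) (s : ℝ) (U V : Set ℂ)
    (Ψ Φ : ℂ → X) (ζ Z0 : ℂ) (hU : U ∈ 𝓝 ζ) (hV : V ∈ 𝓝 Z0) (hΨ : IsLT (A.act s) U Ψ)
    (hΦ : IsLT A V Φ) (h : Ψ ζ = Φ Z0) :
    ∀ᶠ ζ' in 𝓝 ζ, Ψ ζ' = Φ (Z0 + shear (-s) (ζ' - ζ)) := by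
  have hζ : ζ ∈ U := mem_of_mem_nhds hU
  have hZ : Z0 ∈ V := mem_of_mem_nhds hV
  have ht : Tendsto (fun ζ' : ℂ => Z0 + shear (-s) (ζ' - ζ)) (𝓝 ζ) (𝓝 Z0) := by
    have h1 : Continuous (fun ζ' : ℂ => Z0 + shear (-s) (ζ' - ζ)) := by
      have := continuous_shear (-s)
      fun_prop
    have h2 := h1.tendsto ζ
    simpa using h2
  have hc1 : ContinuousAt Ψ ζ := (hΨ.1 ζ hζ).continuousAt hU
  have hc2 : ContinuousAt Φ Z0 := (hΦ.1 Z0 hZ).continuousAt hV
  have e1 := (hΨ.2 ζ hζ).2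
  have e2 := ht.eventually (hΦ.2 Z0 hZ).2
  have hord : A.ord (Φ Z0) = 0 := (hΦ.2 Z0 hZ).1
  have hs : (A.z (Φ Z0)).source ∈ 𝓝 (Φ Z0) :=
    (A.z (Φ Z0)).open_source.mem_nhds (A.mem_source _)
  have e3 : ∀ᶠ ζ' in 𝓝 ζ, Ψ ζ' ∈ (A.z (Φ Z0)).source := by
    refine hc1.eventually ?_
    rw [h]
    exact hs
  have e4 : ∀ᶠ ζ' in 𝓝 ζ, Φ (Z0 + shear (-s) (ζ' - ζ)) ∈ (A.z (Φ Z0)).source :=
    (hc2.tendsto.comp ht).eventually hs
  filter_upwards [e1, e2, e3, e4] with ζ' h1 h2 h3 h4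
  rw [AbDiff.act_P, h] at h1
  have h5 : A.P (Φ Z0) (Ψ ζ') = shear (-s) (ζ' - ζ) := by
    rw [← h1, shear_shear, add_neg_cancel, shear_zero]
  rw [add_sub_cancel_left] at h2
  have h6 := h5.trans h2.symm
  unfold AbDiff.P at h6
  rw [hord, zero_add, pow_one, pow_one] at h6
  exact (A.z (Φ Z0)).injOn h3 h4 h6

theorem local_contG (θ ys a2 : ℝ) (G : ℝ → ℝ) (hG : Coc θ ys a2 G) : Continuous G := by
  have h : LipschitzWith 1 G := LipschitzWith.of_dist_le_mul (by
    intro x y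
    rw [NNReal.coe_one, one_mul]
    exact hG.lip x y)
  exact h.continuous

theorem local_contfl (t r : ℝ) (G : ℝ → ℝ) (hG : Continuous G) (σ : ℤˣ) :
    Continuous (fl t r G σ) := by
  have h1 : Continuous (fun Z : ℂ => Z.re - t * ((σ : ℤ) : ℝ) * G (Z.im / r)) := by
    fun_prop
  have h2 : Continuous (fun Z : ℂ => Z.im / r) := by
    fun_prop
  have h3 := Complex.equivRealProdCLM.symm.continuous.comp (h1.prodMk h2)
  exact h3

theorem local_perG (θ ys a2 : ℝ) (G : ℝ → ℝ) (hG : Coc θ ys a2 G) (l : ℤ) :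
    ∀ y, G (y + l) = G y + l * a2 := by
  have hnat : ∀ (n : ℕ) (y : ℝ), G (y + n) = G y + n * a2 := by
    intro n
    induction n with
    | zero => intro y; simp
    | succ n ih =>
      intro y
      have h1 := hG.per (y + n)
      have h2 : y + ((n + 1 : ℕ) : ℝ) = y + n + 1 := by push_cast; ring
      rw [h2, h1, ih]
      push_cast
      ring
  intro y
  rcases Int.eq_nat_or_neg l with ⟨n, h | h⟩
  · rw [h]
    exact_mod_cast hnat n y
  · rw [h]
    have := hnat n (y + ((-(n : ℤ) : ℤ) : ℝ))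
    push_cast at this ⊢
    rw [neg_add_cancel_right] at this
    linarith

/-- the flat position of `Z0 + shear (-s) δ` -/
theorem local_fl_step (t r s : ℝ) (hr : r ≠ 0) (G : ℝ → ℝ) (σ : ℤˣ) (z δ : ℂ) :
    fl t r G σ (⟨z.re + t * ((σ : ℤ) : ℝ) * G z.im, r * z.im⟩ + shear (-s) δ) =
      stepPt t r s G σ z δ := by
  have h1 : (r * z.im + δ.im) / r = z.im + δ.im / r := by
    field_simp
  apply Complex.ext
  · simp only [fl, stepPt, Complex.add_re, Complex.add_im, shear_re, shear_im, h1]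
    ring
  · simp only [fl, stepPt, Complex.add_im, shear_im, h1]

theorem local_fl_zero (t r : ℝ) (hr : r ≠ 0) (G : ℝ → ℝ) (σ : ℤˣ) (z : ℂ) :
    fl t r G σ ⟨z.re + t * ((σ : ℤ) : ℝ) * G z.im, r * z.im⟩ = z := by
  have h1 : (r * z.im) / r = z.im := by
    field_simp
  apply Complex.ext
  · simp only [fl, h1]
    ring
  · simp only [fl, h1]

theorem local_step_lat (θ ys a2 t r s : ℝ) (G : ℝ → ℝ) (hG : Coc θ ys a2 G) (σ : ℤˣ)
    (z δ : ℂ) (l : ℤ) : stepPt t r s G σ (z + lat θ 0 l) δ = stepPt t r s G σ z δ + lat θ 0 l := by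
  have hp := local_perG θ ys a2 G hG l
  have h0 : (z + lat θ 0 l).im = z.im + l := by simp [lat]
  have h0' : (z + lat θ 0 l).re = z.re := by simp [lat]
  have h1 : z.im + l + δ.im / r = z.im + δ.im / r + l := by ring
  apply Complex.ext
  · simp only [stepPt, h0, h0', h1, hp]
    simp [lat]
  · simp only [stepPt, h0, h1]
    simp [lat]

theorem hLocal : Stmt_Local := by
  intro B _ r θ ys x0 L t a2 s G S hr hG hθ hθ4 hys hys4 hx0 hx01 hL hL1 ht ht1 U Ψ hU hΨ ζ hζ
    j σ z hns hos hz0 hz1 hval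
  have hrj : r j ≠ 0 := by
    have := (hr j).1
    linarith
  have hGc := local_contG θ ys a2 G hG
  have hflc := local_contfl t (r j) G hGc σ
  have hUn : U ∈ 𝓝 ζ := hU.mem_nhds hζ
  rcases hz0.lt_or_eq with hz0 | hz0
  · -- open cell
    obtain ⟨Z0, hZ0⟩ : ∃ Z0 : ℂ, Z0 = ⟨z.re + t * ((σ : ℤ) : ℝ) * G z.im, r j * z.im⟩ := ⟨_, rfl⟩
    have hfl0 : fl t (r j) G σ Z0 = z := by
      rw [hZ0]
      exact local_fl_zero t (r j) hrj G σ z
    have hV : {Z | 0 < (fl t (r j) G σ Z).re ∧ (fl t (r j) G σ Z).re < 1 ∧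
      ¬ (x0 ≤ (fl t (r j) G σ Z).re ∧ (fl t (r j) G σ Z).re ≤ x0 + L ∧
        ∃ l : ℤ, (fl t (r j) G σ Z).im = l)} ∈ 𝓝 Z0 := by
      have ho : IsOpen {w : ℂ | 0 < w.re ∧ w.re < 1 ∧
          ¬ (x0 ≤ w.re ∧ w.re ≤ x0 + L ∧ ∃ l : ℤ, w.im = l)} := by
        have h1 : IsOpen {w : ℂ | 0 < w.re} := isOpen_lt continuous_const Complex.continuous_re
        have h2 : IsOpen {w : ℂ | w.re < 1} := isOpen_lt Complex.continuous_re continuous_const
        have h3 : IsClosed {w : ℂ | x0 ≤ w.re ∧ w.re ≤ x0 + L ∧ ∃ l : ℤ, w.im = l} := by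
          have h4 : IsClosed {w : ℂ | x0 ≤ w.re} :=
            isClosed_le continuous_const Complex.continuous_re
          have h5 : IsClosed {w : ℂ | w.re ≤ x0 + L} :=
            isClosed_le Complex.continuous_re continuous_const
          have h6 : IsClosed {w : ℂ | ∃ l : ℤ, w.im = l} := by
            have h7 : {w : ℂ | ∃ l : ℤ, w.im = l} =
                Complex.im ⁻¹' (Set.range ((↑) : ℤ → ℝ)) := by
              ext w
              simp only [Set.mem_ofPred_eq, Set.mem_preimage, Set.mem_range]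
              exact ⟨fun ⟨l, hl⟩ => ⟨l, hl.symm⟩, fun ⟨l, hl⟩ => ⟨l, hl.symm⟩⟩
            rw [h7]
            exact Int.isClosedEmbedding_coe_real.isClosed_range.preimage Complex.continuous_im
          exact h4.inter (h5.inter h6)
        exact h1.inter (h2.inter h3.isOpen_compl)
      refine (ho.preimage hflc).mem_nhds ?_
      show 0 < (fl t (r j) G σ Z0).re ∧ (fl t (r j) G σ Z0).re < 1 ∧
        ¬ (x0 ≤ (fl t (r j) G σ Z0).re ∧ (fl t (r j) G σ Z0).re ≤ x0 + L ∧
          ∃ l : ℤ, (fl t (r j) G σ Z0).im = l)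
      rw [hfl0]
      refine ⟨hz0, hz1, ?_⟩
      rintro ⟨h1, h2, l, h3⟩
      apply hos
      refine ⟨0, l, ?_, ?_, ?_⟩ <;> simp [lat, h1, h2, h3]
    have h := local_unique S.A.ω s U _ Ψ _ ζ Z0 hUn hV hΨ (S.cell j σ) (by
      show Ψ ζ = S.pt j σ (fl t (r j) G σ Z0)
      rw [hfl0, hval])
    filter_upwards [h] with ζ' h'
    rw [h']
    rw [if_neg (by
      rintro ⟨h1, _⟩
      exact hz0.ne' h1)]
    show S.pt j σ (fl t (r j) G σ (Z0 + shear (-s) (ζ' - ζ))) = _
    rw [hZ0, local_fl_step t (r j) s hrj]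
  · -- the line `re = 0`
    obtain ⟨l, hl⟩ : ∃ l : ℤ, l = ⌊z.im⌋ := ⟨_, rfl⟩
    obtain ⟨z1, hz1'⟩ : ∃ z1 : ℂ, z1 = ⟨0, Int.fract z.im⟩ := ⟨_, rfl⟩
    have hz1re : z1.re = 0 := by rw [hz1']
    have hz1im : z1.im = Int.fract z.im := by rw [hz1']
    have hzz : z = z1 + lat θ 0 l := by
      apply Complex.ext
      · simp [lat, hz1re, ← hz0]
      · simp only [Complex.add_im, hz1im, lat, hl]
        have := Int.fract_add_floor z.im
        push_cast
        linarith
    have hf0 := Int.fract_nonneg z.im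
    have hf1 := Int.fract_lt_one z.im
    have hfne : Int.fract z.im ≠ 0 := by
      intro h0
      apply (hns 0 l).1
      rw [hzz, show z1 = 0 from Complex.ext hz1re (by rw [hz1im, h0]; rfl), zero_add]
    have hfne' : Int.fract z.im ≠ ys := by
      intro h0
      apply (hns 0 l).2.1
      rw [hzz, show z1 = ⟨0, ys⟩ from Complex.ext hz1re (by rw [hz1im, h0])]
    have hfpos : 0 < Int.fract z.im := lt_of_le_of_ne hf0 (Ne.symm hfne)
    obtain ⟨Z0, hZ0⟩ : ∃ Z0 : ℂ, Z0 = ⟨z1.re + t * ((σ : ℤ) : ℝ) * G z1.im, r j * z1.im⟩ :=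
      ⟨_, rfl⟩
    have hfl0 : fl t (r j) G σ Z0 = z1 := by
      rw [hZ0]
      exact local_fl_zero t (r j) hrj G σ z1
    have hval1 : Ψ ζ = S.pt j σ z1 := by
      rw [hval, hzz, S.per]
    have hstep : ∀ ζ', stepPt t (r j) s G σ z (ζ' - ζ) =
        stepPt t (r j) s G σ z1 (ζ' - ζ) + lat θ 0 l := by
      intro ζ'
      conv_lhs => rw [hzz]
      exact local_step_lat θ ys a2 t (r j) s G hG σ z1 _ l
    have hstepre : ∀ ζ', (stepPt t (r j) s G σ z (ζ' - ζ)).re =
        (stepPt t (r j) s G σ z1 (ζ' - ζ)).re := by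
      intro ζ'
      rw [hstep]
      simp [lat]
    rcases lt_or_gt_of_ne hfne' with hlt | hgt
    · -- wall
      have hV : {Z | |(fl t (r j) G σ Z).re| < x0 ∧ 0 < (fl t (r j) G σ Z).im ∧
          (fl t (r j) G σ Z).im < ys} ∈ 𝓝 Z0 := by
        have ho : IsOpen {w : ℂ | |w.re| < x0 ∧ 0 < w.im ∧ w.im < ys} := by
          have h1 : IsOpen {w : ℂ | |w.re| < x0} :=
            isOpen_lt Complex.continuous_re.abs continuous_const
          have h2 : IsOpen {w : ℂ | 0 < w.im} := isOpen_lt continuous_const Complex.continuous_im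
          have h3 : IsOpen {w : ℂ | w.im < ys} := isOpen_lt Complex.continuous_im continuous_const
          exact h1.inter (h2.inter h3)
        refine (ho.preimage hflc).mem_nhds ?_
        show |(fl t (r j) G σ Z0).re| < x0 ∧ 0 < (fl t (r j) G σ Z0).im ∧
          (fl t (r j) G σ Z0).im < ys
        rw [hfl0, hz1re, hz1im, abs_zero]
        exact ⟨hx0, hfpos, hlt⟩
      have h := local_unique S.A.ω s U _ Ψ _ ζ Z0 hUn hV hΨ (S.wall j σ) (by
        show Ψ ζ = if 0 ≤ (fl t (r j) G σ Z0).re then S.pt j σ (fl t (r j) G σ Z0)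
          else S.pt j (-σ) (fl t (r j) G σ Z0)
        rw [hfl0, hz1re, if_pos le_rfl, hval1])
      filter_upwards [h] with ζ' h'
      rw [h']
      show (if 0 ≤ (fl t (r j) G σ (Z0 + shear (-s) (ζ' - ζ))).re then
          S.pt j σ (fl t (r j) G σ (Z0 + shear (-s) (ζ' - ζ)))
          else S.pt j (-σ) (fl t (r j) G σ (Z0 + shear (-s) (ζ' - ζ)))) = _
      rw [hZ0, local_fl_step t (r j) s hrj, hstepre, hstep]
      by_cases hc : 0 ≤ (stepPt t (r j) s G σ z1 (ζ' - ζ)).re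
      · rw [if_pos hc, if_neg (by
          rintro ⟨_, h2, _⟩
          linarith), S.per]
      · rw [if_neg hc, if_pos ⟨hz0.symm, by linarith, hlt⟩, S.per]
    · -- gap
      have hV : {Z | |(fl t (r j) G σ Z).re| < x0 ∧ ys < (fl t (r j) G σ Z).im ∧
          (fl t (r j) G σ Z).im < 1} ∈ 𝓝 Z0 := by
        have ho : IsOpen {w : ℂ | |w.re| < x0 ∧ ys < w.im ∧ w.im < 1} := by
          have h1 : IsOpen {w : ℂ | |w.re| < x0} :=
            isOpen_lt Complex.continuous_re.abs continuous_const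
          have h2 : IsOpen {w : ℂ | ys < w.im} := isOpen_lt continuous_const Complex.continuous_im
          have h3 : IsOpen {w : ℂ | w.im < 1} := isOpen_lt Complex.continuous_im continuous_const
          exact h1.inter (h2.inter h3)
        refine (ho.preimage hflc).mem_nhds ?_
        show |(fl t (r j) G σ Z0).re| < x0 ∧ ys < (fl t (r j) G σ Z0).im ∧
          (fl t (r j) G σ Z0).im < 1
        rw [hfl0, hz1re, hz1im, abs_zero]
        exact ⟨hx0, hgt, hf1⟩
      have h := local_unique S.A.ω s U _ Ψ _ ζ Z0 hUn hV hΨ (S.gap j σ) (by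
        show Ψ ζ = S.pt j σ (fl t (r j) G σ Z0)
        rw [hfl0, hval1])
      filter_upwards [h] with ζ' h'
      rw [h']
      show S.pt j σ (fl t (r j) G σ (Z0 + shear (-s) (ζ' - ζ))) = _
      rw [hZ0, local_fl_step t (r j) s hrj, hstep, if_neg (by
        rintro ⟨_, _, h3⟩
        linarith), S.per]

end Horo
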