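import Pool.Agent.Horo.GDefs

/-!
# Problem MP_943ece_an: Part I for one near return (paper, section (A6))
-/

open Topology Filter

namespace Horo

/-- the numerical data of one cylinder of `u_s x`, strip `(i, σ)` landing in block `j` -/
structure PartIData {B : ℕ} (r : ZMod B → ℝ) (θ ys t a2 s ε : ℝ) (G : ℝ → ℝ)
    (i : ZMod B) (σ : ℤˣ) (j : ZMod B) (h : ℂ) (φ : ℝ → ℝ) (Sg : ℂ → ℤˣ) (c0 : ℂ)
    (k l : ℤ) (Δ : ℝ) : Prop where
  near : ‖h - ⟨((σ : ℤ) : ℝ) * t * a2, r i⟩‖ ≤ 2 * ε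
  strip : LiftedStrip θ ys (s * r j) t G ⟨h.re, h.im / r j⟩ (5 * t + 10 * ε)
    (1 - 5 * t - 10 * ε) φ Sg c0
  inc : ∀ y, φ (y + h.im / r j) = φ y + Δ
  abs : |Δ| ≤ h.im / r j
  per : ∀ ζ, PP (s * r j) t φ c0 (ζ + ⟨h.re, h.im / r j⟩) = PP (s * r j) t φ c0 ζ + lat θ k l
  eq1 : (k : ℝ) + (s * r j) * (k * θ + l) = h.re - t * Δ
  eq2 : (k : ℝ) * θ + l = h.im / r j

/-- the packaged smallness hypotheses -/
structure PartISmall (t a2 η2 η3 gap ε : ℝ) : Prop where
  t0 : 0 < t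
  e0 : 0 < ε
  n2 : 0 < η2
  n2' : η2 ≤ 1 / 10000
  n3 : η3 ≤ 1 / 1000
  a2l : 1 - 2 * η2 ≤ a2
  a2u : a2 ≤ 1
  gp : gap ≤ 1 / 100
  te : t ≤ η3 / 100
  tg : t ≤ gap / 100
  et : ε ≤ t * η2 / 100

lemma PartISmall.t_le {t a2 η2 η3 gap ε : ℝ} (H : PartISmall t a2 η2 η3 gap ε) :
    t ≤ 1 / 100000 := by
  have h1 := H.te
  have h2 := H.n3
  linarith

lemma PartISmall.e_le {t a2 η2 η3 gap ε : ℝ} (H : PartISmall t a2 η2 η3 gap ε) :
    ε ≤ t / 1000000 := by
  have h1 := H.et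
  have h2 := H.n2'
  have h3 := H.t0
  nlinarith

lemma PartISmall.e_le' {t a2 η2 η3 gap ε : ℝ} (H : PartISmall t a2 η2 η3 gap ε) :
    ε ≤ η2 / 10000000 := by
  have h1 := H.et
  have h2 := H.n2
  have h3 := H.t_le
  nlinarith

lemma partI_near_re {B : ℕ} {r : ZMod B → ℝ} {θ ys t a2 s ε : ℝ} {G : ℝ → ℝ}
    {i : ZMod B} {σ : ℤˣ} {j : ZMod B} {h : ℂ} {φ : ℝ → ℝ} {Sg : ℂ → ℤˣ} {c0 : ℂ}
    {k l : ℤ} {Δ : ℝ} (D : PartIData r θ ys t a2 s ε G i σ j h φ Sg c0 k l Δ) :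
    |h.re - ((σ : ℤ) : ℝ) * t * a2| ≤ 2 * ε := by
  have h1 := Complex.abs_re_le_norm (h - ⟨((σ : ℤ) : ℝ) * t * a2, r i⟩)
  have h2 := D.near
  simp only [Complex.sub_re] at h1
  exact h1.trans h2

lemma partI_near_im {B : ℕ} {r : ZMod B → ℝ} {θ ys t a2 s ε : ℝ} {G : ℝ → ℝ}
    {i : ZMod B} {σ : ℤˣ} {j : ZMod B} {h : ℂ} {φ : ℝ → ℝ} {Sg : ℂ → ℤˣ} {c0 : ℂ}
    {k l : ℤ} {Δ : ℝ} (D : PartIData r θ ys t a2 s ε G i σ j h φ Sg c0 k l Δ) :
    |h.im - r i| ≤ 2 * ε := by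
  have h1 := Complex.abs_im_le_norm (h - ⟨((σ : ℤ) : ℝ) * t * a2, r i⟩)
  have h2 := D.near
  simp only [Complex.sub_im] at h1
  exact h1.trans h2

/-- bounds for the period of the lifted strip -/
lemma partI_bounds {B : ℕ} {r : ZMod B → ℝ} {θ ys t a2 s η2 η3 gap ε : ℝ} {G : ℝ → ℝ}
    {i : ZMod B} {σ : ℤˣ} {j : ZMod B} {h : ℂ} {φ : ℝ → ℝ} {Sg : ℂ → ℤˣ} {c0 : ℂ}
    {k l : ℤ} {Δ : ℝ} (hr : ∀ j, 1 ≤ r j ∧ r j ≤ 1.01) (H : PartISmall t a2 η2 η3 gap ε)
    (D : PartIData r θ ys t a2 s ε G i σ j h φ Sg c0 k l Δ) :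
    |h.re| ≤ 1 / 100 ∧ 98 / 100 ≤ h.im / r j ∧ h.im / r j ≤ 102 / 100 := by
  have h1 := abs_le.mp (partI_near_re D)
  have h2 := abs_le.mp (partI_near_im D)
  have hj := hr j
  have hi := hr i
  have ht := H.t_le
  have ht0 := H.t0
  have he := H.e_le
  have he0 := H.e0
  have hn := H.n2'
  have hn0 := H.n2
  have ha := H.a2l
  have ha' := H.a2u
  have hta : 0 ≤ t * a2 := mul_nonneg ht0.le (by linarith)
  have hta' : t * a2 ≤ t := by nlinarith
  refine ⟨?_, ?_, ?_⟩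
  · rw [abs_le]
    rcases Int.units_eq_one_or σ with hs | hs <;> subst hs
    · simp only [Units.val_one, Int.cast_one, one_mul] at h1
      constructor <;> linarith [h1.1, h1.2]
    · simp only [Units.val_neg, Units.val_one, Int.cast_neg, Int.cast_one] at h1
      constructor <;> linarith [h1.1, h1.2]
  · rw [le_div_iff₀ (by linarith [hj.1])]
    nlinarith [hj.2, hi.1, h2.1]
  · rw [div_le_iff₀ (by linarith [hj.1])]
    nlinarith [hj.1, hi.2, h2.2]

/-- two strips in the same block have the same index and the same lattice vector -/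
lemma partI_same (h5 : Stmt_Systole) {B : ℕ} {r : ZMod B → ℝ} {θ ys t a2 s η2 η3 gap ε : ℝ}
    {G : ℝ → ℝ} (hr : ∀ j, 1 ≤ r j ∧ r j ≤ 1.01) (H : PartISmall t a2 η2 η3 gap ε)
    (hgap : ∀ i j, i ≠ j → gap ≤ |r i - r j|)
    {i i' : ZMod B} {σ σ' : ℤˣ} {j : ZMod B} {h h' : ℂ} {φ φ' : ℝ → ℝ} {Sg Sg' : ℂ → ℤˣ}
    {c0 c0' : ℂ} {k l k' l' : ℤ} {Δ Δ' : ℝ}
    (D : PartIData r θ ys t a2 s ε G i σ j h φ Sg c0 k l Δ)
    (D' : PartIData r θ ys t a2 s ε G i' σ' j h' φ' Sg' c0' k' l' Δ') :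
    i = i' ∧ k = k' ∧ l = l' := by
  obtain ⟨hb1, hb2, hb3⟩ := partI_bounds hr H D
  obtain ⟨hb1', hb2', hb3'⟩ := partI_bounds hr H D'
  have ht := H.t_le
  have ht0 := H.t0
  have he := H.e_le
  have he0 := H.e0
  have hj := hr j
  have him := abs_le.mp (partI_near_im D)
  have him' := abs_le.mp (partI_near_im D')
  have hi := hr i
  have hi' := hr i'
  have hD := abs_le.mp D.abs
  have hD' := abs_le.mp D'.abs
  have hq : |h.im / r j - h'.im / r j| ≤ 1 / 20 := by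
    rw [abs_le]
    constructor <;> linarith
  have key := h5 θ ys (s * r j) t G ⟨h.re, h.im / r j⟩ (5 * t + 10 * ε)
    (1 - 5 * t - 10 * ε) φ Sg c0 D.strip ht0 (by linarith) (by linarith)
    (by show |h.re| ≤ 1 / 10; linarith) (by show 9 / 10 ≤ h.im / r j; linarith)
    (by show h.im / r j ≤ 11 / 10; linarith) (k - k') (l - l')
    (by
      have e1 : ((k - k' : ℤ) : ℝ) + s * r j * (((k - k' : ℤ) : ℝ) * θ + ((l - l' : ℤ) : ℝ))
          = (h.re - h'.re) - t * (Δ - Δ') := by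
        push_cast
        linear_combination D.eq1 - D'.eq1
      rw [e1, abs_le]
      have hb1a := abs_le.mp hb1
      have hb1b := abs_le.mp hb1'
      have h1 : t * (Δ - Δ') ≤ t * 3 := by
        apply mul_le_mul_of_nonneg_left _ ht0.le
        linarith
      have h2 : t * (-3) ≤ t * (Δ - Δ') := by
        apply mul_le_mul_of_nonneg_left _ ht0.le
        linarith
      constructor <;> linarith)
    (by
      have e2 : ((k - k' : ℤ) : ℝ) * θ + ((l - l' : ℤ) : ℝ) = h.im / r j - h'.im / r j := by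
        push_cast
        linear_combination D.eq2 - D'.eq2
      rw [e2]
      exact hq)
  obtain ⟨hk, hl⟩ := key
  have hk' : k = k' := by linarith
  have hl' : l = l' := by linarith
  refine ⟨?_, hk', hl'⟩
  have e3 : h.im / r j = h'.im / r j := by
    rw [← D.eq2, ← D'.eq2, hk', hl']
  have hj0 : r j ≠ 0 := by linarith [hj.1]
  have e4 : h.im = h'.im := by
    field_simp at e3
    exact e3
  by_contra hne
  have h6 := hgap i i' hne
  have h7 : |r i - r i'| ≤ 4 * ε := by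
    rw [abs_le]
    constructor <;> linarith
  have htg := H.tg
  linarith

theorem hPartI (h1 : Stmt_SurfStrip) (h2 : Stmt_Strip) (h3 : Stmt_Lift) (h4 : Stmt_Period)
    (h5 : Stmt_Systole) (h6 : Stmt_Primitive) (h7 : Stmt_Width) (h8 : Stmt_Pattern) :
    Stmt_PartI := by
  intro B _ r θ ys x0 L t a2 s η η2 η3 gap ε G S hr hcoc hθ0 hθ hys0 hys hη2 hη hηle ha2 ha2' hη30
    hη3 hη3' hgap0 hgap hgapr ht0 htη htg hx0 hL hε0 hε hs hnear
  subst hx0 hL
  have H : PartISmall L a2 η2 η3 gap ε :=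
    ⟨ht0, hε0, hη2, by linarith, hη3', ha2, ha2', hgap, htη, htg, hε⟩
  have ht := H.t_le
  have he := H.e_le
  have he' := H.e_le'
  obtain ⟨F, hFord, hF⟩ := hnear
  -- the strips
  have hdata : ∀ (i : ZMod B) (σ : ℤˣ), ∃ (j : ZMod B) (h : ℂ) (φ : ℝ → ℝ) (Sg : ℂ → ℤˣ)
      (c0 : ℂ) (k l : ℤ) (Δ : ℝ), PartIData r θ ys L a2 s ε G i σ j h φ Sg c0 k l Δ := by
    intro i σ
    have e5 : L + L + 3 * L = 5 * L := by ring
    obtain ⟨Φ, hΦ1, hΦ2, hΦ3⟩ := h1 B r θ ys L L L a2 G S hr hcoc ht0 ht0 ht0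
      (by rw [e5]; linarith) (by linarith) ha2' i σ
    rw [e5] at hΦ1 hΦ2 hΦ3
    have hri := hr i
    have hta : 0 ≤ L * a2 := mul_nonneg ht0.le (by linarith)
    have hta' : L * a2 ≤ L := by nlinarith
    obtain ⟨h, Ψ, hh, hΨ1, hΨ2, hΨ3⟩ := h2 S.A.X S.A.X S.A.ω (S.A.ω.act s) F ε hε0
      (by linarith) (fun p hp => by rw [← hp]; exact hFord p) hF
      ⟨((σ : ℤ) : ℝ) * L * a2, r i⟩ (5 * L) (1 - 5 * L) Φ
      (by show 9 / 10 ≤ r i; linarith) (by show r i ≤ 11 / 10; linarith)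
      (by
        show |((σ : ℤ) : ℝ) * L * a2| ≤ 1 / 10
        rcases Int.units_eq_one_or σ with hs | hs <;> subst hs
        · simp only [Units.val_one, Int.cast_one, one_mul]
          rw [abs_le]; constructor <;> linarith
        · simp only [Units.val_neg, Units.val_one, Int.cast_neg, Int.cast_one]
          rw [abs_le]; constructor <;> linarith)
      (by linarith) (by linarith) hΦ1 hΦ2 hΦ3
    have him := abs_le.mp ((Complex.abs_im_le_norm (h - ⟨((σ : ℤ) : ℝ) * L * a2, r i⟩)).trans hh)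
    simp only [Complex.sub_im] at him
    have hh0 : 0 < h.im := by linarith
    have e6 : 1 - 5 * L - 10 * ε = 1 - 5 * L - 10 * ε := rfl
    obtain ⟨j, φ, Sg, c0, hstrip⟩ := h3 B r θ ys L L L a2 s G S hr hcoc hθ0 hθ hys0 hys ht0
      (by linarith) ht0 (by linarith) ht0 (by linarith) h (5 * L + 10 * ε) (1 - 5 * L - 10 * ε) Ψ
      hh0 (by linarith) hΨ1 hΨ2 hΨ3
    obtain ⟨k, l, Δ, hp1, hp2, hp3, hp4, hp5⟩ := h4 θ ys (s * r j) L G ⟨h.re, h.im / r j⟩
      (5 * L + 10 * ε) (1 - 5 * L - 10 * ε) φ Sg c0 hstrip (by linarith) ht0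
    exact ⟨j, h, φ, Sg, c0, k, l, Δ, hh, hstrip, hp1, hp2, hp3, hp4, hp5⟩
  choose J h φ Sg c0 k l Δ hD using hdata
  -- the maps `J · σ` are bijections
  have hsame : ∀ i i' σ σ', J i σ = J i' σ' → i = i' := by
    intro i i' σ σ' hJ
    have D := hD i σ
    have D' := hD i' σ'
    rw [← hJ] at D'
    exact (partI_same h5 hr H hgapr D D').1
  have hbij : ∀ σ, Function.Bijective (fun i => J i σ) := fun σ =>
    Finite.injective_iff_bijective.mp (fun i i' hii => hsame i i' σ σ hii)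
  have hJ : ∀ i, J i (-1) = J i 1 := by
    intro i
    obtain ⟨i', hi'⟩ := (hbij (-1)).2 (J i 1)
    have h9 : i' = i := hsame i' i (-1) 1 hi'
    rw [h9] at hi'
    exact hi'
  -- key estimates for the strip `(i, 1)`
  have hkey : ∀ i, IsCoprime (k i 1) (l i 1) ∧
      2 * a2 - (h i 1).im / r (J i 1) - 4 * ε / L ≤ Δ i 1 := by
    intro i
    have D := hD i 1
    have D' := hD i (-1)
    rw [hJ i] at D'
    obtain ⟨-, hk, hl⟩ := partI_same h5 hr H hgapr D D'
    obtain ⟨hb1, hb2, hb3⟩ := partI_bounds hr H D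
    obtain ⟨hb1', hb2', hb3'⟩ := partI_bounds hr H D'
    have e1 : L * (Δ i 1 - Δ i (-1)) = (h i 1).re - (h i (-1)).re := by
      have := D.eq1
      have h' := D'.eq1
      rw [← hk, ← hl] at h'
      linarith
    have e2 : (h i (-1)).im / r (J i 1) = (h i 1).im / r (J i 1) := by
      rw [← D.eq2, ← D'.eq2, hk, hl]
    have n1 := abs_le.mp (partI_near_re D)
    have n2 := abs_le.mp (partI_near_re D')
    simp only [Units.val_one, Int.cast_one, one_mul] at n1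
    simp only [Units.val_neg, Units.val_one, Int.cast_neg, Int.cast_one] at n2
    have a1 := abs_le.mp D'.abs
    rw [e2] at a1
    have h10 : 2 * a2 - 4 * ε / L ≤ Δ i 1 - Δ i (-1) := by
      have h11 : L * (2 * a2 - 4 * ε / L) ≤ L * (Δ i 1 - Δ i (-1)) := by
        rw [e1]
        have h12 : L * (2 * a2 - 4 * ε / L) = 2 * L * a2 - 4 * ε := by
          field_simp
        rw [h12]
        linarith
      exact le_of_mul_le_mul_left h11 ht0
    have h13 : 2 * a2 - (h i 1).im / r (J i 1) - 4 * ε / L ≤ Δ i 1 := by linarith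
    refine ⟨?_, h13⟩
    have h14 : 4 * ε / L ≤ 1 / 100 := by
      rw [div_le_iff₀ ht0]
      linarith
    have h15 : Δ i 1 ≠ 0 := by
      have : 0 < Δ i 1 := by linarith
      exact this.ne'
    exact h6 θ ys (s * r (J i 1)) L a2 G ⟨(h i 1).re, (h i 1).im / r (J i 1)⟩ (5 * L + 10 * ε)
      (1 - 5 * L - 10 * ε) (φ i 1) (Sg i 1) (c0 i 1) D.strip hcoc ht0 (by linarith)
      (by linarith) (by show |(h i 1).re| ≤ 1 / 10; linarith)
      (by show 9 / 10 ≤ (h i 1).im / r (J i 1); linarith)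
      (by show (h i 1).im / r (J i 1) ≤ 11 / 10; linarith) (k i 1) (l i 1) (Δ i 1) D.inc h15 D.per
  -- `r i ≤ r (J i 1)`
  have hle : ∀ i, r i ≤ r (J i 1) := by
    intro i
    have D := hD i 1
    obtain ⟨hb1, hb2, hb3⟩ := partI_bounds hr H D
    have hw := h7 θ ys (s * r (J i 1)) L G ⟨(h i 1).re, (h i 1).im / r (J i 1)⟩ (5 * L + 10 * ε)
      (1 - 5 * L - 10 * ε) (φ i 1) (Sg i 1) (c0 i 1) D.strip ht0 (by linarith)
      (by linarith) (by show |(h i 1).re| ≤ 1 / 10; linarith)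
      (by show 9 / 10 ≤ (h i 1).im / r (J i 1); linarith)
      (by show (h i 1).im / r (J i 1) ≤ 11 / 10; linarith) (k i 1) (l i 1) (hkey i).1 D.per
    have hw' : (h i 1).im / r (J i 1) * (1 - 15 * L - 20 * ε) ≤ 1 := by
      have e7 : 1 - 5 * L - 10 * ε - (5 * L + 10 * ε) - 5 * L = 1 - 15 * L - 20 * ε := by ring
      have hw2 : (h i 1).im / r (J i 1) * (1 - 5 * L - 10 * ε - (5 * L + 10 * ε) - 5 * L) ≤ 1 := hw
      rw [e7] at hw2
      exact hw2
    have hj := hr (J i 1)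
    have hi := hr i
    have hj0 : 0 < r (J i 1) := by linarith [hj.1]
    have him := abs_le.mp (partI_near_im D)
    have h16 : (h i 1).im * (1 - 15 * L - 20 * ε) ≤ r (J i 1) := by
      have h17 : (h i 1).im / r (J i 1) * (1 - 15 * L - 20 * ε)
          = (h i 1).im * (1 - 15 * L - 20 * ε) / r (J i 1) := by ring
      rw [h17, div_le_one hj0] at hw'
      exact hw'
    by_contra hcon
    push Not at hcon
    have hne : i ≠ J i 1 := by
      intro h18
      rw [← h18] at hcon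
      exact lt_irrefl _ hcon
    have h19 := hgapr i (J i 1) hne
    rw [abs_of_pos (by linarith)] at h19
    have h20 : (h i 1).im ≤ 2 := by linarith [him.2, hi.2]
    have h21 : (r i - 2 * ε) * (1 - 15 * L - 20 * ε) ≤ r (J i 1) := by
      refine le_trans ?_ h16
      apply mul_le_mul_of_nonneg_right _ (by linarith)
      linarith
    nlinarith [hi.2, hi.1, hε0, ht0]
  -- `J · 1` is the identity
  have hsum : ∑ i, r i = ∑ i, r (J i 1) :=
    (Function.Bijective.sum_comp (hbij 1) r).symm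
  have heq : ∀ i, r i = r (J i 1) := by
    intro i
    exact (Finset.sum_eq_sum_iff_of_le (fun i _ => hle i)).mp hsum i (Finset.mem_univ i)
  have hid : ∀ i, J i 1 = i := by
    intro i
    by_contra hne
    have h22 := hgapr (J i 1) i hne
    rw [← heq i, sub_self, abs_zero] at h22
    linarith
  intro j
  have D := hD j 1
  rw [hid j] at D
  obtain ⟨hcop, hΔ⟩ := hkey j
  rw [hid j] at hΔ
  have hj := hr j
  have hj0 : 0 < r j := by linarith [hj.1]
  have him := abs_le.mp (partI_near_im D)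
  obtain ⟨hb1, hb2, hb3⟩ := partI_bounds hr H D
  have hY : |(h j 1).im / r j - 1| ≤ 2 * ε := by
    rw [abs_le]
    constructor
    · have : 1 - 2 * ε ≤ (h j 1).im / r j := by
        rw [le_div_iff₀ hj0]
        nlinarith [hj.1]
      linarith
    · have : (h j 1).im / r j ≤ 1 + 2 * ε := by
        rw [div_le_iff₀ hj0]
        nlinarith [hj.1]
      linarith
  have hY' := abs_le.mp hY
  have h4e : 4 * ε / L ≤ η2 / 25 := by
    rw [div_le_iff₀ ht0]
    linarith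
  exact h8 θ ys (s * r j) L a2 η η2 η3 G ⟨(h j 1).re, (h j 1).im / r j⟩ (5 * L + 10 * ε)
    (1 - 5 * L - 10 * ε) (φ j 1) (Sg j 1) (c0 j 1) D.strip hcoc hθ0 hθ hys0 hys hη2 hη hηle ha2 ha2'
    hη30 hη3 (by linarith) ht0 (by linarith) (by nlinarith [hj.1]) (by show |(h j 1).re| ≤ 1 / 50; linarith)
    (by show |(h j 1).im / r j - 1| ≤ 1 / 100; linarith)
    (by
      show 1 - η3 ≤ (h j 1).im / r j * (1 - 5 * L - 10 * ε - (5 * L + 10 * ε) - 5 * L)
      have e7 : 1 - 5 * L - 10 * ε - (5 * L + 10 * ε) - 5 * L = 1 - 15 * L - 20 * ε := by ring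
      rw [e7]
      have h23 : (1 - 2 * ε) * (1 - 15 * L - 20 * ε)
          ≤ (h j 1).im / r j * (1 - 15 * L - 20 * ε) := by
        apply mul_le_mul_of_nonneg_right _ (by linarith)
        linarith
      nlinarith)
    (k j 1) (l j 1) (Δ j 1) hcop D.per D.inc
    (by
      show (1 - 5 * η2) * ((h j 1).im / r j) ≤ Δ j 1
      have h24 : (1 - 5 * η2) * ((h j 1).im / r j) ≤ (1 - 5 * η2) * (1 + 2 * ε) := by
        apply mul_le_mul_of_nonneg_left _ (by linarith)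
        linarith
      nlinarith)

end Horo
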