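import Pool.Agent.Horo.GDefs

/-!
# Problem MP_943ece_an: from the strip to a good `m` (A8), (A9)
-/

open Finset

namespace Horo

theorem hPattern (h1 : Stmt_Line) (h2 : Stmt_Comb) (_h3 : Stmt_Period) : Stmt_Pattern := by
  intro θ ys s t a2 η η2 η3 G h c1 c2 φ Sg c0 hL hG hθ hθ' hys hys' hη2 hη hη' ha2 ha2' hη3 hη3'
    hη3'' ht ht' hs hre him harea k l Δ hcop hPP hφ hΔ
  have him' := abs_le.1 him
  have hre' := abs_le.1 hre
  -- the two components of the period equation
  have e := hPP 0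
  have e1 := congrArg Complex.re e
  have e2 := congrArg Complex.im e
  simp only [PP, lat, Complex.add_re, Complex.add_im, Complex.zero_re, Complex.zero_im,
    zero_add] at e1 e2
  have hφ0 := hφ 0
  rw [zero_add] at hφ0
  rw [hφ0] at e1
  have e1' : (k : ℝ) + s * h.im = h.re - t * Δ := by linarith
  have e2' : (k : ℝ) * θ + l = h.im := by linarith
  have hΔabs : |Δ| ≤ h.im := by
    have := hL.lip (0 + h.im) 0
    rw [hφ 0] at this
    have hp : 0 < h.im := hL.him
    rw [zero_add, sub_zero, abs_of_pos hp] at this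
    simpa using this
  have hΔ2 := abs_le.1 hΔabs
  have htΔ : |t * Δ| ≤ 1 / 100 * (101 / 100) := by
    rw [abs_mul, abs_of_pos ht]
    have : |Δ| ≤ 101 / 100 := by linarith
    exact mul_le_mul ht' this (abs_nonneg _) (by norm_num)
  have htΔ2 := abs_le.1 htΔ
  have hk : k ≤ -1 := by
    have : (k : ℝ) < 0 := by
      have h4 : 99 / 100 ≤ s * h.im := by
        have : (99 / 100 : ℝ) ≤ h.im := by linarith
        nlinarith
      linarith
    have : k < 0 := by exact_mod_cast this
    omega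
  obtain ⟨m, hm⟩ : ∃ m : ℕ, k = -(m : ℤ) := ⟨(-k).toNat, by omega⟩
  subst hm
  have hmpos : 0 < m := by omega
  have hcop' : IsCoprime (m : ℤ) l := by
    have := hcop.neg_left
    rwa [neg_neg] at this
  have him2 : h.im = (l : ℝ) - m * θ := by
    rw [← e2']
    push_cast
    ring
  obtain ⟨ρ, E, hρ, hρ', hEper, hEstep, hEΔ, hnear⟩ := h1 θ ys s t a2 η3 G h c1 c2 φ Sg c0 hL hG
    hθ hθ' hys hys' hη3 hη3'' ht ht' hre him harea m l Δ hmpos hcop' hPP hφ
  refine ⟨m, l, ?_, ?_⟩
  · exact h2 θ ys a2 η η2 η3 G m l h.im Δ ρ E hG hys hys' hη2 hη hη' ha2 ha2' hη3 hη3' hmpos hcop'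
      him2 him hρ hρ' hEper hEstep hEΔ hnear hΔ
  · rw [← him2]
    have hp : 0 < h.im := hL.him
    have e3 : s - (m : ℝ) / h.im = (h.re - t * Δ) / h.im := by
      rw [← e1']
      push_cast
      field_simp
      ring
    rw [e3, abs_div, abs_of_pos hp, div_le_one hp, abs_le]
    constructor <;> linarith

end Horo
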