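import Pool.Agent.Horo.GDefs

open Topology Filter

namespace Horo

lemma period_PP_sub (s t : ℝ) (φ : ℝ → ℝ) (c0 h ζ : ℂ) :
    PP s t φ c0 (ζ + h) - PP s t φ c0 ζ
      = ⟨h.re - s * h.im - t * (φ (ζ.im + h.im) - φ ζ.im), h.im⟩ := by
  apply Complex.ext
  · simp [PP]; ring
  · simp [PP]

theorem hPeriod : Stmt_Period := by
  intro θ ys s t G h c1 c2 φ Sg c0 hL hc ht
  have him := hL.him
  -- continuity of φ
  have hφc : Continuous φ := by
    have : LipschitzWith 1 φ := by
      apply LipschitzWith.of_dist_le_mul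
      intro x y
      rw [Real.dist_eq, Real.dist_eq]
      simpa using hL.lip x y
    exact this.continuous
  -- a point of each height
  let pt : ℝ → ℂ := fun y => ⟨(c1 + c2) / 2 + h.re / h.im * y, y⟩
  have hpt : ∀ y, pt y ∈ Strip h c1 c2 := by
    intro y
    constructor
    · show c1 < (c1 + c2) / 2 + h.re / h.im * y - h.re / h.im * y
      linarith
    · show (c1 + c2) / 2 + h.re / h.im * y - h.re / h.im * y < c2
      linarith
  have hkl : ∀ y : ℝ, ∃ k l : ℤ, h.re - s * h.im - t * (φ (y + h.im) - φ y) = k ∧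
      (k : ℝ) * θ + l = h.im := by
    intro y
    obtain ⟨_, k, l, hkl⟩ := hL.per (pt y) (hpt y)
    refine ⟨k, l, ?_⟩
    have h1 : PP s t φ c0 (pt y + h) - PP s t φ c0 (pt y) = lat θ k l := by
      rw [hkl]; ring
    rw [period_PP_sub] at h1
    have h2 := congrArg Complex.re h1
    have h3 := congrArg Complex.im h1
    simp only [lat] at h2 h3
    exact ⟨h2, h3.symm⟩
  choose k l hk1 hk2 using hkl
  -- the integer valued function is constant
  have hcont : Continuous (fun y : ℝ => h.re - s * h.im - t * (φ (y + h.im) - φ y)) := by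
    fun_prop
  have hkcont : Continuous (fun y : ℝ => (k y : ℝ)) := by
    have : (fun y : ℝ => (k y : ℝ))
        = (fun y : ℝ => h.re - s * h.im - t * (φ (y + h.im) - φ y)) := by
      funext y; exact (hk1 y).symm
    rw [this]; exact hcont
  have hkcont' : Continuous k := by
    have hemb : Topology.IsEmbedding ((↑) : ℤ → ℝ) := Int.isClosedEmbedding_coe_real.isEmbedding
    exact hemb.continuous_iff.mpr hkcont
  have hconst : ∀ y, k y = k 0 := by
    intro y
    exact PreconnectedSpace.constant (inferInstance : PreconnectedSpace ℝ) hkcont'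
  have hΔ : ∀ y, φ (y + h.im) - φ y = φ (0 + h.im) - φ 0 := by
    intro y
    have h1 := hk1 y
    have h2 := hk1 0
    rw [hconst y] at h1
    have h3 : t * (φ (y + h.im) - φ y) = t * (φ (0 + h.im) - φ 0) := by linarith
    exact mul_left_cancel₀ ht.ne' h3
  refine ⟨k 0, l 0, φ (0 + h.im) - φ 0, ?_, ?_, ?_, ?_, hk2 0⟩
  · intro y
    have := hΔ y
    linarith
  · have := hL.lip (0 + h.im) 0
    have h2 : |(0 : ℝ) + h.im - 0| = h.im := by
      rw [zero_add, sub_zero, abs_of_pos him]
    rw [h2] at this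
    exact this
  · intro ζ
    have h1 := period_PP_sub s t φ c0 h ζ
    have h2 : PP s t φ c0 (ζ + h) = PP s t φ c0 ζ + (PP s t φ c0 (ζ + h) - PP s t φ c0 ζ) := by
      ring
    rw [h2, h1, hΔ ζ.im]
    congr 1
    apply Complex.ext
    · simp only [lat]; exact hk1 0
    · simp only [lat]; exact (hk2 0).symm
  · have h1 := hk1 0
    have h2 := hk2 0
    rw [h2]
    linarith

end Horo
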