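import Pool.Agent.Horo.GDefs

/-!
# (A7): primitivity of the period vector
-/

open Topology Filter

namespace Horo

theorem primitive_G {θ ys a2 : ℝ} {G : ℝ → ℝ} (hG : Coc θ ys a2 G) (l : ℤ) (y : ℝ) :
    G (y + l) = G y + l * a2 := by
  induction l using Int.induction_on with
  | zero => simp
  | succ n ih =>
    have := hG.per (y + n)
    push_cast at ih ⊢
    rw [← add_assoc, this, ih]
    ring
  | pred n ih =>
    have := hG.per (y + (-(n : ℝ) - 1))
    push_cast at ih ⊢
    have e : y + (-(n : ℝ) - 1) + 1 = y + -(n : ℝ) := by ring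
    rw [e, ih] at this
    linarith

theorem hPrimitive : Stmt_Primitive := by
  intro θ ys s t a2 G h c1 c2 φ Sg c0 hL hG ht0 ht hc hre him1 him2 k l Δ hφ hΔ hPP
  have hY : 0 < h.im := by linarith
  -- the period equations
  have hk : h.re - s * h.im - t * Δ = k := by
    have h1 := congrArg Complex.re (hPP 0)
    simp only [PP, lat, Complex.add_re, zero_add] at h1
    have h2 := hφ 0
    simp only [zero_add] at h2
    simp only [Complex.zero_im, Complex.zero_re] at h1
    rw [h2] at h1
    linarith
  have hl : (k : ℝ) * θ + l = h.im := by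
    have h1 := congrArg Complex.im (hPP 0)
    simp only [PP, lat, Complex.add_im, zero_add] at h1
    simp only [Complex.zero_im, zero_add] at h1
    linarith
  have hΔY : |Δ| ≤ h.im := by
    have h1 := hL.lip (0 + h.im) 0
    rw [hφ 0] at h1
    simp only [add_sub_cancel_left, sub_zero, zero_add] at h1
    rwa [abs_of_pos hY] at h1
  rw [Int.isCoprime_iff_gcd_eq_one]
  by_contra hg1
  set g : ℕ := Int.gcd k l with hg
  have hg0 : g ≠ 0 := by
    intro h0
    rw [hg, Int.gcd_eq_zero_iff] at h0
    rw [h0.1, h0.2] at hl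
    simp at hl
    linarith
  have hg2 : 2 ≤ g := by omega
  obtain ⟨k', hk'⟩ : (g : ℤ) ∣ k := Int.gcd_dvd_left _ _
  obtain ⟨l', hl'⟩ : (g : ℤ) ∣ l := Int.gcd_dvd_right _ _
  have hgr : (2 : ℝ) ≤ g := by exact_mod_cast hg2
  have hgp : (0 : ℝ) < g := by linarith
  have hkr : (k : ℝ) = g * k' := by exact_mod_cast hk'
  have hlr : (l : ℝ) = g * l' := by exact_mod_cast hl'
  have hY' : (k' : ℝ) * θ + l' = h.im / g := by
    rw [eq_div_iff hgp.ne', ← hl, hkr, hlr]
    ring
  have hk2 : (k' : ℝ) + s * (h.im / g) = (h.re - t * Δ) / g := by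
    rw [eq_div_iff hgp.ne']
    have : ((k' : ℝ) + s * (h.im / g)) * g = g * k' + s * h.im := by
      field_simp
    rw [this, ← hkr]
    linarith
  -- the shifted points
  let w : ℕ → ℂ → ℂ := fun i ζ => ζ + ⟨i * ((k' : ℝ) + s * (h.im / g)) +
    t * (φ (ζ.im + i * (h.im / g)) - φ ζ.im), i * (h.im / g)⟩
  have hw0 : ∀ ζ, w 0 ζ = ζ := by
    intro ζ
    apply Complex.ext <;> simp [w]
  have hwim : ∀ i ζ, (w i ζ).im = ζ.im + i * (h.im / g) := by
    intro i ζ
    simp [w]
  have hwPP : ∀ (i : ℕ) ζ, PP s t φ c0 (w i ζ) = PP s t φ c0 ζ + lat θ (i * k') (i * l') := by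
    intro i ζ
    apply Complex.ext
    · simp only [PP, lat, Complex.add_re, hwim]
      simp only [w, Complex.add_re]
      push_cast
      ring
    · simp only [PP, lat, Complex.add_im, hwim]
      push_cast
      have : (i : ℝ) * (h.im / g) = i * k' * θ + i * l' := by
        rw [← hY']
        ring
      rw [this]
      ring
  let mid : ℝ → ℂ := fun y => ⟨(c1 + c2) / 2 + h.re / h.im * y, y⟩
  have hwmid : ∀ (i : ℕ) y, i ≤ 2 → w i (mid y) ∈ Strip h c1 c2 := by
    intro i y hi
    have hir : (i : ℝ) ≤ 2 := by exact_mod_cast hi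
    have e : (w i (mid y)).re - h.re / h.im * (w i (mid y)).im = (c1 + c2) / 2 -
        t * (i * Δ / g) + t * (φ (y + i * (h.im / g)) - φ y) := by
      rw [hwim]
      simp only [w, mid, Complex.add_re]
      rw [hk2]
      field_simp
      ring
    have h1 : |φ (y + i * (h.im / g)) - φ y| ≤ h.im := by
      refine (hL.lip _ _).trans ?_
      rw [add_sub_cancel_left, abs_of_nonneg (by positivity)]
      rw [mul_div_assoc', div_le_iff₀ hgp]
      nlinarith
    have h2 : |i * Δ / g| ≤ h.im := by
      rw [abs_div, abs_mul, abs_of_nonneg (show (0 : ℝ) ≤ i by positivity), abs_of_pos hgp,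
        div_le_iff₀ hgp]
      nlinarith [abs_nonneg Δ]
    have h1' := abs_le.1 h1
    have h2' := abs_le.1 h2
    show _ < _ ∧ _ < _
    rw [e]
    constructor
    · nlinarith
    · nlinarith
  have hmid : ∀ y, mid y ∈ Strip h c1 c2 := by
    intro y
    have := hwmid 0 y (by norm_num)
    rwa [hw0] at this
  -- two shifted points with the same sign
  have hsame : ∀ (i j : ℕ) y, i < j → j ≤ 2 → j - i < g → Sg (w j (mid y)) = Sg (w i (mid y)) →
      False := by
    intro i j y hij hj hjg hS
    obtain ⟨n, hn⟩ := hL.inj _ (hwmid i y (by omega)) _ (hwmid j y hj)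
      ⟨(j - i : ℤ) * k', (j - i : ℤ) * l', by
        rw [hwPP, hwPP]
        apply Complex.ext
        · simp only [lat, Complex.add_re]
          push_cast
          ring
        · simp only [lat, Complex.add_im]
          push_cast
          ring⟩ hS
    have h1 := congrArg Complex.im hn
    rw [hwim, Complex.add_im, hwim] at h1
    have h2 : ((n : ℂ) * h).im = n * h.im := by simp
    rw [h2] at h1
    have h3 : ((j : ℝ) - i) = n * g := by
      have h4 : ((j : ℝ) - i) * h.im = (n * g) * h.im := by
        have h5 : (j : ℝ) * (h.im / g) - i * (h.im / g) = n * h.im := by linarith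
        have h6 : ((j : ℝ) * (h.im / g) - i * (h.im / g)) * g = ((j : ℝ) - i) * h.im := by
          field_simp
        rw [← h6, h5]
        ring
      exact mul_right_cancel₀ hY.ne' h4
    have h7 : (j : ℤ) - i = n * g := by exact_mod_cast h3
    have h8 : (g : ℤ) ∣ (j : ℤ) - i := ⟨n, by rw [h7]; ring⟩
    have h9 := Int.le_of_dvd (by omega) h8
    omega
  have hunit : ∀ u v : ℤˣ, u ≠ v → u = -v := by
    intro u v huv
    rcases Int.units_eq_one_or u with rfl | rfl <;> rcases Int.units_eq_one_or v with rfl | rfl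
    · exact absurd rfl huv
    · simp
    · simp
    · exact absurd rfl huv
  rcases lt_or_ge 2 g with h3 | h3
  · -- three points, two signs
    have a1 : Sg (w 1 (mid 0)) ≠ Sg (w 0 (mid 0)) := fun h => hsame 0 1 0 (by norm_num)
      (by norm_num) (by omega) h
    have a2 : Sg (w 2 (mid 0)) ≠ Sg (w 1 (mid 0)) := fun h => hsame 1 2 0 (by norm_num)
      (by norm_num) (by omega) h
    have a3 : Sg (w 2 (mid 0)) ≠ Sg (w 0 (mid 0)) := fun h => hsame 0 2 0 (by norm_num)
      (by norm_num) (by omega) h
    have b1 := hunit _ _ a1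
    have b2 := hunit _ _ a2
    apply a3
    rw [b2, b1, neg_neg]
  · -- index two
    have hg2' : g = 2 := le_antisymm h3 hg2
    have hneg : ∀ y, Sg (w 1 (mid y)) = -Sg (mid y) := by
      intro y
      apply hunit
      intro h
      apply hsame 0 1 y (by norm_num) (by norm_num) (by omega)
      rw [hw0]
      exact h
    have hF : IsLocallyConstant (fun y : ℝ => φ (y + h.im / g) + φ y) := by
      rw [IsLocallyConstant.iff_eventually_eq]
      intro y
      have l1 := hL.loc _ (hmid y)
      have l2 := hL.loc _ (hwmid 1 y (by norm_num))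
      -- vertical displacements
      have t1 : Tendsto (fun y' : ℝ => mid y + ⟨0, y' - y⟩) (𝓝 y) (𝓝 (mid y)) := by
        have hcont : Continuous fun y' : ℝ => mid y + (⟨0, y' - y⟩ : ℂ) := by
          have : (fun y' : ℝ => mid y + (⟨0, y' - y⟩ : ℂ)) =
              fun y' : ℝ => mid y + ((y' - y : ℝ) : ℂ) * Complex.I := by
            funext y'
            apply Complex.ext <;> simp
          rw [this]
          fun_prop
        have := hcont.tendsto y
        simp only [sub_self] at this
        have e0 : mid y + (⟨0, 0⟩ : ℂ) = mid y := by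
          apply Complex.ext <;> simp
        rwa [e0] at this
      have t2 : Tendsto (fun y' : ℝ => w 1 (mid y) + ⟨0, y' - y⟩) (𝓝 y) (𝓝 (w 1 (mid y))) := by
        have hcont : Continuous fun y' : ℝ => w 1 (mid y) + (⟨0, y' - y⟩ : ℂ) := by
          have : (fun y' : ℝ => w 1 (mid y) + (⟨0, y' - y⟩ : ℂ)) =
              fun y' : ℝ => w 1 (mid y) + ((y' - y : ℝ) : ℂ) * Complex.I := by
            funext y'
            apply Complex.ext <;> simp
          rw [this]
          fun_prop
        have := hcont.tendsto y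
        simp only [sub_self] at this
        have e0 : w 1 (mid y) + (⟨0, 0⟩ : ℂ) = w 1 (mid y) := by
          apply Complex.ext <;> simp
        rwa [e0] at this
      filter_upwards [t1.eventually l1, t2.eventually l2] with y' m1 m2
      have n1 := m1.1
      have n2 := m2.1
      have hPPim : ∀ ζ, (PP s t φ c0 ζ).im = ζ.im + c0.im := by
        intro ζ
        simp [PP]
      have hPre : (PP s t φ c0 (w 1 (mid y))).re = (PP s t φ c0 (mid y)).re + k' := by
        rw [hwPP]
        simp [lat]
      have hfl : (⌊(PP s t φ c0 (w 1 (mid y))).re⌋ : ℤ) = ⌊(PP s t φ c0 (mid y)).re⌋ + k' := by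
        rw [hPre, Int.floor_add_intCast]
      rw [hfl, hneg y] at n2
      set fl0 : ℤ := ⌊(PP s t φ c0 (mid y)).re⌋ with hfl0
      simp only [hPPim, Complex.add_im, hwim, Nat.cast_one, one_mul] at n1 n2
      have hmi : (mid y).im = y := rfl
      rw [hmi] at n1 n2
      have e1 : y + (y' - y) = y' := by ring
      have e2 : y + h.im / g + (y' - y) = y' + h.im / g := by ring
      rw [e1] at n1
      rw [e2] at n2
      have e3 : y' + h.im / ↑g + c0.im - ((fl0 + k' : ℤ) : ℝ) * θ =
          (y' + c0.im - (fl0 : ℝ) * θ) + (l' : ℝ) := by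
        push_cast
        rw [← hY']
        ring
      have e4 : y + h.im / ↑g + c0.im - ((fl0 + k' : ℤ) : ℝ) * θ =
          (y + c0.im - (fl0 : ℝ) * θ) + (l' : ℝ) := by
        push_cast
        rw [← hY']
        ring
      rw [e3, e4, primitive_G hG, primitive_G hG] at n2
      have e5 : (((-Sg (mid y) : ℤˣ) : ℤ) : ℝ) = -(((Sg (mid y) : ℤˣ) : ℤ) : ℝ) := by
        push_cast
        ring
      rw [e5] at n2
      linarith
    have hconst := hF.apply_eq_of_preconnectedSpace 0 (h.im / g)
    have h4 : h.im / g + h.im / g = 0 + h.im := by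
      rw [hg2']
      push_cast
      ring
    simp only [h4, zero_add] at hconst
    have h5 := hφ 0
    rw [zero_add] at h5
    apply hΔ
    linarith

end Horo
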