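import Pool.Agent.Horo.GDefs

/-!
# (A2) The near map sends a long cylinder to a long cylinder
-/

open Topology Filter Set

namespace Horo

lemma stripmap_isOpen (h : ℂ) (c1 c2 : ℝ) : IsOpen (Strip h c1 c2) := by
  have hc : Continuous (fun ζ : ℂ => ζ.re - h.re / h.im * ζ.im) := by fun_prop
  exact (isOpen_lt continuous_const hc).inter (isOpen_lt hc continuous_const)

lemma stripmap_convex (h : ℂ) (c1 c2 : ℝ) : Convex ℝ (Strip h c1 c2) := by
  have hlin : IsLinearMap ℝ (fun ζ : ℂ => ζ.re - h.re / h.im * ζ.im) := by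
    constructor
    · intro x y; simp; ring
    · intro c x; simp; ring
  exact (convex_Ioo c1 c2).is_linear_preimage hlin

lemma stripmap_mem (h : ℂ) (c1 c2 : ℝ) (ζ : ℂ) : ζ ∈ Strip h c1 c2 ↔
    c1 < ζ.re - h.re / h.im * ζ.im ∧ ζ.re - h.re / h.im * ζ.im < c2 := Iff.rfl

lemma stripmap_add_zsmul {h : ℂ} (hh : h.im ≠ 0) {c1 c2 : ℝ} {ζ : ℂ}
    (hζ : ζ ∈ Strip h c1 c2) (n : ℤ) : ζ + n * h ∈ Strip h c1 c2 := by
  have h1 : (ζ + n * h).re - h.re / h.im * (ζ + n * h).im = ζ.re - h.re / h.im * ζ.im := by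
    have : (ζ + n * h).re = ζ.re + n * h.re := by simp
    rw [this]
    have : (ζ + n * h).im = ζ.im + n * h.im := by simp
    rw [this]
    field_simp
    ring
  rw [stripmap_mem] at hζ ⊢
  rw [h1]
  exact hζ

lemma stripmap_add {h : ℂ} (hh : h.im ≠ 0) {c1 c2 : ℝ} {ζ : ℂ}
    (hζ : ζ ∈ Strip h c1 c2) : ζ + h ∈ Strip h c1 c2 := by
  have := stripmap_add_zsmul hh hζ 1
  simpa using this

/-- the fixed point argument: `z' + g z' = w` has a solution in a ball -/
lemma stripmap_solve (g : ℂ → ℂ) (U : Set ℂ) (ε r : ℝ) (hε : 0 < ε) (hε1 : ε < 1)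
    (hr : 0 ≤ r) (hg : ∀ x ∈ U, ∀ y ∈ U, ‖g x - g y‖ ≤ ε * ‖x - y‖) (z w : ℂ)
    (hball : ∀ y, ‖y - z‖ ≤ r → y ∈ U) (hw : ‖w - g z - z‖ + ε * r ≤ r) :
    ∃ z', z' ∈ U ∧ z' + g z' = w := by
  set s : Set ℂ := Metric.closedBall z r with hs
  have hsc : IsComplete s := Metric.isClosed_closedBall.isComplete
  have hzs : z ∈ s := Metric.mem_closedBall_self hr
  have hmem : ∀ y, y ∈ s → ‖y - z‖ ≤ r := by
    intro y hy
    rw [hs, mem_closedBall_iff_norm] at hy
    exact hy
  have hmaps : MapsTo (fun y => w - g y) s s := by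
    intro y hy
    rw [hs, mem_closedBall_iff_norm]
    have h1 := hmem y hy
    have h2 := hg z (hball z (by simpa using hr)) y (hball y h1)
    have h3 : w - g y - z = (w - g z - z) + (g z - g y) := by ring
    calc ‖w - g y - z‖ ≤ ‖w - g z - z‖ + ‖g z - g y‖ := by rw [h3]; exact norm_add_le _ _
      _ ≤ ‖w - g z - z‖ + ε * r := by
          rw [norm_sub_rev z y] at h2
          have : ε * ‖y - z‖ ≤ ε * r := by gcongr
          linarith
      _ ≤ r := hw
  have hK : ContractingWith ⟨ε, hε.le⟩ (hmaps.restrict (fun y => w - g y) s s) := by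
    refine ⟨by exact_mod_cast hε1, ?_⟩
    apply LipschitzWith.of_dist_le_mul
    intro x y
    have h2 := hg x.1 (hball _ (hmem _ x.2)) y.1 (hball _ (hmem _ y.2))
    rw [Subtype.dist_eq, Subtype.dist_eq, dist_eq_norm, dist_eq_norm]
    show ‖(w - g x.1) - (w - g y.1)‖ ≤ ε * ‖x.1 - y.1‖
    have h3 : (w - g x.1) - (w - g y.1) = - (g x.1 - g y.1) := by ring
    rw [h3, norm_neg]
    exact h2
  obtain ⟨y, hy, hfix, -, -⟩ := hK.exists_fixedPoint' hsc hmaps hzs (edist_ne_top _ _)
  refine ⟨y, hball y (hmem y hy), ?_⟩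
  have hf : w - g y = y := hfix
  linear_combination -hf

/-- the developing map of the image strip -/
lemma stripmap_dev (h1 : Stmt_Glue) {X X' : Type} [TopologicalSpace X] [TopologicalSpace X']
    (A' : AbDiff X') (F : X ≃ₜ X') (U : Set ℂ) (hUo : IsOpen U)
    (hUc : Convex ℝ U) (Φ : ℂ → X) (hΦ : ContinuousOn Φ U) :
    ∃ dev : ℂ → ℂ, ∀ a ∈ U, ∀ᶠ y in 𝓝 a,
      dev y - dev a = A'.P (F (Φ a)) (F (Φ y)) := by
  have hcont : ∀ a ∈ U, ContinuousAt (fun y => F (Φ y)) a := by
    intro a ha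
    exact F.continuous.continuousAt.comp (hΦ.continuousAt (hUo.mem_nhds ha))
  have hP0 : ∀ p : X', A'.P p p = 0 := by
    intro p
    unfold AbDiff.P
    rw [A'.z_self]
    simp
  obtain ⟨g, hg⟩ := h1 U ℂ (fun a y => A'.P (F (Φ a)) (F (Φ y)))
    (fun a => U ∩ (fun y => F (Φ y)) ⁻¹' (A'.z (F (Φ a))).source) hUc hUo
    (by
      intro a ha
      refine ⟨?_, ha, A'.mem_source _⟩
      have hc : ContinuousOn (fun y => F (Φ y)) U := F.continuous.comp_continuousOn hΦ
      exact hc.isOpen_inter_preimage hUo (A'.z (F (Φ a))).open_source)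
    (by
      intro a _ b _ x hx hxa hxb
      have h3 := A'.compat (F (Φ a)) (F (Φ b)) (F (Φ x)) hxa.2 hxb.2
      exact (hcont x hx).eventually h3)
  refine ⟨g, ?_⟩
  intro a ha
  filter_upwards [hg a ha] with y hy
  rw [hy, hP0, sub_zero]

theorem hStrip (h1 : Stmt_Glue) (h2 : Stmt_LocLip) : Stmt_Strip := by
  intro X X' _ _ _ _ A A' F ε hε hε1 hord hnear e α β Φ he1 he2 he3 hβα hαβ hLT hper hinj
  obtain ⟨hΦc, hΦ⟩ := hLT
  set U := Strip e α β with hU
  have hUo : IsOpen U := stripmap_isOpen _ _ _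
  have hUc : Convex ℝ U := stripmap_convex _ _ _
  have heim : e.im ≠ 0 := by linarith
  obtain ⟨dev, hdev⟩ := stripmap_dev h1 A' F U hUo hUc Φ hΦc
  have hcontΦ : ∀ a ∈ U, ContinuousAt Φ a := fun a ha => hΦc.continuousAt (hUo.mem_nhds ha)
  -- the difference to the identity is `ε`-Lipschitz
  set g : ℂ → ℂ := fun z => dev z - z with hgdef
  have hgloc : ∀ a ∈ U, ∀ᶠ xy : ℂ × ℂ in 𝓝 a ×ˢ 𝓝 a,
      ‖g xy.1 - g xy.2‖ ≤ ε * ‖xy.1 - xy.2‖ := by
    intro a ha
    have ht : Tendsto (fun xy : ℂ × ℂ => (Φ xy.1, Φ xy.2)) (𝓝 a ×ˢ 𝓝 a) (𝓝 (Φ a) ×ˢ 𝓝 (Φ a)) :=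
      Tendsto.prodMap (hcontΦ a ha) (hcontΦ a ha)
    have h3 := ht.eventually (hnear (Φ a) (hΦ a ha).1)
    have h4 := (hΦ a ha).2
    have h5 := hdev a ha
    filter_upwards [h3, h4.prod_mk h4, h5.prod_mk h5] with xy k3 k4 k5
    obtain ⟨x, y⟩ := xy
    simp only at k3 k4 k5
    rw [k4.1, k4.2] at k3
    rw [← k5.1, ← k5.2] at k3
    have e1 : g x - g y = (dev x - dev a - (dev y - dev a)) - (x - a - (y - a)) := by
      simp only [hgdef]; ring
    have e2 : x - y = x - a - (y - a) := by ring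
    show ‖g x - g y‖ ≤ ε * ‖x - y‖
    rw [e1, e2]
    exact k3
  have hgL : ∀ x ∈ U, ∀ y ∈ U, ‖g x - g y‖ ≤ ε * ‖x - y‖ := h2 U g ε hUc hUo hε.le hgloc
  have hdevg : ∀ z, dev z = z + g z := by intro z; simp [hgdef]
  -- lower Lipschitz bound
  have hlow : ∀ x ∈ U, ∀ y ∈ U, (1 - ε) * ‖x - y‖ ≤ ‖dev x - dev y‖ := by
    intro x hx y hy
    have k1 := hgL x hx y hy
    have k2 : x - y = (dev x - dev y) - (g x - g y) := by rw [hdevg, hdevg]; ring
    have k3 : ‖x - y‖ ≤ ‖dev x - dev y‖ + ‖g x - g y‖ := by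
      conv_lhs => rw [k2]
      exact norm_sub_le _ _
    linarith
  have hdinj : ∀ x ∈ U, ∀ y ∈ U, dev x = dev y → x = y := by
    intro x hx y hy hxy
    have k1 := hlow x hx y hy
    rw [hxy, sub_self, norm_zero] at k1
    have k2 : ‖x - y‖ ≤ 0 := by
      by_contra hcon
      push Not at hcon
      have : 0 < (1 - ε) * ‖x - y‖ := mul_pos (by linarith) hcon
      linarith
    exact sub_eq_zero.mp (norm_le_zero_iff.mp k2)
  -- the base point
  set z0 : ℂ := (((α + β) / 2 : ℝ) : ℂ) with hz0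
  have hz0re : z0.re = (α + β) / 2 := Complex.ofReal_re _
  have hz0im : z0.im = 0 := Complex.ofReal_im _
  have hz0U : z0 ∈ U := by
    rw [hU, stripmap_mem, hz0re, hz0im]
    constructor <;> linarith
  -- the period
  set h : ℂ := dev (z0 + e) - dev z0 with hh
  have hUe : ∀ z ∈ U, z + e ∈ U := fun z hz => stripmap_add heim hz
  have hDloc : ∀ a ∈ U, ∀ᶠ xy : ℂ × ℂ in 𝓝 a ×ˢ 𝓝 a,
      ‖(dev (xy.1 + e) - dev xy.1) - (dev (xy.2 + e) - dev xy.2)‖ ≤ 0 * ‖xy.1 - xy.2‖ := by
    intro a ha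
    have h5 := hdev a ha
    have h6 : ∀ᶠ y in 𝓝 a, dev (y + e) - dev (a + e) = A'.P (F (Φ (a + e))) (F (Φ (y + e))) := by
      have hc : Tendsto (fun y : ℂ => y + e) (𝓝 a) (𝓝 (a + e)) := by
        have : Continuous (fun y : ℂ => y + e) := by fun_prop
        exact this.tendsto a
      exact hc.eventually (hdev (a + e) (hUe a ha))
    have h7 : ∀ᶠ y in 𝓝 a, dev (y + e) - dev y = dev (a + e) - dev a := by
      filter_upwards [h5, h6, hUo.mem_nhds ha] with y k5 k6 k7
      rw [hper a ha, hper y k7, ← k5] at k6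
      linear_combination k6
    filter_upwards [h7.prod_mk h7] with xy k
    rw [k.1, k.2]
    simp
  have hDc : ∀ z ∈ U, dev (z + e) = dev z + h := by
    intro z hz
    have k := h2 U (fun z => dev (z + e) - dev z) 0 hUc hUo le_rfl hDloc z hz z0 hz0U
    rw [zero_mul] at k
    have k2 := sub_eq_zero.mp (norm_le_zero_iff.mp k)
    rw [hh, ← k2]
    ring
  have hDz : ∀ n : ℤ, ∀ z ∈ U, dev (z + n * e) = dev z + n * h := by
    intro n
    induction n using Int.induction_on with
    | zero => intro z _; simp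
    | succ n ih =>
      intro z hz
      have k1 := ih z hz
      have k2 := hDc (z + ((n : ℤ) : ℂ) * e) (stripmap_add_zsmul heim hz n)
      have e1 : z + ((n + 1 : ℤ) : ℂ) * e = z + ((n : ℤ) : ℂ) * e + e := by push_cast; ring
      rw [e1, k2, k1]
      push_cast
      ring
    | pred n ih =>
      intro z hz
      have k1 := ih z hz
      have k2 := hDc (z + ((-n - 1 : ℤ) : ℂ) * e) (stripmap_add_zsmul heim hz (-n - 1))
      have e1 : z + ((-n - 1 : ℤ) : ℂ) * e + e = z + ((-n : ℤ) : ℂ) * e := by push_cast; ring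
      rw [e1, k1] at k2
      push_cast at k2 ⊢
      linear_combination -k2
  -- norm estimates
  have hnorme : ‖e‖ ≤ 12 / 10 := by
    have := Complex.norm_le_abs_re_add_abs_im e
    have h3 : |e.im| ≤ 11 / 10 := by rw [abs_le]; constructor <;> linarith
    linarith
  have hhe : ‖h - e‖ ≤ 12 / 10 * ε := by
    have k1 := hgL (z0 + e) (hUe z0 hz0U) z0 hz0U
    have k2 : g (z0 + e) - g z0 = h - e := by simp only [hgdef, hh]; ring
    rw [k2] at k1
    have k3 : z0 + e - z0 = e := by ring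
    rw [k3] at k1
    nlinarith
  have hre : |h.re - e.re| ≤ 12 / 10 * ε := by
    have := Complex.abs_re_le_norm (h - e)
    rw [Complex.sub_re] at this
    linarith
  have him : |h.im - e.im| ≤ 12 / 10 * ε := by
    have := Complex.abs_im_le_norm (h - e)
    rw [Complex.sub_im] at this
    linarith
  rw [abs_le] at hre him he3
  have hhim : 8 / 10 < h.im := by linarith [him.1]
  have hhim0 : h.im ≠ 0 := by linarith
  have hhim2 : h.im ≤ 112 / 100 := by linarith [him.2]
  set V := Strip h (α + 10 * ε) (β - 10 * ε) with hV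
  have hVo : IsOpen V := stripmap_isOpen _ _ _
  set c : ℂ := g z0 with hc
  -- surjectivity
  have hsurj : ∀ ζ ∈ V, ∃ u, u ∈ U ∧ dev u = ζ + c := by
    intro ζ hζ
    set l : ℤ := ⌊ζ.im / h.im⌋ with hl
    set z : ℂ := ζ + ((-l : ℤ) : ℂ) * h with hz
    have hzV : z ∈ V := stripmap_add_zsmul hhim0 hζ (-l)
    have hzim : z.im = ζ.im - l * h.im := by
      rw [hz]; simp; ring
    have hz1 : 0 ≤ z.im := by
      rw [hzim]
      have := Int.floor_le (ζ.im / h.im)
      rw [le_div_iff₀ (by linarith)] at this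
      linarith
    have hz2 : z.im < h.im := by
      rw [hzim]
      have := Int.lt_floor_add_one (ζ.im / h.im)
      rw [div_lt_iff₀ (by linarith)] at this
      rw [← hl] at this
      linarith
    -- slopes
    have hslope : |e.re / e.im| ≤ 1 / 9 := by
      rw [abs_div, div_le_iff₀ (by positivity)]
      rw [abs_of_pos (show 0 < e.im by linarith)]
      have : |e.re| ≤ 1 / 10 := by rw [abs_le]; exact he3
      linarith
    have hsl : |h.re / h.im * z.im - e.re / e.im * z.im| ≤ 16 / 10 * ε := by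
      have e1 : h.re / h.im * z.im - e.re / e.im * z.im
          = (z.im / h.im) * ((h.re - e.re) - e.re / e.im * (h.im - e.im)) := by
        field_simp
        ring
      have k1 : |z.im / h.im| ≤ 1 := by
        rw [abs_of_nonneg (div_nonneg hz1 (by linarith)), div_le_one (by linarith)]
        exact hz2.le
      have k2 : |e.re / e.im * (h.im - e.im)| ≤ 1 / 9 * (12 / 10 * ε) := by
        rw [abs_mul]
        have : |h.im - e.im| ≤ 12 / 10 * ε := by rw [abs_le]; exact him
        gcongr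
      have k3 : |(h.re - e.re) - e.re / e.im * (h.im - e.im)| ≤ 16 / 10 * ε := by
        rw [abs_le] at k2 ⊢
        constructor
        · linarith [k2.2, hre.1]
        · linarith [k2.1, hre.2]
      rw [e1, abs_mul]
      calc |z.im / h.im| * |(h.re - e.re) - e.re / e.im * (h.im - e.im)|
          ≤ 1 * (16 / 10 * ε) := by gcongr
        _ = 16 / 10 * ε := one_mul _
    have hxi := hzV
    rw [hV, stripmap_mem] at hxi
    rw [abs_le] at hsl
    have hxe1 : α + 84 / 10 * ε < z.re - e.re / e.im * z.im := by linarith [hxi.1, hsl.1]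
    have hxe2 : z.re - e.re / e.im * z.im < β - 84 / 10 * ε := by linarith [hxi.2, hsl.2]
    have hball : ∀ y, ‖y - z‖ ≤ 4 * ε → y ∈ U := by
      intro y hy
      have k1 : |y.re - z.re| ≤ 4 * ε := by
        have := Complex.abs_re_le_norm (y - z)
        rw [Complex.sub_re] at this
        linarith
      have k2 : |y.im - z.im| ≤ 4 * ε := by
        have := Complex.abs_im_le_norm (y - z)
        rw [Complex.sub_im] at this
        linarith
      have k3 : |e.re / e.im * (y.im - z.im)| ≤ 1 / 9 * (4 * ε) := by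
        rw [abs_mul]
        gcongr
      rw [abs_le] at k1 k3
      rw [hU, stripmap_mem]
      have e1 : y.re - e.re / e.im * y.im = (z.re - e.re / e.im * z.im) + (y.re - z.re)
        - e.re / e.im * (y.im - z.im) := by ring
      rw [e1]
      constructor
      · linarith [k1.1, k3.2]
      · linarith [k1.2, k3.1]
    have hzU : z ∈ U := hball z (by simp; linarith)
    have hdist : ‖z - z0‖ ≤ 18 / 10 := by
      have k0 := Complex.norm_le_abs_re_add_abs_im (z - z0)
      rw [Complex.sub_re, Complex.sub_im, hz0re, hz0im, sub_zero] at k0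
      have k1 : |z.im| ≤ 112 / 100 := by rw [abs_le]; constructor <;> linarith
      have k2 : |e.re / e.im * z.im| ≤ 1 / 9 * (112 / 100) := by
        rw [abs_mul]; gcongr
      have k3 : |z.re - (α + β) / 2| ≤ 55 / 100 + 1 / 9 * (112 / 100) := by
        rw [abs_le] at k2 ⊢
        constructor
        · linarith [k2.1, k2.2]
        · linarith [k2.1, k2.2]
      linarith
    obtain ⟨z', hz'U, hz'⟩ := stripmap_solve g U ε (4 * ε) hε (by linarith) (by linarith) hgL z
      (z + c) hball (by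
        have k1 := hgL z0 hz0U z hzU
        have e1 : z + c - g z - z = g z0 - g z := by rw [hc]; ring
        rw [e1]
        rw [norm_sub_rev z0 z] at k1
        have k2 : ε * ‖z - z0‖ ≤ ε * (18 / 10) := by gcongr
        nlinarith)
    refine ⟨z' + l * e, stripmap_add_zsmul heim hz'U l, ?_⟩
    rw [hDz l z' hz'U, hdevg, hz', hz]
    push_cast
    ring
  -- the inverse
  choose! dinv hdinvU hdinvdev using hsurj
  have hdc : ContinuousOn dinv V := by
    have hL : LipschitzOnWith 2 dinv V := by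
      apply LipschitzOnWith.of_dist_le_mul
      intro x hx y hy
      rw [dist_eq_norm, dist_eq_norm]
      have k1 := hlow (dinv x) (hdinvU x hx) (dinv y) (hdinvU y hy)
      rw [hdinvdev x hx, hdinvdev y hy] at k1
      have e1 : x + c - (y + c) = x - y := by ring
      rw [e1] at k1
      have k2 : 1 / 2 * ‖dinv x - dinv y‖ ≤ (1 - ε) * ‖dinv x - dinv y‖ := by
        gcongr
        linarith
      show ‖dinv x - dinv y‖ ≤ 2 * ‖x - y‖
      linarith
    exact hL.continuousOn
  refine ⟨h, fun ζ => F (Φ (dinv ζ)), by linarith, ⟨?_, ?_⟩, ?_, ?_⟩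
  · exact F.continuous.comp_continuousOn (hΦc.comp hdc hdinvU)
  · intro ζ hζ
    refine ⟨hord _ (hΦ _ (hdinvU ζ hζ)).1, ?_⟩
    have hca : ContinuousAt dinv ζ := hdc.continuousAt (hVo.mem_nhds hζ)
    filter_upwards [hca.eventually (hdev (dinv ζ) (hdinvU ζ hζ)), hVo.mem_nhds hζ] with ζ' k1 k2
    rw [← k1, hdinvdev ζ hζ, hdinvdev ζ' k2]
    ring
  · intro ζ hζ
    have hζ' : ζ + h ∈ V := stripmap_add hhim0 hζ
    have k1 : dinv (ζ + h) = dinv ζ + e := by
      apply hdinj _ (hdinvU _ hζ') _ (hUe _ (hdinvU ζ hζ))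
      rw [hdinvdev _ hζ', hDc _ (hdinvU ζ hζ), hdinvdev ζ hζ]
      ring
    show F (Φ (dinv (ζ + h))) = F (Φ (dinv ζ))
    rw [k1, hper _ (hdinvU ζ hζ)]
  · intro ζ hζ ζ' hζ' heq
    obtain ⟨n, hn⟩ := hinj _ (hdinvU ζ hζ) _ (hdinvU ζ' hζ') (F.injective heq)
    refine ⟨n, ?_⟩
    have k1 := hDz n _ (hdinvU ζ hζ)
    rw [← hn, hdinvdev ζ hζ, hdinvdev ζ' hζ'] at k1
    linear_combination k1

end Horo
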