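import Pool.Agent.Horo.GDefs

/-!
# Part I: the straight cylinders of the surface
-/

open Topology Filter

namespace Horo

lemma surfstrip_int {θ ys a2 : ℝ} {G : ℝ → ℝ} (hG : Coc θ ys a2 G) (u : ℝ) (n : ℤ) :
    G (u + n) = G u + n * a2 := by
  induction n using Int.induction_on with
  | zero => simp
  | succ n ih =>
    have h1 : u + ((n + 1 : ℤ) : ℝ) = (u + (n : ℤ)) + 1 := by
      push_cast
      ring
    rw [h1, hG.per, ih]
    push_cast
    ring
  | pred n ih =>
    have h1 : u + ((-(n : ℤ) : ℤ) : ℝ) = (u + ((-(n : ℤ) - 1 : ℤ) : ℝ)) + 1 := by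
      push_cast
      ring
    rw [h1, hG.per] at ih
    push_cast at ih ⊢
    linarith

lemma surfstrip_bound {θ ys a2 : ℝ} {G : ℝ → ℝ} (hG : Coc θ ys a2 G) (h0 : 0 ≤ a2) (h1 : a2 ≤ 1)
    (u : ℝ) : |a2 * u - G u| ≤ 2 := by
  have h2 := surfstrip_int hG (Int.fract u) ⌊u⌋
  rw [Int.fract_add_floor] at h2
  have h3 : a2 * u - G u = a2 * Int.fract u - G (Int.fract u) := by
    rw [h2]
    have h4 : a2 * u = a2 * (Int.fract u + ⌊u⌋) := by rw [Int.fract_add_floor]
    rw [h4]
    ring
  rw [h3]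
  have h4 := hG.lip (Int.fract u) 0
  rw [hG.zero, sub_zero, sub_zero] at h4
  have h5 := Int.fract_nonneg u
  have h6 := (Int.fract_lt_one u).le
  rw [abs_of_nonneg h5] at h4
  refine (abs_sub _ _).trans ?_
  rw [abs_of_nonneg (mul_nonneg h0 h5)]
  have h7 : a2 * Int.fract u ≤ 1 := by nlinarith
  linarith

lemma surfstrip_sign (σ : ℤˣ) : |((σ : ℤ) : ℝ)| = 1 := by
  rcases Int.units_eq_one_or σ with h | h
  · rw [h]; simp
  · rw [h]; simp

theorem hSurfStrip : Stmt_SurfStrip := by
  intro B _ r θ ys x0 L t a2 G S hr hG hx0 hL ht hsm ha0 ha1 i σ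
  have hri : 0 < r i := lt_of_lt_of_le one_pos (hr i).1
  set e : ℂ := ⟨((σ : ℤ) : ℝ) * t * a2, r i⟩ with he
  have hre : ∀ ζ ∈ Strip e (x0 + L + 3 * t) (1 - (x0 + L + 3 * t)),
      x0 + L < (fl t (r i) G σ ζ).re ∧ (fl t (r i) G σ ζ).re < 1 := by
    intro ζ hζ
    have h1 := surfstrip_bound hG ha0 ha1 (ζ.im / r i)
    have h2 : (fl t (r i) G σ ζ).re = (ζ.re - e.re / e.im * ζ.im) +
        t * (((σ : ℤ) : ℝ) * (a2 * (ζ.im / r i) - G (ζ.im / r i))) := by
      simp only [fl, he]
      field_simp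
      ring
    have h3 : |t * (((σ : ℤ) : ℝ) * (a2 * (ζ.im / r i) - G (ζ.im / r i)))| ≤ 2 * t := by
      rw [abs_mul, abs_mul, surfstrip_sign, one_mul, abs_of_pos ht]
      nlinarith
    have h4 := abs_le.mp h3
    have h5 := hζ.1
    have h6 := hζ.2
    rw [h2]
    constructor
    · linarith [h4.1]
    · linarith [h4.2]
  have hns : ∀ ζ ∈ Strip e (x0 + L + 3 * t) (1 - (x0 + L + 3 * t)),
      Nonsing θ ys x0 L (fl t (r i) G σ ζ) := by
    intro ζ hζ k l
    obtain ⟨h1, h2⟩ := hre ζ hζ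
    refine ⟨fun h => ?_, fun h => ?_, fun h => ?_, fun h => ?_⟩
    · have h3 : (fl t (r i) G σ ζ).re = (k : ℝ) := by
        rw [h]
        rfl
      rw [h3] at h1 h2
      have h4 : 0 < k := by
        have : (0 : ℝ) < k := by linarith
        exact_mod_cast this
      have h5 : k < 1 := by exact_mod_cast h2
      omega
    · have h3 : (fl t (r i) G σ ζ).re = (k : ℝ) := by
        rw [h]
        simp [lat]
      rw [h3] at h1 h2
      have h4 : 0 < k := by
        have : (0 : ℝ) < k := by linarith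
        exact_mod_cast this
      have h5 : k < 1 := by exact_mod_cast h2
      omega
    · have h3 : (fl t (r i) G σ ζ).re = x0 + (k : ℝ) := by
        rw [h]
        simp [lat]
      rw [h3] at h1 h2
      have h4 : 0 < k := by
        have : (0 : ℝ) < k := by linarith
        exact_mod_cast this
      have h5 : k < 1 := by
        have : (k : ℝ) < 1 := by linarith
        exact_mod_cast this
      omega
    · have h3 : (fl t (r i) G σ ζ).re = x0 + L + (k : ℝ) := by
        rw [h]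
        simp [lat]
      rw [h3] at h1 h2
      have h4 : 0 < k := by
        have : (0 : ℝ) < k := by linarith
        exact_mod_cast this
      have h5 : k < 1 := by
        have : (k : ℝ) < 1 := by linarith
        exact_mod_cast this
      omega
  refine ⟨fun Z => S.pt i σ (fl t (r i) G σ Z), ?_, ?_, ?_⟩
  · have h1 := S.cell i σ
    have h2 : Strip e (x0 + L + 3 * t) (1 - (x0 + L + 3 * t)) ⊆
        {Z | 0 < (fl t (r i) G σ Z).re ∧ (fl t (r i) G σ Z).re < 1 ∧
      ¬ (x0 ≤ (fl t (r i) G σ Z).re ∧ (fl t (r i) G σ Z).re ≤ x0 + L ∧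
        ∃ l : ℤ, (fl t (r i) G σ Z).im = l)} := by
      intro ζ hζ
      obtain ⟨h3, h4⟩ := hre ζ hζ
      exact ⟨by linarith, h4, fun h5 => by linarith [h5.2.1]⟩
    exact ⟨h1.1.mono h2, fun ζ hζ => h1.2 ζ (h2 hζ)⟩
  · intro ζ hζ
    have h1 : fl t (r i) G σ (ζ + e) = fl t (r i) G σ ζ + lat θ 0 1 := by
      have h2 : (ζ + e).im / r i = ζ.im / r i + 1 := by
        rw [Complex.add_im, he]
        field_simp
      have h3 : (ζ + e).re = ζ.re + ((σ : ℤ) : ℝ) * t * a2 := rfl
      apply Complex.ext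
      · have h4 : (fl t (r i) G σ (ζ + e)).re =
            (ζ + e).re - t * ((σ : ℤ) : ℝ) * G ((ζ + e).im / r i) := rfl
        have h5 : (fl t (r i) G σ ζ + lat θ 0 1).re =
            ζ.re - t * ((σ : ℤ) : ℝ) * G (ζ.im / r i) + ((0 : ℤ) : ℝ) := rfl
        rw [h4, h5, h2, h3, hG.per]
        push_cast
        ring
      · have h4 : (fl t (r i) G σ (ζ + e)).im = (ζ + e).im / r i := rfl
        have h5 : (fl t (r i) G σ ζ + lat θ 0 1).im =
            ζ.im / r i + (((0 : ℤ) : ℝ) * θ + ((1 : ℤ) : ℝ)) := rfl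
        rw [h4, h5, h2]
        push_cast
        ring
    show S.pt i σ _ = S.pt i σ _
    rw [h1, S.per]
  · intro ζ hζ ζ' hζ' h
    obtain ⟨-, -, k, l, h1⟩ := S.inj i σ _ i σ _ (hns ζ hζ) (hns ζ' hζ') h
    obtain ⟨a1, a2'⟩ := hre ζ hζ
    obtain ⟨b1, b2⟩ := hre ζ' hζ'
    have h2 : (fl t (r i) G σ ζ').re = (fl t (r i) G σ ζ).re + k := by
      rw [h1]
      simp [lat]
    have hk : k = 0 := by
      have h3 : (k : ℝ) < 1 := by linarith
      have h4 : (-1 : ℝ) < k := by linarith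
      have h5 : k < 1 := by exact_mod_cast h3
      have h6 : -1 < k := by exact_mod_cast h4
      omega
    subst hk
    have h3 : (fl t (r i) G σ ζ').im = (fl t (r i) G σ ζ).im + l := by
      rw [h1]
      simp [lat]
    have h4 : ζ'.im / r i = ζ.im / r i + l := h3
    refine ⟨l, ?_⟩
    apply Complex.ext
    · have h5 : ζ'.re - t * ((σ : ℤ) : ℝ) * G (ζ'.im / r i) =
          ζ.re - t * ((σ : ℤ) : ℝ) * G (ζ.im / r i) + ((0 : ℤ) : ℝ) := h2
      rw [h4, surfstrip_int hG] at h5
      rw [Complex.add_re, Complex.mul_re, he]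
      simp only [Complex.intCast_re, Complex.intCast_im]
      push_cast at h5
      linear_combination h5
    · rw [Complex.add_im, Complex.mul_im, he]
      simp only [Complex.intCast_re, Complex.intCast_im]
      field_simp at h4
      linarith

end Horo
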