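import Pool.Agent.Horo.GDefs

/-! (A5): the lattice of a lifted wide strip has no short vector. -/

namespace Horo

theorem systole_unit (u : Fin 3 → ℤˣ) : ∃ i j : Fin 3, i < j ∧ u i = u j := by
  rcases Int.units_eq_one_or (u 0) with h0 | h0 <;> rcases Int.units_eq_one_or (u 1) with h1 | h1 <;>
    rcases Int.units_eq_one_or (u 2) with h2 | h2
  · exact ⟨0, 1, by decide, by rw [h0, h1]⟩
  · exact ⟨0, 1, by decide, by rw [h0, h1]⟩
  · exact ⟨0, 2, by decide, by rw [h0, h2]⟩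
  · exact ⟨1, 2, by decide, by rw [h1, h2]⟩
  · exact ⟨1, 2, by decide, by rw [h1, h2]⟩
  · exact ⟨0, 2, by decide, by rw [h0, h2]⟩
  · exact ⟨0, 1, by decide, by rw [h0, h1]⟩
  · exact ⟨0, 1, by decide, by rw [h0, h1]⟩

theorem hSystole : Stmt_Systole := by
  intro θ ys s t G h c1 c2 φ Sg c0 hL ht ht' hc hre him him' k l hk hl
  have him0 := hL.him
  set b : ℝ := (k : ℝ) * θ + l with hb
  set a : ℝ := (k : ℝ) + s * b with ha
  -- the three points
  set Z : ℕ → ℂ := fun i => ⟨(c1 + c2) / 2 + (i * a + t * (φ (i * b) - φ 0)), i * b⟩ with hZ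
  have hφ : ∀ i j : ℕ, |φ (i * b) - φ (j * b)| ≤ |(i : ℝ) - j| * |b| := by
    intro i j
    have := hL.lip (i * b) (j * b)
    rw [← sub_mul, abs_mul] at this
    exact this
  have hmem : ∀ i : ℕ, i ≤ 2 → Z i ∈ Strip h c1 c2 := by
    intro i hi
    have hi' : (i : ℝ) ≤ 2 := by exact_mod_cast hi
    have hi0 : (0 : ℝ) ≤ i := Nat.cast_nonneg i
    have h1 : |(i : ℝ) * a| ≤ 1 / 10 := by
      rw [abs_mul, abs_of_nonneg hi0]
      calc (i : ℝ) * |a| ≤ 2 * (1 / 20) := mul_le_mul hi' hk (abs_nonneg _) (by norm_num)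
        _ = 1 / 10 := by norm_num
    have h2 : |(i : ℝ) * b| ≤ 1 / 10 := by
      rw [abs_mul, abs_of_nonneg hi0]
      calc (i : ℝ) * |b| ≤ 2 * (1 / 20) := mul_le_mul hi' hl (abs_nonneg _) (by norm_num)
        _ = 1 / 10 := by norm_num
    have h3 : |t * (φ (i * b) - φ 0)| ≤ 1 / 1000 := by
      rw [abs_mul, abs_of_pos ht]
      have h4 := hL.lip (i * b) 0
      rw [sub_zero] at h4
      calc t * |φ (i * b) - φ 0| ≤ (1 / 100) * (1 / 10) :=
            mul_le_mul ht' (h4.trans h2) (abs_nonneg _) (by norm_num)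
        _ = 1 / 1000 := by norm_num
    have h4 : |h.re / h.im * (i * b)| ≤ 1 / 50 := by
      rw [abs_mul, abs_div, abs_of_pos him0]
      have h5 : |h.re| / h.im ≤ 1 / 9 := by
        rw [div_le_div_iff₀ him0 (by norm_num)]
        linarith
      calc |h.re| / h.im * |(i : ℝ) * b| ≤ (1 / 9) * (1 / 10) :=
            mul_le_mul h5 h2 (abs_nonneg _) (by norm_num)
        _ ≤ 1 / 50 := by norm_num
    have e1 := abs_le.mp h1
    have e3 := abs_le.mp h3
    have e4 := abs_le.mp h4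
    constructor
    · show c1 < (c1 + c2) / 2 + (i * a + t * (φ (i * b) - φ 0)) - h.re / h.im * (i * b)
      linarith [e1.1, e3.1, e4.2]
    · show (c1 + c2) / 2 + (i * a + t * (φ (i * b) - φ 0)) - h.re / h.im * (i * b) < c2
      linarith [e1.2, e3.2, e4.1]
  have hPP : ∀ i j : ℕ, PP s t φ c0 (Z j) = PP s t φ c0 (Z i) +
      lat θ (((j : ℤ) - i) * k) (((j : ℤ) - i) * l) := by
    intro i j
    apply Complex.ext
    · show (c1 + c2) / 2 + (j * a + t * (φ (j * b) - φ 0)) - s * (j * b) - t * φ (j * b) + c0.re =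
        (c1 + c2) / 2 + (i * a + t * (φ (i * b) - φ 0)) - s * (i * b) - t * φ (i * b) + c0.re +
          ((((j : ℤ) - i) * k : ℤ) : ℝ)
      push_cast
      rw [ha]
      ring
    · show (j : ℝ) * b + c0.im = (i : ℝ) * b + c0.im + (((((j : ℤ) - i) * k : ℤ) : ℝ) * θ +
        ((((j : ℤ) - i) * l : ℤ) : ℝ))
      push_cast
      rw [hb]
      ring
  obtain ⟨i, j, hij, hu⟩ := systole_unit (fun i => Sg (Z i))
  have hi2 : (i : ℕ) ≤ 2 := by omega
  have hj2 : (j : ℕ) ≤ 2 := by omega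
  have hij' : (i : ℕ) < j := hij
  obtain ⟨n, hn⟩ := hL.inj (Z i) (hmem i hi2) (Z j) (hmem j hj2) ⟨_, _, hPP i j⟩ hu.symm
  have hd : (0 : ℝ) < ((j : ℕ) : ℝ) - ((i : ℕ) : ℝ) := by
    have : ((i : ℕ) : ℝ) < ((j : ℕ) : ℝ) := by exact_mod_cast hij'
    linarith
  have hd2 : ((j : ℕ) : ℝ) - ((i : ℕ) : ℝ) ≤ 2 := by
    have h1 : ((j : ℕ) : ℝ) ≤ 2 := by exact_mod_cast hj2
    have h2 : (0 : ℝ) ≤ ((i : ℕ) : ℝ) := Nat.cast_nonneg _
    linarith
  have him1 : ((j : ℕ) : ℝ) * b = ((i : ℕ) : ℝ) * b + n * h.im := by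
    have := congrArg Complex.im hn
    simpa [hZ] using this
  have hre1 : (c1 + c2) / 2 + (((j : ℕ) : ℝ) * a + t * (φ (((j : ℕ) : ℝ) * b) - φ 0)) =
      (c1 + c2) / 2 + (((i : ℕ) : ℝ) * a + t * (φ (((i : ℕ) : ℝ) * b) - φ 0)) + n * h.re := by
    have := congrArg Complex.re hn
    simpa [hZ] using this
  have hn0 : n = 0 := by
    by_contra hne
    have h1 : (1 : ℝ) ≤ |(n : ℝ)| := by
      rw [← Int.cast_abs]
      exact_mod_cast Int.one_le_abs hne
    have h2 : (((j : ℕ) : ℝ) - ((i : ℕ) : ℝ)) * b = n * h.im := by linarith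
    have h3 : |(((j : ℕ) : ℝ) - ((i : ℕ) : ℝ)) * b| ≤ 1 / 10 := by
      rw [abs_mul, abs_of_pos hd]
      calc (((j : ℕ) : ℝ) - ((i : ℕ) : ℝ)) * |b| ≤ 2 * (1 / 20) :=
            mul_le_mul hd2 hl (abs_nonneg _) (by norm_num)
        _ = 1 / 10 := by norm_num
    rw [h2, abs_mul, abs_of_pos him0] at h3
    have h4 : 1 * (9 / 10) ≤ |(n : ℝ)| * h.im :=
      mul_le_mul h1 him (by norm_num) (abs_nonneg _)
    linarith
  rw [hn0] at him1 hre1
  simp only [Int.cast_zero, zero_mul, add_zero] at him1 hre1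
  have hb0 : b = 0 := by
    have : (((j : ℕ) : ℝ) - ((i : ℕ) : ℝ)) * b = 0 := by linarith
    rcases mul_eq_zero.mp this with h1 | h1
    · exact absurd h1 hd.ne'
    · exact h1
  rw [hb0] at hre1
  simp only [mul_zero, sub_self, add_zero] at hre1
  have ha0 : a = 0 := by
    have : (((j : ℕ) : ℝ) - ((i : ℕ) : ℝ)) * a = 0 := by linarith
    rcases mul_eq_zero.mp this with h1 | h1
    · exact absurd h1 hd.ne'
    · exact h1
  have hk0 : (k : ℝ) = 0 := by
    rw [ha, hb0, mul_zero, add_zero] at ha0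
    exact ha0
  have hk0' : k = 0 := by exact_mod_cast hk0
  have hl0 : (l : ℝ) = 0 := by
    rw [hb, hk0, zero_mul, zero_add] at hb0
    exact hb0
  exact ⟨hk0', by exact_mod_cast hl0⟩

end Horo
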