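import Pool.Agent.Horo.GDefs

/-! # (A8), first part: the width of the strip -/

set_option autoImplicit false

namespace Horo

/-- a Lipschitz function minus its drift varies by at most one period -/
theorem width_psi (φ : ℝ → ℝ) (P Δ : ℝ) (hP : 0 < P) (hlip : ∀ y y', |φ y - φ y'| ≤ |y - y'|)
    (hper : ∀ y, φ (y + P) = φ y + Δ) (hΔ : |Δ| ≤ P) (y y' : ℝ) :
    |(φ y - Δ / P * y) - (φ y' - Δ / P * y')| ≤ P := by
  have hpsi : Function.Periodic (fun y => φ y - Δ / P * y) P := by
    intro x
    show φ (x + P) - Δ / P * (x + P) = φ x - Δ / P * x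
    rw [hper]
    field_simp
    ring
  set n : ℤ := round ((y - y') / P) with hn
  have h1 := hpsi.int_mul n y'
  have h1' : φ (y' + n * P) - Δ / P * (y' + n * P) = φ y' - Δ / P * y' := h1
  have h2 : |(y - y') / P - n| ≤ 1 / 2 := abs_sub_round _
  have h3 : |y - (y' + n * P)| ≤ P / 2 := by
    have e : y - (y' + n * P) = ((y - y') / P - n) * P := by
      field_simp
      ring
    rw [e, abs_mul, abs_of_pos hP]
    nlinarith
  have h4 : |Δ / P| ≤ 1 := by
    rw [abs_div, abs_of_pos hP, div_le_one hP]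
    exact hΔ
  rw [← h1']
  have e : (φ y - Δ / P * y) - (φ (y' + n * P) - Δ / P * (y' + n * P)) =
      (φ y - φ (y' + n * P)) - Δ / P * (y - (y' + n * P)) := by ring
  rw [e]
  refine (abs_sub _ _).trans ?_
  rw [abs_mul]
  have h5 := hlip y (y' + n * P)
  have h6 := mul_le_mul_of_nonneg_right h4 (abs_nonneg (y - (y' + n * P)))
  linarith

theorem hWidth (h : Stmt_Period) : Stmt_Width := by
  intro θ ys s t G h' c1 c2 φ Sg c0 L ht ht1 hc hre him1 him2 k l hkl hPP
  by_contra hcon
  push Not at hcon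
  have him : 0 < h'.im := L.him
  obtain ⟨k', l', Δ, hper, hΔ, hPP', e1, e2⟩ :=
    h θ ys s t G h' c1 c2 φ Sg c0 L (by linarith) ht
  have hlat : lat θ k l = lat θ k' l' := by
    have a1 := hPP 0
    have a2 := hPP' 0
    rw [a1] at a2
    exact add_left_cancel a2
  have hk : (k : ℝ) = k' := congrArg Complex.re hlat
  have hl : (k : ℝ) * θ + l = k' * θ + l' := congrArg Complex.im hlat
  rw [← hl] at e1 e2
  rw [← hk] at e1
  rw [e2] at e1
  -- the slope coordinate
  set C : ℝ := c0.re - k / h'.im * c0.im with hC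
  set ψ : ℝ → ℝ := fun y => φ y - Δ / h'.im * y with hψ
  have hψv : ∀ y y', |ψ y - ψ y'| ≤ h'.im := fun y y' =>
    width_psi φ h'.im Δ him L.lip hper hΔ y y'
  set κ1 : ℝ := c1 + C - t * ψ 0 + 11 / 10 * t with hκ1
  set κ2 : ℝ := c2 + C - t * ψ 0 - 11 / 10 * t with hκ2
  have hk' : (k : ℝ) = h'.re - t * Δ - s * h'.im := by linarith
  -- every point of the slope strip is in the image
  have key : ∀ z : ℂ, κ1 < z.re - k / h'.im * z.im → z.re - k / h'.im * z.im < κ2 →
      ∃ ζ ∈ Strip h' c1 c2, PP s t φ c0 ζ = z := by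
    intro z hz1 hz2
    set y := z.im - c0.im with hy
    refine ⟨⟨z.re + s * y + t * φ y - c0.re, y⟩, ?_, ?_⟩
    · have hb := hψv y 0
      rw [abs_le] at hb
      have g1 := mul_le_mul_of_nonneg_left hb.1 ht.le
      have g2 := mul_le_mul_of_nonneg_left hb.2 ht.le
      have g3 : t * h'.im ≤ t * (11 / 10) := mul_le_mul_of_nonneg_left him2 ht.le
      have e : z.re + s * y + t * φ y - c0.re - h'.re / h'.im * y =
          (z.re - k / h'.im * z.im) + t * ψ y - C := by
        simp only [hψ, hC, hy]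
        rw [hk']
        field_simp
        ring
      show c1 < z.re + s * y + t * φ y - c0.re - h'.re / h'.im * y ∧
        z.re + s * y + t * φ y - c0.re - h'.re / h'.im * y < c2
      rw [e]
      constructor
      · simp only [hκ1] at hz1
        linarith
      · simp only [hκ2] at hz2
        linarith
    · unfold PP
      apply Complex.ext
      · simp only [Complex.add_re]
        ring
      · simp only [Complex.add_im, hy]
        ring
  -- a lattice point
  obtain ⟨a, b, hab⟩ := hkl
  set N : ℤ := ⌊κ1 * h'.im⌋ + 1 with hN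
  have hN1 : κ1 * h'.im < N := by
    rw [hN]
    push_cast
    exact Int.lt_floor_add_one _
  have hN2 : (N : ℝ) ≤ κ1 * h'.im + 1 := by
    rw [hN]
    push_cast
    linarith [Int.floor_le (κ1 * h'.im)]
  have hN3 : (N : ℝ) < κ2 * h'.im := by
    have : κ2 - κ1 = c2 - c1 - 11 / 5 * t := by
      simp only [hκ1, hκ2]
      ring
    have g : (κ2 - κ1) * h'.im = h'.im * (c2 - c1 - 5 * t) + 14 / 5 * t * h'.im := by
      rw [this]
      ring
    have g2 : 0 < t * h'.im := mul_pos ht him
    nlinarith
  have hξ : (lat θ (N * b) (-(N * a))).re - k / h'.im * (lat θ (N * b) (-(N * a))).im =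
      N / h'.im := by
    have hab' : (a : ℝ) * k + b * l = 1 := by exact_mod_cast hab
    simp only [lat]
    push_cast
    rw [eq_div_iff him.ne']
    have g : ((N : ℝ) * b - k / h'.im * (N * b * θ + -(N * a))) * h'.im =
        N * b * h'.im - k * (N * b * θ - N * a) := by
      field_simp
      ring
    rw [g, ← e2]
    linear_combination (N : ℝ) * hab'
  obtain ⟨ζ, hζ, hz⟩ := key (lat θ (N * b) (-(N * a)))
    (by rw [hξ, lt_div_iff₀ him]; exact hN1) (by rw [hξ, div_lt_iff₀ him]; exact hN3)
  exact (L.sing ζ hζ (N * b) (-(N * a))).1 hz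

end Horo
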