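import Pool.Agent.Horo.Glue
import Pool.Agent.Horo.LocLip
import Pool.Agent.Horo.StripMap
import Pool.Agent.Horo.SurfStrip
import Pool.Agent.Horo.Local
import Pool.Agent.Horo.Hor
import Pool.Agent.Horo.AvoidSlit
import Pool.Agent.Horo.Lift
import Pool.Agent.Horo.Period
import Pool.Agent.Horo.Systole
import Pool.Agent.Horo.Primitive
import Pool.Agent.Horo.Width
import Pool.Agent.Horo.Line
import Pool.Agent.Horo.Comb
import Pool.Agent.Horo.Pattern
import Pool.Agent.Horo.PartI

/-! Assembly of Part I of the proof for MP_943ece_an. -/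

namespace Horo

theorem partI_all : Stmt_PartI :=
  hPartI hSurfStrip (hStrip hGlue hLocLip) (hLift hGlue hLocal (hAvoidSlit hHor)) hPeriod
    hSystole hPrimitive (hWidth hPeriod) (hPattern (hLine hPeriod) hComb hPeriod)

end Horo
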