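import Pool.Agent.Horo.Model
open Topology Filter Complex
namespace Horo

lemma rat_im (s : ℝ) (w : ℂ) : (rat s w).im = - (s * w.im) * w.im / Complex.normSq w := by
  unfold rat
  rw [Complex.add_im, Complex.one_im, Complex.div_im]
  simp
  ring

lemma rat_mul_rat (s t : ℝ) {w : ℂ} (hw : w ≠ 0) :
    rat s w * rat t (shear s w) = rat (s + t) w := by
  have h1 := mul_rat (s + t) w
  have h2 := mul_rat t (shear s w)
  rw [shear_shear, ← mul_rat s w, ← h1, mul_assoc] at h2
  have h3 := mul_left_cancel₀ hw h2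
  rw [mul_rat] at h3
  exact h3

lemma im_mul_eq (a b : ℂ) : (a * b).im = ‖a‖ * ‖b‖ * Real.sin (a.arg + b.arg) := by
  rw [Real.sin_add, Complex.mul_im]
  have h1 := Complex.norm_mul_cos_arg a
  have h2 := Complex.norm_mul_sin_arg a
  have h3 := Complex.norm_mul_cos_arg b
  have h4 := Complex.norm_mul_sin_arg b
  rw [← h1, ← h2, ← h3, ← h4]
  ring

lemma re_mul_eq (a b : ℂ) : (a * b).re = ‖a‖ * ‖b‖ * Real.cos (a.arg + b.arg) := by
  rw [Real.cos_add, Complex.mul_re]
  have h1 := Complex.norm_mul_cos_arg a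
  have h2 := Complex.norm_mul_sin_arg a
  have h3 := Complex.norm_mul_cos_arg b
  have h4 := Complex.norm_mul_sin_arg b
  rw [← h1, ← h2, ← h3, ← h4]
  ring

lemma arg_add_mem {a b : ℂ} (ha : a ∈ slitPlane) (hb : b ∈ slitPlane) (hab : a * b ∈ slitPlane)
    (h : 0 ≤ a.im → 0 ≤ b.im → 0 ≤ (a * b).im)
    (h' : a.im ≤ 0 → b.im ≤ 0 → (a * b).im ≤ 0) :
    a.arg + b.arg ∈ Set.Ioc (-Real.pi) Real.pi := by
  have ha0 : 0 < ‖a‖ := norm_pos_iff.mpr (slitPlane_ne_zero ha)
  have hb0 : 0 < ‖b‖ := norm_pos_iff.mpr (slitPlane_ne_zero hb)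
  have pa := Complex.arg_le_pi a
  have pb := Complex.arg_le_pi b
  have na := Complex.neg_pi_lt_arg a
  have nb := Complex.neg_pi_lt_arg b
  have pa' : a.arg < Real.pi := lt_of_le_of_ne pa (slitPlane_arg_ne_pi ha)
  have pb' : b.arg < Real.pi := lt_of_le_of_ne pb (slitPlane_arg_ne_pi hb)
  have hpi := Real.pi_pos
  rcases le_total 0 a.im with h1 | h1 <;> rcases le_total 0 b.im with h2 | h2
  · have h3 := h h1 h2
    have h4 : 0 ≤ a.arg := Complex.arg_nonneg_iff.mpr h1
    have h5 : 0 ≤ b.arg := Complex.arg_nonneg_iff.mpr h2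
    refine ⟨by linarith, ?_⟩
    by_contra h6
    push Not at h6
    rw [im_mul_eq] at h3
    have h7 : Real.sin (a.arg + b.arg) < 0 := by
      have h8 : Real.sin (a.arg + b.arg) = Real.sin (a.arg + b.arg - 2 * Real.pi) := by
        rw [Real.sin_sub_two_pi]
      rw [h8]
      exact Real.sin_neg_of_neg_of_neg_pi_lt (by linarith) (by linarith)
    have h9 : ‖a‖ * ‖b‖ * Real.sin (a.arg + b.arg) < 0 :=
      mul_neg_of_pos_of_neg (mul_pos ha0 hb0) h7
    linarith
  · have h4 : 0 ≤ a.arg := Complex.arg_nonneg_iff.mpr h1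
    have h5 : b.arg ≤ 0 := by
      rcases eq_or_lt_of_le h2 with h6 | h6
      · rw [Complex.mem_slitPlane_iff] at hb
        rcases hb with hb | hb
        · have : b.arg = 0 := by
            rw [Complex.arg_eq_zero_iff]; exact ⟨hb.le, h6⟩
          rw [this]
        · exact absurd h6 hb
      · exact (Complex.arg_neg_iff.mpr h6).le
    exact ⟨by linarith, by linarith⟩
  · have h4 : 0 ≤ b.arg := Complex.arg_nonneg_iff.mpr h2
    have h5 : a.arg ≤ 0 := by
      rcases eq_or_lt_of_le h1 with h6 | h6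
      · rw [Complex.mem_slitPlane_iff] at ha
        rcases ha with ha | ha
        · have : a.arg = 0 := by
            rw [Complex.arg_eq_zero_iff]; exact ⟨ha.le, h6⟩
          rw [this]
        · exact absurd h6 ha
      · exact (Complex.arg_neg_iff.mpr h6).le
    exact ⟨by linarith, by linarith⟩
  · have h3 := h' h1 h2
    have h4 : a.arg ≤ 0 := by
      rcases eq_or_lt_of_le h1 with h6 | h6
      · rw [Complex.mem_slitPlane_iff] at ha
        rcases ha with ha | ha
        · have : a.arg = 0 := by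
            rw [Complex.arg_eq_zero_iff]; exact ⟨ha.le, h6⟩
          rw [this]
        · exact absurd h6 ha
      · exact (Complex.arg_neg_iff.mpr h6).le
    have h5 : b.arg ≤ 0 := by
      rcases eq_or_lt_of_le h2 with h6 | h6
      · rw [Complex.mem_slitPlane_iff] at hb
        rcases hb with hb | hb
        · have : b.arg = 0 := by
            rw [Complex.arg_eq_zero_iff]; exact ⟨hb.le, h6⟩
          rw [this]
        · exact absurd h6 hb
      · exact (Complex.arg_neg_iff.mpr h6).le
    refine ⟨?_, by linarith⟩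
    by_contra h6
    push Not at h6
    rcases eq_or_lt_of_le h6 with h7 | h7
    · rw [Complex.mem_slitPlane_iff, re_mul_eq, im_mul_eq, h7] at hab
      simp at hab
      have : 0 < ‖a‖ * ‖b‖ := mul_pos ha0 hb0
      linarith
    · rw [im_mul_eq] at h3
      have h7 : 0 < Real.sin (a.arg + b.arg) := by
        have h8 : Real.sin (a.arg + b.arg) = Real.sin (a.arg + b.arg + 2 * Real.pi) := by
          rw [Real.sin_add_two_pi]
        rw [h8]
        exact Real.sin_pos_of_pos_of_lt_pi (by linarith) (by linarith)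
      have h9 : 0 < ‖a‖ * ‖b‖ * Real.sin (a.arg + b.arg) :=
        mul_pos (mul_pos ha0 hb0) h7
      linarith

lemma shearRoot_shearRoot (s t : ℝ) {n : ℕ} (hn : n ≠ 0) (w : ℂ) :
    shearRoot t n (shearRoot s n w) = shearRoot (s + t) n w := by
  by_cases hw : w = 0
  · simp [hw, shearRoot_zero_arg]
  have hu : w ^ n ≠ 0 := pow_ne_zero _ hw
  have h1 := rat_mul_rat s t hu
  have h9 : shearRoot t n (shearRoot s n w)
      = shearRoot s n w * (rat t (shearRoot s n w ^ n)) ^ ((n : ℂ)⁻¹) := rfl
  rw [h9, shearRoot_pow s hn]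
  unfold shearRoot
  rw [← h1, mul_assoc]
  congr 1
  set a := rat s (w ^ n) with ha
  set b := rat t (shear s (w ^ n)) with hb
  have ha1 : a ∈ slitPlane := rat_mem_slitPlane _ _
  have hb1 : b ∈ slitPlane := rat_mem_slitPlane _ _
  have hab : a * b ∈ slitPlane := by rw [h1]; exact rat_mem_slitPlane _ _
  have hy : (shear s (w ^ n)).im = (w ^ n).im := shear_im _ _
  have hs0 : shear s (w ^ n) ≠ 0 := by
    rw [← mul_rat]; exact mul_ne_zero hu (rat_ne_zero _ _)
  have hns1 : 0 < normSq (w ^ n) := Complex.normSq_pos.mpr hu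
  have hns2 : 0 < normSq (shear s (w ^ n)) := Complex.normSq_pos.mpr hs0
  have hmem : a.arg + b.arg ∈ Set.Ioc (-Real.pi) Real.pi := by
    apply arg_add_mem ha1 hb1 hab
    · intro h2 h3
      rw [h1, rat_im]
      rw [ha, rat_im] at h2
      rw [hb, rat_im, hy] at h3
      have h2' : 0 ≤ - (s * (w ^ n).im) * (w ^ n).im := by
        have := mul_nonneg h2 hns1.le
        rwa [div_mul_cancel₀ _ hns1.ne'] at this
      have h3' : 0 ≤ - (t * (w ^ n).im) * (w ^ n).im := by
        have := mul_nonneg h3 hns2.le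
        rwa [div_mul_cancel₀ _ hns2.ne'] at this
      apply div_nonneg _ hns1.le
      nlinarith
    · intro h2 h3
      rw [h1, rat_im]
      rw [ha, rat_im] at h2
      rw [hb, rat_im, hy] at h3
      have h2' : - (s * (w ^ n).im) * (w ^ n).im ≤ 0 := by
        have := mul_nonpos_of_nonpos_of_nonneg h2 hns1.le
        rwa [div_mul_cancel₀ _ hns1.ne'] at this
      have h3' : - (t * (w ^ n).im) * (w ^ n).im ≤ 0 := by
        have := mul_nonpos_of_nonpos_of_nonneg h3 hns2.le
        rwa [div_mul_cancel₀ _ hns2.ne'] at this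
      apply div_nonpos_of_nonpos_of_nonneg _ hns1.le
      nlinarith
  have ha0 : a ≠ 0 := slitPlane_ne_zero ha1
  have hb0 : b ≠ 0 := slitPlane_ne_zero hb1
  rw [Complex.cpow_def_of_ne_zero ha0, Complex.cpow_def_of_ne_zero hb0,
    Complex.cpow_def_of_ne_zero (mul_ne_zero ha0 hb0),
    (Complex.log_mul_eq_add_log_iff ha0 hb0).mpr hmem, add_mul, Complex.exp_add]

lemma shearRoot_zero {n : ℕ} (w : ℂ) : shearRoot 0 n w = w := by
  simp [shearRoot, rat]

theorem AbDiff.ext' {X : Type} [TopologicalSpace X] {A B : AbDiff X}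
    (ho : A.ord = B.ord) (hz : A.z = B.z) : A = B := by
  cases A
  cases B
  simp only at ho hz
  subst ho
  subst hz
  rfl

/-- `u_0` acts trivially. -/
theorem AbDiff.act_zero {X : Type} [TopologicalSpace X] (A : AbDiff X) : A.act 0 = A := by
  have h : (fun p => (A.z p).transHomeomorph
      (shearRootHomeo 0 (A.ord p + 1) (Nat.succ_ne_zero _))) = A.z := by
    funext p
    apply OpenPartialHomeomorph.ext
    · intro x
      show shearRoot 0 _ (A.z p x) = A.z p x
      rw [shearRoot_zero]
    · intro x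
      show (A.z p).symm (shearRoot (-0) _ x) = (A.z p).symm x
      rw [neg_zero, shearRoot_zero]
    · rfl
  exact AbDiff.ext' rfl h

/-- The horocycle flow is a flow: `u_t (u_s ω) = u_{s+t} ω`. -/
theorem AbDiff.act_act {X : Type} [TopologicalSpace X] (s t : ℝ) (A : AbDiff X) :
    (A.act s).act t = A.act (s + t) := by
  have h : (fun p => ((A.act s).z p).transHomeomorph
      (shearRootHomeo t (A.ord p + 1) (Nat.succ_ne_zero _)))
      = fun p => (A.z p).transHomeomorph
      (shearRootHomeo (s + t) (A.ord p + 1) (Nat.succ_ne_zero _)) := by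
    funext p
    apply OpenPartialHomeomorph.ext
    · intro x
      show shearRoot t _ (shearRoot s _ (A.z p x)) = shearRoot (s + t) _ (A.z p x)
      rw [shearRoot_shearRoot s t (Nat.succ_ne_zero _)]
    · intro x
      show (A.z p).symm (shearRoot (-s) _ (shearRoot (-t) _ x))
        = (A.z p).symm (shearRoot (-(s + t)) _ x)
      rw [shearRoot_shearRoot (-t) (-s) (Nat.succ_ne_zero _)]
      congr 2
      ring
    · rfl
  exact AbDiff.ext' rfl h

end Horo
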