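import Pool.Agent.Horo.Model

/-!
# The natural coordinates form a Riemann surface on which `ω` is a holomorphic one-form

For `A : AbDiff X` the transition maps between natural coordinates are holomorphic, so that `X`
is a complex manifold, and the local expressions `(ord p + 1) w ^ (ord p) dw` of
`ω = d (P p)` in the coordinates `w = z p` agree on overlaps.
-/

open Topology Filter Complex Set

namespace Horo

lemma holo_differentiableAt_of_pow {φ f : ℂ → ℂ} {w : ℂ} {m : ℕ} (hm : m ≠ 0)
    (hφ : ContinuousAt φ w) (hf : DifferentiableAt ℂ f w) (h0 : φ w ≠ 0)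
    (h : ∀ᶠ v in 𝓝 w, φ v ^ m = f v) : DifferentiableAt ℂ φ w := by
  have hfw : φ w ^ m = f w := h.self_of_nhds
  set S : ℂ → ℂ := fun v => ∑ i ∈ Finset.range m, φ v ^ i * φ w ^ (m - 1 - i) with hS
  have hSc : ContinuousAt S w := by
    apply tendsto_finsetSum
    intro i _
    exact ((hφ.pow i).mul continuousAt_const)
  have hSw : S w ≠ 0 := by
    have : S w = m * φ w ^ (m - 1) := by
      simp only [hS]
      have : ∀ i ∈ Finset.range m, φ w ^ i * φ w ^ (m - 1 - i) = φ w ^ (m - 1) := by
        intro i hi
        rw [← pow_add]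
        congr 1
        have := Finset.mem_range.mp hi
        omega
      rw [Finset.sum_congr rfl this]
      simp
    rw [this]
    exact mul_ne_zero (by exact_mod_cast hm) (pow_ne_zero _ h0)
  have hfact : ∀ v, (φ v - φ w) * S v = φ v ^ m - φ w ^ m := by
    intro v
    simp only [hS]
    rw [mul_comm]
    exact (Commute.all (φ v) (φ w)).geom_sum₂_mul m
  have hSn : ∀ᶠ v in 𝓝 w, S v ≠ 0 := hSc.eventually_ne hSw
  have hd := hf.hasDerivAt
  rw [hasDerivAt_iff_tendsto_slope] at hd
  have key : Tendsto (slope φ w) (𝓝[≠] w) (𝓝 (deriv f w / S w)) := by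
    have h1 : Tendsto (fun v => slope f w v / S v) (𝓝[≠] w) (𝓝 (deriv f w / S w)) :=
      hd.div (hSc.tendsto.mono_left nhdsWithin_le_nhds) hSw
    apply h1.congr'
    have h2 : ∀ᶠ v in 𝓝[≠] w, φ v ^ m = f v := h.filter_mono nhdsWithin_le_nhds
    have h3 : ∀ᶠ v in 𝓝[≠] w, S v ≠ 0 := hSn.filter_mono nhdsWithin_le_nhds
    have h4 : ∀ᶠ v in 𝓝[≠] w, v ≠ w := eventually_mem_nhdsWithin
    filter_upwards [h2, h3, h4] with v hv1 hv2 hv3
    simp only [slope, vsub_eq_sub, smul_eq_mul]
    rw [← hv1, ← hfw, ← hfact v]
    field_simp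
  exact (hasDerivAt_iff_tendsto_slope.mpr key).differentiableAt

namespace AbDiff

variable {X : Type} [TopologicalSpace X] (A : AbDiff X)

/-- The transition map between two natural coordinates. -/
noncomputable def trans (p q : X) : OpenPartialHomeomorph ℂ ℂ := (A.z p).symm.trans (A.z q)

lemma trans_pow (p q : X) {w : ℂ} (hw : w ∈ (A.trans p q).source) :
    ∀ᶠ v in 𝓝 w, A.trans p q v ^ (A.ord q + 1)
      = v ^ (A.ord p + 1) + (A.trans p q w ^ (A.ord q + 1) - w ^ (A.ord p + 1)) := by
  have hw1 : w ∈ (A.z p).target := by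
    have := hw
    simp only [trans, OpenPartialHomeomorph.trans_source, OpenPartialHomeomorph.symm_source] at this
    exact this.1
  have hw2 : (A.z p).symm w ∈ (A.z q).source := by
    have := hw
    simp only [trans, OpenPartialHomeomorph.trans_source, OpenPartialHomeomorph.symm_source] at this
    exact this.2
  have hx : (A.z p).symm w ∈ (A.z p).source := (A.z p).map_target hw1
  have h1 := A.compat p q _ hx hw2
  have h2 : Tendsto (A.z p).symm (𝓝 w) (𝓝 ((A.z p).symm w)) :=
    (A.z p).continuousAt_symm hw1
  have h3 := h2.eventually h1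
  have h4 : ∀ᶠ v in 𝓝 w, v ∈ (A.z p).target := (A.z p).open_target.mem_nhds hw1
  filter_upwards [h3, h4] with v hv hv'
  rw [(A.z p).right_inv hv', (A.z p).right_inv hw1] at hv
  show A.z q ((A.z p).symm v) ^ (A.ord q + 1)
    = v ^ (A.ord p + 1) + (A.z q ((A.z p).symm w) ^ (A.ord q + 1) - w ^ (A.ord p + 1))
  linear_combination -hv

lemma trans_zero_iff (p q : X) {w : ℂ} (hw : w ∈ (A.trans p q).source)
    (h : A.trans p q w = 0) : w = A.z p q ∧ q ∈ (A.z p).source := by
  have hw1 : w ∈ (A.z p).target := by
    have := hw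
    simp only [trans, OpenPartialHomeomorph.trans_source, OpenPartialHomeomorph.symm_source] at this
    exact this.1
  have hw2 : (A.z p).symm w ∈ (A.z q).source := by
    have := hw
    simp only [trans, OpenPartialHomeomorph.trans_source, OpenPartialHomeomorph.symm_source] at this
    exact this.2
  have h1 : (A.z p).symm w = q := by
    apply (A.z q).injOn hw2 (A.mem_source q)
    rw [A.z_self]
    exact h
  constructor
  · rw [← h1, (A.z p).right_inv hw1]
  · rw [← h1]; exact (A.z p).map_target hw1

/-- Transition maps between natural coordinates are holomorphic. -/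
theorem differentiableOn_trans (p q : X) :
    DifferentiableOn ℂ (A.trans p q) (A.trans p q).source := by
  have hopen := (A.trans p q).open_source
  have hcont := (A.trans p q).continuousOn
  have key : ∀ w ∈ (A.trans p q).source, A.trans p q w ≠ 0 →
      DifferentiableAt ℂ (A.trans p q) w := by
    intro w hw h0
    refine holo_differentiableAt_of_pow (Nat.succ_ne_zero (A.ord q))
      (hcont.continuousAt (hopen.mem_nhds hw)) ?_ h0 (A.trans_pow p q hw)
    fun_prop
  intro w hw
  by_cases h0 : A.trans p q w = 0
  · -- removable singularity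
    have h1 := (A.trans_zero_iff p q hw h0).1
    have h2 : DifferentiableOn ℂ (A.trans p q) ((A.trans p q).source \ {w}) := by
      intro v hv
      apply (key v hv.1 _).differentiableWithinAt
      intro h3
      have h4 := (A.trans_zero_iff p q hv.1 h3).1
      exact hv.2 (h4.trans h1.symm)
    have h3 : ContinuousAt (A.trans p q) w := hcont.continuousAt (hopen.mem_nhds hw)
    have h4 := (Complex.differentiableOn_compl_singleton_and_continuousAt_iff
      (hopen.mem_nhds hw)).mp ⟨h2, h3⟩
    exact h4 w hw
  · exact (key w hw h0).differentiableWithinAt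

/-- The local expressions of `ω` agree on overlaps. -/
theorem form_compat (p q : X) {w : ℂ} (hw : w ∈ (A.trans p q).source) :
    ((A.ord q + 1 : ℕ) : ℂ) * A.trans p q w ^ A.ord q * deriv (A.trans p q) w
      = ((A.ord p + 1 : ℕ) : ℂ) * w ^ A.ord p := by
  have hd : HasDerivAt (A.trans p q) (deriv (A.trans p q) w) w :=
    ((A.differentiableOn_trans p q).differentiableAt
      ((A.trans p q).open_source.mem_nhds hw)).hasDerivAt
  have h1 : HasDerivAt (fun v => A.trans p q v ^ (A.ord q + 1))
      (((A.ord q + 1 : ℕ) : ℂ) * A.trans p q w ^ (A.ord q + 1 - 1) * deriv (A.trans p q) w) w :=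
    hd.pow _
  have h2 : HasDerivAt (fun v : ℂ => v ^ (A.ord p + 1)
      + (A.trans p q w ^ (A.ord q + 1) - w ^ (A.ord p + 1)))
      (((A.ord p + 1 : ℕ) : ℂ) * w ^ (A.ord p + 1 - 1)) w :=
    (hasDerivAt_pow (A.ord p + 1) w).add_const _
  have h3 := h2.congr_of_eventuallyEq (A.trans_pow p q hw)
  have h4 := h1.unique h3
  simpa using h4

/-- The complex structure of the surface. -/
@[reducible] noncomputable def chartedSpace : ChartedSpace ℂ X where
  atlas := Set.range A.z
  chartAt := A.z
  mem_chart_source := A.mem_source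
  chart_mem_atlas := fun p => ⟨p, rfl⟩

open scoped Manifold ContDiff in
/-- `X` with the natural coordinates is a complex manifold of dimension one, i.e. (if it is
connected and Hausdorff) a Riemann surface. -/
theorem isManifold : @IsManifold ℂ _ ℂ _ _ ℂ _ 𝓘(ℂ) ω X _ A.chartedSpace := by
  letI := A.chartedSpace
  apply isManifold_of_contDiffOn
  rintro _ _ ⟨p, rfl⟩ ⟨q, rfl⟩
  have h := (A.differentiableOn_trans p q).contDiffOn (n := ω) (A.trans p q).open_source
  simp only [modelWithCornersSelf_coe, modelWithCornersSelf_coe_symm, Function.id_comp,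
    Function.comp_id, range_id, inter_univ, preimage_id_eq, id_eq]
  exact h

end AbDiff

end Horo
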