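import Pool.Agent.Horo.GDefs

open Topology Filter

namespace Horo

lemma mainasm_gap {B : ℕ} [NeZero B] (r : ZMod B → ℝ) (hr : Function.Injective r) :
    ∃ gap : ℝ, 0 < gap ∧ gap ≤ 1 / 100 ∧ ∀ i j, i ≠ j → gap ≤ |r i - r j| := by
  classical
  let F : Finset (ZMod B × ZMod B) := Finset.univ.filter (fun p => p.1 ≠ p.2)
  by_cases hF : F.Nonempty
  · obtain ⟨p0, hp0, hmin⟩ := F.exists_min_image (fun p => |r p.1 - r p.2|) hF
    have h0 : p0.1 ≠ p0.2 := (Finset.mem_filter.mp hp0).2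
    have h1 : 0 < |r p0.1 - r p0.2| := by
      apply abs_pos.mpr
      intro h
      exact h0 (hr (sub_eq_zero.mp h))
    refine ⟨min (1 / 100) |r p0.1 - r p0.2|, lt_min (by norm_num) h1, min_le_left _ _, ?_⟩
    intro i j hij
    exact le_trans (min_le_right _ _) (hmin (i, j) (Finset.mem_filter.mpr ⟨Finset.mem_univ _, hij⟩))
  · refine ⟨1 / 100, by norm_num, le_refl _, ?_⟩
    intro i j hij
    exact absurd ⟨(i, j), Finset.mem_filter.mpr ⟨Finset.mem_univ _, hij⟩⟩ hF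

theorem hMain (h1 : Stmt_RSparse) (h2 : Stmt_Constr) (h3 : Stmt_Scales) (h4 : Stmt_Surf)
    (h5 : Stmt_PartI) : Stmt_Main := by
  obtain ⟨η, hη0, hη1, hsp⟩ := h1
  obtain ⟨θ, ys, c, a2, G, hθ0, hθ1, hy0, hy1, hD, hC, ha2, ha2'⟩ := h2 (η / 10) (by positivity)
  have hη3 : 0 < min η ys / 2 := by
    have := lt_min hη0 hy0
    positivity
  have hη3y : min η ys / 2 ≤ ys / 2 := by
    have := min_le_right η ys
    linarith
  have hη3η : min η ys / 2 ≤ η := by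
    have := min_le_left η ys
    linarith
  set η3 := min η ys / 2 with hη3def
  have hR := hsp θ ys c η3 hy0 (by linarith) hη3 hη3y hη3η hD
  haveI : NeZero (337 : ℕ) := ⟨by norm_num⟩
  obtain ⟨r, hr, hinj, S1, hS1⟩ := h3 337 (le_refl _) _ hR
  obtain ⟨gap, hg0, hg1, hgap⟩ := mainasm_gap r hinj
  have ht0 : 0 < min (η3 / 100) (gap / 100) := lt_min (by positivity) (by positivity)
  set t := min (η3 / 100) (gap / 100) with htdef
  have ht1 : t ≤ η3 / 100 := min_le_left _ _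
  have ht2 : t ≤ gap / 100 := min_le_right _ _
  have ht3 : t < 1 / 100 := by linarith
  obtain ⟨S⟩ := h4 337 r θ ys t t t a2 G (by norm_num) hr hθ0 hθ1 hy0 hy1 hC ht0 ht3 ht0 ht3
    ht0.le ht3
  refine ⟨S.A, t * (η / 10) / 100, max 10 S1, by positivity, ?_⟩
  intro s hs hN
  have hs1 : 10 ≤ s := le_trans (le_max_left _ _) hs
  have hs2 : S1 ≤ s := le_trans (le_max_right _ _) hs
  apply hS1 s hs2
  intro j
  obtain ⟨m, n, hm, hmn⟩ := h5 337 r θ ys t t t a2 s η (η / 10) η3 gap (t * (η / 10) / 100) G S hr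
    hC hθ0 hθ1 hy0 hy1 (by positivity) (by ring) hη1 (by linarith) ha2' hη3 hη3y (by linarith)
    hg0 hg1 hgap ht0 ht1 ht2 rfl rfl (by positivity) (le_refl _) hs1 hN j
  exact ⟨(m : ℝ) / (n - m * θ), ⟨m, n, hm, rfl⟩, hmn⟩

theorem notInOmega (h : Stmt_Main) : ∃ A : AbelianDifferential, ¬ InOmegaLimit A A := by
  obtain ⟨A, ε, S0, hε, hA⟩ := h
  refine ⟨A, ?_⟩
  rintro ⟨s, hs, hconv⟩
  have h1 := hconv ε hε
  have h2 := hs.eventually (eventually_ge_atTop S0)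
  obtain ⟨n, hn1, hn2⟩ := (h1.and h2).exists
  exact hA (s n) hn2 hn1

end Horo
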