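import Pool.Agent.Horo.Model

/-! Sanity checks for `Near`: reflexive, and `horocycle s A` is near `A` for small `s`. -/

open Topology Filter

namespace Horo

lemma norm_shear_sub_le (s : ℝ) (w : ℂ) : ‖shear s w - w‖ ≤ |s| * ‖w‖ := by
  have h : shear s w - w = ((s * w.im : ℝ) : ℂ) := by
    unfold shear; ring
  rw [h, Complex.norm_real, Real.norm_eq_abs, abs_mul]
  have := Complex.abs_im_le_norm w
  gcongr

theorem near_horocycle (A : AbelianDifferential) (s ε : ℝ) (hs : |s| ≤ ε) :
    Near ε A (horocycle s A) := by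
  refine ⟨Homeomorph.refl A.X, fun p => rfl, ?_⟩
  intro p _
  refine Filter.Eventually.of_forall ?_
  intro xy
  show ‖((A.ω.act s).P p xy.1 - (A.ω.act s).P p xy.2) - (A.ω.P p xy.1 - A.ω.P p xy.2)‖ ≤ _
  rw [AbDiff.act_P, AbDiff.act_P, ← shear_sub]
  refine le_trans (norm_shear_sub_le s _) ?_
  gcongr

end Horo
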