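import Pool.Agent.Horo.FinalA
import Pool.Agent.Horo.FinalB
import Pool.Agent.Horo.MainAsm
import Pool.Agent.Horo.DEAll
import Pool.Agent.Horo.Flow
import Pool.Agent.Horo.Holo
import Pool.Agent.Horo.Sanity
import Pool.Agent.Horo.F.SurfAsm
import Pool.Agent.Horo.F.ltInt
import Pool.Agent.Horo.F.ltSeam
import Pool.Agent.Horo.F.regPts
import Pool.Agent.Horo.F.ptPer
import Pool.Agent.Horo.F.ptInj
import Pool.Agent.Horo.F.ptSurj
import Pool.Agent.Horo.F.cellAt
import Pool.Agent.Horo.F.wallAt
import Pool.Agent.Horo.F.gapAt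
import Pool.Agent.Horo.F.slitAt

/-! Final assembly for MP_943ece_an. -/

namespace Horo

theorem surf_all : Stmt_Surf :=
  have hE := Ebij rep
  have hreg := regPts rep hE
  have hfs : ∀ (C : Type) [TopologicalSpace C] [AddAction ℝ C], Stmt_finSupp C :=
    fun C _ _ => finSupp C
  surfAsm diag_all baseC_all (fun C _ _ => abDiff_all C) ptPer (ptInj hreg hE)
    (ptSurj rep hE hreg baseC_all hfs)
    (cellAt ltInt ltSeam hreg baseC_all (Enear rep) bendCoc_all bendInv_all)
    (wallAt ltInt ltSeam hreg rep baseC_all bendCoc_all)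
    (gapAt ltInt ltSeam hreg rep baseC_all bendCoc_all)
    (slitAt ltInt baseC_all rep GGthm bendCoc_all)

/-- quantitative form: a neighbourhood of `A` is never entered for large times -/
theorem main_all : ∃ (A : AbelianDifferential) (ε S0 : ℝ), 0 < ε ∧
    ∀ s : ℝ, S0 ≤ s → ¬ Near ε A (horocycle s A) :=
  hMain rsparse_all constr_all scales_all surf_all partI_all

end Horo
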