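import Pool.Agent.Horo.ADefs

/-! # (B5), (B6): going down the chain -/

namespace Horo

/-- One step down: the real inequalities. -/
theorem firstindex_step {κ S M M' a q y y' L : ℝ} (hκ : 0 < κ) (hκ1 : κ ≤ 1 / 100) (hS : 0 < S)
    (hq : 1 ≤ q) (hqM : q < 2 * |M|) (hM' : |M'| ≤ κ * q) (hL : |L| ≤ κ) (hM : M = M' + a * q)
    (hy : M * y' = y * M' + a * L) (hinv : |y| * |M| ≤ 2 * |M| ^ 2 / S + 4 * κ ^ 2) :
    |y'| * |M'| ≤ 2 * |M'| ^ 2 / S + 4 * κ ^ 2 ∧ |y'| ≤ 2 * |M'| / S + 1 / q := by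
  have hMpos : 0 < |M| := by linarith
  have hq0 : 0 < q := by linarith
  have haq : |a| * q ≤ (1 + 2 * κ) * |M| := by
    have h1 : |a| * q = |M - M'| := by
      rw [hM, ← abs_of_pos hq0, ← abs_mul, abs_of_pos hq0]
      congr 1
      ring
    rw [h1]
    have h2 := abs_sub M M'
    have h3 : |M'| ≤ 2 * κ * |M| := by nlinarith
    linarith
  have hyM : |y'| * |M| ≤ |y| * |M'| + |a| * κ := by
    have h1 : |y'| * |M| = |y * M' + a * L| := by
      rw [← hy, abs_mul]
      ring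
    rw [h1]
    refine (abs_add_le _ _).trans ?_
    rw [abs_mul, abs_mul]
    have := mul_le_mul_of_nonneg_left hL (abs_nonneg a)
    linarith
  have hM'M : |M'| ≤ 2 * κ * |M| := by nlinarith
  have hyy : |y| ≤ 2 * |M| / S + 4 * κ ^ 2 / |M| := by
    have h1 : |y| = |y| * |M| / |M| := by field_simp
    rw [h1]
    have h2 : 2 * |M| / S + 4 * κ ^ 2 / |M| = (2 * |M| ^ 2 / S + 4 * κ ^ 2) / |M| := by
      field_simp
    rw [h2]
    exact div_le_div_of_nonneg_right hinv hMpos.le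
  -- the bound on |y'|
  have hy' : |y'| ≤ |y| * |M'| / |M| + (1 + 2 * κ) * κ / q := by
    have h1 : |y'| = |y'| * |M| / |M| := by field_simp
    rw [h1]
    have h2 : |y'| * |M| / |M| ≤ (|y| * |M'| + |a| * κ) / |M| :=
      div_le_div_of_nonneg_right hyM hMpos.le
    refine h2.trans ?_
    rw [add_div]
    have h3 : |a| * κ / |M| ≤ (1 + 2 * κ) * κ / q := by
      rw [div_le_div_iff₀ hMpos hq0]
      nlinarith [mul_le_mul_of_nonneg_left haq hκ.le]
    linarith
  have hyM' : |y| * |M'| / |M| ≤ 2 * |M'| / S + 4 * κ ^ 2 * |M'| / |M| ^ 2 := by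
    have h1 := mul_le_mul_of_nonneg_right hyy (abs_nonneg M')
    have h2 := div_le_div_of_nonneg_right h1 hMpos.le
    refine h2.trans (le_of_eq ?_)
    field_simp
  have hκ2 : κ ^ 2 ≤ κ / 100 := by nlinarith
  constructor
  · have h1 := mul_le_mul_of_nonneg_right (hy'.trans (add_le_add_left hyM' _)) (abs_nonneg M')
    refine h1.trans ?_
    have h2 : (2 * |M'| / S + 4 * κ ^ 2 * |M'| / |M| ^ 2 + (1 + 2 * κ) * κ / q) * |M'| =
        2 * |M'| ^ 2 / S + 4 * κ ^ 2 * (|M'| / |M|) ^ 2 + (1 + 2 * κ) * κ * (|M'| / q) := by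
      field_simp
    rw [h2]
    have h3 : |M'| / |M| ≤ 2 * κ := by
      rw [div_le_iff₀ hMpos]
      exact hM'M
    have h4 : |M'| / q ≤ κ := by
      rw [div_le_iff₀ hq0]
      exact hM'
    have h5 : (|M'| / |M|) ^ 2 ≤ (2 * κ) ^ 2 := by
      apply pow_le_pow_left₀ (by positivity) h3
    have h6 : 4 * κ ^ 2 * (|M'| / |M|) ^ 2 ≤ 4 * κ ^ 2 * (2 * κ) ^ 2 :=
      mul_le_mul_of_nonneg_left h5 (by positivity)
    have h7 : (1 + 2 * κ) * κ * (|M'| / q) ≤ (1 + 2 * κ) * κ * κ :=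
      mul_le_mul_of_nonneg_left h4 (by positivity)
    have h8 : 4 * κ ^ 2 * (2 * κ) ^ 2 + (1 + 2 * κ) * κ * κ ≤ 4 * κ ^ 2 := by
      have : κ ^ 2 * (4 * (2 * κ) ^ 2 + (1 + 2 * κ)) ≤ κ ^ 2 * 4 := by
        apply mul_le_mul_of_nonneg_left _ (by positivity)
        have k2 : κ ^ 2 ≤ 1 / 10000 := by
          have := pow_le_pow_left₀ hκ.le hκ1 2
          norm_num at this
          linarith
        have e : 4 * (2 * κ) ^ 2 + (1 + 2 * κ) = 16 * κ ^ 2 + 1 + 2 * κ := by ring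
        rw [e]
        linarith
      have e : 4 * κ ^ 2 * (2 * κ) ^ 2 + (1 + 2 * κ) * κ * κ =
          κ ^ 2 * (4 * (2 * κ) ^ 2 + (1 + 2 * κ)) := by ring
      rw [e]
      linarith
    linarith
  · refine (hy'.trans (add_le_add_left hyM' _)).trans ?_
    have h1 : 4 * κ ^ 2 * |M'| / |M| ^ 2 ≤ 16 * κ ^ 3 / q := by
      rw [div_le_div_iff₀ (by positivity) hq0]
      have h2 : q ^ 2 ≤ 4 * |M| ^ 2 := by
        have := pow_le_pow_left₀ hq0.le hqM.le 2
        have e : (2 * |M|) ^ 2 = 4 * |M| ^ 2 := by ring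
        rw [e] at this
        exact this
      have h3 : 4 * κ ^ 2 * |M'| * q ≤ 4 * κ ^ 2 * (κ * q) * q := by
        apply mul_le_mul_of_nonneg_right _ hq0.le
        exact mul_le_mul_of_nonneg_left hM' (by positivity)
      have h4 : 4 * κ ^ 2 * (κ * q) * q = 4 * κ ^ 3 * q ^ 2 := by ring
      have h5 : 4 * κ ^ 3 * q ^ 2 ≤ 4 * κ ^ 3 * (4 * |M| ^ 2) :=
        mul_le_mul_of_nonneg_left h2 (by positivity)
      linarith
    have h6 : 16 * κ ^ 3 / q + (1 + 2 * κ) * κ / q ≤ 1 / q := by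
      rw [← add_div]
      apply div_le_div_of_nonneg_right _ hq0.le
      have k2 : κ ^ 2 ≤ 1 / 10000 := by
        have := pow_le_pow_left₀ hκ.le hκ1 2
        norm_num at this
        linarith
      have k3 : κ ^ 3 ≤ 1 / 1000000 := by
        have := pow_le_pow_left₀ hκ.le hκ1 3
        norm_num at this
        linarith
      have e : (1 + 2 * κ) * κ = κ + 2 * κ ^ 2 := by ring
      rw [e]
      linarith
    linarith

theorem hFirstIndex : Stmt_FirstIndex := by
  intro κ θ ys c hκ hκ1 hys hys1 hD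
  set c1 : ℝ := min 1 (c / 2) with hc1
  have hc1pos : 0 < c1 := lt_min one_pos (by have := hD.pos; linarith)
  have hc11 : c1 ≤ 1 := min_le_left _ _
  have hc1c : c1 ≤ c / 2 := min_le_right _ _
  refine ⟨2 + 1 / c1, by positivity, ?_⟩
  intro S hS ρ hch hM1 hM2 hy
  have hS0 : 0 < S := by linarith
  set T : ℝ := S ^ (1 / 4 : ℝ) with hT
  have hT0 : 0 < T := Real.rpow_pos_of_pos hS0 _
  have hT1 : 1 ≤ T := Real.one_le_rpow hS (by norm_num)
  have hT4 : T ^ 4 = S := by
    rw [hT, ← Real.rpow_natCast, ← Real.rpow_mul hS0.le]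
    norm_num
  have hT3 : S ^ (3 / 4 : ℝ) = T ^ 3 := by
    rw [hT, ← Real.rpow_natCast, ← Real.rpow_mul hS0.le]
    norm_num
  have hTn : S ^ (-(1 / 4) : ℝ) = 1 / T := by
    rw [Real.rpow_neg hS0.le, ← hT, one_div]
  rw [hT3, hTn]
  -- the induction
  have key : ∀ σ : ℤ × ℤ, Chained ys κ σ →
      |ys + 2 * σ.2 - 2 * σ.1 * θ| * |(σ.1 : ℝ)| ≤ 2 * |(σ.1 : ℝ)| ^ 2 / S + 4 * κ ^ 2 →
      T ^ 3 < |(σ.1 : ℝ)| →
      ∃ ρ' : ℤ × ℤ, Chained ys κ ρ' ∧ Relation.ReflTransGen (Child ys κ) ρ' σ ∧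
        |(ρ'.1 : ℝ)| ≤ T ^ 3 ∧ |ys + 2 * ρ'.2 - 2 * ρ'.1 * θ| ≤ (2 + 1 / c1) * (1 / T) := by
    intro σ hσ
    induction hσ with
    | refl =>
      intro _ h
      simp only [Int.cast_zero, abs_zero] at h
      have : 0 < T ^ 3 := by positivity
      linarith
    | @tail ρ' σ hρ' hch' ih =>
      intro hinv hbig
      obtain ⟨q, p, a, hq1, hcop, hqM, hM', hL, hM, hN⟩ := id hch'
      have hq1' : (1 : ℝ) ≤ q := by exact_mod_cast hq1
      have hMr : (σ.1 : ℝ) = ρ'.1 + a * q := by rw [hM]; push_cast; ring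
      have hNr : (σ.2 : ℝ) = ρ'.2 + a * p := by rw [hN]; push_cast; ring
      have hid : (σ.1 : ℝ) * (ys + 2 * ρ'.2 - 2 * ρ'.1 * θ) =
          (ys + 2 * σ.2 - 2 * σ.1 * θ) * ρ'.1 + a * ((q : ℝ) * (ys + 2 * σ.2) - 2 * σ.1 * p) := by
        rw [hNr, hMr]
        ring
      obtain ⟨s1, s2⟩ := firstindex_step hκ hκ1 hS0 hq1' hqM hM' hL hMr hid hinv
      by_cases hsmall : |(ρ'.1 : ℝ)| ≤ T ^ 3
      · refine ⟨ρ', hρ', Relation.ReflTransGen.single hch', hsmall, ?_⟩
        -- the size of q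
        have hq0 : (0 : ℝ) < q := by linarith
        have hMpos : 0 < |(σ.1 : ℝ)| := by
          have : 0 < T ^ 3 := by positivity
          linarith
        have hdio := hD.theta q (by exact_mod_cast (show (q : ℕ) ≠ 0 by omega)) p
        have hcast : ((q : ℤ) : ℝ) = (q : ℝ) := by norm_cast
        rw [hcast, abs_of_pos hq0] at hdio
        have h1 : 2 * |(σ.1 : ℝ)| * |(q : ℝ) * θ - p| ≤
            q * |ys + 2 * σ.2 - 2 * σ.1 * θ| + κ := by
          have h2 : 2 * |(σ.1 : ℝ)| * |(q : ℝ) * θ - p| =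
              |(q : ℝ) * (ys + 2 * σ.2 - 2 * σ.1 * θ) -
                ((q : ℝ) * (ys + 2 * σ.2) - 2 * σ.1 * p)| := by
            rw [← abs_of_pos (show (0 : ℝ) < 2 by norm_num), ← abs_mul, ← abs_mul, ← abs_neg]
            congr 1
            rw [abs_of_pos (show (0 : ℝ) < 2 by norm_num)]
            ring
          rw [h2]
          refine (abs_sub _ _).trans ?_
          rw [abs_mul, abs_of_pos hq0]
          linarith
        have h3 : |ys + 2 * σ.2 - 2 * σ.1 * θ| ≤ 2 * |(σ.1 : ℝ)| / S +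
            4 * κ ^ 2 / |(σ.1 : ℝ)| := by
          have h4 : 2 * |(σ.1 : ℝ)| / S + 4 * κ ^ 2 / |(σ.1 : ℝ)| =
              (2 * |(σ.1 : ℝ)| ^ 2 / S + 4 * κ ^ 2) / |(σ.1 : ℝ)| := by
            field_simp
          rw [h4, le_div_iff₀ hMpos]
          exact hinv
        have h5 : |(q : ℝ) * θ - p| ≤ q / S + 1 / |(σ.1 : ℝ)| := by
          have h6 : 2 * |(σ.1 : ℝ)| * |(q : ℝ) * θ - p| ≤
              2 * |(σ.1 : ℝ)| * (q / S + 1 / |(σ.1 : ℝ)|) := by
            refine h1.trans ?_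
            have h7 := mul_le_mul_of_nonneg_left h3 hq0.le
            have h8 : 2 * |(σ.1 : ℝ)| * (q / S + 1 / |(σ.1 : ℝ)|) =
                q * (2 * |(σ.1 : ℝ)| / S) + 2 := by
              field_simp
            rw [h8]
            have h9 : (q : ℝ) * (4 * κ ^ 2 / |(σ.1 : ℝ)|) ≤ 1 := by
              rw [← mul_div_assoc, div_le_one hMpos]
              have k2 : κ ^ 2 ≤ 1 / 10000 := by
                have := pow_le_pow_left₀ hκ.le hκ1 2
                norm_num at this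
                linarith
              have k4 : (q : ℝ) * (4 * κ ^ 2) ≤ (2 * |(σ.1 : ℝ)|) * (4 * (1 / 10000)) := by
                apply mul_le_mul hqM.le (by linarith) (by positivity) (by positivity)
              linarith
            have h10 : (q : ℝ) * (2 * |(σ.1 : ℝ)| / S + 4 * κ ^ 2 / |(σ.1 : ℝ)|) =
                q * (2 * |(σ.1 : ℝ)| / S) + q * (4 * κ ^ 2 / |(σ.1 : ℝ)|) := by ring
            rw [h10] at h7
            linarith
          exact le_of_mul_le_mul_left h6 (by positivity)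
        have h11 : 1 / |(σ.1 : ℝ)| ≤ 1 / T ^ 3 :=
          one_div_le_one_div_of_le (by positivity) hbig.le
        have h12 : c / (q : ℝ) ^ 3 ≤ q / T ^ 4 + 1 / T ^ 3 := by
          rw [hT4]
          linarith
        have hqT : c1 * T ≤ q := by
          by_contra hcon
          push Not at hcon
          have h13 : c * T ^ 4 ≤ (q : ℝ) ^ 4 + q ^ 3 * T := by
            rw [div_le_iff₀ (by positivity)] at h12
            have h14 : (q / T ^ 4 + 1 / T ^ 3) * (q : ℝ) ^ 3 = (q ^ 4 + q ^ 3 * T) / T ^ 4 := by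
              field_simp
            rw [h14, le_div_iff₀ (by positivity)] at h12
            exact h12
          have h15 : (q : ℝ) ^ 4 < (c1 * T) ^ 4 := pow_lt_pow_left₀ hcon hq0.le (by norm_num)
          have h16 : (q : ℝ) ^ 3 < (c1 * T) ^ 3 := pow_lt_pow_left₀ hcon hq0.le (by norm_num)
          have h17 : c1 ^ 4 ≤ c1 := by
            have : c1 ^ 4 ≤ c1 ^ 1 := pow_le_pow_of_le_one hc1pos.le hc11 (by norm_num)
            simpa using this
          have h18 : c1 ^ 3 ≤ c1 := by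
            have : c1 ^ 3 ≤ c1 ^ 1 := pow_le_pow_of_le_one hc1pos.le hc11 (by norm_num)
            simpa using this
          have h19 : (c1 * T) ^ 4 ≤ (c / 2) * T ^ 4 := by
            rw [mul_pow]
            exact mul_le_mul_of_nonneg_right (h17.trans hc1c) (by positivity)
          have h20 : (c1 * T) ^ 3 * T ≤ (c / 2) * T ^ 4 := by
            have : (c1 * T) ^ 3 * T = c1 ^ 3 * T ^ 4 := by ring
            rw [this]
            exact mul_le_mul_of_nonneg_right (h18.trans hc1c) (by positivity)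
          have h21 : (q : ℝ) ^ 3 * T < (c1 * T) ^ 3 * T := mul_lt_mul_of_pos_right h16 hT0
          linarith
        refine s2.trans ?_
        have h22 : 2 * |(ρ'.1 : ℝ)| / S ≤ 2 * (1 / T) := by
          rw [← hT4]
          have : 2 * (1 / T) = 2 * T ^ 3 / T ^ 4 := by field_simp
          rw [this]
          apply div_le_div_of_nonneg_right _ (by positivity)
          linarith
        have h23 : 1 / (q : ℝ) ≤ 1 / c1 * (1 / T) := by
          have h24 := one_div_le_one_div_of_le (by positivity : 0 < c1 * T) hqT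
          have e : 1 / c1 * (1 / T) = 1 / (c1 * T) := by field_simp
          rw [e]
          exact h24
        linarith
      · push Not at hsmall
        obtain ⟨ρ'', h1, h2, h3, h4⟩ := ih s1 hsmall
        exact ⟨ρ'', h1, h2.tail hch', h3, h4⟩
  by_cases hbig : T ^ 3 < |(ρ.1 : ℝ)|
  · refine key ρ hch ?_ hbig
    have h1 : |ys + 2 * ρ.2 - 2 * ρ.1 * θ| * |(ρ.1 : ℝ)| ≤ 2 * |(ρ.1 : ℝ)| :=
      mul_le_mul_of_nonneg_right hy (abs_nonneg _)
    have h2 : 2 * |(ρ.1 : ℝ)| ≤ 2 * |(ρ.1 : ℝ)| ^ 2 / S := by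
      rw [le_div_iff₀ hS0]
      nlinarith [abs_nonneg (ρ.1 : ℝ)]
    have : 0 < κ ^ 2 := by positivity
    linarith
  · push Not at hbig
    have h1 : T ^ 4 ≤ T ^ 3 := by rw [hT4]; linarith
    have h2 : T ≤ 1 := by
      by_contra h3
      push Not at h3
      have : T ^ 3 * 1 < T ^ 3 * T := mul_lt_mul_of_pos_left h3 (by positivity)
      nlinarith
    have h3 : T = 1 := le_antisymm h2 hT1
    refine ⟨ρ, hch, Relation.ReflTransGen.refl, hbig, ?_⟩
    rw [h3]
    have : 0 < 1 / c1 := by positivity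
    linarith

end Horo
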