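import Pool.Agent.Horo.ADefs

/-! # Gap lemma (B1) -/

open Finset

namespace Horo

theorem gap_floor (m : ℤ) (hm : 0 < m) (x : ℤ) :
    x / m - (x - 1) / m = if m ∣ x then 1 else 0 := by
  split_ifs with h
  · obtain ⟨q, rfl⟩ := h
    have h1 : (m * q - 1) / m = q - 1 :=
      ((Int.ediv_emod_unique (r := m - 1) hm).2 ⟨by ring, by omega, by omega⟩).1
    rw [h1, Int.mul_ediv_cancel_left _ hm.ne']
    ring
  · have h1 := Int.emod_add_mul_ediv x m
    have h2 := Int.emod_nonneg x hm.ne'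
    have h3 := Int.emod_lt_of_pos x hm
    have h4 : x % m ≠ 0 := fun h' => h (Int.dvd_of_emod_eq_zero h')
    have h5 : (x - 1) / m = x / m :=
      ((Int.ediv_emod_unique (r := x % m - 1) hm).2 ⟨by linarith, by omega, by omega⟩).1
    rw [h5, sub_self]

theorem gap_unit_ne {u v : ℤˣ} : u ≠ v ↔ u = -v := by
  rcases Int.units_eq_one_or u with rfl | rfl <;> rcases Int.units_eq_one_or v with rfl | rfl <;>
    decide

/-- periodicity by multiples -/
theorem gap_per (m : ℕ) (f : ℤ → ℤˣ) (hf : ∀ r, f (r + m) = f r) (k : ℕ) (r : ℤ) :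
    f (r + m * k) = f r := by
  induction k with
  | zero => simp
  | succ k ih =>
    rw [← ih, ← hf (r + m * k)]
    congr 1
    push_cast
    ring

theorem gap_mod (m : ℕ) (f : ℤ → ℤˣ) (hf : ∀ r, f (r + m) = f r) (x : ℕ) :
    f ((x % m : ℕ) : ℤ) = f x := by
  conv_rhs => rw [← Nat.mod_add_div x m]
  rw [Nat.cast_add, Nat.cast_mul, gap_per m f hf]

theorem gap_congr (m : ℕ) (f : ℤ → ℤˣ) (hf : ∀ r, f (r + m) = f r) {x y : ℤ}
    (h : (m : ℤ) ∣ y - x) : f x = f y := by
  obtain ⟨k, hk⟩ := h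
  rcases le_total 0 k with h0 | h0
  · obtain ⟨j, rfl⟩ := Int.eq_ofNat_of_zero_le h0
    have : y = x + m * j := by linarith
    rw [this, gap_per m f hf]
  · obtain ⟨j, hj⟩ := Int.eq_ofNat_of_zero_le (a := -k) (by omega)
    have : x = y + m * j := by rw [← hj]; linarith
    rw [this, gap_per m f hf]

/-- the blocks after the flips to `u` -/
theorem gap_block (m : ℕ) (hm : 0 < m) (f : ℤ → ℤˣ) (hf : ∀ r, f (r + m) = f r) (G : ℕ)
    (hG : ∀ r : ℤ, f r ≠ f (r - 1) → ∀ i : ℕ, 1 ≤ i → i < G → f (r + i) = f (r + i - 1))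
    (u : ℤˣ) :
    ((range m).filter (fun r : ℕ => f (r : ℤ) ≠ f ((r : ℤ) - 1) ∧ f (r : ℤ) = u)).card * G ≤
      cnt m f u := by
  have hval : ∀ r : ℤ, f r ≠ f (r - 1) → ∀ i : ℕ, i < G → f (r + i) = f r := by
    intro r hr i
    induction i with
    | zero => intro _; simp
    | succ i ih =>
      intro hi
      rw [hG r hr (i + 1) (by omega) hi, ← ih (by omega)]
      congr 1
      push_cast
      ring
  have hkey : ∀ x y : ℕ, x < m → y < m → f (x : ℤ) ≠ f ((x : ℤ) - 1) →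
      f (y : ℤ) ≠ f ((y : ℤ) - 1) → ∀ i j : ℕ, i < G → j < G → i ≤ j →
      (x + i) % m = (y + j) % m → x = y ∧ i = j := by
    intro x y hx hy hxf hyf i j hi hj hij h
    have h1 : (m : ℤ) ∣ ((y : ℤ) + (j - i : ℕ)) - x := by
      have h2 : (x + i) ≡ (y + j) [MOD m] := h
      have h3 := (Nat.modEq_iff_dvd.1 h2)
      have h4 : ((y : ℤ) + (j - i : ℕ)) - x = ((y + j : ℕ) : ℤ) - ((x + i : ℕ) : ℤ) := by
        rw [Nat.cast_sub hij]
        push_cast
        ring
      rw [h4]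
      exact h3
    have h2 : f (((y : ℤ) + (j - i : ℕ))) = f x := (gap_congr m f hf h1).symm
    have h3 : f (((y : ℤ) + (j - i : ℕ)) - 1) = f ((x : ℤ) - 1) := by
      refine (gap_congr m f hf ?_).symm
      have h4 : ((y : ℤ) + (j - i : ℕ)) - 1 - ((x : ℤ) - 1) = ((y : ℤ) + (j - i : ℕ)) - x := by
        ring
      rw [h4]
      exact h1
    rcases Nat.eq_or_lt_of_le hij with h5 | h5
    · subst h5
      refine ⟨?_, rfl⟩
      rw [Nat.sub_self, Nat.cast_zero, add_zero] at h1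
      obtain ⟨k, hk⟩ := h1
      have hx' : (x : ℤ) < m := by exact_mod_cast hx
      have hy' : (y : ℤ) < m := by exact_mod_cast hy
      have hk0 : k = 0 := by
        rcases lt_trichotomy k 0 with h6 | h6 | h6
        · have : (m : ℤ) * k ≤ m * (-1) := mul_le_mul_of_nonneg_left (by omega) (by omega)
          omega
        · exact h6
        · have : (m : ℤ) * 1 ≤ m * k := mul_le_mul_of_nonneg_left (by omega) (by omega)
          omega
      rw [hk0, mul_zero] at hk
      omega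
    · exfalso
      have h6 := hG y hyf (j - i) (by omega) (by omega)
      rw [h2, h3] at h6
      exact hxf h6
  unfold cnt
  rw [← card_range G, ← card_product]
  refine card_le_card_of_injOn (fun p : ℕ × ℕ => (p.1 + p.2) % m) ?_ ?_
  · rintro ⟨x, i⟩ h
    rw [mem_coe, mem_product, mem_filter, mem_range, mem_range] at h
    obtain ⟨⟨hx, hxf, hxu⟩, hi⟩ := h
    rw [mem_coe, mem_filter, mem_range]
    refine ⟨Nat.mod_lt _ hm, ?_⟩
    show f (((x + i) % m : ℕ) : ℤ) = u
    rw [gap_mod m f hf, Nat.cast_add, hval x hxf i hi, hxu]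
  · rintro ⟨x, i⟩ h ⟨y, j⟩ h' heq
    rw [mem_coe, mem_product, mem_filter, mem_range, mem_range] at h h'
    obtain ⟨⟨hx, hxf, hxu⟩, hi⟩ := h
    obtain ⟨⟨hy, hyf, hyu⟩, hj⟩ := h'
    have heq' : (x + i) % m = (y + j) % m := heq
    rcases le_total i j with h1 | h1
    · obtain ⟨h2, h3⟩ := hkey x y hx hy hxf hyf i j hi hj h1 heq'
      rw [h2, h3]
    · obtain ⟨h2, h3⟩ := hkey y x hy hx hyf hxf j i hj hi h1 heq'.symm
      rw [h2, h3]

/-- the numbers of flips to `1` and to `-1` are equal -/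
theorem gap_balance (m : ℕ) (f : ℤ → ℤˣ) (hf : ∀ r, f (r + m) = f r) :
    ((range m).filter (fun r : ℕ => f (r : ℤ) ≠ f ((r : ℤ) - 1) ∧ f (r : ℤ) = 1)).card =
    ((range m).filter (fun r : ℕ => f (r : ℤ) ≠ f ((r : ℤ) - 1) ∧ f (r : ℤ) = -1)).card := by
  have h1 : ∑ r ∈ range m, (((f (r : ℤ) : ℤˣ) : ℤ) - ((f ((r : ℤ) - 1) : ℤˣ) : ℤ)) = 0 := by
    have h2 := Finset.sum_range_sub (fun r : ℕ => ((f ((r : ℤ) - 1) : ℤˣ) : ℤ)) m
    have h3 : ∀ r : ℕ, (((r + 1 : ℕ) : ℤ) - 1) = r := by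
      intro r
      push_cast
      ring
    simp only [h3] at h2
    rw [h2]
    have h4 : ((m : ℤ) - 1) = ((0 : ℕ) : ℤ) - 1 + m := by
      push_cast
      ring
    rw [h4, hf, sub_self]
  have h2 : ∀ r : ℕ, (((f (r : ℤ) : ℤˣ) : ℤ) - ((f ((r : ℤ) - 1) : ℤˣ) : ℤ)) =
      2 * (if f (r : ℤ) ≠ f ((r : ℤ) - 1) ∧ f (r : ℤ) = 1 then 1 else 0) -
      2 * (if f (r : ℤ) ≠ f ((r : ℤ) - 1) ∧ f (r : ℤ) = -1 then 1 else 0) := by
    intro r
    rcases Int.units_eq_one_or (f r) with h | h <;>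
      rcases Int.units_eq_one_or (f ((r : ℤ) - 1)) with h' | h' <;> rw [h, h'] <;> decide
  rw [sum_congr rfl (fun r _ => h2 r), sum_sub_distrib, ← mul_sum, ← mul_sum, sum_boole,
    sum_boole] at h1
  push_cast at h1
  omega

theorem hGap (h : Stmt_SK) : Stmt_Gap := by
  intro m n M1 g hm hg
  have hm' : (0 : ℤ) < m := by exact_mod_cast hm
  rcases Nat.eq_zero_or_pos M1 with h0 | hM1
  · subst h0
    simp
  rcases le_or_gt g 0 with hg0 | hg0
  · exact (mul_nonpos_of_nonneg_of_nonpos (Nat.cast_nonneg _) hg0).trans (Nat.cast_nonneg _)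
  have hper := (h m n hm).2.2 M1
  set f : ℤ → ℤˣ := sK m n (2 * M1) with hf
  -- distance between flips
  have hdist : ∀ j j' : ℕ, j < 2 * M1 → j' < 2 * M1 → j ≠ j' → ∀ r r' : ℤ,
      (m : ℤ) ∣ r - j * n → (m : ℤ) ∣ r' - j' * n → g ≤ |((r' - r : ℤ) : ℝ)| := by
    intro j j' hj hj' hne r r' h1 h2
    obtain ⟨k, hk⟩ := h1
    obtain ⟨k', hk'⟩ := h2
    have h3 := hg j' j hj' hj (Ne.symm hne) (k - k')
    have h4 : ((r' - r : ℤ) : ℝ) = ((j' : ℝ) - j) * n - ((k - k' : ℤ) : ℝ) * m := by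
      have hr : r = j * n + m * k := by linarith
      have hr' : r' = j' * n + m * k' := by linarith
      rw [hr, hr']
      push_cast
      ring
    rw [h4]
    exact h3
  have hgm : g ≤ m := by
    have h1 := hg 0 1 (by omega) (by omega) (by omega) (-(n / m))
    have h2 : (((0 : ℕ) : ℝ) - ((1 : ℕ) : ℝ)) * n - ((-(n / m) : ℤ) : ℝ) * m = -((n % m : ℤ) : ℝ) := by
      have h3 : (n : ℝ) = ((n % m + m * (n / m) : ℤ) : ℝ) := by
        rw [Int.emod_add_mul_ediv]
      rw [h3]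
      push_cast
      ring
    rw [h2, abs_neg, abs_of_nonneg (by exact_mod_cast Int.emod_nonneg n hm'.ne')] at h1
    have h3 : ((n % m : ℤ) : ℝ) < ((m : ℤ) : ℝ) := by exact_mod_cast Int.emod_lt_of_pos n hm'
    rw [Int.cast_natCast] at h3
    exact h1.trans h3.le
  -- flips
  have hflip : ∀ r : ℤ, f r ≠ f (r - 1) ↔ ∃ j : ℕ, j < 2 * M1 ∧ (m : ℤ) ∣ r - j * n := by
    intro r
    have h1 : f r * f (r - 1) =
        Int.negOnePow (((range (2 * M1)).filter (fun j : ℕ => (m : ℤ) ∣ r - j * n)).card : ℤ) := by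
      rw [hf]
      unfold sK
      rw [← Int.negOnePow_sub, ← sum_sub_distrib]
      congr 1
      rw [card_filter]
      push_cast
      refine sum_congr rfl fun j _ => ?_
      have h2 : r - 1 - (j : ℤ) * n = (r - j * n) - 1 := by ring
      rw [h2, gap_floor m hm']
    have h2 : ((range (2 * M1)).filter (fun j : ℕ => (m : ℤ) ∣ r - j * n)).card ≤ 1 := by
      rw [card_le_one]
      intro j hj j' hj'
      rw [mem_filter, mem_range] at hj hj'
      by_contra hne
      have h3 := hdist j j' hj.1 hj'.1 hne r r hj.2 hj'.2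
      rw [sub_self, Int.cast_zero, abs_zero] at h3
      linarith
    constructor
    · intro hne
      by_contra hcon
      push Not at hcon
      have h3 : ((range (2 * M1)).filter (fun j : ℕ => (m : ℤ) ∣ r - j * n)) = ∅ := by
        rw [filter_eq_empty_iff]
        intro j hj
        exact hcon j (mem_range.1 hj)
      rw [h3, card_empty, Nat.cast_zero, Int.negOnePow_zero] at h1
      apply hne
      rw [gap_unit_ne.1 hne] at h1
      rcases Int.units_eq_one_or (f (r - 1)) with h4 | h4 <;> rw [h4] at h1 <;>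
        exact absurd h1 (by decide)
    · rintro ⟨j, hj, hjd⟩ heq
      have h3 : ((range (2 * M1)).filter (fun j : ℕ => (m : ℤ) ∣ r - j * n)).card = 1 := by
        refine le_antisymm h2 ?_
        rw [Nat.one_le_iff_ne_zero]
        exact card_ne_zero_of_mem (mem_filter.2 ⟨mem_range.2 hj, hjd⟩)
      rw [h3, Nat.cast_one, Int.negOnePow_one, heq] at h1
      rcases Int.units_eq_one_or (f (r - 1)) with h4 | h4 <;> rw [h4] at h1 <;>
        exact absurd h1 (by decide)
  have hG : ∀ r : ℤ, f r ≠ f (r - 1) → ∀ i : ℕ, 1 ≤ i → i < ⌈g⌉₊ →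
      f (r + i) = f (r + i - 1) := by
    intro r hr i hi1 hi2
    by_contra hne
    have hig : (i : ℝ) < g := Nat.lt_ceil.1 hi2
    obtain ⟨j, hj, hjd⟩ := (hflip r).1 hr
    obtain ⟨j', hj', hjd'⟩ := (hflip (r + i)).1 hne
    by_cases hjj : j = j'
    · subst hjj
      have h1 : (m : ℤ) ∣ i := by
        have h2 := dvd_sub hjd' hjd
        have h3 : r + (i : ℤ) - j * n - (r - j * n) = i := by ring
        rwa [h3] at h2
      have h2 : (m : ℤ) ≤ i := Int.le_of_dvd (by omega) h1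
      have h3 : (m : ℝ) ≤ i := by exact_mod_cast h2
      linarith
    · have h1 := hdist j j' hj hj' hjj r (r + i) hjd hjd'
      have h2 : r + (i : ℤ) - r = i := by ring
      rw [h2, Int.cast_natCast, abs_of_nonneg (Nat.cast_nonneg _)] at h1
      linarith
  -- number of flips
  have hcount : 2 * M1 ≤ ((range m).filter (fun r : ℕ => f (r : ℤ) ≠ f ((r : ℤ) - 1))).card := by
    conv_lhs => rw [← card_range (2 * M1)]
    have hcast : ∀ j : ℕ, (((((j : ℤ) * n) % m).toNat : ℕ) : ℤ) = ((j : ℤ) * n) % m := fun j =>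
      Int.toNat_of_nonneg (Int.emod_nonneg _ hm'.ne')
    have hdvd : ∀ j : ℕ, (m : ℤ) ∣ ((((((j : ℤ) * n) % m).toNat : ℕ) : ℤ)) - j * n := by
      intro j
      rw [hcast]
      have h1 := Int.emod_add_mul_ediv ((j : ℤ) * n) m
      exact ⟨-(((j : ℤ) * n) / m), by linarith⟩
    refine card_le_card_of_injOn (fun j : ℕ => (((j : ℤ) * n) % m).toNat) ?_ ?_
    · intro j hj
      rw [mem_coe, mem_range] at hj
      rw [mem_coe, mem_filter, mem_range]
      refine ⟨?_, (hflip _).2 ⟨j, hj, hdvd j⟩⟩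
      have h1 : (((((j : ℤ) * n) % m).toNat : ℕ) : ℤ) < m := by
        rw [hcast]
        exact Int.emod_lt_of_pos _ hm'
      exact_mod_cast h1
    · intro j hj j' hj' heq
      rw [mem_coe, mem_range] at hj hj'
      have heq' : (((j : ℤ) * n) % m).toNat = (((j' : ℤ) * n) % m).toNat := heq
      by_contra hne
      have h1 := hdvd j'
      rw [← heq'] at h1
      have h3 := hdist j j' hj hj' hne _ _ (hdvd j) h1
      rw [sub_self, Int.cast_zero, abs_zero] at h3
      linarith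
  have hsplit : ((range m).filter (fun r : ℕ => f (r : ℤ) ≠ f ((r : ℤ) - 1))).card =
      ((range m).filter (fun r : ℕ => f (r : ℤ) ≠ f ((r : ℤ) - 1) ∧ f (r : ℤ) = 1)).card +
      ((range m).filter (fun r : ℕ => f (r : ℤ) ≠ f ((r : ℤ) - 1) ∧ f (r : ℤ) = -1)).card := by
    rw [← card_union_of_disjoint]
    · congr 1
      ext r
      simp only [mem_filter, mem_union]
      rcases Int.units_eq_one_or (f (r : ℤ)) with h4 | h4 <;> rw [h4] <;> simp
    · rw [disjoint_filter]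
      rintro r - ⟨-, h1⟩ ⟨-, h2⟩
      rw [h1] at h2
      exact absurd h2 (by decide)
  have hbal := gap_balance m f hper
  have key : ∀ u : ℤˣ, M1 ≤ ((range m).filter
      (fun r : ℕ => f (r : ℤ) ≠ f ((r : ℤ) - 1) ∧ f (r : ℤ) = u)).card →
      (M1 : ℝ) * g ≤ cnt m f u := by
    intro u hu
    have h1 := gap_block m hm f hper ⌈g⌉₊ hG u
    have h2 : M1 * ⌈g⌉₊ ≤ cnt m f u := (Nat.mul_le_mul_right _ hu).trans h1
    have h3 : ((M1 * ⌈g⌉₊ : ℕ) : ℝ) ≤ cnt m f u := by exact_mod_cast h2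
    rw [Nat.cast_mul] at h3
    exact (mul_le_mul_of_nonneg_left (Nat.le_ceil g) (Nat.cast_nonneg _)).trans h3
  show (M1 : ℝ) * g ≤ ((min (cnt m f 1) (cnt m f (-1)) : ℕ) : ℝ)
  rw [Nat.cast_min, le_min_iff]
  exact ⟨key 1 (by omega), key (-1) (by omega)⟩

end Horo
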