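import Pool.Agent.Horo.ADefs

/-!
# Problem MP_943ece_an: from Part II (good `m` are sparse) to the return set
-/

open Finset

namespace Horo

theorem rsparse_scale (e C : ℝ) (he0 : 0 ≤ e) (he1 : e ≤ 1) (hC : 0 < C) (S T : ℕ) (hT : 1 ≤ T)
    (hTS : T ≤ 4 * S) : C * (T : ℝ) ^ e ≤ 4 * C * (S : ℝ) ^ e := by
  have h1 : (T : ℝ) ≤ 4 * (S : ℝ) := by exact_mod_cast hTS
  have h2 : (T : ℝ) ^ e ≤ (4 * (S : ℝ)) ^ e :=
    Real.rpow_le_rpow (by positivity) h1 he0
  have h3 : (4 * (S : ℝ)) ^ e = (4 : ℝ) ^ e * (S : ℝ) ^ e :=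
    Real.mul_rpow (by norm_num) (by positivity)
  have h4 : (4 : ℝ) ^ e ≤ 4 := by
    calc (4 : ℝ) ^ e ≤ (4 : ℝ) ^ (1 : ℝ) := Real.rpow_le_rpow_of_exponent_le (by norm_num) he1
      _ = 4 := Real.rpow_one 4
  have h5 : (0 : ℝ) ≤ (S : ℝ) ^ e := by positivity
  calc C * (T : ℝ) ^ e ≤ C * ((4 : ℝ) ^ e * (S : ℝ) ^ e) := by
        rw [← h3]; exact mul_le_mul_of_nonneg_left h2 hC.le
    _ ≤ C * (4 * (S : ℝ) ^ e) := by
        apply mul_le_mul_of_nonneg_left _ hC.le
        exact mul_le_mul_of_nonneg_right h4 h5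
    _ = 4 * C * (S : ℝ) ^ e := by ring

theorem hRSparse (h : Stmt_Sparse) : Stmt_RSparse := by
  obtain ⟨η, hη0, hη1, H⟩ := h
  refine ⟨η, hη0, hη1, ?_⟩
  intro θ ys c η3 h1 h2 h3 h4 h5 h6
  obtain ⟨C, hC, HC⟩ := H θ ys c η3 h1 h2 h3 h4 h5 h6
  refine ⟨12 * C, by positivity, ?_⟩
  intro S hS V hV
  have key : ∀ x ∈ V, ∃ (m : ℕ) (n : ℤ), Good θ ys η η3 m n ∧ x = (m : ℝ) / (n - m * θ) := by
    intro x hx
    exact (hV x hx).1
  choose! m n hg hx using key
  have hslope : ∀ x ∈ V, |((n x : ℤ) : ℝ) - (m x : ℝ) * θ - 1| ≤ 1 / 10 := by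
    intro x hxV
    obtain ⟨n1, E, hE⟩ := hg x hxV
    exact hE.slope
  have hmx : ∀ x ∈ V, (m x : ℝ) = x * (((n x : ℤ) : ℝ) - (m x : ℝ) * θ) := by
    intro x hxV
    have hs := abs_le.mp (hslope x hxV)
    have hpos : (0 : ℝ) < ((n x : ℤ) : ℝ) - (m x : ℝ) * θ := by linarith
    have h7 := hx x hxV
    rw [eq_div_iff hpos.ne'] at h7
    exact h7.symm
  have hinj : Set.InjOn m (V : Set ℝ) := by
    intro x hxV y hyV hxy
    have hxV' : x ∈ V := hxV
    have hyV' : y ∈ V := hyV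
    have hs1 := abs_le.mp (hslope x hxV')
    have hs2 := abs_le.mp (hslope y hyV')
    rw [hxy] at hs1
    have hn : n x = n y := by
      have a1 : ((n x : ℤ) : ℝ) - (n y : ℤ) < 1 := by linarith
      have a2 : ((n y : ℤ) : ℝ) - (n x : ℤ) < 1 := by linarith
      have b1 : n x - n y < 1 := by exact_mod_cast a1
      have b2 : n y - n x < 1 := by exact_mod_cast a2
      omega
    rw [hx x hxV', hx y hyV', hxy, hn]
  have hcard : (V.image m).card = V.card := Finset.card_image_of_injOn hinj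
  set S' : ℕ := (S + 1) / 2 with hS'
  have hS'1 : 1 ≤ S' := by omega
  have hS'S : S' ≤ S := by omega
  have hS'2 : S ≤ 2 * S' := by omega
  have hbd : ∀ x ∈ V, S' ≤ m x ∧ m x < 8 * S' := by
    intro x hxV
    have hs := abs_le.mp (hslope x hxV)
    have hSx := (hV x hxV).2
    have hSpos : (1 : ℝ) ≤ S := by exact_mod_cast hS
    have e1 := hmx x hxV
    constructor
    · have l1 : (9 / 10 : ℝ) * S ≤ m x := by
        rw [e1]
        nlinarith
      rcases Nat.lt_or_ge S 2 with hlt | hge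
      · have hS1 : S = 1 := by omega
        have : S' = 1 := by omega
        rw [this]
        have l2 : (0 : ℝ) < m x := by linarith
        have l3 : 0 < m x := by exact_mod_cast l2
        omega
      · have l2 : (9 : ℝ) * S ≤ 10 * m x := by linarith
        have l3 : 9 * S ≤ 10 * m x := by exact_mod_cast l2
        omega
    · have l1 : (m x : ℝ) ≤ 22 / 10 * S := by
        rw [e1]
        nlinarith
      have l2 : (10 : ℝ) * m x ≤ 22 * S := by linarith
      have l3 : 10 * m x ≤ 22 * S := by exact_mod_cast l2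
      omega
  let W : ℕ → Finset ℕ := fun T => (V.image m).filter (fun a => T ≤ a ∧ a < 2 * T)
  have hW : ∀ T : ℕ, 1 ≤ T → T ≤ 4 * S → ((W T).card : ℝ) ≤ 4 * C * (S : ℝ) ^ (1 - 1 / 336 : ℝ) := by
    intro T hT hTS
    refine le_trans (HC T hT (W T) ?_)
      (rsparse_scale (1 - 1 / 336) C (by norm_num) (by norm_num) hC S T hT hTS)
    intro a ha
    obtain ⟨ha1, ha2⟩ := Finset.mem_filter.mp ha
    obtain ⟨x, hxV, rfl⟩ := Finset.mem_image.mp ha1
    exact ⟨ha2.1, ha2.2, n x, hg x hxV⟩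
  have hcov : V.image m ⊆ W S' ∪ (W (2 * S') ∪ W (4 * S')) := by
    intro a ha
    obtain ⟨x, hxV, rfl⟩ := Finset.mem_image.mp ha
    have hb := hbd x hxV
    simp only [W, Finset.mem_union, Finset.mem_filter]
    by_cases c1 : m x < 2 * S'
    · exact Or.inl ⟨ha, hb.1, c1⟩
    · by_cases c2 : m x < 2 * (2 * S')
      · exact Or.inr (Or.inl ⟨ha, by omega, c2⟩)
      · exact Or.inr (Or.inr ⟨ha, by omega, by omega⟩)
  have hle : (V.image m).card ≤ (W S').card + ((W (2 * S')).card + (W (4 * S')).card) :=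
    (Finset.card_le_card hcov).trans ((Finset.card_union_le _ _).trans
      (Nat.add_le_add_left (Finset.card_union_le _ _) _))
  have hle' : (V.card : ℝ) ≤ ((W S').card : ℝ) + (((W (2 * S')).card : ℝ) + ((W (4 * S')).card : ℝ)) := by
    rw [← hcard]
    exact_mod_cast hle
  have w1 := hW S' hS'1 (by omega)
  have w2 := hW (2 * S') (by omega) (by omega)
  have w3 := hW (4 * S') (by omega) (by omega)
  calc (V.card : ℝ) ≤ _ := hle'
    _ ≤ 4 * C * (S : ℝ) ^ (1 - 1 / 336 : ℝ) + (4 * C * (S : ℝ) ^ (1 - 1 / 336 : ℝ)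
        + 4 * C * (S : ℝ) ^ (1 - 1 / 336 : ℝ)) := by
      exact add_le_add w1 (add_le_add w2 w3)
    _ = 12 * C * (S : ℝ) ^ (1 - 1 / 336 : ℝ) := by ring

end Horo
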