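import Mathlib

/-!
# Choice of the scales (problem MP_943ece_an)

If a set `N ⊆ ℝ` has measure at most `C * S ^ (1 - γ)` in `[S, 2 S]` and `m γ > 1`, then for
almost every `(r_1, …, r_m)` only finitely many integers `t` satisfy `r_j t ∈ N` for all `j`.
-/

open MeasureTheory Set Filter Topology
open scoped ENNReal

namespace Horo

/-- Measure of the `x ∈ [a, b] ⊆ [1, 2]` with `x t ∈ N`. -/
lemma volume_scaled_le {N : Set ℝ} {C γ : ℝ}
    (hC : ∀ S : ℝ, 1 ≤ S → volume (N ∩ Icc S (2 * S)) ≤ ENNReal.ofReal (C * S ^ (1 - γ)))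
    {a b : ℝ} (ha : 1 ≤ a) (hb : b ≤ 2) {t : ℕ} (ht : 1 ≤ t) :
    volume ({x : ℝ | x * t ∈ N} ∩ Icc a b) ≤ ENNReal.ofReal (C * (t : ℝ) ^ (-γ)) := by
  have ht0 : (0 : ℝ) < t := by exact_mod_cast ht
  have ht1 : (1 : ℝ) ≤ t := by exact_mod_cast ht
  have h1 : {x : ℝ | x * t ∈ N} ∩ Icc a b ⊆ (fun x : ℝ => x * (t : ℝ)) ⁻¹' (N ∩ Icc (t : ℝ) (2 * t)) := by
    rintro x ⟨hx, hx1, hx2⟩
    refine ⟨hx, ?_, ?_⟩
    · show (t : ℝ) ≤ x * t
      nlinarith
    · show x * (t : ℝ) ≤ 2 * t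
      nlinarith
  have h2 : volume ((fun x : ℝ => x * (t : ℝ)) ⁻¹' (N ∩ Icc (t : ℝ) (2 * t)))
      = ENNReal.ofReal |(t : ℝ)⁻¹| * volume (N ∩ Icc (t : ℝ) (2 * t)) :=
    Real.volume_preimage_mul_right ht0.ne' _
  calc volume ({x : ℝ | x * t ∈ N} ∩ Icc a b)
      ≤ ENNReal.ofReal |(t : ℝ)⁻¹| * volume (N ∩ Icc (t : ℝ) (2 * t)) := by
        rw [← h2]; exact measure_mono h1
    _ ≤ ENNReal.ofReal |(t : ℝ)⁻¹| * ENNReal.ofReal (C * (t : ℝ) ^ (1 - γ)) := by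
        gcongr
        exact hC t ht1
    _ = ENNReal.ofReal (C * (t : ℝ) ^ (-γ)) := by
        rw [← ENNReal.ofReal_mul (abs_nonneg _)]
        congr 1
        rw [abs_of_pos (inv_pos.mpr ht0)]
        have : (t : ℝ) ^ (1 - γ) = t * (t : ℝ) ^ (-γ) := by
          rw [sub_eq_add_neg, Real.rpow_add ht0, Real.rpow_one]
        rw [this]
        field_simp

/-- **Choice of scales.** -/
theorem exists_scales {N : Set ℝ} {C γ : ℝ}
    (hC : ∀ S : ℝ, 1 ≤ S → volume (N ∩ Icc S (2 * S)) ≤ ENNReal.ofReal (C * S ^ (1 - γ)))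
    {m : ℕ} (hm : 1 < m * γ) (a b : Fin m → ℝ)
    (hab : ∀ j, 1 ≤ a j ∧ a j < b j ∧ b j ≤ 2) :
    ∃ r : Fin m → ℝ, (∀ j, r j ∈ Icc (a j) (b j)) ∧
      ∃ t0 : ℕ, ∀ t : ℕ, t0 ≤ t → ∃ j, r j * t ∉ N := by
  classical
  set P : Set (Fin m → ℝ) := Set.univ.pi (fun j => Icc (a j) (b j)) with hP
  set Bad : ℕ → Set (Fin m → ℝ) := fun t =>
    Set.univ.pi (fun j => {x : ℝ | x * t ∈ N} ∩ Icc (a j) (b j)) with hBad
  have hvol : ∀ t : ℕ, 1 ≤ t → volume (Bad t) ≤ ENNReal.ofReal (|C| ^ m * (t : ℝ) ^ (-(m * γ))) := by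
    intro t ht
    have ht0 : (0 : ℝ) < t := by exact_mod_cast ht
    have h0 : ∀ j, volume ({x : ℝ | x * t ∈ N} ∩ Icc (a j) (b j))
        ≤ ENNReal.ofReal (|C| * (t : ℝ) ^ (-γ)) := by
      intro j
      refine (volume_scaled_le hC (hab j).1 (hab j).2.2 ht).trans (ENNReal.ofReal_le_ofReal ?_)
      exact mul_le_mul_of_nonneg_right (le_abs_self C) (Real.rpow_nonneg ht0.le _)
    calc volume (Bad t) = ∏ j : Fin m, volume ({x : ℝ | x * t ∈ N} ∩ Icc (a j) (b j)) :=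
          volume_pi_pi _
      _ ≤ ∏ _j : Fin m, ENNReal.ofReal (|C| * (t : ℝ) ^ (-γ)) :=
          Finset.prod_le_prod' (fun j _ => h0 j)
      _ = ENNReal.ofReal (|C| ^ m * (t : ℝ) ^ (-(m * γ))) := by
          rw [Finset.prod_const, Finset.card_univ, Fintype.card_fin,
            ← ENNReal.ofReal_pow (by positivity), mul_pow, ← Real.rpow_natCast ((t : ℝ) ^ (-γ)) m,
            ← Real.rpow_mul ht0.le]
          congr 3
          ring
  have hsum : ∑' t : ℕ, volume (Bad (t + 1)) ≠ ∞ := by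
    have hs : Summable (fun t : ℕ => |C| ^ m * ((t + 1 : ℕ) : ℝ) ^ (-(m * γ))) := by
      apply Summable.mul_left
      exact (summable_nat_add_iff 1).mpr (Real.summable_nat_rpow.mpr (by linarith))
    refine ne_top_of_le_ne_top ?_ (ENNReal.tsum_le_tsum (fun t => hvol (t + 1) (by omega)))
    exact hs.tsum_ofReal_ne_top
  have hlim := measure_limsup_atTop_eq_zero hsum
  have hPpos : 0 < volume P := by
    rw [hP, volume_pi_pi]
    rw [pos_iff_ne_zero, Finset.prod_ne_zero_iff]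
    intro j _
    rw [Real.volume_Icc]
    have := (hab j).2.1
    simp only [ne_eq, ENNReal.ofReal_eq_zero, not_le]
    linarith
  have hne : ¬ P ⊆ limsup (fun t => Bad (t + 1)) atTop := by
    intro hsub
    have := measure_mono (μ := volume) hsub
    rw [hlim] at this
    exact absurd this (not_le.mpr hPpos)
  obtain ⟨r, hrP, hr⟩ := Set.not_subset.mp hne
  have hrP' : ∀ j, r j ∈ Icc (a j) (b j) := fun j => hrP j (Set.mem_univ _)
  refine ⟨r, hrP', ?_⟩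
  rw [mem_limsup_iff_frequently_mem, not_frequently] at hr
  obtain ⟨t0, ht0⟩ := eventually_atTop.mp hr
  refine ⟨t0 + 1, fun t ht => ?_⟩
  have h1 := ht0 (t - 1) (by omega)
  have h2 : t - 1 + 1 = t := by omega
  rw [h2] at h1
  by_contra hcon
  push Not at hcon
  exact h1 (fun j _ => ⟨hcon j, hrP' j⟩)

end Horo
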