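import Pool.Agent.Horo.ADefs
import Pool.Agent.Horo.Scales

/-!
# Part IV: choice of the scales (`Stmt_Scales`)
-/

open MeasureTheory Set Filter Topology
open scoped ENNReal

namespace Horo

lemma scalesiv_finite {R : Set ℝ} {C : ℝ} (hC : ∀ (S : ℕ), 1 ≤ S → ∀ V : Finset ℝ,
    (∀ x ∈ V, x ∈ R ∧ (S : ℝ) ≤ x ∧ x ≤ 2 * S) → (V.card : ℝ) ≤ C * (S : ℝ) ^ (1 - 1 / 336 : ℝ))
    {S : ℕ} (hS : 1 ≤ S) :
    ∃ F : Finset ℝ, (∀ x, x ∈ F ↔ x ∈ R ∧ (S : ℝ) ≤ x ∧ x ≤ 2 * S) ∧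
      (F.card : ℝ) ≤ C * (S : ℝ) ^ (1 - 1 / 336 : ℝ) := by
  have hfin : {x | x ∈ R ∧ (S : ℝ) ≤ x ∧ x ≤ 2 * S}.Finite := by
    by_contra hinf
    obtain ⟨n, hn⟩ := exists_nat_gt (C * (S : ℝ) ^ (1 - 1 / 336 : ℝ))
    obtain ⟨F, hF, hcard⟩ := Set.Infinite.exists_subset_card_eq hinf n
    have h1 := hC S hS F (fun x hx => hF hx)
    rw [hcard] at h1
    linarith
  refine ⟨hfin.toFinset, fun x => by rw [hfin.mem_toFinset]; rfl, ?_⟩
  exact hC S hS _ (fun x hx => by rw [hfin.mem_toFinset] at hx; exact hx)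

lemma scalesiv_volume {R : Set ℝ} {C : ℝ} (hC0 : 0 < C) (hC : ∀ (S : ℕ), 1 ≤ S → ∀ V : Finset ℝ,
    (∀ x ∈ V, x ∈ R ∧ (S : ℝ) ≤ x ∧ x ≤ 2 * S) → (V.card : ℝ) ≤ C * (S : ℝ) ^ (1 - 1 / 336 : ℝ))
    (S : ℝ) (hS : 1 ≤ S) :
    volume ({x : ℝ | ∃ ρ ∈ R, |x - ρ| ≤ 3} ∩ Icc S (2 * S))
      ≤ ENNReal.ofReal ((24 * C + 10) * S ^ (1 - 1 / 336 : ℝ)) := by
  have hS1 : 1 ≤ S ^ (1 - 1 / 336 : ℝ) := Real.one_le_rpow hS (by norm_num)
  rcases le_total S 10 with h10 | h10
  · calc volume ({x : ℝ | ∃ ρ ∈ R, |x - ρ| ≤ 3} ∩ Icc S (2 * S)) ≤ volume (Icc S (2 * S)) :=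
          measure_mono inter_subset_right
      _ = ENNReal.ofReal (2 * S - S) := Real.volume_Icc
      _ ≤ ENNReal.ofReal ((24 * C + 10) * S ^ (1 - 1 / 336 : ℝ)) := by
          apply ENNReal.ofReal_le_ofReal
          nlinarith
  · set n : ℕ := ⌊S - 3⌋₊ with hn
    have h1 : (n : ℝ) ≤ S - 3 := Nat.floor_le (by linarith)
    have h2 : S - 4 < n := by
      have := Nat.lt_floor_add_one (S - 3)
      rw [← hn] at this
      linarith
    have hn1 : 1 ≤ n := by
      have : (1 : ℝ) < n := by linarith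
      exact_mod_cast this.le
    have h2n : 1 ≤ 2 * n := by omega
    obtain ⟨F1, hF1, hc1⟩ := scalesiv_finite hC hn1
    obtain ⟨F2, hF2, hc2⟩ := scalesiv_finite hC h2n
    have hsub : {x : ℝ | ∃ ρ ∈ R, |x - ρ| ≤ 3} ∩ Icc S (2 * S)
        ⊆ ⋃ ρ ∈ (F1 ∪ F2 : Finset ℝ), Icc (ρ - 3) (ρ + 3) := by
      rintro x ⟨⟨ρ, hρ, hx⟩, hx1, hx2⟩
      rw [abs_le] at hx
      simp only [Finset.mem_union, mem_iUnion, exists_prop]
      refine ⟨ρ, ?_, by linarith, by linarith⟩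
      rcases le_total ρ (2 * n) with h | h
      · left
        rw [hF1]
        exact ⟨hρ, by linarith, h⟩
      · right
        rw [hF2]
        push_cast
        exact ⟨hρ, h, by linarith⟩
    have hcard : ((F1 ∪ F2).card : ℝ) ≤ 4 * C * S ^ (1 - 1 / 336 : ℝ) := by
      have h3 : ((F1 ∪ F2).card : ℝ) ≤ F1.card + F2.card := by
        exact_mod_cast Finset.card_union_le F1 F2
      have h4 : (n : ℝ) ^ (1 - 1 / 336 : ℝ) ≤ S ^ (1 - 1 / 336 : ℝ) :=
        Real.rpow_le_rpow (by positivity) (by linarith) (by norm_num)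
      have h5 : ((2 * n : ℕ) : ℝ) ^ (1 - 1 / 336 : ℝ) ≤ 2 * S ^ (1 - 1 / 336 : ℝ) := by
        calc ((2 * n : ℕ) : ℝ) ^ (1 - 1 / 336 : ℝ) ≤ (2 * S) ^ (1 - 1 / 336 : ℝ) := by
              apply Real.rpow_le_rpow (by positivity) _ (by norm_num)
              push_cast
              linarith
          _ = 2 ^ (1 - 1 / 336 : ℝ) * S ^ (1 - 1 / 336 : ℝ) :=
              Real.mul_rpow (by norm_num) (by linarith)
          _ ≤ 2 ^ (1 : ℝ) * S ^ (1 - 1 / 336 : ℝ) := by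
              apply mul_le_mul_of_nonneg_right _ (by positivity)
              exact Real.rpow_le_rpow_of_exponent_le (by norm_num) (by norm_num)
          _ = 2 * S ^ (1 - 1 / 336 : ℝ) := by rw [Real.rpow_one]
      have h6 : C * (n : ℝ) ^ (1 - 1 / 336 : ℝ) ≤ C * S ^ (1 - 1 / 336 : ℝ) :=
        mul_le_mul_of_nonneg_left h4 hC0.le
      have h7 : C * ((2 * n : ℕ) : ℝ) ^ (1 - 1 / 336 : ℝ) ≤ C * (2 * S ^ (1 - 1 / 336 : ℝ)) :=
        mul_le_mul_of_nonneg_left h5 hC0.le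
      have h8 : 0 ≤ C * S ^ (1 - 1 / 336 : ℝ) := by positivity
      linarith
    calc volume ({x : ℝ | ∃ ρ ∈ R, |x - ρ| ≤ 3} ∩ Icc S (2 * S))
        ≤ volume (⋃ ρ ∈ (F1 ∪ F2 : Finset ℝ), Icc (ρ - 3) (ρ + 3)) := measure_mono hsub
      _ ≤ ∑ ρ ∈ (F1 ∪ F2 : Finset ℝ), volume (Icc (ρ - 3) (ρ + 3)) :=
          measure_biUnion_finset_le _ _
      _ = ∑ _ρ ∈ (F1 ∪ F2 : Finset ℝ), ENNReal.ofReal 6 := by
          apply Finset.sum_congr rfl
          intro ρ _
          rw [Real.volume_Icc]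
          congr 1
          ring
      _ = ENNReal.ofReal ((F1 ∪ F2).card * 6) := by
          rw [Finset.sum_const, nsmul_eq_mul, ENNReal.ofReal_mul (by positivity),
            ENNReal.ofReal_natCast]
      _ ≤ ENNReal.ofReal ((24 * C + 10) * S ^ (1 - 1 / 336 : ℝ)) := by
          apply ENNReal.ofReal_le_ofReal
          nlinarith

/-- **Part IV.** -/
theorem hScales : Stmt_Scales := by
  intro B _ hB R hR
  obtain ⟨C, hC0, hC⟩ := hR
  have hB0 : (0 : ℝ) < B := by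
    have : 0 < B := by omega
    exact_mod_cast this
  set a : Fin B → ℝ := fun j => 1 + (j : ℕ) / (200 * B) with ha
  set b : Fin B → ℝ := fun j => 1 + (j : ℕ) / (200 * B) + 1 / (400 * B) with hb
  have hj : ∀ j : Fin B, ((j : ℕ) : ℝ) / (200 * B) ≤ 1 / 200 := by
    intro j
    rw [div_le_div_iff₀ (by positivity) (by norm_num)]
    have : ((j : ℕ) : ℝ) ≤ B := by exact_mod_cast j.2.le
    linarith
  have hB1 : 1 / (400 * (B : ℝ)) ≤ 1 / 400 := by
    apply one_div_le_one_div_of_le (by norm_num)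
    have : (1 : ℝ) ≤ B := by
      have : 1 ≤ B := by omega
      exact_mod_cast this
    linarith
  have hB2 : 0 < 1 / (400 * (B : ℝ)) := by positivity
  have hj0 : ∀ j : Fin B, 0 ≤ ((j : ℕ) : ℝ) / (200 * B) := fun j => by positivity
  obtain ⟨r, hr, t0, ht0⟩ := exists_scales (N := {x : ℝ | ∃ ρ ∈ R, |x - ρ| ≤ 3})
    (C := 24 * C + 10) (γ := 1 / 336) (scalesiv_volume hC0 hC) (m := B) (by
      have : (337 : ℝ) ≤ B := by exact_mod_cast hB
      linarith) a b (fun j => ⟨by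
        have := hj0 j
        simp only [ha]; linarith, by
        simp only [ha, hb]; linarith, by
        have := hj j
        simp only [hb]; linarith⟩)
  have hinj : Function.Injective r := by
    intro i j hij
    have hi := hr i
    have hj' := hr j
    rw [hij] at hi
    have h1 : (((i : ℕ) : ℝ) - (j : ℕ)) / (200 * B) ≤ 1 / (400 * B) := by
      have := hi.1
      have := hj'.2
      simp only [ha, hb] at *
      rw [sub_div]
      linarith
    have h2 : (((j : ℕ) : ℝ) - (i : ℕ)) / (200 * B) ≤ 1 / (400 * B) := by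
      have := hj'.1
      have := hi.2
      simp only [ha, hb] at *
      rw [sub_div]
      linarith
    rw [div_le_div_iff₀ (by positivity) (by positivity)] at h1 h2
    have h3 : (((i : ℕ) : ℝ) - (j : ℕ)) < 1 := by nlinarith
    have h4 : (((j : ℕ) : ℝ) - (i : ℕ)) < 1 := by nlinarith
    apply Fin.ext
    have h5 : (i : ℕ) < (j : ℕ) + 1 := by
      have : ((i : ℕ) : ℝ) < (j : ℕ) + 1 := by linarith
      exact_mod_cast this
    have h6 : (j : ℕ) < (i : ℕ) + 1 := by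
      have : ((j : ℕ) : ℝ) < (i : ℕ) + 1 := by linarith
      exact_mod_cast this
    omega
  set e := (ZMod.finEquiv B).symm with he
  refine ⟨fun j => r (e j), ?_, ?_, (t0 : ℝ) + 1, ?_⟩
  · intro j
    have h1 := hr (e j)
    have h2 := hj (e j)
    have h3 := hj0 (e j)
    refine ⟨?_, ?_⟩
    · have := h1.1
      simp only [ha] at this
      linarith
    · have := h1.2
      simp only [hb] at this
      norm_num
      linarith
  · exact hinj.comp e.injective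
  · intro s hs hall
    have hs0 : 0 ≤ s := by
      have : (0 : ℝ) ≤ t0 := by positivity
      linarith
    have h1 : (⌊s⌋₊ : ℝ) ≤ s := Nat.floor_le hs0
    have h2 : s < ⌊s⌋₊ + 1 := Nat.lt_floor_add_one s
    have h3 : t0 ≤ ⌊s⌋₊ := by
      apply Nat.le_floor
      linarith
    obtain ⟨j, hj1⟩ := ht0 ⌊s⌋₊ h3
    apply hj1
    obtain ⟨ρ, hρ, hρ1⟩ := hall (e.symm j)
    simp only [RingEquiv.apply_symm_apply] at hρ1
    refine ⟨ρ, hρ, ?_⟩
    have h4 := hr j
    have h5 := hj j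
    have h6 := hj0 j
    have h7 : 1 ≤ r j := by
      have := h4.1
      simp only [ha] at this
      linarith
    have h8 : r j ≤ 1.01 := by
      have := h4.2
      simp only [hb] at this
      norm_num
      linarith
    rw [abs_le] at hρ1 ⊢
    have h9 : s * r j - 1.01 ≤ r j * ⌊s⌋₊ := by nlinarith
    have h10 : r j * ⌊s⌋₊ ≤ s * r j := by nlinarith
    constructor
    · norm_num at h9 ⊢
      linarith
    · linarith

end Horo
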