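import Pool.Agent.Horo.ADefs

/-! # (B7), (B8): good `m` are sparse -/

set_option autoImplicit false

open Finset

namespace Horo

/-- separated points in a short interval -/
theorem sparse_sep {ι : Type*} (T : Finset ι) (f : ι → ℝ) (a δ ε : ℝ) (hε : 0 < ε) (hδ : 0 ≤ δ)
    (h : ∀ i ∈ T, |f i - a| ≤ δ) (hs : ∀ i ∈ T, ∀ j ∈ T, i ≠ j → ε ≤ |f i - f j|) :
    (T.card : ℝ) ≤ 1 + 2 * δ / ε := by
  have hmap : ∀ i ∈ T, ⌊(f i - (a - δ)) / ε⌋₊ ∈ Finset.range (⌊2 * δ / ε⌋₊ + 1) := by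
    intro i hi
    rw [Finset.mem_range, Nat.lt_succ_iff]
    apply Nat.floor_le_floor
    apply div_le_div_of_nonneg_right _ hε.le
    have := (abs_le.1 (h i hi)).2
    linarith
  have hinj : Set.InjOn (fun i => ⌊(f i - (a - δ)) / ε⌋₊) (T : Set ι) := by
    intro i hi j hj hij
    by_contra hne
    have h1 := hs i hi j hj hne
    have hi0 : 0 ≤ (f i - (a - δ)) / ε := by
      apply div_nonneg _ hε.le
      have := (abs_le.1 (h i hi)).1
      linarith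
    have hj0 : 0 ≤ (f j - (a - δ)) / ε := by
      apply div_nonneg _ hε.le
      have := (abs_le.1 (h j hj)).1
      linarith
    have hij' : ⌊(f i - (a - δ)) / ε⌋₊ = ⌊(f j - (a - δ)) / ε⌋₊ := hij
    have a1 := Nat.floor_le hi0
    have a2 := Nat.lt_floor_add_one ((f i - (a - δ)) / ε)
    have b1 := Nat.floor_le hj0
    have b2 := Nat.lt_floor_add_one ((f j - (a - δ)) / ε)
    rw [hij'] at a1 a2
    have c1 : |(f i - (a - δ)) / ε - (f j - (a - δ)) / ε| < 1 := by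
      rw [abs_lt]
      constructor <;> linarith
    have c2 : (f i - (a - δ)) / ε - (f j - (a - δ)) / ε = (f i - f j) / ε := by
      rw [← sub_div]
      ring
    rw [c2, abs_div, abs_of_pos hε, div_lt_one hε] at c1
    linarith
  have hcard := Finset.card_le_card_of_injOn _ hmap hinj
  rw [Finset.card_range] at hcard
  have h2 : (⌊2 * δ / ε⌋₊ : ℝ) ≤ 2 * δ / ε := Nat.floor_le (by positivity)
  have h3 : (T.card : ℝ) ≤ ((⌊2 * δ / ε⌋₊ + 1 : ℕ) : ℝ) := by exact_mod_cast hcard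
  push_cast at h3
  linarith

/-- the number of `m` with the same pair -/
theorem sparse_fiber (ys η3 : ℝ) (S : ℕ) (hS : 1 ≤ S) (hη0 : 0 < η3) (hη1 : η3 ≤ 1) (ρ : ℤ × ℤ)
    (hρ : ρ.1 ≠ 0) (T : Finset ℕ) (n : ℕ → ℤ)
    (hT : ∀ m ∈ T, S ≤ m ∧ m < 2 * S ∧ 2 * |ρ.1| ≤ m ∧ IsCoprime (m : ℤ) (n m) ∧
      |(m : ℝ) * (ys + 2 * ρ.2) - 2 * ρ.1 * n m| ≤ η3) :
    (T.card : ℝ) ≤ 5 * S / |(ρ.1 : ℝ)| := by
  rcases T.eq_empty_or_nonempty with rfl | ⟨m₀, hm₀⟩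
  · simp only [Finset.card_empty, Nat.cast_zero]
    positivity
  have hM : 0 < |(ρ.1 : ℝ)| := abs_pos.2 (by exact_mod_cast hρ)
  have hM' : (ρ.1 : ℝ) ≠ 0 := by exact_mod_cast hρ
  have hSr : (0 : ℝ) < S := by exact_mod_cast (by omega : 0 < S)
  have hMS : |(ρ.1 : ℝ)| ≤ S := by
    obtain ⟨h1, h2, h3, -⟩ := hT m₀ hm₀
    have h4 : |ρ.1| ≤ (S : ℤ) := by omega
    have h5 : ((|ρ.1| : ℤ) : ℝ) ≤ ((S : ℤ) : ℝ) := by exact_mod_cast h4
    rw [Int.cast_abs] at h5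
    exact_mod_cast h5
  have hb := sparse_sep T (fun m => (n m : ℝ) / m) ((ys + 2 * ρ.2) / (2 * ρ.1))
    (η3 / (2 * |(ρ.1 : ℝ)| * S)) (1 / (4 * (S : ℝ) ^ 2)) (by positivity) (by positivity)
    (by
      intro m hm
      obtain ⟨h1, h2, h3, h4, h5⟩ := hT m hm
      have hm0 : (0 : ℝ) < m := by exact_mod_cast (by omega : 0 < m)
      have e : (n m : ℝ) / m - (ys + 2 * ρ.2) / (2 * ρ.1) =
          -((m : ℝ) * (ys + 2 * ρ.2) - 2 * ρ.1 * n m) / (2 * ρ.1 * m) := by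
        field_simp
        ring
      show |(n m : ℝ) / m - (ys + 2 * ρ.2) / (2 * ρ.1)| ≤ _
      rw [e, abs_div, abs_neg, abs_mul, abs_mul, abs_of_pos hm0, abs_of_pos (two_pos : (0 : ℝ) < 2)]
      have hSm : (S : ℝ) ≤ m := by exact_mod_cast h1
      apply div_le_div₀ hη0.le h5 (by positivity)
      exact mul_le_mul_of_nonneg_left hSm (by positivity))
    (by
      intro i hi j hj hij
      obtain ⟨i1, i2, i3, i4, i5⟩ := hT i hi
      obtain ⟨j1, j2, j3, j4, j5⟩ := hT j hj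
      have hi0 : (0 : ℝ) < i := by exact_mod_cast (by omega : 0 < i)
      have hj0 : (0 : ℝ) < j := by exact_mod_cast (by omega : 0 < j)
      have hne : n i * (j : ℤ) - n j * (i : ℤ) ≠ 0 := by
        intro h0
        apply hij
        have h1 : (i : ℤ) ∣ (j : ℤ) := by
          apply i4.dvd_of_dvd_mul_left
          exact ⟨n j, by linarith [mul_comm (i : ℤ) (n j)]⟩
        have h2 : (j : ℤ) ∣ (i : ℤ) := by
          apply j4.dvd_of_dvd_mul_left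
          exact ⟨n i, by linarith [mul_comm (j : ℤ) (n i)]⟩
        exact Nat.dvd_antisymm (Int.natCast_dvd_natCast.1 h1) (Int.natCast_dvd_natCast.1 h2)
      have h1 : (1 : ℤ) ≤ |n i * (j : ℤ) - n j * (i : ℤ)| := Int.one_le_abs hne
      have h2 : (1 : ℝ) ≤ |(n i : ℝ) * j - n j * i| := by
        have : ((1 : ℤ) : ℝ) ≤ ((|n i * (j : ℤ) - n j * (i : ℤ)| : ℤ) : ℝ) := by exact_mod_cast h1
        rw [Int.cast_abs] at this
        push_cast at this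
        exact this
      have e : (n i : ℝ) / i - (n j : ℝ) / j = ((n i : ℝ) * j - n j * i) / (i * j) := by
        field_simp
      show 1 / (4 * (S : ℝ) ^ 2) ≤ |(n i : ℝ) / i - (n j : ℝ) / j|
      rw [e, abs_div, abs_of_pos (mul_pos hi0 hj0)]
      apply div_le_div₀ (by positivity) h2 (by positivity)
      have hi' : (i : ℝ) ≤ 2 * S := by exact_mod_cast i2.le
      have hj' : (j : ℝ) ≤ 2 * S := by exact_mod_cast j2.le
      nlinarith [mul_le_mul hi' hj' hj0.le (by positivity : (0 : ℝ) ≤ 2 * S)])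
  have e2 : 2 * (η3 / (2 * |(ρ.1 : ℝ)| * S)) / (1 / (4 * (S : ℝ) ^ 2)) =
      4 * S * η3 / |(ρ.1 : ℝ)| := by
    field_simp
  rw [e2] at hb
  have e3 : 4 * S * η3 / |(ρ.1 : ℝ)| ≤ 4 * S / |(ρ.1 : ℝ)| := by
    apply div_le_div_of_nonneg_right _ hM.le
    nlinarith
  have e4 : 1 ≤ S / |(ρ.1 : ℝ)| := by
    rw [le_div_iff₀ hM]
    linarith
  have e5 : 5 * S / |(ρ.1 : ℝ)| = S / |(ρ.1 : ℝ)| + 4 * S / |(ρ.1 : ℝ)| := by
    rw [← add_div]
    ring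
  linarith

theorem sparse_geom (r : ℝ) (h0 : 0 < r) (h1 : r < 1) (T : Finset ℕ) (k0 : ℕ)
    (hT : ∀ k ∈ T, k0 ≤ k) : ∑ k ∈ T, r ^ k ≤ r ^ k0 / (1 - r) := by
  have e : ∑ k ∈ T, r ^ k = r ^ k0 * ∑ j ∈ T.image (fun k => k - k0), r ^ j := by
    rw [Finset.sum_image, Finset.mul_sum]
    · apply Finset.sum_congr rfl
      intro k hk
      rw [← pow_add]
      congr 1
      have := hT k hk
      omega
    · intro a ha b hb hab
      have h2 := hT a ha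
      have h3 := hT b hb
      simp only at hab
      omega
  rw [e, div_eq_mul_inv]
  apply mul_le_mul_of_nonneg_left _ (pow_nonneg h0.le _)
  rw [← tsum_geometric_of_lt_one h0.le h1]
  exact (summable_geometric_of_lt_one h0.le h1).sum_le_tsum _ (fun _ _ => pow_nonneg h0.le _)

theorem sparse_pow (k : ℕ) (x : ℝ) : ((2 : ℝ) ^ k) ^ x = ((2 : ℝ) ^ x) ^ k := by
  rw [← Real.rpow_natCast 2 k, ← Real.rpow_mul (by norm_num), mul_comm,
    Real.rpow_mul (by norm_num), Real.rpow_natCast]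

theorem hSparse (h1 : Stmt_Chain) (h2 : Stmt_AS) : Stmt_Sparse := by
  obtain ⟨κ, hκ, hκ1, hAS⟩ := h2
  refine ⟨κ / 10, by positivity, by linarith, ?_⟩
  intro θ ys c η3 hys0 hys1 hη0 hη1 hη2 hD
  obtain ⟨C0, hC0, hcount⟩ := hAS θ ys c hys0 hys1 hD
  have hc := hD.pos
  set r : ℝ := (2 : ℝ) ^ (-(1 / 48) : ℝ) with hr
  have hr0 : 0 < r := Real.rpow_pos_of_pos two_pos _
  have hr1 : r < 1 := Real.rpow_lt_one_of_one_lt_of_neg (by norm_num) (by norm_num)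
  set B : ℝ := ((c / 3) ^ (1 / 7 : ℝ) / 2) ^ (-(1 / 48) : ℝ) with hB
  have hB0 : 0 < B := by positivity
  have h1r : 0 < 1 - r := by linarith
  refine ⟨5 * C0 * B / (1 - r), by positivity, ?_⟩
  intro S hS V hV
  have hSr : (1 : ℝ) ≤ S := by exact_mod_cast hS
  have hS0 : (0 : ℝ) < S := by linarith
  have key : ∀ m : ℕ, ∃ (n : ℤ) (ρ : ℤ × ℤ), m ∈ V → (ρ.1 ≠ 0 ∧ 2 * |ρ.1| ≤ m ∧
      Chained ys κ ρ ∧ |(m : ℝ) * (ys + 2 * ρ.2) - 2 * ρ.1 * n| ≤ η3 ∧ IsCoprime (m : ℤ) n ∧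
      |(n : ℝ) - m * θ - 1| ≤ 1 / 10) := by
    intro m
    by_cases hm : m ∈ V
    · obtain ⟨-, -, n, hg⟩ := hV m hm
      obtain ⟨ρ, g1, g2, g3, g4⟩ := h1 κ (κ / 10) θ ys η3 m n hκ hκ1 rfl hys0 hys1 hη1 hη2 hg
      obtain ⟨n1, E, hE⟩ := hg
      exact ⟨n, ρ, fun _ => ⟨g1, g2, g3, g4, hE.cop, hE.slope⟩⟩
    · exact ⟨0, (0, 0), fun h => absurd h hm⟩
  choose n ρ hρ using key
  -- the pairs
  have hy : ∀ m ∈ V, |ys + 2 * ((ρ m).2 : ℝ) - 2 * (ρ m).1 * θ| ≤ 2 ∧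
      c * S / 3 ≤ |((ρ m).1 : ℝ)| ^ 7 := by
    intro m hm
    obtain ⟨g1, g2, g3, g4, g5, g6⟩ := hρ m hm
    obtain ⟨v1, v2, -⟩ := hV m hm
    have hm1 : (S : ℝ) ≤ m := by exact_mod_cast v1
    have hm0 : (0 : ℝ) < m := by linarith
    have hM : 1 ≤ |((ρ m).1 : ℝ)| := by
      have : (1 : ℤ) ≤ |(ρ m).1| := Int.one_le_abs g1
      have h' : ((1 : ℤ) : ℝ) ≤ ((|(ρ m).1| : ℤ) : ℝ) := by exact_mod_cast this
      rw [Int.cast_abs] at h'
      simpa using h'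
    have hM2 : 2 * |((ρ m).1 : ℝ)| ≤ m := by
      have h' : ((2 * |(ρ m).1| : ℤ) : ℝ) ≤ ((m : ℤ) : ℝ) := by exact_mod_cast g2
      push_cast at h'
      exact h'
    have e : (m : ℝ) * (ys + 2 * ((ρ m).2 : ℝ) - 2 * (ρ m).1 * θ) =
        ((m : ℝ) * (ys + 2 * (ρ m).2) - 2 * (ρ m).1 * n m) + 2 * (ρ m).1 * (n m - m * θ) := by
      ring
    have hs : |(n m : ℝ) - m * θ| ≤ 11 / 10 := by
      rw [abs_le] at g6 ⊢
      constructor <;> linarith [g6.1, g6.2]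
    have hb : (m : ℝ) * |ys + 2 * ((ρ m).2 : ℝ) - 2 * (ρ m).1 * θ| ≤
        η3 + 2 * |((ρ m).1 : ℝ)| * (11 / 10) := by
      have e0 : (m : ℝ) * |ys + 2 * ((ρ m).2 : ℝ) - 2 * (ρ m).1 * θ| =
          |(m : ℝ) * (ys + 2 * ((ρ m).2 : ℝ) - 2 * (ρ m).1 * θ)| := by
        rw [abs_mul, abs_of_pos hm0]
      rw [e0, e]
      refine (abs_add_le _ _).trans ?_
      apply add_le_add g4
      rw [abs_mul, abs_mul, abs_of_pos (two_pos : (0 : ℝ) < 2)]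
      exact mul_le_mul_of_nonneg_left hs (by positivity)
    have hη1' : η3 ≤ 1 / 1000 := by linarith
    constructor
    · have : (m : ℝ) * |ys + 2 * ((ρ m).2 : ℝ) - 2 * (ρ m).1 * θ| ≤ m * 2 := by nlinarith
      exact le_of_mul_le_mul_left this hm0
    · have h3 : |ys + 2 * ((ρ m).2 : ℝ) - 2 * (ρ m).1 * θ| ≤ 3 * |((ρ m).1 : ℝ)| / S := by
        rw [le_div_iff₀ hS0]
        have a0 := abs_nonneg (ys + 2 * ((ρ m).2 : ℝ) - 2 * (ρ m).1 * θ)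
        nlinarith
      have h4 := (hD.pair (ρ m).1 g1 (ρ m).2).trans h3
      have hM0 : 0 < |((ρ m).1 : ℝ)| := by linarith
      rw [div_le_div_iff₀ (by positivity) hS0] at h4
      have : 3 * |((ρ m).1 : ℝ)| * |((ρ m).1 : ℝ)| ^ 6 = 3 * |((ρ m).1 : ℝ)| ^ 7 := by ring
      linarith
  set W := V.image ρ with hW
  set κf : ℤ × ℤ → ℕ := fun σ => Nat.log 2 σ.1.natAbs with hκf
  have hWm : ∀ σ ∈ W, σ.1 ≠ 0 ∧ Chained ys κ σ ∧ |ys + 2 * (σ.2 : ℝ) - 2 * σ.1 * θ| ≤ 2 ∧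
      c * S / 3 ≤ |(σ.1 : ℝ)| ^ 7 := by
    intro σ hσ
    obtain ⟨m, hm, rfl⟩ := Finset.mem_image.1 hσ
    obtain ⟨g1, g2, g3, g4, g5, g6⟩ := hρ m hm
    exact ⟨g1, g3, (hy m hm).1, (hy m hm).2⟩
  have hlog : ∀ σ ∈ W, (2 : ℝ) ^ κf σ ≤ |(σ.1 : ℝ)| ∧ |(σ.1 : ℝ)| < 2 * 2 ^ κf σ := by
    intro σ hσ
    have g1 := (hWm σ hσ).1
    have g2 : σ.1.natAbs ≠ 0 := Int.natAbs_ne_zero.2 g1
    have e1 : (σ.1.natAbs : ℝ) = |(σ.1 : ℝ)| := by
      rw [Nat.cast_natAbs, Int.cast_abs]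
    have a1 : 2 ^ Nat.log 2 σ.1.natAbs ≤ σ.1.natAbs := Nat.pow_log_le_self 2 g2
    have a2 : σ.1.natAbs < 2 ^ (Nat.log 2 σ.1.natAbs + 1) :=
      Nat.lt_pow_succ_log_self (by norm_num) _
    rw [← e1]
    constructor
    · exact_mod_cast a1
    · rw [pow_succ] at a2
      have : (σ.1.natAbs : ℝ) < 2 ^ Nat.log 2 σ.1.natAbs * 2 := by exact_mod_cast a2
      linarith
  have hsum1 : (V.card : ℝ) ≤ ∑ σ ∈ W, 5 * S / (2 : ℝ) ^ κf σ := by
    rw [Finset.card_eq_sum_card_image ρ V]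
    push_cast
    apply Finset.sum_le_sum
    intro σ hσ
    have g1 := (hWm σ hσ).1
    have hfib := sparse_fiber ys η3 S hS hη0 (by linarith) σ g1 (V.filter (fun m => ρ m = σ)) n
      (by
        intro m hm
        obtain ⟨hm1, rfl⟩ := Finset.mem_filter.1 hm
        obtain ⟨v1, v2, -⟩ := hV m hm1
        obtain ⟨g1, g2, g3, g4, g5, g6⟩ := hρ m hm1
        exact ⟨v1, v2, g2, g5, g4⟩)
    refine hfib.trans ?_
    apply div_le_div_of_nonneg_left (by positivity) (by positivity) (hlog σ hσ).1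
  have hsum2 : ∑ σ ∈ W, 5 * S / (2 : ℝ) ^ κf σ ≤ ∑ k ∈ W.image κf, 5 * C0 * S * r ^ k := by
    rw [Finset.sum_comp (fun k => 5 * S / (2 : ℝ) ^ k) κf]
    apply Finset.sum_le_sum
    intro k hk
    have hc1 := hcount ((2 : ℝ) ^ k) (one_le_pow₀ (by norm_num)) (W.filter (fun σ => κf σ = k))
      (by
        intro σ hσ
        obtain ⟨h3, rfl⟩ := Finset.mem_filter.1 hσ
        obtain ⟨g1, g2, g3, g4⟩ := hWm σ h3
        exact ⟨g2, (hlog σ h3).1, (hlog σ h3).2, g3⟩)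
    rw [nsmul_eq_mul]
    have h2k : (0 : ℝ) < 2 ^ k := by positivity
    have e : ((2 : ℝ) ^ k) ^ (1 - 1 / 48 : ℝ) = 2 ^ k * r ^ k := by
      rw [hr, ← sparse_pow, show (1 - 1 / 48 : ℝ) = 1 + (-(1 / 48)) by ring,
        Real.rpow_add h2k, Real.rpow_one]
    rw [e] at hc1
    have h5 : 0 ≤ 5 * S / (2 : ℝ) ^ k := by positivity
    refine (mul_le_mul_of_nonneg_right hc1 h5).trans (le_of_eq ?_)
    field_simp
  rcases W.eq_empty_or_nonempty with hWe | hWne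
  · rw [hWe, Finset.sum_empty] at hsum1
    have : 0 ≤ 5 * C0 * B / (1 - r) * (S : ℝ) ^ (1 - 1 / 336 : ℝ) := by positivity
    linarith
  have hTne : (W.image κf).Nonempty := hWne.image κf
  obtain ⟨k0, hk0, hmin⟩ := Finset.exists_min_image (W.image κf) id hTne
  obtain ⟨σ0, hσ0, hσk⟩ := Finset.mem_image.1 hk0
  have hgeom := sparse_geom r hr0 hr1 (W.image κf) k0 (fun k hk => hmin k hk)
  have hrk : r ^ k0 ≤ B * (S : ℝ) ^ (-(1 / 336) : ℝ) := by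
    have g4 := (hWm σ0 hσ0).2.2.2
    have g5 := (hlog σ0 hσ0).2
    rw [hσk] at g5
    have hMpos : 0 ≤ |(σ0.1 : ℝ)| := abs_nonneg _
    have e1 : (c * S / 3) ^ (1 / 7 : ℝ) ≤ |(σ0.1 : ℝ)| := by
      have h3 := Real.rpow_le_rpow (by positivity) g4 (by norm_num : (0 : ℝ) ≤ 1 / 7)
      rwa [← Real.rpow_natCast, ← Real.rpow_mul hMpos,
        show ((7 : ℕ) : ℝ) * (1 / 7) = 1 by norm_num, Real.rpow_one] at h3
    have e2 : (c * S / 3) ^ (1 / 7 : ℝ) = (c / 3) ^ (1 / 7 : ℝ) * (S : ℝ) ^ (1 / 7 : ℝ) := by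
      rw [← Real.mul_rpow (by positivity) hS0.le]
      congr 1
      ring
    have e3 : (c / 3) ^ (1 / 7 : ℝ) / 2 * (S : ℝ) ^ (1 / 7 : ℝ) ≤ 2 ^ k0 := by
      rw [e2] at e1
      linarith
    rw [hr, ← sparse_pow]
    refine (Real.rpow_le_rpow_of_nonpos (by positivity) e3 (by norm_num)).trans ?_
    rw [Real.mul_rpow (by positivity) (by positivity), ← Real.rpow_mul hS0.le]
    apply le_of_eq
    rw [hB]
    congr 2
    norm_num
  have e4 : (S : ℝ) ^ (1 - 1 / 336 : ℝ) = S * (S : ℝ) ^ (-(1 / 336) : ℝ) := by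
    rw [show (1 - 1 / 336 : ℝ) = 1 + (-(1 / 336)) by ring, Real.rpow_add hS0, Real.rpow_one]
  rw [← Finset.mul_sum] at hsum2
  have h6 : 0 ≤ 5 * C0 * S := by positivity
  calc (V.card : ℝ) ≤ 5 * C0 * S * ∑ k ∈ W.image κf, r ^ k := hsum1.trans hsum2
    _ ≤ 5 * C0 * S * (r ^ k0 / (1 - r)) := mul_le_mul_of_nonneg_left hgeom h6
    _ ≤ 5 * C0 * S * (B * (S : ℝ) ^ (-(1 / 336) : ℝ) / (1 - r)) := by
        apply mul_le_mul_of_nonneg_left _ h6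
        exact div_le_div_of_nonneg_right hrk h1r.le
    _ = 5 * C0 * B / (1 - r) * (S : ℝ) ^ (1 - 1 / 336 : ℝ) := by
        rw [e4]
        ring

end Horo
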