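import Pool.Agent.Horo.ADefs

/-! # From a good `m` to the pair `(M, N)` -/

open Finset

namespace Horo

theorem top_factor {m : ℕ} (hm : 0 < m) {n1 : ℤ} (h0 : 0 < 2 * n1) (h1 : 2 * n1 < m) (r : ℤ) :
    Int.negOnePow (r / m) * Int.negOnePow ((r - 2 * n1) / m)
      = (if r % (m : ℤ) < 2 * n1 then -1 else 1) := by
  have hm' : (0 : ℤ) < m := by exact_mod_cast hm
  have hs0 : 0 ≤ r % (m : ℤ) := Int.emod_nonneg _ (by omega)
  have hs1 : r % (m : ℤ) < m := Int.emod_lt_of_pos _ hm'
  have hr : r % (m : ℤ) + m * (r / m) = r := Int.emod_add_mul_ediv r m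
  split_ifs with h
  · have h2 : (r - 2 * n1) / (m : ℤ) = r / m - 1 := by
      have h3 : (m : ℤ) * (r / m - 1) = m * (r / m) - m := by ring
      exact ((Int.ediv_emod_unique hm' (a := r - 2 * n1) (q := r / m - 1)
        (r := r % (m : ℤ) - 2 * n1 + m)).2 ⟨by rw [h3]; linarith, by omega, by omega⟩).1
    rw [h2, ← Int.negOnePow_add]
    exact Int.negOnePow_odd _ ⟨r / m - 1, by ring⟩
  · have h2 : (r - 2 * n1) / (m : ℤ) = r / m :=
      ((Int.ediv_emod_unique hm' (a := r - 2 * n1) (q := r / m)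
        (r := r % (m : ℤ) - 2 * n1)).2 ⟨by linarith, by omega, by omega⟩).1
    rw [h2, Int.units_mul_self]

theorem top_shift {m : ℕ} (hm : 0 < m) (x k : ℤ) :
    Int.negOnePow ((x + 2 * k * m) / m) = Int.negOnePow (x / m) := by
  have hm' : (m : ℤ) ≠ 0 := by exact_mod_cast hm.ne'
  rw [Int.add_mul_ediv_right _ _ hm', Int.negOnePow_add, Int.negOnePow_even (2 * k) ⟨k, by ring⟩,
    mul_one]

theorem top_core (h1 : Stmt_SK) (h2 : Stmt_CntShift) {m : ℕ} {n n1 : ℤ} {E : ℤ → ℤˣ} (hm : 0 < m)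
    (hc : IsCoprime (m : ℤ) n) (per : ∀ r, E (r + m) = E r)
    (step : ∀ r, E (r + n) = E r * (if r % (m : ℤ) < 2 * n1 then -1 else 1)) (K : ℕ) (a : ℤ)
    (hstep : ∀ r, sK m n (2 * K) (r + n + a) = sK m n (2 * K) (r + a) *
      (if r % (m : ℤ) < 2 * n1 then -1 else 1)) :
    Dm m n (2 * K) ≤ cnt m E (-1) := by
  obtain ⟨-, -, h13⟩ := h1 m n hm
  set F : ℤ → ℤˣ := fun r => E r * sK m n (2 * K) (r + a) with hF
  have hFn : Function.Periodic F n := by
    intro r
    simp only [hF]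
    rw [step r, hstep r]
    have hσ := Int.units_mul_self (if r % (m : ℤ) < 2 * n1 then (-1 : ℤˣ) else 1)
    generalize (if r % (m : ℤ) < 2 * n1 then (-1 : ℤˣ) else 1) = σ at hσ
    rw [mul_mul_mul_comm, hσ, mul_one]
  have hFm : Function.Periodic F (m : ℤ) := by
    intro r
    simp only [hF]
    rw [per r, show r + (m : ℤ) + a = (r + a) + m by ring, h13 K (r + a)]
  obtain ⟨x, y, hxy⟩ := hc
  have hF1 : ∀ r, F (r + 1) = F r := by
    intro r
    rw [← hxy, ← add_assoc]
    have h3 := hFn.int_mul y (r + x * m)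
    have h4 := hFm.int_mul x r
    simp only [Int.cast_id] at h3 h4
    rw [h3, h4]
  have hconst : ∀ r, F r = F 0 := by
    intro r
    induction r using Int.induction_on with
    | zero => rfl
    | succ i ih => rw [hF1, ih]
    | pred i ih =>
      rw [← ih, ← hF1 (-(i : ℤ) - 1), sub_add_cancel]
  have hE : ∀ r, E r = F 0 * sK m n (2 * K) (r + a) := by
    intro r
    rw [← hconst r]
    simp only [hF]
    rw [mul_assoc, Int.units_mul_self, mul_one]
  have hcs : ∀ u, cnt m (fun r => sK m n (2 * K) (r + a)) u = cnt m (sK m n (2 * K)) u := by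
    intro u
    exact h2 m (sK m n (2 * K)) hm (h13 K) a u
  rcases Int.units_eq_one_or (F 0) with hu | hu
  · have h3 : E = fun r => sK m n (2 * K) (r + a) := by
      funext r
      rw [hE r, hu, one_mul]
    rw [h3, hcs]
    exact min_le_right _ _
  · have h3 : cnt m E (-1) = cnt m (fun r => sK m n (2 * K) (r + a)) 1 := by
      unfold cnt
      congr 1
      apply Finset.filter_congr
      intro r _
      rw [hE r, hu, neg_one_mul, neg_inj]
    rw [h3, hcs]
    exact min_le_left _ _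

theorem hTop (h1 : Stmt_SK) (h2 : Stmt_CntShift) : Stmt_Top := by
  intro θ ys η η3 m n n1 E hG hys0 hys1 hη3
  have hm := hG.pos
  have hm' : (0 : ℤ) < m := by exact_mod_cast hm
  have hm1 : (1 : ℝ) ≤ m := by exact_mod_cast hm
  have hnear := abs_le.1 hG.near
  have hmy : ys ≤ (m : ℝ) * ys := by nlinarith
  have hmy2 : (m : ℝ) * ys ≤ (m : ℝ) * (1 / 2) := by
    apply mul_le_mul_of_nonneg_left hys1.le
    linarith
  have hn0 : (0 : ℤ) < 2 * n1 := by
    have : (0 : ℝ) < 2 * n1 := by linarith [hnear.2]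
    exact_mod_cast this
  have hn1 : 2 * n1 < (m : ℤ) := by
    have : (2 * n1 : ℝ) < m := by linarith [hnear.1]
    exact_mod_cast this
  obtain ⟨x, y, hxy⟩ := hG.cop
  -- the representative
  obtain ⟨M, N, hMm, hMN⟩ : ∃ M N : ℤ, 2 * |M| ≤ m ∧ M * n = n1 + N * m := by
    set M0 := n1 * y with hM0
    have hM0n : M0 * n = n1 - n1 * x * m := by
      have : n1 * y * n = n1 * (y * n) := by ring
      rw [hM0, this, show y * n = 1 - x * m by linarith]
      ring
    have hs0 : 0 ≤ M0 % (m : ℤ) := Int.emod_nonneg _ (by omega)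
    have hs1 : M0 % (m : ℤ) < m := Int.emod_lt_of_pos _ hm'
    have hr : M0 % (m : ℤ) = M0 - m * (M0 / m) := by
      have := Int.emod_add_mul_ediv M0 m
      linarith
    by_cases h : 2 * (M0 % (m : ℤ)) ≤ m
    · refine ⟨M0 % (m : ℤ), -(n1 * x) - (M0 / m) * n, ?_, ?_⟩
      · rw [abs_of_nonneg hs0]
        exact h
      · rw [hr, sub_mul, hM0n]
        ring
    · refine ⟨M0 % (m : ℤ) - m, -(n1 * x) - (M0 / m) * n - n, ?_, ?_⟩
      · rw [abs_of_nonpos (by omega)]
        omega
      · rw [hr, sub_mul, sub_mul, hM0n]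
        ring
  have hM : M ≠ 0 := by
    rintro rfl
    have h3 : (m : ℤ) ∣ n1 := ⟨-N, by linarith⟩
    have h4 := Int.le_of_dvd (by omega) h3
    omega
  refine ⟨M, N, hM, hMm, hMN, ?_⟩
  have hstep2 := (h1 m n hm).2.1
  have hkey : Dm m n (2 * M.natAbs) ≤ cnt m E (-1) := by
    rcases lt_or_gt_of_ne hM with hneg | hpos
    · apply top_core h1 h2 hm hG.cop hG.per hG.step M.natAbs (-n - 2 * n1)
      intro r
      have h5 := hstep2 (2 * M.natAbs) (r - 2 * n1)
      have h6 : r - 2 * n1 - ((2 * M.natAbs : ℕ) : ℤ) * n = r + 2 * N * m := by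
        rw [show ((2 * M.natAbs : ℕ) : ℤ) = 2 * (-M) by omega]
        linear_combination 2 * hMN
      rw [h6, top_shift hm, mul_comm (Int.negOnePow ((r - 2 * n1) / m)),
        top_factor hm hn0 hn1 r] at h5
      rw [show r + n + (-n - 2 * n1) = r - 2 * n1 by ring,
        show r + (-n - 2 * n1) = r - 2 * n1 - n by ring, ← h5, mul_comm (sK m n _ (r - 2 * n1)),
        ← mul_assoc, Int.units_mul_self, one_mul]
    · apply top_core h1 h2 hm hG.cop hG.per hG.step M.natAbs (-n)
      intro r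
      have h5 := hstep2 (2 * M.natAbs) r
      have h6 : r - ((2 * M.natAbs : ℕ) : ℤ) * n = r - 2 * n1 + 2 * (-N) * m := by
        rw [show ((2 * M.natAbs : ℕ) : ℤ) = 2 * M by omega]
        linear_combination -2 * hMN
      rw [h6, top_shift hm, top_factor hm hn0 hn1 r] at h5
      rw [show r + n + -n = r by ring, show r + -n = r - n by ring, ← h5,
        mul_comm (sK m n _ r), ← mul_assoc, Int.units_mul_self, one_mul]
  calc (Dm m n (2 * M.natAbs) : ℝ) ≤ (cnt m E (-1) : ℝ) := by exact_mod_cast hkey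
    _ ≤ η * m := hG.few

end Horo
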