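import Pool.Agent.Horo.SK
import Pool.Agent.Horo.Gap
import Pool.Agent.Horo.Cluster
import Pool.Agent.Horo.ChainStep
import Pool.Agent.Horo.Top
import Pool.Agent.Horo.Chain
import Pool.Agent.Horo.Children
import Pool.Agent.Horo.Desc
import Pool.Agent.Horo.FirstIndex
import Pool.Agent.Horo.AS
import Pool.Agent.Horo.Sparse
import Pool.Agent.Horo.RSparse
import Pool.Agent.Horo.CBasic
import Pool.Agent.Horo.CDioph
import Pool.Agent.Horo.CCoc
import Pool.Agent.Horo.ScalesIV

/-! Assembly of Parts II, III, IV of the proof for MP_943ece_an. -/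

namespace Horo

theorem rsparse_all : Stmt_RSparse :=
  hRSparse (hSparse
    (hChain (hChainStep hSK hCntShift (hGap hSK) (hCluster hSK)) (hTop hSK hCntShift))
    (hAS (hDesc hChildren) hFirstIndex))

theorem constr_all : Stmt_Constr := constr_of hBasic (hDioph hBasic) (hCoc hBasic)

theorem scales_all : Stmt_Scales := hScales

end Horo
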