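import Pool.Agent.Horo.GDefs

/-! # Gluing local primitives on a convex open set -/

open Topology Filter Set

namespace Horo

/-- locally constant on a preconnected set implies constant -/
theorem glue_const {X Y : Type*} [TopologicalSpace X] {s : Set X} (hs : IsPreconnected s)
    (h : X → Y) (hl : ∀ x ∈ s, ∀ᶠ y in 𝓝[s] x, h y = h x) : ∀ x ∈ s, ∀ y ∈ s, h x = h y := by
  have : PreconnectedSpace s := Subtype.preconnectedSpace hs
  have hlc : IsLocallyConstant (fun x : s => h x) := by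
    rw [IsLocallyConstant.iff_eventually_eq]
    intro x
    have h1 := hl x x.2
    rw [nhdsWithin_eq_map_subtype_coe x.2] at h1
    exact h1
  intro x hx y hy
  exact hlc.apply_eq_of_preconnectedSpace ⟨x, hx⟩ ⟨y, hy⟩

section

variable {U : Set ℂ} {E : Type} [AddCommGroup E] {f : ℂ → ℂ → E} {N : ℂ → Set ℂ}

/-- radius of a ball inside `N a ∩ U` -/
theorem glue_radius (hU : IsOpen U) (hN : ∀ a ∈ U, IsOpen (N a) ∧ a ∈ N a) :
    ∃ ρ : ℂ → ℝ, (∀ a ∈ U, 0 < ρ a) ∧ ∀ a ∈ U, Metric.ball a (ρ a) ⊆ N a ∩ U := by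
  have h : ∀ a : ℂ, ∃ r : ℝ, a ∈ U → 0 < r ∧ Metric.ball a r ⊆ N a ∩ U := by
    intro a
    by_cases ha : a ∈ U
    · obtain ⟨r, hr, hr'⟩ := Metric.isOpen_iff.1 ((hN a ha).1.inter hU) a ⟨(hN a ha).2, ha⟩
      exact ⟨r, fun _ => ⟨hr, hr'⟩⟩
    · exact ⟨0, fun h => absurd h ha⟩
  choose ρ hρ using h
  exact ⟨ρ, fun a ha => (hρ a ha).1, fun a ha => (hρ a ha).2⟩

/-- the differences agree on the intersection of two balls -/
theorem glue_diff (ρ : ℂ → ℝ) (hρ : ∀ a ∈ U, Metric.ball a (ρ a) ⊆ N a ∩ U)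
    (hf : ∀ a ∈ U, ∀ b ∈ U, ∀ x ∈ U, x ∈ N a → x ∈ N b →
      ∀ᶠ y in 𝓝 x, f a y - f b y = f a x - f b x) {a b : ℂ} (ha : a ∈ U) (hb : b ∈ U) {u v : ℂ}
    (hua : u ∈ Metric.ball a (ρ a)) (hub : u ∈ Metric.ball b (ρ b))
    (hva : v ∈ Metric.ball a (ρ a)) (hvb : v ∈ Metric.ball b (ρ b)) :
    f a v - f a u = f b v - f b u := by
  have hc : IsPreconnected (Metric.ball a (ρ a) ∩ Metric.ball b (ρ b)) :=
    ((convex_ball a (ρ a)).inter (convex_ball b (ρ b))).isPreconnected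
  have h1 := glue_const hc (fun y => f a y - f b y) (by
    intro x hx
    have h2 := hf a ha b hb x (hρ a ha hx.1).2 (hρ a ha hx.1).1 (hρ b hb hx.2).1
    exact h2.filter_mono nhdsWithin_le_nhds) v ⟨hva, hvb⟩ u ⟨hua, hub⟩
  have h3 : f a v - f b v = f a u - f b u := h1
  have h4 : f a v - f a u = (f a v - f b v) - (f a u - f b u) + (f b v - f b u) := by abel
  rw [h4, h3]
  abel

/-- one dimensional primitives along a curve -/
theorem glue_path (ρ : ℂ → ℝ) (hρ0 : ∀ a ∈ U, 0 < ρ a)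
    (hρ : ∀ a ∈ U, Metric.ball a (ρ a) ⊆ N a ∩ U)
    (hf : ∀ a ∈ U, ∀ b ∈ U, ∀ x ∈ U, x ∈ N a → x ∈ N b →
      ∀ᶠ y in 𝓝 x, f a y - f b y = f a x - f b x)
    (hN : ∀ a ∈ U, IsOpen (N a) ∧ a ∈ N a)
    (γ : ℝ → ℂ) (hγ : Continuous γ) (hγU : ∀ t ∈ Icc (0 : ℝ) 1, γ t ∈ U) :
    ∃ p : ℝ → E, p 0 = 0 ∧ ∀ t₀ ∈ Icc (0 : ℝ) 1, ∀ᶠ t in 𝓝[Icc 0 1] t₀,
      p t - p t₀ = f (γ t₀) (γ t) - f (γ t₀) (γ t₀) := by
  obtain ⟨δ, hδ, hδ'⟩ := lebesgue_number_lemma_of_metric (s := Icc (0 : ℝ) 1)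
    (c := fun b : U => γ ⁻¹' Metric.ball (b : ℂ) (ρ b)) isCompact_Icc
    (fun b => Metric.isOpen_ball.preimage hγ) (by
      intro t ht
      exact mem_iUnion.2 ⟨⟨γ t, hγU t ht⟩, Metric.mem_ball_self (hρ0 _ (hγU t ht))⟩)
  have key : ∀ k : ℕ, ∀ T : ℝ, 0 ≤ T → T ≤ 1 → T ≤ k * (δ / 2) →
      ∃ p : ℝ → E, p 0 = 0 ∧ ∀ t₀ ∈ Icc (0 : ℝ) T, ∀ᶠ t in 𝓝[Icc 0 T] t₀,
        p t - p t₀ = f (γ t₀) (γ t) - f (γ t₀) (γ t₀) := by
    intro k
    induction k with
    | zero =>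
      intro T hT0 hT1 hT
      have hT' : T = 0 := by
        have : T ≤ 0 := by simpa using hT
        linarith
      subst hT'
      refine ⟨fun _ => 0, rfl, ?_⟩
      intro t₀ ht₀
      rw [Icc_self] at ht₀ ⊢
      have : t₀ = 0 := ht₀
      subst this
      filter_upwards [self_mem_nhdsWithin] with t ht
      have : t = 0 := ht
      subst this
      simp
    | succ k ih =>
      intro T hT0 hT1 hT
      by_cases hTk : T ≤ k * (δ / 2)
      · exact ih T hT0 hT1 hTk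
      · push Not at hTk
        set S := max 0 (T - δ / 2) with hS
        have hS0 : 0 ≤ S := le_max_left _ _
        have hST : S ≤ T := max_le hT0 (by linarith)
        have hSk : S ≤ k * (δ / 2) := by
          apply max_le
          · positivity
          · push_cast at hT
            linarith
        have hSδ : T - S ≤ δ / 2 := by
          have := le_max_right 0 (T - δ / 2)
          linarith
        obtain ⟨p, hp0, hp⟩ := ih S hS0 (by linarith) hSk
        obtain ⟨⟨b, hbU⟩, hb⟩ := hδ' T ⟨hT0, hT1⟩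
        have hball : ∀ t, S ≤ t → t ≤ T → γ t ∈ Metric.ball b (ρ b) := by
          intro t h1 h2
          apply hb
          rw [Metric.mem_ball, Real.dist_eq, abs_lt]
          constructor <;> linarith
        -- comparison of `f b` with the local primitive
        have hcmp : ∀ t₀, S ≤ t₀ → t₀ ≤ T → ∀ᶠ t in 𝓝 t₀,
            f b (γ t) - f b (γ t₀) = f (γ t₀) (γ t) - f (γ t₀) (γ t₀) := by
          intro t₀ h1 h2
          have hU0 : γ t₀ ∈ U := hγU t₀ ⟨by linarith, by linarith⟩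
          have h3 := hf b hbU (γ t₀) hU0 (γ t₀) hU0 (hρ b hbU (hball t₀ h1 h2)).1 (hN _ hU0).2
          have h4 := hγ.continuousAt.eventually h3
          filter_upwards [h4] with t ht
          have h5 : f b (γ t) - f b (γ t₀) = (f b (γ t) - f (γ t₀) (γ t))
            - (f b (γ t₀) - f (γ t₀) (γ t₀)) + (f (γ t₀) (γ t) - f (γ t₀) (γ t₀)) := by abel
          rw [h5, ht]
          abel
        classical
        refine ⟨fun t => if t ≤ S then p t else p S + (f b (γ t) - f b (γ S)), ?_, ?_⟩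
        · simp [hS0, hp0]
        · intro t₀ ht₀
          rcases lt_trichotomy t₀ S with hlt | heq | hgt
          · have h1 := hp t₀ ⟨ht₀.1, hlt.le⟩
            rw [eventually_nhdsWithin_iff] at h1 ⊢
            filter_upwards [h1, Iio_mem_nhds hlt] with t ht1 ht2 ht3
            have ht2' : t ≤ S := le_of_lt ht2
            rw [if_pos ht2', if_pos hlt.le]
            exact ht1 ⟨ht3.1, ht2'⟩
          · subst heq
            have h1 := hp S ⟨hS0, le_refl _⟩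
            rw [eventually_nhdsWithin_iff] at h1 ⊢
            filter_upwards [h1, hcmp S (le_refl _) hST] with t ht1 ht2 ht3
            rw [if_pos (le_refl S)]
            by_cases hts : t ≤ S
            · rw [if_pos hts]
              exact ht1 ⟨ht3.1, hts⟩
            · rw [if_neg hts, add_sub_cancel_left]
              exact ht2
          · rw [eventually_nhdsWithin_iff]
            filter_upwards [hcmp t₀ hgt.le ht₀.2, Ioi_mem_nhds hgt] with t ht1 ht2 ht3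
            have ht2' : ¬ t ≤ S := not_le.2 ht2
            rw [if_neg ht2', if_neg (not_le.2 hgt), ← ht1]
            abel
  obtain ⟨k, hk⟩ := exists_nat_gt (1 / (δ / 2))
  have hk' : (1 : ℝ) ≤ k * (δ / 2) := by
    rw [div_lt_iff₀ (by linarith)] at hk
    exact hk.le
  exact key k 1 zero_le_one le_rfl hk'

end

theorem hGlue : Stmt_Glue := by
  intro U E _ f N hconv hU hN hf
  classical
  by_cases hne : U.Nonempty
  swap
  · refine ⟨fun _ => 0, fun a ha => absurd ⟨a, ha⟩ hne⟩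
  obtain ⟨x₀, hx₀⟩ := hne
  obtain ⟨ρ, hρ0, hρ⟩ := glue_radius hU hN
  have hseg : ∀ x ∈ U, ∀ t ∈ Icc (0 : ℝ) 1, x₀ + t • (x - x₀) ∈ U := by
    intro x hx t ht
    exact hconv.add_smul_sub_mem hx₀ hx ht
  have hcont : ∀ x : ℂ, Continuous (fun t : ℝ => x₀ + t • (x - x₀)) := by
    intro x
    fun_prop
  have hpath : ∀ x : ℂ, ∃ p : ℝ → E, x ∈ U → (p 0 = 0 ∧ ∀ t₀ ∈ Icc (0 : ℝ) 1,
      ∀ᶠ t in 𝓝[Icc 0 1] t₀, p t - p t₀ =
        f (x₀ + t₀ • (x - x₀)) (x₀ + t • (x - x₀)) -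
        f (x₀ + t₀ • (x - x₀)) (x₀ + t₀ • (x - x₀))) := by
    intro x
    by_cases hx : x ∈ U
    · obtain ⟨p, hp⟩ := glue_path ρ hρ0 hρ hf hN (fun t : ℝ => x₀ + t • (x - x₀)) (hcont x)
        (hseg x hx)
      exact ⟨p, fun _ => hp⟩
    · exact ⟨fun _ => 0, fun h => absurd h hx⟩
  choose p hp using hpath
  refine ⟨fun x => p x 1, ?_⟩
  intro a ha
  -- Lebesgue number of the segment
  obtain ⟨δ, hδ, hδ'⟩ := lebesgue_number_lemma_of_metric
    (s := (fun t : ℝ => x₀ + t • (a - x₀)) '' Icc (0 : ℝ) 1)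
    (c := fun b : U => Metric.ball (b : ℂ) (ρ b)) (isCompact_Icc.image (hcont a))
    (fun b => Metric.isOpen_ball) (by
      rintro _ ⟨t, ht, rfl⟩
      exact mem_iUnion.2 ⟨⟨_, hseg a ha t ht⟩, Metric.mem_ball_self (hρ0 _ (hseg a ha t ht))⟩)
  -- the increment between two close points
  have hD : ∃ D : ℂ → ℂ → E, ∀ b ∈ U, ∀ u v, u ∈ Metric.ball b (ρ b) → v ∈ Metric.ball b (ρ b) →
      D u v = f b v - f b u := by
    refine ⟨fun u v => if h : ∃ b ∈ U, u ∈ Metric.ball b (ρ b) ∧ v ∈ Metric.ball b (ρ b) then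
      f h.choose v - f h.choose u else 0, ?_⟩
    intro b hb u v hu hv
    have h : ∃ b ∈ U, u ∈ Metric.ball b (ρ b) ∧ v ∈ Metric.ball b (ρ b) := ⟨b, hb, hu, hv⟩
    have h1 := h.choose_spec
    simp only [dif_pos h]
    exact glue_diff ρ hρ hf h1.1 hb h1.2.1 hu h1.2.2 hv
  obtain ⟨D, hD⟩ := hD
  -- local comparison of `f b` and the local primitives
  have hloc : ∀ b ∈ U, ∀ z ∈ U, z ∈ Metric.ball b (ρ b) → ∀ᶠ w in 𝓝 z,
      f z w - f z z = f b w - f b z := by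
    intro b hb z hz hzb
    have h3 := hf b hb z hz z hz (hρ b hb hzb).1 (hN _ hz).2
    filter_upwards [h3] with w hw
    have h5 : f b w - f b z = (f b w - f z w) - (f b z - f z z) + (f z w - f z z) := by abel
    rw [h5, hw]
    abel
  obtain ⟨⟨b1, hb1U⟩, hb1⟩ := hδ' (x₀ + (1 : ℝ) • (a - x₀)) ⟨1, ⟨zero_le_one, le_rfl⟩, rfl⟩
  have ha1 : x₀ + (1 : ℝ) • (a - x₀) = a := by simp
  rw [ha1] at hb1
  filter_upwards [Metric.ball_mem_nhds a (show 0 < δ / 2 by linarith), hU.mem_nhds ha,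
    hloc b1 hb1U a ha (hb1 (Metric.mem_ball_self hδ))] with y hy hyU hyloc
  have hyδ : ‖y - a‖ < δ / 2 := by
    rw [Metric.mem_ball, dist_eq_norm] at hy
    exact hy
  -- the comparison function is constant
  set q : ℝ → E := fun t => p y t - p a t - D (x₀ + t • (a - x₀)) (x₀ + t • (y - x₀)) with hq
  have hqc : q 1 = q 0 := by
    apply glue_const (isPreconnected_Icc (a := (0 : ℝ)) (b := 1)) q _ 1 ⟨zero_le_one, le_rfl⟩ 0
      ⟨le_rfl, zero_le_one⟩
    intro t₀ ht₀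
    obtain ⟨⟨b, hbU⟩, hb⟩ := hδ' (x₀ + t₀ • (a - x₀)) ⟨t₀, ht₀, rfl⟩
    have hza : x₀ + t₀ • (a - x₀) ∈ Metric.ball b (ρ b) := hb (Metric.mem_ball_self hδ)
    have hzy : x₀ + t₀ • (y - x₀) ∈ Metric.ball b (ρ b) := by
      apply hb
      rw [Metric.mem_ball, dist_eq_norm]
      have h1 : x₀ + t₀ • (y - x₀) - (x₀ + t₀ • (a - x₀)) = t₀ • (y - a) := by
        simp only [Complex.real_smul]
        ring
      rw [h1, norm_smul, Real.norm_eq_abs, abs_of_nonneg ht₀.1]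
      nlinarith [norm_nonneg (y - a), ht₀.2, ht₀.1]
    have hca : Tendsto (fun t : ℝ => x₀ + t • (a - x₀)) (𝓝[Icc 0 1] t₀)
        (𝓝 (x₀ + t₀ • (a - x₀))) := ((hcont a).continuousAt).tendsto.mono_left nhdsWithin_le_nhds
    have hcy : Tendsto (fun t : ℝ => x₀ + t • (y - x₀)) (𝓝[Icc 0 1] t₀)
        (𝓝 (x₀ + t₀ • (y - x₀))) := ((hcont y).continuousAt).tendsto.mono_left nhdsWithin_le_nhds
    have e1 := (hp a ha).2 t₀ ht₀
    have e2 := (hp y hyU).2 t₀ ht₀
    have e3 := hca.eventually (hloc b hbU _ (hseg a ha t₀ ht₀) hza)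
    have e4 := hcy.eventually (hloc b hbU _ (hseg y hyU t₀ ht₀) hzy)
    have e5 := hca.eventually (Metric.isOpen_ball.mem_nhds hza)
    have e6 := hcy.eventually (Metric.isOpen_ball.mem_nhds hzy)
    filter_upwards [e1, e2, e3, e4, e5, e6] with t h1 h2 h3 h4 h5 h6
    simp only [hq]
    rw [hD b hbU _ _ h5 h6, hD b hbU _ _ hza hzy]
    have h7 : p y t - p y t₀ - (p a t - p a t₀) =
        (f b (x₀ + t • (y - x₀)) - f b (x₀ + t₀ • (y - x₀))) -
        (f b (x₀ + t • (a - x₀)) - f b (x₀ + t₀ • (a - x₀))) := by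
      rw [h1, h2, h3, h4]
    have h8 : p y t - p a t = (p y t - p y t₀ - (p a t - p a t₀)) + (p y t₀ - p a t₀) := by abel
    rw [h8, h7]
    abel
  have hq0 : q 0 = 0 := by
    simp only [hq, (hp a ha).1, (hp y hyU).1, zero_smul, add_zero, sub_self, zero_sub]
    rw [hD x₀ hx₀ x₀ x₀ (Metric.mem_ball_self (hρ0 _ hx₀)) (Metric.mem_ball_self (hρ0 _ hx₀)),
      sub_self, neg_zero]
  have hyb : y ∈ Metric.ball b1 (ρ b1) := by
    apply hb1
    rw [Metric.mem_ball, dist_eq_norm]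
    linarith
  have hab : a ∈ Metric.ball b1 (ρ b1) := hb1 (Metric.mem_ball_self hδ)
  have h9 : p y 1 - p a 1 - D a y = 0 := by
    rw [hq0] at hqc
    simpa [hq] using hqc
  rw [hD b1 hb1U a y hab hyb] at h9
  have h10 : p y 1 - p a 1 = f b1 y - f b1 a := sub_eq_zero.1 h9
  show p y 1 - p a 1 = f a y - f a a
  rw [h10, hyloc]

end Horo
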