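import Mathlib

/-!
# Abelian differentials and the Teichmüller horocycle flow (problem MP_943ece_an)

An Abelian differential on a compact connected Hausdorff space `X` is given by *natural
coordinates*: for every point `p` a chart `z p` of `X` centred at `p` and a number `ord p`
(the order of vanishing of `ω` at `p`), such that the *local primitives*
`P p = (z p) ^ (ord p + 1)` of `ω` differ, on overlaps, by locally constant functions.
So `ω = d (P p)` near `p`; the charts `z p` make `X` a closed Riemann surface on which `ω` is a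
holomorphic one-form with a zero of order `ord p` at `p`.

`shear s` is the linear map `u_s = (1 s; 0 1)` of `ℂ = ℝ²`; the horocycle flow replaces the
primitives `P p` by `u_s ∘ P p`.
-/

open Topology Filter Complex

namespace Horo

/-- The linear map `u_s (x + i y) = (x + s y) + i y`. -/
noncomputable def shear (s : ℝ) (w : ℂ) : ℂ := w + ((s * w.im : ℝ) : ℂ)

@[simp] lemma shear_re (s : ℝ) (w : ℂ) : (shear s w).re = w.re + s * w.im := by
  simp [shear]

@[simp] lemma shear_im (s : ℝ) (w : ℂ) : (shear s w).im = w.im := by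
  simp [shear]

@[simp] lemma shear_apply_zero (s : ℝ) : shear s 0 = 0 := by
  simp [shear]

lemma shear_zero (w : ℂ) : shear 0 w = w := by
  simp [shear]

lemma shear_shear (s t : ℝ) (w : ℂ) : shear t (shear s w) = shear (s + t) w := by
  apply Complex.ext
  · simp; ring
  · simp

lemma shear_sub (s : ℝ) (v w : ℂ) : shear s (v - w) = shear s v - shear s w := by
  apply Complex.ext
  · simp; ring
  · simp

lemma shear_add_apply (s : ℝ) (v w : ℂ) : shear s (v + w) = shear s v + shear s w := by
  apply Complex.ext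
  · simp; ring
  · simp

lemma continuous_shear (s : ℝ) : Continuous (shear s) := by
  unfold shear
  fun_prop

lemma norm_shear_le (s : ℝ) (w : ℂ) : ‖shear s w‖ ≤ (1 + |s|) * ‖w‖ := by
  unfold shear
  calc ‖w + ((s * w.im : ℝ) : ℂ)‖ ≤ ‖w‖ + ‖((s * w.im : ℝ) : ℂ)‖ := norm_add_le _ _
    _ = ‖w‖ + |s| * |w.im| := by rw [Complex.norm_real, Real.norm_eq_abs, abs_mul]
    _ ≤ ‖w‖ + |s| * ‖w‖ := by
        have := Complex.abs_im_le_norm w
        gcongr
    _ = (1 + |s|) * ‖w‖ := by ring

/-- The quotient `u_s w / w` (equal to `1` for `w = 0`). -/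
noncomputable def rat (s : ℝ) (w : ℂ) : ℂ := 1 + ((s * w.im : ℝ) : ℂ) / w

lemma mul_rat (s : ℝ) (w : ℂ) : w * rat s w = shear s w := by
  unfold rat shear
  by_cases hw : w = 0
  · simp [hw]
  · field_simp

lemma rat_mem_slitPlane (s : ℝ) (w : ℂ) : rat s w ∈ Complex.slitPlane := by
  rw [Complex.mem_slitPlane_iff]
  by_cases hw : w = 0
  · left; simp [rat, hw]
  by_cases hi : s * w.im = 0
  · left; simp [rat, hi]
  · right
    have h1 : (rat s w).im = - (s * w.im) * w.im / Complex.normSq w := by
      unfold rat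
      rw [Complex.add_im, Complex.one_im, Complex.div_im]
      simp
      ring
    rw [h1]
    have hns : Complex.normSq w ≠ 0 := by
      rw [Ne, Complex.normSq_eq_zero]; exact hw
    have him : w.im ≠ 0 := fun h => hi (by rw [h, mul_zero])
    exact div_ne_zero (mul_ne_zero (neg_ne_zero.mpr hi) him) hns

lemma rat_ne_zero (s : ℝ) (w : ℂ) : rat s w ≠ 0 :=
  Complex.slitPlane_ne_zero (rat_mem_slitPlane s w)

/-- The lift of `u_s` to the `n`-fold branched cover `w ↦ w ^ n` of the plane:
`(shearRoot s n w) ^ n = u_s (w ^ n)`, see `shearRoot_pow`. -/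
noncomputable def shearRoot (s : ℝ) (n : ℕ) (w : ℂ) : ℂ := w * (rat s (w ^ n)) ^ ((n : ℂ)⁻¹)

lemma shearRoot_pow (s : ℝ) {n : ℕ} (hn : n ≠ 0) (w : ℂ) :
    shearRoot s n w ^ n = shear s (w ^ n) := by
  unfold shearRoot
  rw [mul_pow, Complex.cpow_nat_inv_pow _ hn, mul_rat]

lemma shearRoot_zero_arg (s : ℝ) (n : ℕ) : shearRoot s n 0 = 0 := by
  simp [shearRoot]

lemma shearRoot_ne_zero (s : ℝ) (n : ℕ) {w : ℂ} (hw : w ≠ 0) : shearRoot s n w ≠ 0 := by
  unfold shearRoot
  refine mul_ne_zero hw ?_
  rw [Ne, Complex.cpow_eq_zero_iff]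
  exact fun h => rat_ne_zero _ _ h.1

lemma shearRoot_neg (s : ℝ) {n : ℕ} (hn : n ≠ 0) (w : ℂ) :
    shearRoot (-s) n (shearRoot s n w) = w := by
  by_cases hw : w = 0
  · simp [hw, shearRoot_zero_arg]
  have hu : w ^ n ≠ 0 := pow_ne_zero _ hw
  have h1 : rat (-s) (shearRoot s n w ^ n) = (rat s (w ^ n))⁻¹ := by
    rw [shearRoot_pow s hn]
    have h2 : shear s (w ^ n) = w ^ n * rat s (w ^ n) := (mul_rat _ _).symm
    have h3 := rat_ne_zero s (w ^ n)
    have h4 : rat (-s) (shear s (w ^ n)) * shear s (w ^ n) = w ^ n := by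
      rw [mul_comm, mul_rat, shear_shear, add_neg_cancel, shear_zero]
    have h5 : shear s (w ^ n) ≠ 0 := by rw [h2]; exact mul_ne_zero hu h3
    have h6 : rat (-s) (shear s (w ^ n)) = w ^ n / shear s (w ^ n) := by
      rw [eq_div_iff h5, h4]
    rw [h6, h2]
    field_simp
  have h7 : (rat s (w ^ n)).arg ≠ Real.pi :=
    Complex.slitPlane_arg_ne_pi (rat_mem_slitPlane _ _)
  have h8 : (rat s (w ^ n)) ^ ((n : ℂ)⁻¹) ≠ 0 := by
    rw [Ne, Complex.cpow_eq_zero_iff]
    exact fun h => rat_ne_zero _ _ h.1
  have h9 : shearRoot (-s) n (shearRoot s n w)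
      = shearRoot s n w * (rat (-s) (shearRoot s n w ^ n)) ^ ((n : ℂ)⁻¹) := rfl
  rw [h9, h1, Complex.inv_cpow _ _ h7]
  unfold shearRoot
  rw [mul_assoc, mul_inv_cancel₀ h8, mul_one]

lemma continuous_shearRoot (s : ℝ) {n : ℕ} (hn : n ≠ 0) : Continuous (shearRoot s n) := by
  rw [continuous_iff_continuousAt]
  intro w
  by_cases hw : w = 0
  · subst hw
    unfold ContinuousAt
    rw [shearRoot_zero_arg]
    apply squeeze_zero_norm (a := fun v : ℂ => (1 + |s|) * ‖v‖)
    · intro v
      have h1 : ‖shearRoot s n v‖ ^ n ≤ ((1 + |s|) * ‖v‖) ^ n := by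
        rw [← norm_pow, shearRoot_pow s hn, mul_pow]
        calc ‖shear s (v ^ n)‖ ≤ (1 + |s|) * ‖v ^ n‖ := norm_shear_le _ _
          _ = (1 + |s|) * ‖v‖ ^ n := by rw [norm_pow]
          _ ≤ (1 + |s|) ^ n * ‖v‖ ^ n := by
              have h2 : (1 + |s|) ≤ (1 + |s|) ^ n := by
                apply le_self_pow₀ _ hn
                linarith [abs_nonneg s]
              gcongr
      exact le_of_pow_le_pow_left₀ hn (by positivity) h1
    · have h : Tendsto (fun v : ℂ => (1 + |s|) * ‖v‖) (𝓝 0) (𝓝 ((1 + |s|) * ‖(0 : ℂ)‖)) := by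
        apply Continuous.tendsto
        fun_prop
      simpa using h
  · have hu : w ^ n ≠ 0 := pow_ne_zero _ hw
    have h1 : ContinuousAt (fun v : ℂ => rat s (v ^ n)) w := by
      unfold rat
      apply ContinuousAt.add continuousAt_const
      apply ContinuousAt.div
      · fun_prop
      · fun_prop
      · exact hu
    unfold shearRoot
    apply ContinuousAt.mul continuousAt_id
    exact h1.cpow continuousAt_const (rat_mem_slitPlane _ _)

/-- `shearRoot s n` as a homeomorphism of the plane. -/
noncomputable def shearRootHomeo (s : ℝ) (n : ℕ) (hn : n ≠ 0) : ℂ ≃ₜ ℂ where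
  toFun := shearRoot s n
  invFun := shearRoot (-s) n
  left_inv := shearRoot_neg s hn
  right_inv := fun w => by simpa using shearRoot_neg (-s) hn w
  continuous_toFun := continuous_shearRoot s hn
  continuous_invFun := continuous_shearRoot (-s) hn

@[simp] lemma shearRootHomeo_apply (s : ℝ) (n : ℕ) (hn : n ≠ 0) (w : ℂ) :
    shearRootHomeo s n hn w = shearRoot s n w := rfl

/-- An Abelian differential on the topological space `X`, given by natural coordinates.
`ord p` is the order of vanishing at `p`, and `(z p) ^ (ord p + 1)` is a local primitive. -/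
structure AbDiff (X : Type) [TopologicalSpace X] where
  /-- order of vanishing at a point -/
  ord : X → ℕ
  /-- natural coordinate centred at a point -/
  z : X → OpenPartialHomeomorph X ℂ
  mem_source : ∀ p, p ∈ (z p).source
  z_self : ∀ p, z p p = 0
  /-- two local primitives differ by a locally constant function -/
  compat : ∀ p q x, x ∈ (z p).source → x ∈ (z q).source →
    ∀ᶠ y in 𝓝 x, z p y ^ (ord p + 1) - z q y ^ (ord q + 1)
      = z p x ^ (ord p + 1) - z q x ^ (ord q + 1)

namespace AbDiff

variable {X : Type} [TopologicalSpace X]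

/-- The local primitive of `ω` at `p`. -/
noncomputable def P (A : AbDiff X) (p : X) (y : X) : ℂ := A.z p y ^ (A.ord p + 1)

/-- The action of `u_s` on Abelian differentials (post-composition of the primitives). -/
noncomputable def act (s : ℝ) (A : AbDiff X) : AbDiff X where
  ord := A.ord
  z := fun p => (A.z p).transHomeomorph (shearRootHomeo s (A.ord p + 1) (Nat.succ_ne_zero _))
  mem_source := fun p => A.mem_source p
  z_self := fun p => by
    show shearRoot s _ (A.z p p) = 0
    rw [A.z_self, shearRoot_zero_arg]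
  compat := by
    intro p q x hp hq
    filter_upwards [A.compat p q x hp hq] with y hy
    show shearRoot s _ (A.z p y) ^ _ - shearRoot s _ (A.z q y) ^ _
      = shearRoot s _ (A.z p x) ^ _ - shearRoot s _ (A.z q x) ^ _
    rw [shearRoot_pow s (Nat.succ_ne_zero _), shearRoot_pow s (Nat.succ_ne_zero _),
      shearRoot_pow s (Nat.succ_ne_zero _), shearRoot_pow s (Nat.succ_ne_zero _),
      ← shear_sub, ← shear_sub, hy]

@[simp] lemma act_ord (s : ℝ) (A : AbDiff X) : (A.act s).ord = A.ord := rfl

lemma act_P (s : ℝ) (A : AbDiff X) (p y : X) : (A.act s).P p y = shear s (A.P p y) := by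
  exact shearRoot_pow s (Nat.succ_ne_zero (A.ord p)) (A.z p y)

end AbDiff

/-- A closed Riemann surface with a (nonzero) Abelian differential. -/
structure AbelianDifferential where
  /-- the underlying space -/
  X : Type
  [top : TopologicalSpace X]
  [compact : CompactSpace X]
  [t2 : T2Space X]
  [conn : ConnectedSpace X]
  /-- the differential -/
  ω : AbDiff X

attribute [instance] AbelianDifferential.top AbelianDifferential.compact
  AbelianDifferential.t2 AbelianDifferential.conn

/-- The horocycle flow. -/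
noncomputable def horocycle (s : ℝ) (A : AbelianDifferential) : AbelianDifferential :=
  ⟨A.X, A.ω.act s⟩

/-- `B` is `ε`-near `A`: there is a homeomorphism `F` from `A` to `B` which preserves the orders
of vanishing and which, off the zeros and in terms of local primitives, differs from the identity
by a locally `ε`-Lipschitz map.  If `ε` is small and `B` ranges over the stratum of `A`, these
`B` form a basis of neighbourhoods of `A`: comparing geodesic triangulations, every `B` with
period coordinates close to those of `A` is `ε`-near `A`. -/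
def Near (ε : ℝ) (A B : AbelianDifferential) : Prop :=
  ∃ F : A.X ≃ₜ B.X, (∀ p, B.ω.ord (F p) = A.ω.ord p) ∧
    ∀ p, A.ω.ord p = 0 → ∀ᶠ xy : A.X × A.X in 𝓝 p ×ˢ 𝓝 p,
      ‖(B.ω.P (F p) (F xy.1) - B.ω.P (F p) (F xy.2)) - (A.ω.P p xy.1 - A.ω.P p xy.2)‖
        ≤ ε * ‖A.ω.P p xy.1 - A.ω.P p xy.2‖

/-- `A n → B` in the moduli space. -/
def Converges (A : ℕ → AbelianDifferential) (B : AbelianDifferential) : Prop :=
  ∀ ε > 0, ∀ᶠ n in atTop, Near ε B (A n)

/-- `B` lies in the `ω`-limit set of the horocycle orbit of `A`. -/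
def InOmegaLimit (B A : AbelianDifferential) : Prop :=
  ∃ s : ℕ → ℝ, Tendsto s atTop atTop ∧ Converges (fun n => horocycle (s n) A) B

end Horo
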