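import Mathlib

/-! Quotients of compact Hausdorff spaces by closed equivalence relations are Hausdorff. -/

open Topology Set

namespace Horo

variable {Y : Type*} [TopologicalSpace Y] [CompactSpace Y] [T2Space Y]

lemma isClosed_saturation (r : Setoid Y) (h : IsClosed {p : Y × Y | r p.1 p.2}) {C : Set Y}
    (hC : IsClosed C) : IsClosed {y | ∃ c ∈ C, r c y} := by
  have h1 : {y | ∃ c ∈ C, r c y} = Prod.snd '' ({p : Y × Y | r p.1 p.2} ∩ (Prod.fst ⁻¹' C)) := by
    ext y
    constructor
    · rintro ⟨c, hc, hr⟩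
      exact ⟨(c, y), ⟨hr, hc⟩, rfl⟩
    · rintro ⟨⟨a, b⟩, ⟨h1, h2⟩, rfl⟩
      exact ⟨a, h2, h1⟩
  rw [h1]
  exact ((h.inter (hC.preimage continuous_fst)).isCompact.image continuous_snd).isClosed

lemma isOpen_satInterior (r : Setoid Y) (h : IsClosed {p : Y × Y | r p.1 p.2}) {U : Set Y}
    (hU : IsOpen U) : IsOpen {y | ∀ c, r c y → c ∈ U} := by
  have h1 : {y | ∀ c, r c y → c ∈ U} = {y | ∃ c ∈ Uᶜ, r c y}ᶜ := by
    ext y
    simp only [mem_ofPred_eq, mem_compl_iff]
    constructor
    · rintro h2 ⟨c, hc, hr⟩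
      exact hc (h2 c hr)
    · intro h2 c hr
      by_contra hc
      exact h2 ⟨c, hc, hr⟩
  rw [h1]
  exact (isClosed_saturation r h hU.isClosed_compl).isOpen_compl

/-- The set of classes contained in the open set `U` is open. -/
lemma isOpen_quotient_satInterior (r : Setoid Y) (h : IsClosed {p : Y × Y | r p.1 p.2})
    {U : Set Y} (hU : IsOpen U) :
    IsOpen {q : Quotient r | ∀ y, (Quotient.mk r y) = q → y ∈ U} := by
  rw [← isQuotientMap_quotient_mk'.isOpen_preimage]
  convert isOpen_satInterior r h hU using 1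
  ext y
  simp only [mem_preimage, mem_ofPred_eq]
  constructor
  · intro h1 c hc
    exact h1 c (Quotient.sound hc)
  · intro h1 c hc
    exact h1 c (Quotient.exact hc)

theorem t2Space_quotient (r : Setoid Y) (h : IsClosed {p : Y × Y | r p.1 p.2}) :
    T2Space (Quotient r) := by
  constructor
  intro p q hpq
  induction p using Quotient.inductionOn with
  | _ a =>
  induction q using Quotient.inductionOn with
  | _ b =>
  have hA : IsClosed {y | r a y} := h.preimage (Continuous.prodMk_right a)
  have hB : IsClosed {y | r b y} := h.preimage (Continuous.prodMk_right b)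
  have hd : Disjoint {y | r a y} {y | r b y} := by
    rw [Set.disjoint_left]
    intro y h1 h2
    exact hpq (Quotient.sound (r.trans h1 (r.symm h2)))
  obtain ⟨U, V, hU, hV, hAU, hBV, hUV⟩ := normal_separation hA hB hd
  refine ⟨{q : Quotient r | ∀ y, (Quotient.mk r y) = q → y ∈ U},
    {q : Quotient r | ∀ y, (Quotient.mk r y) = q → y ∈ V},
    isOpen_quotient_satInterior r h hU, isOpen_quotient_satInterior r h hV, ?_, ?_, ?_⟩
  · intro y hy
    exact hAU (r.symm (Quotient.exact hy))
  · intro y hy
    exact hBV (r.symm (Quotient.exact hy))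
  · rw [Set.disjoint_left]
    intro q h1 h2
    induction q using Quotient.inductionOn with
    | _ c => exact Set.disjoint_left.mp hUV (h1 c rfl) (h2 c rfl)

end Horo
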