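import Pool.Agent.Horo.ADefs

open Finset

namespace Horo

theorem sk_negOnePow_self (a : ℤ) : Int.negOnePow a * Int.negOnePow a = 1 := by
  rw [← Int.negOnePow_add, ← two_mul, Int.negOnePow_two_mul]

theorem sk_succ (m : ℕ) (n : ℤ) (K : ℕ) (r : ℤ) :
    sK m n (K + 1) r = sK m n K r * Int.negOnePow ((r - K * n) / m) := by
  unfold sK
  rw [Finset.sum_range_succ, Int.negOnePow_add]

theorem hSK : Stmt_SK := by
  intro m n hm
  have hm' : (m : ℤ) ≠ 0 := by exact_mod_cast hm.ne'
  refine ⟨?_, ?_, ?_⟩
  · intro K K' r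
    unfold sK
    rw [Finset.sum_range_add, Int.negOnePow_add]
    congr 3
    funext j
    congr 1
    push_cast
    ring
  · intro K r
    induction K with
    | zero =>
      simp only [sK, Finset.range_zero, Finset.sum_empty, Int.negOnePow_zero, Nat.cast_zero,
        zero_mul, sub_zero]
      rw [sk_negOnePow_self, one_mul]
    | succ K ih =>
      rw [sk_succ, sk_succ]
      have e : r - n - K * n = r - ((K + 1 : ℕ) : ℤ) * n := by push_cast; ring
      rw [e]
      calc sK m n K r * Int.negOnePow ((r - K * n) / m) *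
            (sK m n K (r - n) * Int.negOnePow ((r - ((K + 1 : ℕ) : ℤ) * n) / m))
          = (sK m n K r * sK m n K (r - n)) * Int.negOnePow ((r - K * n) / m) *
            Int.negOnePow ((r - ((K + 1 : ℕ) : ℤ) * n) / m) := by
              simp only [mul_assoc, mul_comm, mul_left_comm]
        _ = _ := by
              rw [ih, mul_assoc (Int.negOnePow (r / m)), sk_negOnePow_self, mul_one]
  · intro M r
    unfold sK
    have h : ∀ j ∈ Finset.range (2 * M), (r + m - j * n) / (m : ℤ) = (r - j * n) / m + 1 := by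
      intro j _
      have : r + m - j * n = (r - j * n) + m := by ring
      rw [this, Int.add_ediv_of_dvd_right (dvd_refl _), Int.ediv_self hm']
    rw [Finset.sum_congr rfl h, Finset.sum_add_distrib, Int.negOnePow_add]
    have h2 : ∑ _j ∈ Finset.range (2 * M), (1 : ℤ) = 2 * (M : ℤ) := by simp
    rw [h2, Int.negOnePow_two_mul, mul_one]

theorem sk_per (m : ℕ) (f : ℤ → ℤˣ) (hf : ∀ r, f (r + m) = f r) (k r : ℤ) :
    f (r + k * m) = f r := by
  induction k using Int.induction_on with
  | zero => simp
  | succ k ih =>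
    have : r + ((k : ℤ) + 1) * m = (r + k * m) + m := by ring
    rw [this, hf, ih]
  | pred k ih =>
    have : r + (-(k : ℤ)) * m = (r + (-(k : ℤ) - 1) * m) + m := by ring
    rw [this, hf] at ih
    exact ih

theorem sk_mod (m : ℕ) (f : ℤ → ℤˣ) (hf : ∀ r, f (r + m) = f r) (r : ℤ) :
    f (r % m) = f r := by
  have h := sk_per m f hf (r / m) (r % m)
  rw [← h]
  congr 1
  have := Int.emod_add_mul_ediv r m
  linarith [mul_comm (r / (m : ℤ)) (m : ℤ)]

theorem hCntShift : Stmt_CntShift := by
  intro m f hm hf a u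
  have hm' : (0 : ℤ) < m := by exact_mod_cast hm
  unfold cnt
  have key : ∀ (x : ℤ), (((x % m).toNat : ℕ) : ℤ) = x % m := fun x =>
    Int.toNat_of_nonneg (Int.emod_nonneg _ hm'.ne')
  have lt : ∀ (x : ℤ), (x % m).toNat < m := fun x => by
    have h1 := key x
    have h2 := Int.emod_lt_of_pos x hm'
    omega
  refine Finset.card_nbij' (fun i => (((i : ℤ) + a) % m).toNat)
    (fun j => (((j : ℤ) - a) % m).toNat) ?_ ?_ ?_ ?_
  · intro i hi
    simp only [Finset.coe_filter, Finset.mem_range, Set.mem_ofPred_eq] at hi ⊢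
    refine ⟨lt _, ?_⟩
    rw [key, sk_mod m f hf]
    exact hi.2
  · intro j hj
    simp only [Finset.coe_filter, Finset.mem_range, Set.mem_ofPred_eq] at hj ⊢
    refine ⟨lt _, ?_⟩
    have h1 := sk_mod m (fun r => f (r + a)) (fun r => by
      have : r + m + a = (r + a) + m := by ring
      simp only [this, hf]) ((j : ℤ) - a)
    simp only [sub_add_cancel] at h1
    rw [key, h1]
    exact hj.2
  · intro i hi
    simp only [Finset.coe_filter, Finset.mem_range, Set.mem_ofPred_eq] at hi
    have h1 : (((((i : ℤ) + a) % m).toNat : ℕ) : ℤ) = ((i : ℤ) + a) % m := key _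
    have h2 : ((((((i : ℤ) + a) % m).toNat : ℕ) : ℤ) - a) % m = i := by
      rw [h1, Int.emod_sub_emod]
      rw [add_sub_cancel_right]
      exact Int.emod_eq_of_lt (by positivity) (by exact_mod_cast hi.1)
    simp only [h2, Int.toNat_natCast]
  · intro j hj
    simp only [Finset.coe_filter, Finset.mem_range, Set.mem_ofPred_eq] at hj
    have h1 : (((((j : ℤ) - a) % m).toNat : ℕ) : ℤ) = ((j : ℤ) - a) % m := key _
    have h2 : ((((((j : ℤ) - a) % m).toNat : ℕ) : ℤ) + a) % m = j := by
      rw [h1, Int.emod_add_emod]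
      rw [sub_add_cancel]
      exact Int.emod_eq_of_lt (by positivity) (by exact_mod_cast hj.1)
    simp only [h2, Int.toNat_natCast]

end Horo
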