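import Pool.Agent.Horo.Diagram

/-! Definitions for the charts at seam points. -/

open Topology Filter Set Complex

namespace Horo

/-- Principal `k`-th root. -/
noncomputable def rt (k : ℕ) (w : ℂ) : ℂ := w ^ ((k : ℂ)⁻¹)

/-- `exp (2 π i / k)`. -/
noncomputable def om (k : ℕ) : ℂ := Complex.exp (2 * Real.pi * Complex.I / k)

/-- `exp (π i / k)`. -/
noncomputable def et (k : ℕ) : ℂ := Complex.exp (Real.pi * Complex.I / k)

namespace Diagram

variable {C : Type} [TopologicalSpace C] [AddAction ℝ C] (D : Diagram C)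

/-- `r` is a good radius for the half discs at the cycle of `y`. -/
structure GoodRad (y : C) (r : ℝ) : Prop where
  pos : 0 < r
  le_one : r ≤ 1
  wid_right : ∀ y', D.τ.SameCycle y y' → 2 * r < D.wid y'
  wid_left : ∀ y', D.τ.SameCycle y y' → 2 * r < D.wid (D.up.symm y')
  up_pos : ∀ y', D.τ.SameCycle y y' → ∀ u, 0 < u → u ≤ r →
    D.up (u +ᵥ D.up.symm y') = u +ᵥ y'
  dn_pos : ∀ y', D.τ.SameCycle y y' → ∀ u, 0 < u → u ≤ r →
    D.dn (u +ᵥ D.up.symm y') = u +ᵥ y'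
  up_neg : ∀ y', D.τ.SameCycle y y' → ∀ u, 0 < u → u ≤ r →
    D.up (-u +ᵥ D.up.symm y') = -u +ᵥ D.τ y'
  dn_neg : ∀ y', D.τ.SameCycle y y' → ∀ u, 0 < u → u ≤ r →
    D.dn (-u +ᵥ D.up.symm y') = -u +ᵥ D.τ y'
  bend_pos : ∀ y', D.τ.SameCycle y y' → ∀ u, 0 ≤ u → u ≤ r →
    D.bend (D.up.symm y') u = D.bend y' u
  bend_neg : ∀ y', D.τ.SameCycle y y' → ∀ u, 0 ≤ u → u ≤ r →
    D.bend (D.up.symm y') (-u) = D.bend (D.τ y') (-u)
  inj_right : ∀ y' y'', D.τ.SameCycle y y' → D.τ.SameCycle y y'' → ∀ u u' : ℝ,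
    |u| ≤ r → |u'| ≤ r → u +ᵥ y' = u' +ᵥ y'' → u = u' ∧ y' = y''
  inj_left : ∀ y' y'', D.τ.SameCycle y y' → D.τ.SameCycle y y'' → ∀ u u' : ℝ,
    |u| ≤ r → |u'| ≤ r → u +ᵥ D.up.symm y' = u' +ᵥ D.up.symm y'' → u = u' ∧ y' = y''

/-- The developed position of a point of the right half disc at `y'`. -/
def devR (y' : C) (v u : ℝ) : ℂ := ⟨v + D.bend y' u, u⟩

/-- The developed position of a point of the left half disc following the right one at `y'`. -/
def devL (y' : C) (v u : ℝ) : ℂ := ⟨-v + D.bend (D.up.symm y') u, u⟩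

/-- The point of the surface on the right half disc at `y'`. -/
noncomputable def ptR (y' : C) (v u : ℝ) : D.X := D.proj (D.pt (u +ᵥ y') v)

/-- The point of the surface on the left half disc at `up⁻¹ y'`. -/
noncomputable def ptL (y' : C) (v u : ℝ) : D.X :=
  D.proj (D.pt (u +ᵥ D.up.symm y') (D.wid (D.up.symm y') - v))

/-- The compact parameter space of the half discs. -/
abbrev KK (k : ℕ) (r : ℝ) : Type := Fin k × Bool × Icc (0 : ℝ) r × Icc (-r) r

/-- The parametrisation of a neighbourhood of a seam point. -/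
noncomputable def Psi (y : C) (r : ℝ) (a : KK (D.len y) r) : D.X :=
  if a.2.1 then D.ptR ((D.τ ^ (a.1 : ℕ)) y) a.2.2.1 a.2.2.2
  else D.ptL ((D.τ ^ (a.1 : ℕ)) y) a.2.2.1 a.2.2.2

/-- The natural coordinate in terms of the parameters. -/
noncomputable def zeta (y : C) (r : ℝ) (a : KK (D.len y) r) : ℂ :=
  if a.2.1 then rt (D.len y) (D.devR ((D.τ ^ (a.1 : ℕ)) y) a.2.2.1 a.2.2.2) * om (D.len y) ^ (a.1 : ℕ)
  else rt (D.len y) (-D.devL ((D.τ ^ (a.1 : ℕ)) y) a.2.2.1 a.2.2.2) * et (D.len y)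
    * om (D.len y) ^ (a.1 : ℕ)

end Diagram

end Horo
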